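import Mathlib

open Matrix

universe u

namespace Pool.Agent.SU

/-- A free algebra with involution, by the matrices of left multiplication. -/
structure SAlg (T : Type u) [CommRing T] (N : ℕ) where
  L : Fin N → Matrix (Fin N) (Fin N) T
  one : Fin N → T
  st : Matrix (Fin N) (Fin N) T
  L_mul : ∀ i j, L i * L j = ∑ a, L i a j • L a
  one_L : ∑ i, one i • L i = 1
  L_one : ∀ i, L i *ᵥ one = Pi.single i 1
  st_st : st * st = 1
  st_L : ∀ i j k, (st * L i) k j = ((∑ a, st a j • L a) * st) k i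

variable {T T' T'' : Type u} [CommRing T] [CommRing T'] [CommRing T''] {N : ℕ}

/-- The carrier. -/
@[ext] structure SAlg.Car (A : SAlg T N) where
  co : Fin N → T

namespace SAlg

variable {A : SAlg T N}

instance : Zero A.Car := ⟨⟨0⟩⟩
instance : Add A.Car := ⟨fun x y => ⟨x.co + y.co⟩⟩
instance : Neg A.Car := ⟨fun x => ⟨-x.co⟩⟩
instance : Sub A.Car := ⟨fun x y => ⟨x.co - y.co⟩⟩
instance smulNat : SMul ℕ A.Car := ⟨fun s x => ⟨s • x.co⟩⟩
instance smulInt : SMul ℤ A.Car := ⟨fun s x => ⟨s • x.co⟩⟩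
instance smulBase : SMul T A.Car := ⟨fun s x => ⟨s • x.co⟩⟩

theorem co_injective : Function.Injective (Car.co : A.Car → Fin N → T) := fun _ _ h => Car.ext h

instance : AddCommGroup A.Car :=
  co_injective.addCommGroup _ rfl (fun _ _ => rfl) (fun _ => rfl) (fun _ _ => rfl)
    (fun _ _ => rfl) fun _ _ => rfl

instance : Module T A.Car :=
  co_injective.module T ⟨⟨Car.co, rfl⟩, fun _ _ => rfl⟩ fun _ _ => rfl

@[simp] theorem co_zero : (0 : A.Car).co = 0 := rfl
@[simp] theorem co_add (x y : A.Car) : (x + y).co = x.co + y.co := rfl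
@[simp] theorem co_neg (x : A.Car) : (-x).co = -x.co := rfl
@[simp] theorem co_sub (x y : A.Car) : (x - y).co = x.co - y.co := rfl
@[simp] theorem co_smul (t : T) (x : A.Car) : (t • x).co = t • x.co := rfl

/-- Coordinates. -/
def coL (A : SAlg T N) : A.Car ≃ₗ[T] (Fin N → T) where
  toFun := Car.co
  invFun := Car.mk
  map_add' _ _ := rfl
  map_smul' _ _ := rfl

@[simp] theorem coL_apply (x : A.Car) : A.coL x = x.co := rfl
@[simp] theorem coL_symm_apply (v : Fin N → T) : A.coL.symm v = ⟨v⟩ := rfl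

@[simp] theorem co_sum {ι : Type*} (s : Finset ι) (x : ι → A.Car) :
    (∑ i ∈ s, x i).co = ∑ i ∈ s, (x i).co := map_sum A.coL x s

instance : Module.Free T A.Car := Module.Free.of_equiv A.coL.symm
instance : Module.Finite T A.Car := Module.Finite.equiv A.coL.symm

/-- Basis vectors. -/
def e (A : SAlg T N) (i : Fin N) : A.Car := ⟨Pi.single i 1⟩

theorem eq_sum (x : A.Car) : x = ∑ i, x.co i • A.e i := by
  ext j; simp [e, Pi.single_apply]

/-- Matrix of left multiplication. -/
def lm (x : A.Car) : Matrix (Fin N) (Fin N) T := ∑ i, x.co i • A.L i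

instance : Mul A.Car := ⟨fun x y => ⟨lm x *ᵥ y.co⟩⟩
instance : One A.Car := ⟨⟨A.one⟩⟩

theorem co_mul (x y : A.Car) : (x * y).co = lm x *ᵥ y.co := rfl
theorem co_one : (1 : A.Car).co = A.one := rfl
theorem lm_one : lm (1 : A.Car) = 1 := A.one_L
theorem lm_add (x y : A.Car) : lm (x + y) = lm x + lm y := by
  simp [lm, add_smul, Finset.sum_add_distrib]
theorem lm_smul (t : T) (x : A.Car) : lm (t • x) = t • lm x := by
  simp [lm, Finset.smul_sum, smul_smul]
theorem lm_zero : lm (0 : A.Car) = 0 := by simp [lm]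
theorem lm_e (i : Fin N) : lm (A.e i) = A.L i := by simp [lm, e, Pi.single_apply]

theorem lm_mul (x y : A.Car) : lm (x * y) = lm x * lm y := by
  simp only [lm, co_mul, Finset.sum_mul, Finset.mul_sum, smul_mul_assoc, mul_smul_comm, A.L_mul,
    Finset.smul_sum, smul_smul, mulVec, dotProduct, Matrix.sum_apply, Matrix.smul_apply,
    smul_eq_mul, Finset.sum_smul]
  rw [Finset.sum_comm]
  refine Finset.sum_congr rfl fun j _ => ?_
  rw [Finset.sum_comm]
  exact Finset.sum_congr rfl fun i _ => Finset.sum_congr rfl fun a _ => by congr 1; ring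

instance : Ring A.Car where
  mul_assoc x y z := Car.ext (by rw [co_mul, lm_mul, co_mul, co_mul, mulVec_mulVec])
  one_mul x := Car.ext (by rw [co_mul, lm_one, one_mulVec])
  mul_one x := Car.ext (by
    rw [co_mul, lm, sum_mulVec]
    simp only [smul_mulVec, co_one, A.L_one]
    ext j; simp [Pi.single_apply])
  left_distrib x y z := Car.ext (by simp only [co_mul, co_add, mulVec_add])
  right_distrib x y z := Car.ext (by simp only [co_mul, co_add, lm_add, add_mulVec])
  zero_mul x := Car.ext (by rw [co_mul, lm_zero, zero_mulVec, co_zero])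
  mul_zero x := Car.ext (by rw [co_mul, co_zero, mulVec_zero])

instance : Algebra T A.Car :=
  Algebra.ofModule (fun t x y => Car.ext (by rw [co_mul, lm_smul, smul_mulVec]; rfl))
    fun t x y => Car.ext (by rw [co_mul, co_smul, mulVec_smul]; rfl)

/-- The involution as a linear map. -/
def stL (A : SAlg T N) : A.Car →ₗ[T] A.Car where
  toFun x := ⟨A.st *ᵥ x.co⟩
  map_add' x y := Car.ext (mulVec_add A.st x.co y.co)
  map_smul' t x := Car.ext (mulVec_smul A.st t x.co)

instance : StarRing A.Car where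
  star := A.stL
  star_involutive x := Car.ext (by
    change A.st *ᵥ (A.st *ᵥ x.co) = x.co
    rw [mulVec_mulVec, A.st_st, one_mulVec])
  star_add := A.stL.map_add
  star_mul x y := by
    have h : ∀ i j, A.stL (A.e i * A.e j) = A.stL (A.e j) * A.stL (A.e i) := fun i j => by
      ext k
      have := A.st_L i j k
      change (A.st *ᵥ (lm (A.e i) *ᵥ Pi.single j 1)) k =
        (lm (A.stL (A.e j)) *ᵥ (A.st *ᵥ Pi.single i 1)) k
      rw [mulVec_mulVec, mulVec_mulVec, lm_e, mulVec_single_one, mulVec_single_one]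
      simpa [lm, stL, e] using this
    change A.stL (x * y) = A.stL y * A.stL x
    rw [eq_sum x, eq_sum y]
    simp only [Finset.sum_mul, Finset.mul_sum, map_sum, smul_mul_assoc, mul_smul_comm, map_smul, h]
    simp only [Finset.smul_sum]
    rw [Finset.sum_comm]
    exact Finset.sum_congr rfl fun i _ => Finset.sum_congr rfl fun j _ => smul_comm _ _ _

theorem co_star (x : A.Car) : (star x).co = A.st *ᵥ x.co := rfl
theorem stL_apply (x : A.Car) : A.stL x = star x := rfl
@[simp] theorem star_smul' (t : T) (x : A.Car) : star (t • x) = t • star x := A.stL.map_smul t x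
@[simp] theorem star_algebraMap (t : T) : star (algebraMap T A.Car t) = algebraMap T A.Car t := by
  rw [Algebra.algebraMap_eq_smul_one, star_smul', star_one]

/-- Left multiplication as an algebra map. -/
def lmA (A : SAlg T N) : A.Car →ₐ[T] Matrix (Fin N) (Fin N) T :=
  AlgHom.ofLinearMap ⟨⟨lm, lm_add⟩, lm_smul⟩ lm_one lm_mul

@[simp] theorem lmA_apply (x : A.Car) : A.lmA x = lm x := rfl

/-- Matrix of right multiplication. -/
def rm (x : A.Car) : Matrix (Fin N) (Fin N) T := of fun k i => (A.L i *ᵥ x.co) k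

theorem co_mul' (x y : A.Car) : (x * y).co = rm y *ᵥ x.co := by
  rw [co_mul, lm, sum_mulVec]
  ext k
  simp [rm, smul_mulVec, mulVec, dotProduct, mul_comm]

theorem mat_ext {M M' : Matrix (Fin N) (Fin N) T} (h : ∀ x : A.Car, M *ᵥ x.co = M' *ᵥ x.co) :
    M = M' := Matrix.toLin'.injective (LinearMap.ext fun v => h ⟨v⟩)

theorem rm_mul (x y : A.Car) : rm (x * y) = rm y * rm x :=
  mat_ext (A := A) fun w => by rw [← co_mul', ← mulVec_mulVec, ← co_mul', ← co_mul', mul_assoc]
theorem rm_one : rm (1 : A.Car) = 1 :=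
  mat_ext (A := A) fun w => by rw [← co_mul', mul_one, one_mulVec]
theorem lm_rm (x y : A.Car) : lm x * rm y = rm y * lm x :=
  mat_ext (A := A) fun w => by
    rw [← mulVec_mulVec, ← mulVec_mulVec, ← co_mul', ← co_mul, ← co_mul, ← co_mul', mul_assoc]

theorem mul_eq_one_comm' {x y : A.Car} (h : x * y = 1) : y * x = 1 := by
  have h1 : lm y * lm x = 1 := mul_eq_one_comm.1 (by rw [← lm_mul, h, lm_one])
  rw [← mul_one (y * x)]
  exact Car.ext (by rw [co_mul, lm_mul, h1, one_mulVec])

theorem isUnit_of_mul_eq_one {x y : A.Car} (h : x * y = 1) : IsUnit x :=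
  ⟨⟨x, y, h, mul_eq_one_comm' h⟩, rfl⟩

theorem isUnit_of_mul_eq_one' {x y : A.Car} (h : x * y = 1) : IsUnit y :=
  ⟨⟨y, x, mul_eq_one_comm' h, h⟩, rfl⟩

theorem isUnit_of_mul_left {x y : A.Car} (h : IsUnit (x * y)) : IsUnit x :=
  let ⟨z, hz⟩ := h.exists_right_inv; isUnit_of_mul_eq_one (by rw [← hz, mul_assoc])

theorem isUnit_of_mul_right {x y : A.Car} (h : IsUnit (x * y)) : IsUnit y :=
  let ⟨z, hz⟩ := h.exists_left_inv; isUnit_of_mul_eq_one' (by rw [← hz, mul_assoc])

theorem isUnit_iff_lm {x : A.Car} : IsUnit x ↔ IsUnit (lm x).det :=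
  ⟨fun h => (isUnit_iff_isUnit_det _).1 (h.map A.lmA), fun h =>
    isUnit_of_mul_eq_one (y := ⟨(lm x)⁻¹ *ᵥ A.one⟩) (Car.ext (by
      rw [co_mul, mulVec_mulVec, mul_nonsing_inv _ h, one_mulVec, co_one]))⟩

theorem isUnit_iff_rm {x : A.Car} : IsUnit x ↔ IsUnit (rm x).det :=
  ⟨fun h => let ⟨y, hy⟩ := h.exists_left_inv
    isUnit_det_of_right_inverse (B := rm y) (by rw [← rm_mul, hy, rm_one]), fun h =>
    isUnit_of_mul_eq_one' (x := ⟨(rm x)⁻¹ *ᵥ A.one⟩) (Car.ext (by
      rw [co_mul', mulVec_mulVec, mul_nonsing_inv _ h, one_mulVec, co_one]))⟩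

theorem sum_smul_map (f : T →+* T') (a : Fin N → T) (M : Fin N → Matrix (Fin N) (Fin N) T) :
    (∑ i, a i • M i).map f = ∑ i, f (a i) • (M i).map f := by
  ext; simp [Matrix.sum_apply]

/-- Base change. -/
def map (A : SAlg T N) (f : T →+* T') : SAlg T' N where
  L i := (A.L i).map f
  one := f ∘ A.one
  st := A.st.map f
  L_mul i j := by rw [← Matrix.map_mul, A.L_mul, sum_smul_map]; rfl
  one_L := by
    rw [← Matrix.map_one f f.map_zero f.map_one, ← A.one_L, sum_smul_map]; rfl
  L_one i := by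
    ext k
    rw [← RingHom.map_mulVec, A.L_one, Pi.single_apply, Pi.single_apply]
    split_ifs <;> simp
  st_st := by rw [← Matrix.map_mul, A.st_st, Matrix.map_one f f.map_zero f.map_one]
  st_L i j k := by
    have := congrArg f (A.st_L i j k)
    rwa [← Matrix.map_apply (f := f), ← Matrix.map_apply (f := f), Matrix.map_mul, Matrix.map_mul,
      sum_smul_map] at this

theorem map_map (A : SAlg T N) (f : T →+* T') (g : T' →+* T'') :
    (A.map f).map g = A.map (g.comp f) := rfl

theorem map_id (A : SAlg T N) : A.map (RingHom.id T) = A := rfl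

/-- The base change map on elements. -/
def bc (A : SAlg T N) (f : T →+* T') : A.Car →+* (A.map f).Car where
  toFun x := ⟨f ∘ x.co⟩
  map_one' := rfl
  map_zero' := Car.ext (funext fun _ => f.map_zero)
  map_add' x y := Car.ext (funext fun _ => f.map_add _ _)
  map_mul' x y := Car.ext (funext fun k => by
    change f ((lm x *ᵥ y.co) k) = _
    rw [RingHom.map_mulVec, lm, sum_smul_map]; rfl)

variable (f : T →+* T') (g : T' →+* T'')

theorem co_bc (x : A.Car) : (A.bc f x).co = f ∘ x.co := rfl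
theorem bc_bc (x : A.Car) : (A.map f).bc g (A.bc f x) = A.bc (g.comp f) x := rfl
theorem bc_id (x : A.Car) : A.bc (RingHom.id T) x = x := rfl
theorem bc_smul (t : T) (x : A.Car) : A.bc f (t • x) = f t • A.bc f x :=
  Car.ext (funext fun _ => f.map_mul _ _)
theorem bc_star (x : A.Car) : A.bc f (star x) = star (A.bc f x) :=
  Car.ext (funext fun k => RingHom.map_mulVec f A.st x.co k)
theorem bc_e (i : Fin N) : A.bc f (A.e i) = (A.map f).e i := by
  ext k; simp only [co_bc, e, Function.comp_apply, Pi.single_apply]; split_ifs <;> simp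
theorem bc_algebraMap (t : T) : A.bc f (algebraMap T _ t) = algebraMap T' _ (f t) := by
  rw [Algebra.algebraMap_eq_smul_one, Algebra.algebraMap_eq_smul_one, bc_smul, map_one]
theorem lm_bc (x : A.Car) : lm (A.bc f x) = (lm x).map f := (sum_smul_map f _ _).symm
theorem rm_bc (x : A.Car) : rm (A.bc f x) = (rm x).map f := by
  ext k i; exact (RingHom.map_mulVec f (A.L i) x.co k).symm
theorem bc_injective {f : T →+* T'} (hf : Function.Injective f) : Function.Injective (A.bc f) :=
  fun _ _ h => Car.ext (funext fun i => hf (congrFun (congrArg Car.co h) i))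
theorem bc_surjective {f : T →+* T'} (hf : Function.Surjective f) : Function.Surjective (A.bc f) :=
  fun y => let ⟨v, hv⟩ := hf.comp_left y.co; ⟨⟨v⟩, Car.ext hv⟩
theorem bc_eq_zero_iff {x : A.Car} : A.bc f x = 0 ↔ ∀ i, f (x.co i) = 0 :=
  ⟨fun h i => congrFun (congrArg Car.co h) i, fun h => Car.ext (funext h)⟩

theorem isUnit_of_bc [IsLocalHom f] {x : A.Car} (h : IsUnit (A.bc f x)) : IsUnit x := by
  rw [isUnit_iff_lm] at h ⊢
  rw [lm_bc, ← RingHom.mapMatrix_apply, ← RingHom.map_det] at h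
  exact IsUnit.of_map f _ h

/-- Central elements. -/
def Cen (x : A.Car) : Prop := ∀ y, x * y = y * x

theorem cen_of_e {x : A.Car} (h : ∀ i, x * A.e i = A.e i * x) : Cen x := fun y => by
  rw [eq_sum y]; simp only [Finset.sum_mul, Finset.mul_sum, smul_mul_assoc, mul_smul_comm, h]
theorem Cen.bc {x : A.Car} (h : Cen x) : Cen (A.bc f x) :=
  cen_of_e fun i => by rw [← bc_e, ← map_mul, ← map_mul, h]
theorem Cen.star {x : A.Car} (h : Cen x) : Cen (star x) := fun y => by
  rw [← star_star y, ← star_mul, ← star_mul, h]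
theorem Cen.mul {x y : A.Car} (hx : Cen x) (hy : Cen y) : Cen (x * y) := fun w => by
  rw [mul_assoc, hy, ← mul_assoc, hx, mul_assoc]
theorem Cen.add {x y : A.Car} (hx : Cen x) (hy : Cen y) : Cen (x + y) := fun w => by
  rw [add_mul, mul_add, hx, hy]
theorem Cen.sub {x y : A.Car} (hx : Cen x) (hy : Cen y) : Cen (x - y) := fun w => by
  rw [sub_mul, mul_sub, hx, hy]
theorem cen_one : Cen (1 : A.Car) := fun w => by rw [one_mul, mul_one]
theorem cen_algebraMap (t : T) : Cen (algebraMap T A.Car t) := Algebra.commutes t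
theorem Cen.pow {x : A.Car} (hx : Cen x) (n : ℕ) : Cen (x ^ n) := fun w =>
  (Commute.pow_left (hx w) n).eq

/-- Products of two elements with coordinates in a square zero ideal vanish. -/
theorem mul_eq_zero_of_sq {I : Ideal T} (hI : I ^ 2 = ⊥) {x y : A.Car}
    (hx : A.bc (Ideal.Quotient.mk I) x = 0) (hy : A.bc (Ideal.Quotient.mk I) y = 0) : x * y = 0 := by
  rw [eq_sum x, eq_sum y]
  simp only [Finset.sum_mul, Finset.mul_sum, smul_mul_assoc, mul_smul_comm, Finset.smul_sum, smul_smul]
  refine Finset.sum_eq_zero fun i _ => Finset.sum_eq_zero fun j _ => ?_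
  have : y.co i * x.co j ∈ I ^ 2 := by
    rw [sq]
    exact Ideal.mul_mem_mul (Ideal.Quotient.eq_zero_iff_mem.1 ((bc_eq_zero_iff _).1 hy i))
      (Ideal.Quotient.eq_zero_iff_mem.1 ((bc_eq_zero_iff _).1 hx j))
  rw [hI, Ideal.mem_bot] at this
  rw [this, zero_smul]

theorem bc_mk_eq_zero_iff {t : T} {x : A.Car} :
    A.bc (Ideal.Quotient.mk (Ideal.span {t})) x = 0 ↔ ∃ y, x = t • y := by
  rw [bc_eq_zero_iff]
  simp only [Ideal.Quotient.eq_zero_iff_mem, Ideal.mem_span_singleton]
  exact ⟨fun h => by choose v hv using h; exact ⟨⟨v⟩, Car.ext (funext hv)⟩,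
    fun ⟨y, hy⟩ i => ⟨y.co i, by rw [hy]; rfl⟩⟩

end SAlg

end Pool.Agent.SU
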