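import Pool.Agent.P.MP_c1f06d_ag.su.VDefs

namespace Pool.Agent.SU

namespace VN

variable {S : Type*} [Ring S]

theorem reg [IsSemisimpleRing S] (a : S) : ∃ b, a * b * a = a := by
  obtain ⟨e, he, hI⟩ := IsSemisimpleRing.ideal_eq_span_idempotent (Ideal.span {a})
  have h1 : e ∈ Ideal.span {a} := hI ▸ Ideal.mem_span_singleton_self e
  have h2 : a ∈ Ideal.span {e} := hI ▸ Ideal.mem_span_singleton_self a
  obtain ⟨b, hb⟩ := Ideal.mem_span_singleton'.1 h1
  obtain ⟨s, hs⟩ := Ideal.mem_span_singleton'.1 h2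
  refine ⟨b, ?_⟩
  rw [mul_assoc, hb, ← hs, mul_assoc, he.eq]

theorem ci [IsSemisimpleRing S] {a b : S} (h : ∀ s, a * s * b = 0) :
    ∃ c : S, c * c = c ∧ (∀ y, c * y = y * c) ∧ c * a = a ∧ c * b = 0 := by
  obtain ⟨g, hg, hI⟩ := IsSemisimpleRing.ideal_eq_span_idempotent
    (Ideal.span (Set.range fun s => a * s))
  have hgJ : g ∈ Ideal.span (Set.range fun s => a * s) := hI ▸ Ideal.mem_span_singleton_self g
  have hJ : ∀ y ∈ Ideal.span (Set.range fun s => a * s), y * g = y := by
    intro y hy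
    rw [hI] at hy
    obtain ⟨s, rfl⟩ := Ideal.mem_span_singleton'.1 hy
    rw [mul_assoc, hg.eq]
  have hr : ∀ y ∈ Ideal.span (Set.range fun s => a * s), ∀ s,
      y * s ∈ Ideal.span (Set.range fun s => a * s) := by
    intro y hy s
    induction hy using Submodule.span_induction with
    | mem x hx => obtain ⟨t, rfl⟩ := hx; exact Ideal.subset_span ⟨t * s, by simp [mul_assoc]⟩
    | zero => simp
    | add x y _ _ hx hy => rw [add_mul]; exact add_mem hx hy
    | smul r x _ hx => rw [smul_eq_mul, mul_assoc]; exact Ideal.mul_mem_left _ _ hx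
  have hb : ∀ y ∈ Ideal.span (Set.range fun s => a * s), y * b = 0 := by
    intro y hy
    induction hy using Submodule.span_induction with
    | mem x hx => obtain ⟨t, rfl⟩ := hx; exact h t
    | zero => simp
    | add x y _ _ hx hy => rw [add_mul, hx, hy, add_zero]
    | smul r x _ hx => rw [smul_eq_mul, mul_assoc, hx, mul_zero]
  have h1 : ∀ s, g * s * g = g * s := fun s => hJ _ (hr _ hgJ s)
  have h2 : ∀ s, g * s * g = s * g := by
    intro s
    obtain ⟨t, ht⟩ := reg (s * g - g * s * g)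
    have : (s * g - g * s * g) * t * (s * g - g * s * g) = 0 := by
      have e1 : g * t * (s * g - g * s * g) = 0 := by
        have := h1 t
        calc g * t * (s * g - g * s * g) = g * t * s * g - (g * t * g) * s * g := by noncomm_ring
          _ = 0 := by rw [this, sub_self]
      calc (s * g - g * s * g) * t * (s * g - g * s * g)
          = (s - g * s) * (g * t * (s * g - g * s * g)) := by noncomm_ring
        _ = 0 := by rw [e1, mul_zero]
    rw [this] at ht
    exact (sub_eq_zero.1 ht.symm).symm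
  have hc : ∀ y, g * y = y * g := fun y => (h1 y).symm.trans (h2 y)
  refine ⟨g, hg.eq, hc, ?_, hb g hgJ⟩
  rw [hc]
  exact hJ a (Ideal.subset_span ⟨1, by simp⟩)

theorem gc [IsSemisimpleRing S] {e f : S} (he : e * e = e) (hf : f * f = f) :
    ∃ p q η : S, e * p = p ∧ p * f = p ∧ f * q = q ∧ q * e = q ∧ η * η = η ∧
      (∀ y, η * y = y * η) ∧ η * (q * p) = η * f ∧ (1 - η) * (p * q) = (1 - η) * e := by
  obtain ⟨I, ⟨p, ⟨hp1, hp2⟩, rfl⟩, hmax⟩ := set_has_maximal_iff_noetherian.2
    (inferInstance : IsNoetherian S S)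
    ((fun p : S => Ideal.span {p}) '' {p | e * p = p ∧ p * f = p}) ⟨_, 0, by simp, rfl⟩
  obtain ⟨q0, hq0⟩ := reg p
  set q := f * q0 * e with hq
  have hq1 : f * q = q := by rw [hq, ← mul_assoc, ← mul_assoc, hf]
  have hq2 : q * e = q := by rw [hq, mul_assoc, he]
  have hpq : p * q * p = p := by
    calc p * q * p = (p * f) * q0 * (e * p) := by rw [hq]; noncomm_ring
      _ = p := by rw [hp1, hp2, hq0]
  have key : ∀ s, (e - p * q) * s * (f - q * p) = 0 := by
    intro s
    set p1 := (e - p * q) * s * (f - q * p) with hp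
    have a1 : p * q * (e - p * q) = 0 := by
      rw [mul_sub, mul_assoc p q e, hq2, ← mul_assoc (p * q), hpq, sub_self]
    have a2 : (f - q * p) * (q * p) = 0 := by
      rw [sub_mul, ← mul_assoc f, hq1, mul_assoc q p, ← mul_assoc p q p, hpq, sub_self]
    have a3 : e * (e - p * q) = e - p * q := by rw [mul_sub, he, ← mul_assoc, hp1]
    have a4 : (f - q * p) * f = f - q * p := by rw [sub_mul, hf, mul_assoc, hp2]
    have b1 : e * p1 = p1 := by rw [hp, ← mul_assoc, ← mul_assoc, a3]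
    have b2 : p1 * f = p1 := by rw [hp, mul_assoc, a4]
    have b3 : p * q * p1 = 0 := by rw [hp, ← mul_assoc, ← mul_assoc, a1]; simp
    have b4 : p1 * (q * p) = 0 := by rw [hp, mul_assoc, a2]; simp
    have hle : Ideal.span {p} ≤ Ideal.span {p + p1} := by
      rw [Ideal.span_singleton_le_iff_mem]
      exact Ideal.mem_span_singleton'.2 ⟨p * q, by rw [mul_add, hpq, b3, add_zero]⟩
    have heq : Ideal.span {p + p1} = Ideal.span {p} := by
      by_contra hne
      exact hmax _ ⟨p + p1, ⟨by rw [mul_add, hp1, b1], by rw [add_mul, hp2, b2]⟩, rfl⟩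
        (lt_of_le_of_ne hle (Ne.symm hne))
    have : p + p1 ∈ Ideal.span {p} := heq ▸ Ideal.mem_span_singleton_self _
    obtain ⟨t, ht⟩ := Ideal.mem_span_singleton'.1 this
    have h5 : p1 = (t - 1) * p := by rw [sub_mul, ht]; simp
    calc p1 = (t - 1) * (p * q * p) := by rw [hpq, ← h5]
      _ = p1 * (q * p) := by rw [h5]; noncomm_ring
      _ = 0 := b4
  obtain ⟨c, hc, hcc, h1, h2⟩ := ci key
  refine ⟨p, q, c, hp1, hp2, hq1, hq2, hc, hcc, ?_, ?_⟩
  · rw [mul_sub, sub_eq_zero] at h2; exact h2.symm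
  · have : (1 - c) * (e - p * q) = 0 := by rw [sub_mul, h1]; simp
    rw [mul_sub, sub_eq_zero] at this; exact this.symm

theorem sb [IsSemisimpleRing S] {e f a b a' b' : S} (he : e * e = e) (hf : f * f = f)
    (h1 : a * b = e) (h2 : a * f = a) (h3 : a' * b' = f) (h4 : a' * e = a') :
    ∃ t : S, IsUnit t ∧ t * e = f * t := by
  have df : ∀ x y : S, x * y = 1 → y * x = 1 := fun x y h => mul_eq_one_comm.1 h
  set a1 := e * a with ha1
  set b1 := f * b * e with hb1
  set a2 := f * a' with ha2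
  set b2 := e * b' * f with hb2
  have c1 : e * a1 = a1 := by rw [ha1, ← mul_assoc, he]
  have c2 : a1 * f = a1 := by rw [ha1, mul_assoc, h2]
  have c3 : f * b1 = b1 := by rw [hb1, ← mul_assoc, ← mul_assoc, hf]
  have c4 : b1 * e = b1 := by rw [hb1, mul_assoc, he]
  have c5 : f * a2 = a2 := by rw [ha2, ← mul_assoc, hf]
  have c6 : a2 * e = a2 := by rw [ha2, mul_assoc, h4]
  have c7 : e * b2 = b2 := by rw [hb2, ← mul_assoc, ← mul_assoc, he]
  have c8 : b2 * f = b2 := by rw [hb2, mul_assoc, hf]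
  have d1 : a1 * b1 = e := by
    calc a1 * b1 = e * ((a * f) * b) * e := by rw [ha1, hb1]; noncomm_ring
      _ = e := by rw [h2, h1, he, he]
  have d2 : a2 * b2 = f := by
    calc a2 * b2 = f * ((a' * e) * b') * f := by rw [ha2, hb2]; noncomm_ring
      _ = f := by rw [h4, h3, hf, hf]
  have d3 : b1 * b2 * (a2 * a1) = f := by
    have e1 : (a2 * a1 + (1 - f)) * (b1 * b2 + (1 - f)) = 1 := by
      calc (a2 * a1 + (1 - f)) * (b1 * b2 + (1 - f))
          = a2 * (a1 * b1) * b2 + a2 * (a1 - a1 * f) + (b1 - f * b1) * b2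
            + (1 - f - f + f * f) := by noncomm_ring
        _ = 1 := by rw [d1, c6, d2, c2, c3, hf]; noncomm_ring
    have e2 := df _ _ e1
    have e3 : (b1 * b2 + (1 - f)) * (a2 * a1 + (1 - f))
        = b1 * b2 * (a2 * a1) + b1 * (b2 - b2 * f) + (a2 - f * a2) * a1
            + (1 - f - f + f * f) := by noncomm_ring
    rw [e3, c8, c5, hf] at e2
    have : b1 * b2 * (a2 * a1) - f = 0 := by
      rw [← sub_eq_zero] at e2; rw [← e2]; noncomm_ring
    exact sub_eq_zero.1 this
  have d4 : b1 * a1 = f := by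
    calc b1 * a1 = b1 * a1 * f := by rw [mul_assoc b1 a1 f, c2]
      _ = b1 * ((a1 * b1) * b2) * (a2 * a1) := by rw [← d3]; noncomm_ring
      _ = f := by rw [d1, c7, d3]
  obtain ⟨p, q, η, p1, p2, q1, q2, hη, hc, g1, g2⟩ :=
    gc (e := 1 - e) (f := 1 - f) (by rw [sub_mul, mul_sub, mul_sub, he]; simp)
      (by rw [sub_mul, mul_sub, mul_sub, hf]; simp)
  have ep : e * p = 0 := by rw [← p1, ← mul_assoc, mul_sub, he]; simp
  have pf : p * f = 0 := by rw [← p2, mul_assoc, sub_mul, hf]; simp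
  have fq : f * q = 0 := by rw [← q1, ← mul_assoc, mul_sub, hf]; simp
  have qe : q * e = 0 := by rw [← q2, mul_assoc, sub_mul, he]; simp
  have QP : (b1 + q) * (a1 + p) = f + q * p := by
    calc (b1 + q) * (a1 + p) = b1 * a1 + (b1 * e) * p + q * (e * a1) + q * p := by
          rw [c4, c1]; noncomm_ring
      _ = f + q * p := by rw [d4, mul_assoc b1, ep, ← mul_assoc q, qe]; simp
  have PQ : (a1 + p) * (b1 + q) = e + p * q := by
    calc (a1 + p) * (b1 + q) = a1 * b1 + (a1 * f) * q + p * (f * b1) + p * q := by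
          rw [c2, c3]; noncomm_ring
      _ = e + p * q := by rw [d1, mul_assoc a1, fq, ← mul_assoc p, pf]; simp
  have prod : ∀ X Y : S, (η * X + (1 - η)) * (η * Y + (1 - η)) = η * (X * Y) + (1 - η) := by
    intro X Y
    calc (η * X + (1 - η)) * (η * Y + (1 - η))
        = η * (X * η) * Y + η * X - η * (X * η) + (η - η * η) * Y + (1 - η - η + η * η) := by
          noncomm_ring
      _ = η * (X * Y) + (1 - η) := by
          rw [← hc X, ← mul_assoc η η X, hη]; noncomm_ring
  have u1 : η * ((a1 + p) * (b1 + q)) = η := by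
    have : (η * (b1 + q) + (1 - η)) * (η * (a1 + p) + (1 - η)) = 1 := by
      rw [prod, QP, mul_add, g1]; noncomm_ring
    have := df _ _ this
    rw [prod] at this
    rw [← sub_eq_zero] at this ⊢; rw [← this]; noncomm_ring
  have u2 : (1 - η) * ((a1 + p) * (b1 + q)) = 1 - η := by
    rw [PQ, mul_add, g2]; noncomm_ring
  have u3 : (a1 + p) * (b1 + q) = 1 := by
    calc (a1 + p) * (b1 + q)
        = η * ((a1 + p) * (b1 + q)) + (1 - η) * ((a1 + p) * (b1 + q)) := by noncomm_ring
      _ = 1 := by rw [u1, u2]; simp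
  refine ⟨b1 + q, ⟨⟨b1 + q, a1 + p, df _ _ u3, u3⟩, rfl⟩, ?_⟩
  rw [add_mul, mul_add, c4, c3, qe, fq]

end VN

variable {S : Type*} [Ring S] [IsSemisimpleRing S]

theorem vreg (a : S) : ∃ b, a * b * a = a := VN.reg a

/-- Two elements with `a S b = 0` are separated by a central idempotent. -/
theorem vci {a b : S} (h : ∀ s, a * s * b = 0) :
    ∃ z, Cen z ∧ z * z = z ∧ z * a = a ∧ z * b = 0 := by
  obtain ⟨c, h1, h2, h3, h4⟩ := VN.ci h
  exact ⟨c, h2, h1, h3, h4⟩

/-- General comparability. -/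
theorem vgc {e f : S} (he : e * e = e) (hf : f * f = f) :
    ∃ p q z, Cen z ∧ z * z = z ∧ z * (f * q * e * (e * p * f)) = z * f ∧
      (1 - z) * (e * p * f * (f * q * e)) = (1 - z) * e := by
  obtain ⟨p, q, z, p1, p2, q1, q2, hz, hc, g1, g2⟩ := VN.gc he hf
  refine ⟨p, q, z, hc, hz, ?_, ?_⟩
  · rw [q1, q2, p1, p2, g1]
  · rw [q1, q2, p1, p2, g2]

/-- Idempotents that are below each other are conjugate. -/
theorem vsb {e f a b a' b' : S} (he : e * e = e) (hf : f * f = f) (h1 : a * b = e)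
    (h2 : a * f = a) (h3 : a' * b' = f) (h4 : a' * e = a') : ∃ t, IsUnit t ∧ t * e = f * t :=
  VN.sb he hf h1 h2 h3 h4

end Pool.Agent.SU
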