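import Pool.Agent.P.MP_c1f06d_ag.su.Nrd

open Matrix Polynomial IsLocalRing

universe u

namespace Pool.Agent.SU

open SAlg Pool.Agent.P.MP_c1f06d_ag

variable {T T' : Type u} [CommRing T] [CommRing T'] {N d : ℕ} {A : SAlg T N}

theorem sep_bil {v : Fin N → A.Car} (hv : ∀ x a, v a * x = ∑ i, (x * A.e i).co a • v i)
    {M : Type*} [AddCommGroup M] [Module T M] (β : A.Car →ₗ[T] A.Car →ₗ[T] M) (x : A.Car) :
    ∑ i, β (x * A.e i) (v i) = ∑ i, β (A.e i) (v i * x) := by
  have h1 : ∀ i, β (x * A.e i) (v i) = ∑ a, (x * A.e i).co a • β (A.e a) (v i) := fun i => by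
    conv_lhs => rw [eq_sum (x * A.e i)]
    simp only [map_sum, map_smul, LinearMap.sum_apply, LinearMap.smul_apply]
  simp only [h1, hv, map_sum, map_smul]
  exact Finset.sum_comm

theorem sepx_co_mul (x y : A.Car) (a : Fin N) :
    (x * y).co a = ∑ i, y.co i * (x * A.e i).co a := by
  conv_lhs => rw [eq_sum y]
  simp [Finset.mul_sum, Finset.sum_apply]

theorem sepx_co_mul' (x y : A.Car) (a : Fin N) :
    (x * y).co a = ∑ i, x.co i * (A.e i * y).co a := by
  conv_lhs => rw [eq_sum x]
  simp [Finset.sum_mul, Finset.sum_apply]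

theorem sepx_of_e {v : Fin N → A.Car}
    (h : ∀ j a, v a * A.e j = ∑ i, (A.e j * A.e i).co a • v i) (x : A.Car) (a : Fin N) :
    v a * x = ∑ i, (x * A.e i).co a • v i := by
  conv_lhs => rw [eq_sum x]
  simp only [Finset.mul_sum, mul_smul_comm, h, Finset.smul_sum, smul_smul, sepx_co_mul' x,
    Finset.sum_smul]
  exact Finset.sum_comm

theorem sepx_family {ι : Type} [Fintype ι] (p q : ι → A.Car) (h1 : ∑ l, p l * q l = 1)
    (h2 : ∀ x a, ∑ l, (p l).co a • (q l * x) = ∑ l, (x * p l).co a • q l) : Sep A := by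
  refine ⟨fun a => ∑ l, (p l).co a • q l, ?_, fun x a => ?_⟩
  · rw [← h1]
    simp only [Finset.mul_sum, mul_smul_comm]
    rw [Finset.sum_comm]
    refine Finset.sum_congr rfl fun l _ => ?_
    conv_rhs => rw [eq_sum (p l)]
    simp only [Finset.sum_mul, smul_mul_assoc]
  · simp only [Finset.sum_mul, smul_mul_assoc, h2, Finset.smul_sum, smul_smul]
    rw [Finset.sum_comm]
    refine Finset.sum_congr rfl fun l _ => ?_
    rw [sepx_co_mul x (p l), Finset.sum_smul]
    exact Finset.sum_congr rfl fun i _ => by rw [mul_comm]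

theorem Sep.map (h : Sep A) (f : T →+* T') : Sep (A.map f) := by
  obtain ⟨v, h1, h2⟩ := h
  refine ⟨fun i => A.bc f (v i), ?_, sepx_of_e fun j a => ?_⟩
  · simp only [← bc_e, ← map_mul, ← map_sum, h1, map_one]
  · simp only [← bc_e, ← map_mul, h2, map_sum, bc_smul]
    rfl

theorem Sep.avg (h : Sep A) (g : A.Car →ₗ[T] A.Car) (x : A.Car)
    (hg : ∀ w, x * g (x * w) = x * w) : ∃ z, x * z * x = x := by
  obtain ⟨v, h1, h2⟩ := h
  refine ⟨∑ i, g (A.e i) * v i, ?_⟩
  have := sep_bil h2 ((LinearMap.mul T A.Car).comp g) x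
  simp only [LinearMap.comp_apply, LinearMap.mul_apply'] at this
  rw [mul_assoc, Finset.sum_mul]
  simp only [mul_assoc]
  rw [← this, Finset.mul_sum]
  simp only [← mul_assoc, hg]
  simp only [mul_assoc]
  rw [← Finset.mul_sum, h1, mul_one]

theorem sepx_mat (o : Fin d) (lam : Matrix (Fin d) (Fin d) T →ₗ[T] T)
    (X : Matrix (Fin d) (Fin d) T) :
    ∑ j, lam (single j o 1) • (single o j (1 : T) * X) =
      ∑ j, lam (X * single j o 1) • single o j (1 : T) := by
  have h1 : ∀ j, X * single j o (1 : T) = ∑ i, X i j • single i o (1 : T) := fun j => by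
    ext i k
    by_cases hk : k = o
    · subst hk; simp [Matrix.sum_apply, single_apply]
    · simp [Matrix.sum_apply, hk, Ne.symm hk]
  have h2 : ∀ j, single o j (1 : T) * X = ∑ k, X j k • single o k (1 : T) := fun j => by
    ext i k
    by_cases hk : i = o
    · subst hk; simp [Matrix.sum_apply, single_apply]
    · simp [Matrix.sum_apply, hk, Ne.symm hk]
  simp only [h1, h2, map_sum, map_smul, Finset.smul_sum, Finset.sum_smul, smul_eq_mul, ← mul_smul]
  rw [Finset.sum_comm]
  exact Finset.sum_congr rfl fun i _ => Finset.sum_congr rfl fun j _ => by rw [mul_comm]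

theorem sepx_fam {J : Type} [Fintype J] (hd : 0 < d) (s : J → Rep d A T)
    (hf : ∀ j, (s j).f = RingHom.id T) (hb : Function.Bijective fun x j => (s j).φ x) :
    Sep A := by
  classical
  let o : Fin d := ⟨0, hd⟩
  let Φ0 : A.Car →ₐ[T] (J → Matrix (Fin d) (Fin d) T) :=
    AlgHom.mk' (RingHom.pi fun j => (s j).φ) fun t x => funext fun j => by
      have := (s j).smul t x
      rwa [hf] at this
  let Φ := AlgEquiv.ofBijective Φ0 hb
  refine sepx_family (ι := J × Fin d) (fun l => Φ.symm (Pi.single l.1 (single l.2 o 1)))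
    (fun l => Φ.symm (Pi.single l.1 (single o l.2 1))) ?_ ?_
  · simp only [← map_mul, ← map_sum]
    rw [← map_one Φ.symm]
    congr 1
    funext k
    simp [Fintype.sum_prod_type, ← Pi.single_mul, Pi.single_apply, Finset.sum_apply,
      single_mul_single_same, sum_single_one]
  · intro x a
    obtain ⟨X, rfl⟩ := Φ.symm.surjective x
    let lam : (J → Matrix (Fin d) (Fin d) T) →ₗ[T] T :=
      (LinearMap.proj a).comp (A.coL.toLinearMap.comp Φ.symm.toLinearMap)
    have hl : ∀ Y, (Φ.symm Y).co a = lam Y := fun _ => rfl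
    simp only [← map_mul, hl, ← map_smul, ← map_sum]
    congr 1
    rw [Fintype.sum_prod_type, Fintype.sum_prod_type]
    refine Finset.sum_congr rfl fun k _ => ?_
    have e1 := congrArg (LinearMap.single T (fun _ : J => Matrix (Fin d) (Fin d) T) k)
      (sepx_mat o (lam.comp (LinearMap.single T (fun _ => Matrix (Fin d) (Fin d) T) k)) (X k))
    simpa only [map_sum, map_smul, LinearMap.comp_apply, LinearMap.single_apply,
      Pi.single_mul_left, Pi.single_mul_right] using e1

theorem Split.sep (hd : 0 < d) (h : Split d A) : Sep A :=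
  let ⟨_, r, hf, hb⟩ := h
  sepx_fam hd (fam r) (fam_f hf) ((fam_bij r).2 hb)

/-- Rows of an array as elements. -/
def sepxV (A : SAlg T N) (y : Fin N × Fin N → T) (i : Fin N) : A.Car := ⟨fun k => y (i, k)⟩

/-- The linear system for a separability element. -/
def sepxL (A : SAlg T N) :
    (Fin N × Fin N → T) →ₗ[T] (Fin N ⊕ Fin N × Fin N × Fin N → T) where
  toFun y := Sum.elim (∑ i, A.e i * sepxV A y i).co fun t =>
    (sepxV A y t.2.1 * A.e t.1 - ∑ i, (A.e t.1 * A.e i).co t.2.1 • sepxV A y i).co t.2.2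
  map_add' y z := by
    have : ∀ i, sepxV A (y + z) i = sepxV A y i + sepxV A z i := fun _ => rfl
    ext t
    rcases t with k | t
    · simp [this, mul_add, Finset.sum_add_distrib]
    · simp only [this, add_mul, smul_add, Finset.sum_add_distrib, Sum.elim_inr, Pi.add_apply,
        co_sub, co_add, Pi.sub_apply]
      ring
  map_smul' c y := by
    have : ∀ i, sepxV A (c • y) i = c • sepxV A y i := fun _ => rfl
    ext t
    rcases t with k | t
    · simp only [this, mul_smul_comm, ← Finset.smul_sum, Sum.elim_inl, co_smul, Pi.smul_apply,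
        RingHom.id_apply]
    · simp only [this, smul_mul_assoc, smul_comm _ c, ← Finset.smul_sum, ← smul_sub, Sum.elim_inr,
        co_smul, Pi.smul_apply, RingHom.id_apply]

theorem sepxL_map (A : SAlg T N) (f : T →+* T') (y : Fin N × Fin N → T) :
    sepxL (A.map f) (f ∘ y) = f ∘ sepxL A y := by
  have hv : ∀ i, sepxV (A.map f) (f ∘ y) i = A.bc f (sepxV A y i) := fun _ => rfl
  ext t
  rcases t with k | t
  · change (∑ i, _ * sepxV _ _ i).co k = (A.bc f (∑ i, A.e i * sepxV A y i)).co k
    simp only [hv, map_sum, map_mul, bc_e]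
  · change (sepxV _ _ t.2.1 * _ - ∑ i, _ • sepxV _ _ i).co t.2.2 = (A.bc f
      (sepxV A y t.2.1 * A.e t.1 - ∑ i, (A.e t.1 * A.e i).co t.2.1 • sepxV A y i)).co t.2.2
    simp only [hv, map_sub, map_sum, bc_smul, ← bc_e, ← map_mul]
    rfl

theorem Form.sep (h : Form d A) : Sep A := by
  obtain ⟨hd, T1, _, _, _, hs⟩ := h
  obtain ⟨v, h1, h2⟩ := hs.sep hd
  obtain ⟨y, hy⟩ := ff_solve (sepxL A) (sepxL (A.map (algebraMap T T1))) (sepxL_map A _)
    (Sum.elim A.one 0) ⟨fun t => (v t.1).co t.2, by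
      have hv : ∀ i, sepxV (A.map (algebraMap T T1)) (fun t => (v t.1).co t.2) i = v i := fun _ => rfl
      ext t
      rcases t with k | t
      · change (∑ i, _ * sepxV _ _ i).co k = _
        simp only [hv, h1]; rfl
      · change (sepxV _ _ t.2.1 * _ - ∑ i, _ • sepxV _ _ i).co t.2.2 = _
        simp only [hv, h2, sub_self]
        simp⟩
  refine ⟨sepxV A y, Car.ext (funext fun k => congrFun hy (Sum.inl k)), sepx_of_e fun j a => ?_⟩
  exact sub_eq_zero.1 (Car.ext (funext fun k => congrFun hy (Sum.inr (j, a, k))))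

theorem Nice.map (h : Nice A) (f : T →+* T') : Nice (A.map f) :=
  ⟨h.sep.map f, let ⟨_, hθ⟩ := h.th; ⟨_, hθ.bc f⟩, fun k _ g => h.sk k (g.comp f)⟩

theorem Good.map (h : Good d A) (f : T →+* T') : Good d (A.map f) :=
  ⟨h.form.map f, let ⟨θ, h1, h2⟩ := h.th
    ⟨A.bc f θ, h1.bc f, by rw [← bc_star, ← map_sub]; exact h2.map _⟩⟩

theorem sk_of_th {θ : A.Car} (h : Th θ) (hu : IsUnit (θ - star θ)) : SK A := by
  intro x p H a
  have hc : ∀ {t : A.Car}, Cen t → ∀ c, x * (star p * (t * c) * p) = t * (x * (star p * c * p)) :=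
    fun {t} ht c => by
      rw [← mul_assoc (star p), ← ht, ← mul_assoc t, ht x]; simp only [mul_assoc]
  have h1 := h.1
  have h2 := h.1.star
  have hs : star (θ * a + star θ * star a) = θ * a + star θ * star a := by
    rw [star_add, star_mul, star_mul, star_star, star_star, ← h1, ← h2, add_comm]
  have e1 := H (a - star a) (by rw [star_sub, star_star]; abel)
  have e2 := H ((θ - star θ) * (θ * a + star θ * star a)) (by
    rw [star_mul, hs, star_sub, star_star, ← (h2.sub h1), ← add_mul]; simp)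
  rw [hc (h1.sub h2), hu.mul_right_eq_zero] at e2
  have ha : a = (θ * a + star θ * star a) + star θ * (a - star a) := by
    rw [mul_sub, add_assoc, add_sub_cancel, ← add_mul, h.2, one_mul]
  rw [ha, mul_add, add_mul, mul_add, e2, hc h2, e1, mul_zero, add_zero]

theorem Good.nice (h : Good d A) : Nice A :=
  ⟨h.form.sep, let ⟨θ, h1, _⟩ := h.th; ⟨θ, h1⟩, fun _ _ f =>
    let ⟨_, h1, h2⟩ := (h.map f).th; sk_of_th h1 h2⟩

end Pool.Agent.SU
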