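import Pool.Agent.P.MP_c1f06d_ag.su.Rp
import Pool.Agent.P.MP_c1f06d_ag.QSn

open Matrix Polynomial IsLocalRing

universe u

namespace Pool.Agent.SU

open SAlg Pool.Agent.P.MP_c1f06d_ag

variable {T T' : Type u} [CommRing T] [CommRing T'] {d : ℕ}

noncomputable def detInv (d : ℕ) : Inv.{u} d where
  χ _ _ M := M.det
  nat := by
    intro T T' _ _ f M
    exact (RingHom.map_det f M).symm
  conj := by
    intro T _ M M' P h
    rw [mul_comm, ← det_mul, h, det_mul]
  tr := by
    intro T _ M
    exact det_transpose M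

noncomputable def trInv (d : ℕ) : Inv.{u} d where
  χ _ _ M := M.trace
  nat := by
    intro T T' _ _ f M
    simp only [trace, diag_apply, map_apply, map_sum]
  conj := by
    intro T _ M M' P h
    have h1 : P.det * M.trace = (M * P * P.adjugate).trace := by
      rw [Matrix.mul_assoc, mul_adjugate, Matrix.mul_smul, Matrix.mul_one, trace_smul, smul_eq_mul]
    have h2 : P.det * M'.trace = (P.adjugate * (P * M')).trace := by
      rw [← Matrix.mul_assoc, adjugate_mul, Matrix.smul_mul, Matrix.one_mul, trace_smul,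
        smul_eq_mul]
    rw [h1, h2, h, trace_mul_comm]
  tr := by
    intro T _ M
    exact trace_transpose M

theorem det_one_add_sq_zero {a : T} (ha : a * a = 0) (M : Matrix (Fin d) (Fin d) T) :
    (1 + a • M).det = 1 + a * M.trace := by
  rw [Matrix.det_one_add_smul, sq, ha, mul_zero, add_zero, mul_comm]

theorem det_mul_sub_comm (U a b : Matrix (Fin d) (Fin d) T) (h : a * b = b * a) :
    (U * a - b).det = (a * U - b).det := by
  let μ : Matrix (Fin d) (Fin d) T →+* Matrix (Fin d) (Fin d) T[X] := (C : T →+* T[X]).mapMatrix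
  let ε : Matrix (Fin d) (Fin d) T[X] →+* Matrix (Fin d) (Fin d) T := (evalRingHom 0).mapMatrix
  have hε : ∀ M, ε (μ M) = M := fun M => by
    ext i j
    exact eval_C
  have hc : charmatrix (-a) = scalar (Fin d) X + μ a := by
    rw [charmatrix, map_neg, sub_neg_eq_add]
  have hεc : ε (charmatrix (-a)) = a := by
    rw [hc, map_add, hε]
    have : ε (scalar (Fin d) X) = 0 := by
      ext i j
      change eval 0 (scalar (Fin d) (X : T[X]) i j) = 0
      rw [scalar_apply, diagonal_apply]
      split_ifs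
      · exact eval_X
      · exact eval_zero
    rw [this, zero_add]
  have hb : charmatrix (-a) * μ b = μ b * charmatrix (-a) := by
    rw [hc, add_mul, mul_add, ← map_mul, ← map_mul, h,
      (scalar_commute X (fun r => Commute.all X r) (μ b)).eq]
  have h1 : charmatrix (-a) * (μ U * charmatrix (-a) - μ b) =
      (charmatrix (-a) * μ U - μ b) * charmatrix (-a) := by
    rw [mul_sub, sub_mul, hb, mul_assoc]
  have h2 := congrArg det h1
  rw [det_mul, det_mul, mul_comm (det (charmatrix (-a) * μ U - μ b))] at h2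
  have h3 := (charpoly_monic (-a)).isRegular.left h2
  have h4 := congrArg (evalRingHom (0 : T)) h3
  rw [RingHom.map_det, RingHom.map_det] at h4
  change (ε _).det = (ε _).det at h4
  rwa [map_sub, map_sub, map_mul, map_mul, hε, hε, hεc] at h4

theorem sn_half {B : Type u} [Ring B] [Module T B] (z : Fin d) (c : Inv.{u} d) (f : T →+* T')
    (ρ : B →+* Matrix (Fin d) (Fin d) T') (hρ : ∀ (t : T) x, ρ (t • x) = f t • ρ x)
    (π : B → Matrix (Fin d) (Fin d) T) (ι : Matrix (Fin d) (Fin d) T →ₗ[T] B)
    (hι : ∀ y w, y * ι w = ι (π y * w)) (hπ : ∀ w, π (ι w) = w)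
    (x y : B) (hy : π y = c.χ T (π x) • 1)
    (i0 j0 : Fin d) :
    ρ (ι (single z z 1)) i0 j0 ^ d • (ρ y - c.χ T' (ρ x) • 1) = 0 := by
  let P : Matrix (Fin d) (Fin d) T' := of fun i j => ρ (ι (single j z 1)) i j0
  let R : Matrix (Fin d) (Fin d) T' := of fun i l => ρ (ι (single z i 1)) i0 l
  have hcol : ∀ (w : Matrix (Fin d) (Fin d) T) (j : Fin d),
      w * single j z (1 : T) = ∑ i, w i j • single i z (1 : T) := by
    intro w j
    ext a b
    by_cases hb : b = z
    · subst hb
      simp [Matrix.sum_apply, single_apply]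
    · simp [Matrix.sum_apply, hb, Ne.symm hb]
  have hA : ∀ w, ρ w * P = P * (π w).map f := by
    intro w
    ext i j
    have h1 : (ρ w * P) i j = (ρ w * ρ (ι (single j z 1))) i j0 := rfl
    rw [h1, ← map_mul, hι, hcol, map_sum, map_sum, Matrix.sum_apply, mul_apply]
    refine Finset.sum_congr rfl fun l _ => ?_
    rw [map_smul, hρ, Matrix.smul_apply, smul_eq_mul, mul_comm]
    rfl
  have hR : R * P = ρ (ι (single z z 1)) i0 j0 • (1 : Matrix (Fin d) (Fin d) T') := by
    ext i j
    have h1 : (R * P) i j = (ρ (ι (single z i 1)) * ρ (ι (single j z 1))) i0 j0 := rfl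
    rw [h1, ← map_mul, hι, hπ, Matrix.smul_apply, smul_eq_mul]
    by_cases hij : i = j
    · subst hij
      rw [single_mul_single_same, mul_one, one_apply_eq, mul_one]
    · rw [single_mul_single_of_ne _ _ _ _ hij, map_zero, map_zero, one_apply_ne hij, mul_zero]
      rfl
  have hdet : R.det * P.det = ρ (ι (single z z 1)) i0 j0 ^ d := by
    rw [← det_mul, hR, det_smul, det_one, mul_one, Fintype.card_fin]
  have h1 : P.det * c.χ T' (ρ x) = P.det * f (c.χ T (π x)) := by
    rw [c.conj T' _ _ P (hA x), c.nat]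
  have h2 : ρ y * P = f (c.χ T (π x)) • P := by
    have : (c.χ T (π x) • (1 : Matrix (Fin d) (Fin d) T)).map f = f (c.χ T (π x)) • 1 := by
      ext i j
      rw [map_apply, Matrix.smul_apply, Matrix.smul_apply, smul_eq_mul, smul_eq_mul, map_mul,
        one_apply, one_apply, apply_ite f, map_one, map_zero]
    rw [hA, hy, this, Matrix.mul_smul, Matrix.mul_one]
  have h3 : P.det • ρ y = (P.det * f (c.χ T (π x))) • (1 : Matrix (Fin d) (Fin d) T') := by
    have := congrArg (· * P.adjugate) h2
    simp only [Matrix.mul_assoc, mul_adjugate, Matrix.mul_smul, Matrix.mul_one, Matrix.smul_mul,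
      smul_smul] at this
    rw [this, mul_comm]
  rw [← hdet, mul_smul, smul_sub, h3, smul_smul, h1, sub_self, smul_zero]

theorem sn_entry_mem (J : Ideal T') (A B C : Matrix (Fin d) (Fin d) T') (h : ∀ i j, B i j ∈ J)
    (i j : Fin d) : (A * B * C) i j ∈ J := by
  rw [mul_apply]
  refine J.sum_mem fun l _ => J.mul_mem_right _ ?_
  rw [mul_apply]
  exact J.sum_mem fun k _ => J.mul_mem_left _ (h k l)

/-- A weak Skolem-Noether statement. -/
theorem sn_inv {J : Type} [Fintype J] (hd : 0 < d) (c : Inv.{u} d) (f : T →+* T')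
    (ρ : (J → Matrix (Fin d) (Fin d) T) →+* Matrix (Fin d) (Fin d) T')
    (hρ : ∀ (t : T) x, ρ (t • x) = f t • ρ x) (x : J → Matrix (Fin d) (Fin d) T) :
    ρ (fun j => c.χ T (x j) • 1) = c.χ T' (ρ x) • 1 := by
  classical
  let z : Fin d := ⟨0, hd⟩
  let I : Ideal T' := Ideal.torsionOf T' (Matrix (Fin d) (Fin d) T')
    (ρ (fun j => c.χ T (x j) • 1) - c.χ T' (ρ x) • 1)
  have h1 : ∀ k i j, ρ (Pi.single k (single z z 1)) i j ∈ I.radical := fun k i j =>
    ⟨d, (Ideal.mem_torsionOf_iff _ _).2 (sn_half z c f ρ hρ (fun y => y k)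
      (LinearMap.single T (fun _ => Matrix (Fin d) (Fin d) T) k)
      (fun y w => (Pi.single_mul_right (i := k) (f := y) w).symm)
      (fun w => by simp) x _ rfl i j)⟩
  have hs : (∑ j, single j z (1 : T) * single z z (1 : T) * single z j (1 : T)) =
      (1 : Matrix (Fin d) (Fin d) T) := by
    simp only [single_mul_single_same, mul_one]
    exact sum_single_one
  have h3 : (1 : J → Matrix (Fin d) (Fin d) T) = ∑ k : J, ∑ j : Fin d,
      Pi.single k (single j z (1 : T)) * Pi.single k (single z z (1 : T)) *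
        Pi.single k (single z j (1 : T)) := by
    rw [← Finset.univ_sum_single (1 : J → Matrix (Fin d) (Fin d) T)]
    refine Finset.sum_congr rfl fun k _ => ?_
    simp only [← Pi.single_mul]
    rw [Pi.one_apply, ← hs]
    exact map_sum (AddMonoidHom.single (fun _ => Matrix (Fin d) (Fin d) T) k) _ _
  have h4 : (1 : T') ∈ I.radical := by
    have h5 : (1 : T') = ρ 1 z z := by rw [map_one, one_apply_eq]
    rw [h5, h3, map_sum, Matrix.sum_apply]
    refine Ideal.sum_mem _ fun k _ => ?_
    rw [map_sum, Matrix.sum_apply]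
    refine Ideal.sum_mem _ fun j _ => ?_
    rw [map_mul, map_mul]
    exact sn_entry_mem _ _ _ _ (h1 k) z z
  obtain ⟨n, hn⟩ := h4
  have h6 := (Ideal.mem_torsionOf_iff _ _).1 hn
  rwa [one_pow, one_smul, sub_eq_zero] at h6

end Pool.Agent.SU
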