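import Pool.Agent.P.MP_c1f06d_ag.su.FF
import Pool.Agent.P.MP_c1f06d_ag.su.SN

open Matrix Polynomial IsLocalRing

universe u

namespace Pool.Agent.SU

open SAlg Pool.Agent.P.MP_c1f06d_ag

variable {T T' : Type u} [CommRing T] [CommRing T'] {N d : ℕ} {A : SAlg T N}

theorem nrd_split_inv (h : Split d A) : ∃ (n : ℕ) (r : Fin n → Rep d A T)
    (Ψ : (Fin n ⊕ Fin n → Matrix (Fin d) (Fin d) T) →+* A.Car),
    (∀ (t : T) m, Ψ (t • m) = t • Ψ m) ∧ (∀ x, Ψ (fun j => (fam r j).φ x) = x) ∧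
      ∀ m j, (fam r j).φ (Ψ m) = m j := by
  obtain ⟨n, r, hf, hb⟩ := h
  let E := RingEquiv.ofBijective (RingHom.pi fun j => (fam r j).φ) ((fam_bij r).2 hb)
  refine ⟨n, r, E.symm.toRingHom, fun t m => E.injective ?_, fun x => E.symm_apply_apply x,
    fun m => congrFun (E.apply_symm_apply m)⟩
  have h1 : ∀ x, E (t • x) = t • E x := fun x => funext fun j => by
    change (fam r j).φ (t • x) = t • (fam r j).φ x
    rw [Rep.smul, fam_f hf]
    rfl
  change E (E.symm (t • m)) = E (t • E.symm m)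
  rw [h1, E.apply_symm_apply, E.apply_symm_apply]

theorem nrd_extend {T1 : Type u} [CommRing T1] [Algebra T T1] [Module.FaithfullyFlat T T1]
    (r : Rep d A T') : ∃ (T2 : Type u) (_ : CommRing T2) (ι : T' →+* T2)
      (r' : Rep d (A.map (algebraMap T T1)) T2), Function.Injective ι ∧
        ∀ x, r'.φ (A.bc (algebraMap T T1) x) = (r.φ x).map ι := by
  let _ : Algebra T T' := r.f.toAlgebra
  refine ⟨TensorProduct T T' T1, inferInstance, algebraMap T' (TensorProduct T T' T1),
    (r.post (algebraMap T' (TensorProduct T T' T1))).lift (algebraMap T T1)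
      (Algebra.TensorProduct.includeRight (R := T) (A := T') (B := T1)).toRingHom ?_,
    FaithfulSMul.algebraMap_injective T' _, fun x => Rep.lift_bc _ _ _ _ x⟩
  refine RingHom.ext fun t => ?_
  change Algebra.TensorProduct.includeRight (R := T) (A := T') (algebraMap T T1 t) =
    algebraMap T' (TensorProduct T T' T1) (algebraMap T T' t)
  rw [AlgHom.commutes, ← IsScalarTower.algebraMap_apply]

theorem nrd_map_smul_one (ι : T →+* T') (t : T) :
    (t • (1 : Matrix (Fin d) (Fin d) T)).map ι = ι t • 1 := by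
  ext i j
  simp only [Matrix.map_apply, Matrix.smul_apply, Matrix.one_apply, smul_eq_mul]
  split_ifs <;> simp

theorem nrd_hom_inv {C : Type u} [CommRing C] {B : SAlg C N} {f : C →+* T} {f' : C →+* T'}
    (g : T →+* T') (h : g.comp f = f') {c : Inv.{u} d} {b : B.Car} {z : (B.map f).Car}
    (H : IsInv c (B.bc f b) z) : IsInv c (B.bc f' b) (B.hom g h z) := by
  subst h
  exact fun _ _ r => H _ (Rep.comap (A := B.map f) g r)

theorem Split.exists_inv (hd : 0 < d) (h : Split d A) (c : Inv.{u} d) (b : A.Car) :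
    ∃ z, IsInv c b z := by
  obtain ⟨n, r, Ψ, h1, h2, -⟩ := nrd_split_inv h
  refine ⟨Ψ fun j => c.χ T ((fam r j).φ b) • 1, fun T' _ r' => ?_⟩
  have := sn_inv hd c r'.f (r'.φ.comp Ψ)
    (fun t x => by rw [RingHom.comp_apply, h1, r'.smul]; rfl) fun j => (fam r j).φ b
  rwa [RingHom.comp_apply, RingHom.comp_apply, h2] at this

theorem Form.exists_inv (h : Form d A) (c : Inv.{u} d) (b : A.Car) : ∃ z, IsInv c b z := by
  obtain ⟨hd, T1, _, _, _, hs⟩ := id h
  obtain ⟨z1, hz⟩ := hs.exists_inv hd c (A.bc (algebraMap T T1) b)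
  have e1 : (Algebra.TensorProduct.includeLeftRingHom (R := T) (A := T1) (B := T1)).comp
      (algebraMap T T1) = algebraMap T (TensorProduct T T1 T1) := rfl
  have e2 : (Algebra.TensorProduct.includeRight (R := T) (A := T1) (B := T1)).toRingHom.comp
      (algebraMap T T1) = algebraMap T (TensorProduct T T1 T1) :=
    RingHom.ext fun t =>
      (Algebra.TensorProduct.includeRight (R := T) (A := T1) (B := T1)).commutes t
  have h3 : A.hom _ e1 z1 = A.hom _ e2 z1 := (h.map _).ext fun T' _ r =>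
    (nrd_hom_inv _ e1 hz T' r).trans (nrd_hom_inv _ e2 hz T' r).symm
  choose v hv using fun i => mem_range_of_includeLeft_eq (R := T) (z1.co i)
    (congrFun (congrArg Car.co h3) i)
  have h4 : A.bc (algebraMap T T1) ⟨v⟩ = z1 := Car.ext (funext hv)
  refine ⟨⟨v⟩, fun T' _ r => ?_⟩
  obtain ⟨T2, _, ι, r', hι, hr⟩ := nrd_extend (T1 := T1) r
  have h5 := hz T2 r'
  rw [← h4, hr, hr, c.nat, ← nrd_map_smul_one] at h5
  exact Matrix.map_injective hι h5

theorem IsInv.cen (h : Form d A) {c : Inv.{u} d} {b z : A.Car} (H : IsInv c b z) : Cen z := by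
  intro y
  refine h.ext fun T' _ r => ?_
  rw [map_mul, map_mul, H, smul_mul_assoc, mul_smul_comm, one_mul, mul_one]

theorem Form.isNrd (h : Form d A) (b : A.Car) : IsNrd d b (nrd d b) := by
  have h1 : ∃ z, IsNrd d b z := h.exists_inv (detInv d) b
  rw [nrd, dif_pos h1]
  exact h1.choose_spec

theorem IsNrd.eq (h : Form d A) {b z : A.Car} (H : IsNrd d b z) : nrd d b = z := by
  exact h.ext fun T' _ r => (h.isNrd b T' r).trans (H T' r).symm

theorem Form.nrd_mul (h : Form d A) (x y : A.Car) : nrd d (x * y) = nrd d x * nrd d y :=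
  ((h.isNrd x).mul (h.isNrd y)).eq h

theorem Form.nrd_one (h : Form d A) : nrd d (1 : A.Car) = 1 := isNrd_one.eq h

theorem Form.nrd_star (h : Form d A) (x : A.Car) : nrd d (star x) = star (nrd d x) :=
  (h.isNrd x).star.eq h

theorem Form.nrd_bc (h : Form d A) (f : T →+* T') (x : A.Car) :
    nrd d (A.bc f x) = A.bc f (nrd d x) :=
  ((h.isNrd x).bc f).eq (h.map f)

theorem Form.nrd_cen (h : Form d A) (x : A.Car) : Cen (nrd d x) := by
  exact IsInv.cen (c := detInv d) h (h.isNrd x)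

theorem nrd_scalar_of_comm {M : Matrix (Fin d) (Fin d) T} (h : ∀ P, M * P = P * M) :
    ∃ t : T, M = t • 1 := by
  obtain ⟨t, ht⟩ := Matrix.mem_range_scalar_of_commute_single (M := M)
    fun i j _ => (h (Matrix.single i j 1)).symm
  exact ⟨t, by rw [← ht, Matrix.scalar_apply, Matrix.smul_one_eq_diagonal]⟩

theorem nrd_split_scalar (hd : 0 < d) (h : Split d A) {x : A.Car} (hx : Cen x) (r' : Rep d A T') :
    ∃ t : T', r'.φ x = t • 1 := by
  have : Nonempty (Fin d) := ⟨⟨0, hd⟩⟩
  obtain ⟨n, r, Ψ, h1, h2, h3⟩ := nrd_split_inv h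
  choose a ha using fun j => nrd_scalar_of_comm (M := (fam r j).φ x) fun P => by
    have h4 : (fam r j).φ (Ψ fun _ => P) = P := h3 _ j
    rw [← h4, ← map_mul, ← map_mul, hx]
  have k := sn_inv hd (detInv d) r'.f (r'.φ.comp Ψ)
    (fun t x => by rw [RingHom.comp_apply, h1, r'.smul]; rfl)
  have k1 : ∀ j, r'.φ (Ψ (Pi.single j 1)) = (r'.φ (Ψ (Pi.single j 1))).det • 1 := fun j => by
    have := k (Pi.single j 1)
    have e : (fun i => (detInv.{u} d).χ T ((Pi.single j 1 : Fin n ⊕ Fin n → _) i) •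
        (1 : Matrix (Fin d) (Fin d) T)) = Pi.single j 1 := funext fun i => by
      change det _ • _ = _
      by_cases hi : i = j
      · rw [hi, Pi.single_eq_same, det_one, one_smul]
      · rw [Pi.single_eq_of_ne hi, det_zero, zero_smul]
    rwa [e] at this
  have h5 : x = ∑ j, a j • Ψ (Pi.single j 1) := by
    simp only [← h1, ← map_sum, ← Pi.single_smul, ← ha]
    rw [Finset.univ_sum_single, h2]
  refine ⟨∑ j, r'.f (a j) * (r'.φ (Ψ (Pi.single j 1))).det, ?_⟩
  rw [Finset.sum_smul, h5, map_sum]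
  exact Finset.sum_congr rfl fun j _ => by rw [mul_smul, ← k1, r'.smul]

/-- Central elements act by scalars in every representation. -/
theorem Form.scalar (h : Form d A) {x : A.Car} (hx : Cen x) (r : Rep d A T') :
    ∃ t : T', r.φ x = t • 1 := by
  obtain ⟨hd, T1, _, _, _, hs⟩ := h
  obtain ⟨T2, _, ι, r', hι, hr⟩ := nrd_extend (T1 := T1) r
  obtain ⟨s, hs⟩ := nrd_split_scalar hd hs (hx.bc (algebraMap T T1)) r'
  rw [hr] at hs
  have h1 : ι (r.φ x ⟨0, hd⟩ ⟨0, hd⟩) = s := by
    have := congrFun (congrFun hs ⟨0, hd⟩) ⟨0, hd⟩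
    simpa using this
  refine ⟨r.φ x ⟨0, hd⟩ ⟨0, hd⟩, Matrix.map_injective hι ?_⟩
  change (r.φ x).map ι = (_ • (1 : Matrix (Fin d) (Fin d) T')).map ι
  rw [nrd_map_smul_one, h1, hs]

theorem Form.nrd_of_cen (h : Form d A) {x : A.Car} (hx : Cen x) : nrd d x = x ^ d := by
  refine IsNrd.eq h fun T' _ r => ?_
  obtain ⟨t, ht⟩ := h.scalar hx r
  rw [map_pow, ht, det_smul, det_one, mul_one, Fintype.card_fin, _root_.smul_pow, one_pow]

theorem Form.nrd_one_add (h : Form d A) (x y : A.Car) : nrd d (1 + x * y) = nrd d (1 + y * x) := by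
  refine IsNrd.eq h fun T' _ r => ?_
  rw [h.isNrd (1 + y * x) T' r, map_add, map_add, map_one, map_mul, map_mul, det_one_add_mul_comm]

theorem Form.nrd_isUnit (h : Form d A) {x : A.Car} (hx : IsUnit x) : IsUnit (nrd d x) := by
  obtain ⟨y, hy⟩ := hx.exists_right_inv
  exact isUnit_of_mul_eq_one (y := nrd d y) (by rw [← h.nrd_mul, hy, h.nrd_one])

end Pool.Agent.SU
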