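import Pool.Agent.P.MP_c1f06d_ag.su.Rp

open Matrix Polynomial IsLocalRing

universe u

namespace Pool.Agent.SU

open SAlg

variable {T T' : Type u} [CommRing T] [CommRing T'] {N d : ℕ} {A1 A2 : SAlg T N}

/-- Isomorphisms of algebras with involution. -/
structure SIso (A1 A2 : SAlg T N) where
  e : A1.Car ≃ₐ[T] A2.Car
  st : ∀ x, e (star x) = star (e x)

def SIso.symm (Φ : SIso A1 A2) : SIso A2 A1 :=
  ⟨Φ.e.symm, fun x => Φ.e.injective (by rw [Φ.st, Φ.e.apply_symm_apply, Φ.e.apply_symm_apply])⟩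

/-- Restriction of a representation along an algebra map. -/
def Rep.pull (r : Rep d A2 T') (φ : A1.Car →ₐ[T] A2.Car) : Rep d A1 T' :=
  ⟨r.f, r.φ.comp φ.toRingHom, fun t x => by
    change r.φ (φ (t • x)) = r.f t • r.φ (φ x)
    rw [map_smul, r.smul]⟩

theorem IsNrd.siso {b z : A1.Car} (h : IsNrd d b z) (Φ : SIso A1 A2) : IsNrd d (Φ.e b) (Φ.e z) :=
  fun _ _ r => h _ (r.pull Φ.e.toAlgHom)

theorem Triv.siso {s z : A1.Car} (h : Triv d s z) (Φ : SIso A1 A2) : Triv d (Φ.e s) (Φ.e z) :=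
  let ⟨b, h1, h2⟩ := h
  ⟨Φ.e b, by rw [h1, map_mul, Φ.st], h2.siso Φ⟩

theorem Adm.siso {s z : A1.Car} (h : Adm d s z) (Φ : SIso A1 A2) : Adm d (Φ.e s) (Φ.e z) :=
  ⟨by rw [← Φ.st, h.1], h.2.1.map _, fun y => by
    obtain ⟨y, rfl⟩ := Φ.e.surjective y
    rw [← map_mul, ← map_mul, h.2.2.1], by
    have := h.2.2.2.siso Φ
    rwa [map_mul, Φ.st] at this⟩

/-- An isomorphism from a matrix. -/
theorem exists_siso (P : Matrix (Fin N) (Fin N) T) (hP : IsUnit P.det) (h1 : P *ᵥ A1.one = A2.one)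
    (hL : ∀ i, P * A1.L i = (∑ a, P a i • A2.L a) * P) (hs : P * A1.st = A2.st * P) :
    ∃ Φ : SIso A1 A2, ∀ x, (Φ.e x).co = P *ᵥ x.co := by
  let φ : A1.Car →ₗ[T] A2.Car := A2.coL.symm.toLinearMap ∘ₗ Matrix.toLin' P ∘ₗ A1.coL.toLinearMap
  have hφ : ∀ x, (φ x).co = P *ᵥ x.co := fun _ => rfl
  have h2 : ∀ i, P * lm (A1.e i) = lm (φ (A1.e i)) * P := fun i => by
    rw [lm_e, hL, lm, hφ]
    simp [SAlg.e]
  have h3 : ∀ x, P * lm x = lm (φ x) * P := fun x => by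
    rw [eq_sum x]
    simp only [← lmA_apply, map_sum, map_smul, Finset.mul_sum, Finset.sum_mul, mul_smul_comm,
      smul_mul_assoc]
    simp only [lmA_apply, h2]
  have hm : ∀ x y, φ (x * y) = φ x * φ y := fun x y => Car.ext (by
    rw [hφ, co_mul, co_mul, hφ y, mulVec_mulVec, mulVec_mulVec, h3])
  have hb : Function.Bijective φ := by
    refine ⟨fun x y h => Car.ext ?_, fun y => ⟨⟨P⁻¹ *ᵥ y.co⟩, Car.ext ?_⟩⟩
    · have h4 := congrArg (fun z : A2.Car => P⁻¹ *ᵥ z.co) h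
      simpa only [hφ, mulVec_mulVec, nonsing_inv_mul _ hP, one_mulVec] using h4
    · rw [hφ, mulVec_mulVec, mul_nonsing_inv _ hP, one_mulVec]
  refine ⟨⟨AlgEquiv.ofBijective (AlgHom.ofLinearMap φ (Car.ext h1) hm) hb, fun x => Car.ext ?_⟩, hφ⟩
  change P *ᵥ (A1.st *ᵥ x.co) = A2.st *ᵥ (P *ᵥ x.co)
  rw [mulVec_mulVec, mulVec_mulVec, hs]

/-- The matrix of an isomorphism. -/
theorem SIso.exists_matrix (Φ : SIso A1 A2) :
    ∃ P : Matrix (Fin N) (Fin N) T, IsUnit P.det ∧ P *ᵥ A1.one = A2.one ∧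
      (∀ i, P * A1.L i = (∑ a, P a i • A2.L a) * P) ∧ P * A1.st = A2.st * P ∧
      ∀ x, (Φ.e x).co = P *ᵥ x.co := by
  let ψ : (Fin N → T) ≃ₗ[T] (Fin N → T) := A1.coL.symm ≪≫ₗ Φ.e.toLinearEquiv ≪≫ₗ A2.coL
  have h : ∀ x, (Φ.e x).co = LinearMap.toMatrix' ψ.toLinearMap *ᵥ x.co := fun x => by
    rw [LinearMap.toMatrix'_mulVec]; rfl
  refine ⟨LinearMap.toMatrix' ψ.toLinearMap, ?_, ?_, fun i => ?_, ?_, h⟩
  · rw [LinearMap.det_toMatrix']
    exact ψ.isUnit_det'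
  · rw [← co_one, ← h, map_one, co_one]
  · have h2 : (∑ a, LinearMap.toMatrix' ψ.toLinearMap a i • A2.L a) = lm (Φ.e (A1.e i)) := by
      rw [lm, h]
      simp [SAlg.e]
    refine mat_ext (A := A1) fun x => ?_
    rw [h2, ← lm_e, ← mulVec_mulVec, ← mulVec_mulVec, ← co_mul, ← h, ← h, ← co_mul, map_mul]
  · refine mat_ext (A := A1) fun x => ?_
    rw [← mulVec_mulVec, ← mulVec_mulVec, ← co_star, ← h, ← h, ← co_star, Φ.st]

theorem SIso.exists_map (Φ : SIso A1 A2) (f : T →+* T') :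
    ∃ Ψ : SIso (A1.map f) (A2.map f), ∀ x, Ψ.e (A1.bc f x) = A2.bc f (Φ.e x) := by
  obtain ⟨P, hP, h1, hL, hs, hx⟩ := Φ.exists_matrix
  obtain ⟨Ψ, hΨ⟩ := exists_siso (A1 := A1.map f) (A2 := A2.map f) (P.map f)
    (by rw [← RingHom.mapMatrix_apply, ← RingHom.map_det]; exact hP.map f)
    (funext fun k => (RingHom.map_mulVec f P A1.one k).symm.trans (congrArg f (congrFun h1 k)))
    (fun i => by
      have := congrArg (fun M => Matrix.map M f) (hL i)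
      simp only [Matrix.map_mul, sum_smul_map] at this
      exact this)
    (by
      have := congrArg (fun M => Matrix.map M f) hs
      simp only [Matrix.map_mul] at this
      exact this)
  refine ⟨Ψ, fun x => Car.ext (funext fun k => ?_)⟩
  rw [hΨ, co_bc, co_bc, hx]
  exact (RingHom.map_mulVec f P x.co k).symm

end Pool.Agent.SU
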