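import Pool.Agent.P.MP_c1f06d_ag.su.Loc
import Pool.Agent.P.MP_c1f06d_ag.su.Nrd
import Pool.Agent.P.MP_c1f06d_ag.su.SIso
import Pool.Agent.P.MP_c1f06d_ag.Tors2

open Matrix Polynomial IsLocalRing

universe u

namespace Pool.Agent.SU

open SAlg Pool.Agent.P.MP_c1f06d_ag

open TensorProduct

variable {R : Type u} [CommRing R] {N : ℕ}

/-- Points of the special unitary group. -/
structure UPt (d : ℕ) (A : SAlg R N) (T : Type u) [CommRing T] [Algebra R T] where
  val : (A.map (algebraMap R T)).Car
  uni : star val * val = 1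
  nrd : IsNrd d val 1

/-- A simply transitive natural action on the points of `E`. -/
structure Act (d : ℕ) (A : SAlg R N) (E : Type u) [CommRing E] [Algebra R E] where
  act : ∀ (T : Type u) [CommRing T] [Algebra R T], UPt d A T → (E →ₐ[R] T) → (E →ₐ[R] T)
  one : ∀ (T : Type u) [CommRing T] [Algebra R T] (x : UPt d A T) e, x.val = 1 → act T x e = e
  mul : ∀ (T : Type u) [CommRing T] [Algebra R T] (x y w : UPt d A T) e,
    w.val = x.val * y.val → act T w e = act T x (act T y e)
  nat : ∀ (T T' : Type u) [CommRing T] [Algebra R T] [CommRing T'] [Algebra R T'] (f : T →ₐ[R] T')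
    (x : UPt d A T) (x' : UPt d A T') e, x'.val.co = f ∘ x.val.co →
      f.comp (act T x e) = act T' x' (f.comp e)
  st : ∀ (T : Type u) [CommRing T] [Algebra R T] (e e' : E →ₐ[R] T), ∃! x, act T x e = e'

variable {d : ℕ} {A : SAlg R N} {E T T' T'' : Type u} [CommRing E] [Algebra R E] [CommRing T]
  [Algebra R T] [CommRing T'] [Algebra R T'] [CommRing T''] [Algebra R T'']

/-- Base change along a map of `R`-algebras. -/
def up (A : SAlg R N) (f : T →ₐ[R] T') :
    (A.map (algebraMap R T)).Car →+* (A.map (algebraMap R T')).Car :=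
  A.hom (f : T →+* T') f.comp_algebraMap

theorem co_up (f : T →ₐ[R] T') (x : (A.map (algebraMap R T)).Car) : (up A f x).co = f ∘ x.co := rfl

theorem up_up (f : T →ₐ[R] T') (g : T' →ₐ[R] T'') (x : (A.map (algebraMap R T)).Car) :
    up A g (up A f x) = up A (g.comp f) x := rfl

theorem up_bc (f : T →ₐ[R] T') (x : A.Car) :
    up A f (A.bc (algebraMap R T) x) = A.bc (algebraMap R T') x :=
  Car.ext (funext fun _ => f.commutes _)

theorem hom_star {C : Type u} [CommRing C] (A : SAlg C N) {f : C →+* T} {f' : C →+* T'}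
    (g : T →+* T') (h : g.comp f = f') (x : (A.map f).Car) :
    A.hom g h (star x) = star (A.hom g h x) := by
  subst h; exact bc_star g x

theorem IsNrd.hom {C : Type u} [CommRing C] {A : SAlg C N} {f : C →+* T} {f' : C →+* T'}
    (g : T →+* T') (h : g.comp f = f') {b z : (A.map f).Car} (H : IsNrd d b z) :
    IsNrd d (A.hom g h b) (A.hom g h z) := by
  subst h; exact H.bc g

theorem up_star (f : T →ₐ[R] T') (x : (A.map (algebraMap R T)).Car) :
    up A f (star x) = star (up A f x) := hom_star A _ _ x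

theorem IsNrd.up {b z : (A.map (algebraMap R T)).Car} (H : IsNrd d b z) (f : T →ₐ[R] T') :
    IsNrd d (up A f b) (up A f z) := H.hom _ _

theorem up_nrd (hA : Form d A) (f : T →ₐ[R] T') (x : (A.map (algebraMap R T)).Car) :
    up A f (nrd d x) = nrd d (up A f x) :=
  ((((hA.map _).isNrd x).up f).eq (hA.map _)).symm

theorem up_injective {f : T →ₐ[R] T'} (hf : Function.Injective f) : Function.Injective (up A f) :=
  fun _ _ h => Car.ext (funext fun i => hf (congrFun (congrArg Car.co h) i))

def UPt.map (x : UPt d A T) (f : T →ₐ[R] T') : UPt d A T' :=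
  ⟨up A f x.val, by rw [← up_star, ← map_mul, x.uni, map_one], by
    have := x.nrd.up f
    rwa [map_one] at this⟩

def UPt.mul (x y : UPt d A T) : UPt d A T :=
  ⟨x.val * y.val, by rw [star_mul, mul_assoc, ← mul_assoc (star x.val), x.uni, one_mul, y.uni], by
    have := x.nrd.mul y.nrd
    rwa [mul_one] at this⟩

variable (τ : Act d A E)

noncomputable def Act.gam (e e' : E →ₐ[R] T) : UPt d A T := (τ.st T e e').exists.choose

theorem Act.act_gam (e e' : E →ₐ[R] T) : τ.act T (τ.gam e e') e = e' :=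
  (τ.st T e e').exists.choose_spec

theorem Act.gam_eq {e e' : E →ₐ[R] T} {x : UPt d A T} (h : τ.act T x e = e') : τ.gam e e' = x :=
  (τ.st T e e').unique (τ.act_gam e e') h

theorem Act.gam_self (e : E →ₐ[R] T) : (τ.gam e e).val = 1 :=
  congrArg UPt.val (τ.gam_eq (x := ⟨1, by rw [star_one, one_mul], isNrd_one⟩) (τ.one T _ e rfl))

theorem Act.gam_mul (e e' e'' : E →ₐ[R] T) :
    (τ.gam e' e'').val * (τ.gam e e').val = (τ.gam e e'').val :=
  (congrArg UPt.val (τ.gam_eq (x := (τ.gam e' e'').mul (τ.gam e e'))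
    (by rw [τ.mul T _ _ _ e rfl, τ.act_gam, τ.act_gam]))).symm

theorem Act.gam_map (f : T →ₐ[R] T') (e e' : E →ₐ[R] T) :
    up A f (τ.gam e e').val = (τ.gam (f.comp e) (f.comp e')).val :=
  (congrArg UPt.val (τ.gam_eq (x := (τ.gam e e').map f)
    (by rw [← τ.nat T T' f (τ.gam e e') _ e rfl, τ.act_gam]))).symm

variable {S : Type u} [CommRing S] [Algebra R S]

theorem desc_car [Module.FaithfullyFlat R S] (x : (A.map (algebraMap R S)).Car)
    (hx : ∀ (T : Type u) [CommRing T] [Algebra R T] (a b : S →ₐ[R] T), up A a x = up A b x) :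
    ∃ y, A.bc (algebraMap R S) y = x := by
  choose y hy using fun i => desc_base (R := R) (x.co i) fun T _ _ a b =>
    congrFun (congrArg Car.co (hx T a b)) i
  exact ⟨⟨y⟩, Car.ext (funext hy)⟩

/-- Hilbert 90 for the unit group of the algebra. -/
theorem Act.exists_frame [IsLocalRing R] [IsLocalRing S] [Module.FaithfullyFlat R S] (hA : Sep A)
    (e : E →ₐ[R] S) : ∃ β : (A.map (algebraMap R S)).Car, IsUnit β ∧
      ∀ (T : Type u) [CommRing T] [Algebra R T] (a b : S →ₐ[R] T),
        up A a β * star (τ.gam (a.comp e) (b.comp e)).val = up A b β := by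
  obtain ⟨h, hu, hh⟩ := h90 (R := R) (S := S)
    (fun T _ _ a b => rm (star (τ.gam (a.comp e) (b.comp e)).val))
    (fun T T' _ _ _ _ f a b => by
      rw [AlgHom.comp_assoc, AlgHom.comp_assoc, ← τ.gam_map, ← up_star]
      generalize star (τ.gam (a.comp e) (b.comp e)).val = x
      ext k i
      simp [rm, SAlg.map, mulVec, dotProduct]
      rfl)
    (fun T _ _ a => by rw [τ.gam_self, star_one, rm_one])
    (fun T _ _ a b c => by rw [← rm_mul, ← star_mul, τ.gam_mul])
  have hi : Function.Injective (algebraMap R S) := FaithfulSMul.algebraMap_injective R S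
  obtain ⟨m, hm, -⟩ := free_local hA (algebraMap R S) hi h hu fun x => by
    have key : ∀ (T : Type u) [CommRing T] [Algebra R T] (a b : S →ₐ[R] T),
        (h⁻¹ * ((lm x).map (algebraMap R S) * h)).map a =
          (h⁻¹ * ((lm x).map (algebraMap R S) * h)).map b := fun T _ _ a b => by
      have e1 : ∀ c : S →ₐ[R] T, h.map c * (h⁻¹ * ((lm x).map (algebraMap R S) * h)).map c =
          lm (A.bc (algebraMap R T) x) * h.map c := fun c => by
        rw [← map_mul_algHom, mul_nonsing_inv_cancel_left _ _ hu, map_mul_algHom,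
          map_algebraMap_algHom, lm_bc]
      have e2 : h⁻¹.map b * h.map b = 1 := by
        rw [← map_mul_algHom, nonsing_inv_mul _ hu]; exact Matrix.map_one _ (map_zero b) (map_one b)
      rw [← one_mul (Matrix.map _ a), ← one_mul (Matrix.map _ b), ← e2, mul_assoc, mul_assoc, e1 b,
        ← hh T a b, mul_assoc, e1 a, ← mul_assoc (rm _), ← lm_rm, mul_assoc]
    choose ρ hρ using fun i j => desc_base (R := R) _ fun T _ _ a b =>
      congrFun (congrFun (key T a b) i) j
    refine ⟨of ρ, ?_⟩
    rw [show (of ρ).map (algebraMap R S) = _ from Matrix.ext hρ, mul_nonsing_inv_cancel_left _ _ hu]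
  refine ⟨_, hm, fun T _ _ a b => Car.ext ?_⟩
  have e3 : ∀ c : S →ₐ[R] T, c ∘ (h *ᵥ (algebraMap R S ∘ m)) = h.map c *ᵥ (algebraMap R T ∘ m) :=
    fun c => by ext i; simp [mulVec, dotProduct]
  rw [co_mul', co_up, co_up, e3, e3, mulVec_mulVec, hh]

include τ in
theorem Act.nonempty_of_generic [IsLocalRing R] [Module.FaithfullyFlat R E] (hA : Form d A)
    (K : Type u) [Field K] [Algebra R K] (hK : Function.Injective (algebraMap R K))
    (HT : ∀ s z : A.Car, Adm d s z →
      Triv d (A.bc (algebraMap R K) s) (A.bc (algebraMap R K) z) → Triv d s z)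
    (eK : E →ₐ[R] K) : Nonempty (E →ₐ[R] R) := by
  obtain ⟨S, _, _, _, _, -, ⟨e⟩⟩ := exists_local_cover R E
  have hi : Function.Injective (algebraMap R S) := FaithfulSMul.algebraMap_injective R S
  have hl : IsLocalHom (algebraMap R S) := isLocalHom_of_faithfullyFlat
  have hS := hA.map (algebraMap R S)
  obtain ⟨β, hβ, hb⟩ := τ.exists_frame hA.sep e
  obtain ⟨s, hs⟩ := desc_car (β * star β) fun T _ _ a b => by
    rw [map_mul, map_mul, up_star, up_star, ← hb T a b, star_mul, star_star, mul_assoc,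
      ← mul_assoc (star _), UPt.uni, one_mul]
  obtain ⟨z, hz⟩ := desc_car (nrd d β) fun T _ _ a b => by
    have := (τ.gam (a.comp e) (b.comp e)).nrd.star.eq (hA.map _)
    rw [up_nrd hA, up_nrd hA, ← hb T a b, (hA.map _).nrd_mul, this, star_one, mul_one]
  have hadm : Adm d s z := by
    refine ⟨bc_injective hi ?_, isUnit_of_bc (algebraMap R S) (hs ▸ hβ.mul hβ.star),
      fun y => bc_injective hi ?_, ?_⟩
    · rw [bc_star, hs, star_mul, star_star]
    · rw [map_mul, map_mul, hz, hS.nrd_cen]
    · have : nrd d s = z * star z := bc_injective hi (by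
        rw [← hA.nrd_bc, hs, map_mul, bc_star, hz, hS.nrd_mul, hS.nrd_star])
      exact this ▸ hA.isNrd s
  have : Nontrivial (K ⊗[R] S) := by
    have : Module.FaithfullyFlat K (K ⊗[R] S) := inferInstance
    exact (FaithfulSMul.algebraMap_injective K (K ⊗[R] S)).nontrivial
  let il : K →ₐ[R] K ⊗[R] S := Algebra.TensorProduct.includeLeft
  let ir : S →ₐ[R] K ⊗[R] S := Algebra.TensorProduct.includeRight
  have hil : Function.Injective il := (il : K →+* K ⊗[R] S).injective
  let δ := τ.gam (ir.comp e) (il.comp eK)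
  obtain ⟨bK, hbK⟩ : ∃ bK, up A il bK = up A ir β * star δ.val := by
    choose y hy using fun i => desc_field (R := R) (K := K) ((up A ir β * star δ.val).co i)
      fun T _ _ a b hab => congrFun (congrArg Car.co (show up A a _ = up A b _ by
        rw [map_mul, map_mul, up_up, up_up, ← hb T (a.comp ir) (b.comp ir), up_star, up_star,
          τ.gam_map, τ.gam_map, mul_assoc, ← star_mul, ← AlgHom.comp_assoc, ← AlgHom.comp_assoc,
          ← AlgHom.comp_assoc, ← AlgHom.comp_assoc, τ.gam_mul, hab])) i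
    exact ⟨⟨y⟩, Car.ext (funext hy)⟩
  obtain ⟨b0, h1, h2⟩ := HT s z hadm ⟨bK, up_injective hil (by
    rw [map_mul, up_star, hbK, up_bc, ← up_bc ir, hs, map_mul, up_star, star_mul, star_star,
      mul_assoc, ← mul_assoc (star _), δ.uni, one_mul]), by
    have : nrd d bK = A.bc (algebraMap R K) z := up_injective hil (by
      rw [up_nrd hA, hbK, (hA.map _).nrd_mul, δ.nrd.star.eq (hA.map _), star_one, mul_one, up_bc,
        ← up_bc ir, hz, up_nrd hA])
    exact this ▸ (hA.map _).isNrd bK⟩
  obtain ⟨c, hc⟩ := (isUnit_of_mul_left (h1 ▸ hadm.2.1)).exists_left_inv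
  have hc' : star b0 * star c = 1 := by rw [← star_mul, hc, star_one]
  let g : UPt d A S := ⟨A.bc _ c * β, mul_eq_one_comm' (by
    rw [star_mul, mul_assoc, ← mul_assoc β, ← hs, ← bc_star, ← map_mul, ← map_mul, h1, mul_assoc,
      hc', mul_one, hc, map_one]), by
    have := ((hA.isNrd c).bc (algebraMap R S)).mul (hS.isNrd β)
    rwa [← hz, ← map_mul, ← h2.eq hA, ← hA.nrd_mul, hc, hA.nrd_one, map_one] at this⟩
  have key : ∀ (T : Type u) [CommRing T] [Algebra R T] (a b : S →ₐ[R] T),
      a.comp (τ.act S g e) = b.comp (τ.act S g e) := fun T _ _ a b => by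
    rw [τ.nat S T a g (g.map a) e rfl, τ.nat S T b g (g.map b) e rfl,
      ← τ.act_gam (a.comp e) (b.comp e)]
    refine τ.mul T _ _ _ _ ?_
    change up A a (A.bc _ c * β) = up A b (A.bc _ c * β) * _
    rw [map_mul, map_mul, up_bc, up_bc, ← hb T a b, mul_assoc, mul_assoc, UPt.uni, mul_one]
  exact exists_algHom_of_eq (τ.act S g e) fun x =>
    AlgHom.congr_fun (key (S ⊗[R] S) Algebra.TensorProduct.includeLeft
      Algebra.TensorProduct.includeRight) x

end Pool.Agent.SU
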