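import Pool.Agent.P.MP_c1f06d_ag.su.Stmt
import Pool.Agent.P.MP_c1f06d_ag.su.Tors

open Matrix Polynomial IsLocalRing

universe u

namespace Pool.Agent.SU

open SAlg Pool.Agent.P.MP_c1f06d_ag

open TensorProduct

variable {R B : Type u} [CommRing R] [Ring B] [Algebra R B] {τ : B →ₗ[R] B} {N d : ℕ}

/-- Coordinates on all base changes of `B`. -/
structure Brid (τ : B →ₗ[R] B) (A : SAlg R N) where
  ε : ∀ (T : Type u) [CommRing T] [Algebra R T], T ⊗[R] B ≃ₐ[T] (A.map (algebraMap R T)).Car
  st : ∀ (T : Type u) [CommRing T] [Algebra R T] (x : T ⊗[R] B), ε T (bar τ x) = star (ε T x)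
  nat : ∀ (T T' : Type u) [CommRing T] [Algebra R T] [CommRing T'] [Algebra R T'] (f : T →ₐ[R] T')
    (x : T ⊗[R] B), ε T' (extend f x) = up A f (ε T x)

theorem exists_brid (h : IsInvol τ) (b : Module.Basis (Fin N) R B) :
    ∃ A : SAlg R N, Nonempty (Brid τ A) := by
  have hL : ∀ x : B, Algebra.leftMulMatrix b x = ∑ a, b.repr x a • Algebra.leftMulMatrix b (b a) :=
    fun x => by
      conv_lhs => rw [← b.sum_repr x]
      simp only [map_sum, map_smul]
  have hv : ∀ x y : B, Algebra.leftMulMatrix b x *ᵥ b.repr y = b.repr (x * y) :=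
    Algebra.leftMulMatrix_mulVec_repr b
  have hτ : ∀ x : B, LinearMap.toMatrix b b τ *ᵥ b.repr x = b.repr (τ x) :=
    LinearMap.toMatrix_mulVec_repr b b τ
  let A : SAlg R N :=
    { L := fun i => Algebra.leftMulMatrix b (b i)
      one := b.repr 1
      st := LinearMap.toMatrix b b τ
      L_mul := fun i j => by
        rw [← map_mul, hL]; simp only [Algebra.leftMulMatrix_eq_repr_mul]
      one_L := by rw [← hL, map_one]
      L_one := fun i => by rw [hv, mul_one, b.repr_self, Finsupp.single_eq_pi_single]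
      st_st := by
        rw [← LinearMap.toMatrix_mul, show τ * τ = 1 from LinearMap.ext h.1, LinearMap.toMatrix_one]
      st_L := fun i j k => by
        have e : ∀ j, (fun a => LinearMap.toMatrix b b τ a j) = b.repr (τ (b j)) := fun j =>
          funext fun a => LinearMap.toMatrix_apply _ _ _ _ _
        have e1 := congrFun (hτ (b i * b j)) k
        have e2 := congrFun (hv (τ (b j)) (τ (b i))) k
        rw [h.2, ← e2, hL (τ (b j)), ← e, ← e] at e1
        simpa only [mulVec, dotProduct, mul_apply, Algebra.leftMulMatrix_eq_repr_mul] using e1 }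
  let l : ∀ (T : Type u) [CommRing T] [Algebra R T], T ⊗[R] B ≃ₗ[T] (A.map (algebraMap R T)).Car :=
    fun T _ _ => (b.baseChange T).equivFun.trans (SAlg.coL _).symm
  have hl : ∀ (T : Type u) [CommRing T] [Algebra R T] (t : T) (x : B),
      l T (t ⊗ₜ x) = t • A.bc (algebraMap R T) ⟨b.repr x⟩ := fun T _ _ t x => by
    ext i
    rw [co_smul, co_bc]
    simp [l, Algebra.smul_def, mul_comm]
  have hm : ∀ x y : B, (⟨b.repr (x * y)⟩ : A.Car) = ⟨b.repr x⟩ * ⟨b.repr y⟩ := fun x y =>
    Car.ext (by rw [co_mul, ← hv, hL]; rfl)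
  have hs : ∀ x : B, (⟨b.repr (τ x)⟩ : A.Car) = star ⟨b.repr x⟩ := fun x => Car.ext (hτ x).symm
  refine ⟨A, ⟨⟨fun T _ _ => AlgEquiv.ofLinearEquiv (l T) ?_ fun x y => ?_, fun T _ _ x => ?_,
    fun T T' _ _ _ _ f x => ?_⟩⟩⟩
  · rw [Algebra.TensorProduct.one_def, hl, one_smul]; rfl
  · induction x with
    | zero => simp
    | add x x' h1 h2 => rw [add_mul, map_add, map_add, add_mul, h1, h2]
    | tmul t x =>
      induction y with
      | zero => simp
      | add y y' h1 h2 => rw [mul_add, map_add, map_add, mul_add, h1, h2]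
      | tmul t' y => rw [Algebra.TensorProduct.tmul_mul_tmul, hl, hl, hl, hm, map_mul,
          smul_mul_smul_comm]
  · change l T (τ.baseChange T x) = star (l T x)
    induction x with
    | zero => simp
    | add x x' h1 h2 => rw [map_add, map_add, map_add, star_add, h1, h2]
    | tmul t x => rw [LinearMap.baseChange_tmul, hl, hl, hs, bc_star, star_smul']
  · change l T' (Algebra.TensorProduct.map f (AlgHom.id R B) x) = up A f (l T x)
    induction x with
    | zero => simp
    | add x x' h1 h2 => rw [map_add, map_add, map_add, map_add, h1, h2]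
    | tmul t x =>
      rw [Algebra.TensorProduct.map_tmul, hl, hl]
      ext i
      simp [co_up, co_bc]

theorem IsUnitaryAlgebra.exists_basis [IsLocalRing R] (h : IsUnitaryAlgebra τ d) :
    ∃ N, Nonempty (Module.Basis (Fin N) R B) := by
  obtain ⟨-, T, _, _, _, n, φ, hφ⟩ := h
  let L : T ⊗[R] B →ₗ[T] (Fin n → Matrix (Fin d) (Fin d) T × Matrix (Fin d) (Fin d) T) :=
    LinearMap.pi fun i => (AlgHom.toLinearMap (φ i)).prod
      ((transposeLinearEquiv _ _ T T).toLinearMap ∘ₗ AlgHom.toLinearMap (φ i) ∘ₗ τ.baseChange T)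
  let e := LinearEquiv.ofBijective L hφ
  have := Module.Finite.equiv e.symm
  have := Module.Free.of_equiv e.symm
  have : Module.Finite R B := Module.Finite.of_finite_tensorProduct_of_faithfullyFlat T
  have : Module.Flat R B := Module.Flat.of_flat_tensorProduct R B T
  have : Module.Free R B := Module.free_of_flat_of_isLocalRing
  exact ⟨_, ⟨Module.finBasis R B⟩⟩

variable {A : SAlg R N} (β : Brid τ A) {T : Type u} [CommRing T] [Algebra R T]

/-- The representation attached to a matrix map. -/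
def Brid.rep (φ : MatRep R B T d) : Rep d (A.map (algebraMap R T)) T :=
  ⟨RingHom.id T, (AlgHom.toRingHom φ).comp (β.ε T).symm.toRingEquiv.toRingHom, fun t x => by
    change AlgHom.toLinearMap φ ((β.ε T).symm (t • x)) = t • AlgHom.toLinearMap φ ((β.ε T).symm x)
    rw [map_smul, map_smul]⟩

theorem Brid.rep_φ (φ : MatRep R B T d) (x : T ⊗[R] B) : (β.rep φ).φ (β.ε T x) = φ.app x :=
  congrArg φ.app ((β.ε T).symm_apply_apply x)

theorem Brid.rep_conj (φ : MatRep R B T d) (x : T ⊗[R] B) :
    (β.rep φ).conj.φ (β.ε T x) = (φ.app (bar τ x))ᵀ := by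
  rw [Rep.conj_φ, ← β.st, β.rep_φ]

/-- The matrix map attached to a linear representation. -/
def Brid.mat (r : Rep d (A.map (algebraMap R T)) T) (hr : r.f = RingHom.id T) : MatRep R B T d :=
  AlgHom.comp { r.φ with
    commutes' := fun t => (r.map_algebraMap t).trans (by
      rw [hr, Algebra.algebraMap_eq_smul_one]; rfl) } (β.ε T).toAlgHom

theorem Brid.mat_app (r : Rep d (A.map (algebraMap R T)) T) (hr) (x : T ⊗[R] B) :
    (β.mat r hr).app x = r.φ (β.ε T x) := rfl

include β in
theorem Brid.form (hd : 0 < d) (h : IsUnitaryAlgebra τ d) : Form d A := by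
  obtain ⟨-, T, _, _, hT, n, φ, hφ⟩ := h
  refine ⟨hd, T, inferInstance, inferInstance, hT, n, fun i => β.rep (φ i), fun _ => rfl, ?_⟩
  refine (Function.Bijective.of_comp_iff _ (β.ε T).bijective).1 ?_
  have : ((fun x (i : Fin n) => ((β.rep (φ i)).φ x, (β.rep (φ i)).conj.φ x)) ∘ β.ε T) =
      fun x i => ((φ i).app x, ((φ i).app (bar τ x))ᵀ) := by
    funext x i
    rw [Function.comp_apply, β.rep_φ, β.rep_conj]
  rw [this]
  exact hφ

theorem Brid.nrdOne_iff (hA : Form d A) {x : T ⊗[R] B} (hx : star (β.ε T x) * β.ε T x = 1) :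
    NrdOne τ d x ↔ IsNrd d (β.ε T x) 1 := by
  refine ⟨fun h => ?_, fun h T' _ _ f n φ _ i => ?_⟩
  · obtain ⟨-, T1, _, _, _, hs⟩ := id hA
    let f : T →ₐ[R] T ⊗[R] T1 := Algebra.TensorProduct.includeLeft
    let g : T1 →ₐ[R] T ⊗[R] T1 := Algebra.TensorProduct.includeRight
    have hf : Function.Injective f := FaithfulSMul.algebraMap_injective T (T ⊗[R] T1)
    have h1 : Split d (A.map ((g : T1 →+* T ⊗[R] T1).comp (algebraMap R T1))) :=
      hs.map (g : T1 →+* T ⊗[R] T1)
    rw [g.comp_algebraMap] at h1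
    obtain ⟨n, r, hr, hb⟩ := h1
    have hsp : IsSplitting τ fun i => β.mat (r i) (hr i) := by
      have : (fun (x : (T ⊗[R] T1) ⊗[R] B) (i : Fin n) => ((β.mat (r i) (hr i)).app x,
          ((β.mat (r i) (hr i)).app (bar τ x))ᵀ)) =
          (fun x (i : Fin n) => ((r i).φ x, (r i).conj.φ x)) ∘ β.ε _ := by
        funext x i
        rw [β.mat_app, β.mat_app, β.st]; rfl
      rw [IsSplitting, this]
      exact hb.comp (β.ε _).bijective
    have h2 : ∀ i, ((r i).φ (up A f (β.ε T x))).det = 1 := fun i => by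
      rw [← β.nat, ← β.mat_app _ (hr i)]; exact h _ f n _ hsp i
    have h3 : ∀ i, ((r i).conj.φ (up A f (β.ε T x))).det = 1 := fun i => by
      have := congrArg (fun y => ((r i).φ (up A f y)).det) hx
      simp only [map_mul, map_one, det_mul, det_one, h2, mul_one, up_star] at this
      rw [Rep.conj_φ, det_transpose, this]
    have h4 := (hA.map (algebraMap R T)).isNrd (β.ε T x)
    have : nrd d (β.ε T x) = 1 := up_injective hf (hb.1 (funext fun i => by
      beta_reduce
      rw [h4.up f _ (r i), h4.up f _ (r i).conj, h2, h3]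
      simp only [map_one, one_smul]))
    rwa [this] at h4
  · have := congrFun (congrFun (h.up f _ (β.rep (φ i))) ⟨0, hA.1⟩) ⟨0, hA.1⟩
    rw [← β.nat, β.rep_φ, map_one, map_one] at this
    simpa using this.symm

/-- The two descriptions of the points agree. -/
noncomputable def Brid.pt (hA : Form d A) (x : UPt d A T) : SUPt τ d T :=
  ⟨(β.ε T).symm x.val, ⟨(β.ε T).injective (by
      rw [map_mul, β.st, AlgEquiv.apply_symm_apply, x.uni, map_one]), (β.ε T).injective (by
      rw [map_mul, β.st, AlgEquiv.apply_symm_apply, mul_eq_one_comm' x.uni, map_one])⟩,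
    (β.nrdOne_iff hA (by rw [AlgEquiv.apply_symm_apply, x.uni])).2 (by
      rw [AlgEquiv.apply_symm_apply]; exact x.nrd)⟩

theorem Brid.pt_bijective (hA : Form d A) : Function.Bijective (β.pt (T := T) hA) := by
  refine ⟨fun ⟨x, _, _⟩ ⟨y, _, _⟩ h => ?_, fun ⟨y, h1, h2⟩ => ?_⟩
  · obtain rfl : x = y := (β.ε T).symm.injective (congrArg SUPt.val h)
    rfl
  · have : star (β.ε T y) * β.ε T y = 1 := by rw [← β.st, ← map_mul, h1.1, map_one]
    refine ⟨⟨β.ε T y, this, (β.nrdOne_iff hA this).1 h2⟩, ?_⟩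
    simp only [Brid.pt, AlgEquiv.symm_apply_apply]

include β in
theorem Brid.act (hA : Form d A) {E : Type u} [CommRing E] [Algebra R E] (h : IsSUTorsor τ d E) :
    Nonempty (Act d A E) := by
  obtain ⟨-, act, h1, h2, h3⟩ := h
  refine ⟨⟨fun T _ _ x e => act T (β.pt hA x) e, fun T _ _ x e hx => (h1 T e).1 _ ?_,
    fun T _ _ x y w e hw => (h1 T e).2 _ _ _ ?_, fun T T' _ _ _ _ f x x' e hx => h2 T T' f _ _ e ?_,
    fun T _ _ e e' => ?_⟩⟩
  · change (β.ε T).symm x.val = 1
    rw [hx, map_one]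
  · change (β.ε T).symm w.val = (β.ε T).symm x.val * (β.ε T).symm y.val
    rw [hw, map_mul]
  · refine (β.ε T').injective ?_
    change β.ε T' ((β.ε T').symm x'.val) = β.ε T' (extend f ((β.ε T).symm x.val))
    rw [β.nat, AlgEquiv.apply_symm_apply, AlgEquiv.apply_symm_apply]
    exact Car.ext hx
  · exact ((β.pt_bijective hA).existsUnique_iff (f := β.pt hA)
      (p := fun y => act T y e = e')).1 (h3 T e e')

end Pool.Agent.SU
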