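import Pool.Agent.P.MP_c1f06d_ag.su.CH90

open Matrix Polynomial IsLocalRing TensorProduct

universe u

namespace Pool.Agent.SU

open SAlg Pool.Agent.P.MP_c1f06d_ag

section
variable {R B : Type u} [CommRing R] [Ring B] [Algebra R B] {N : ℕ} (b : Module.Basis (Fin N) R B)

theorem cbrid_lm (x : B) :
    ∑ a, b.repr x a • Algebra.leftMulMatrix b (b a) = Algebra.leftMulMatrix b x := by
  conv_rhs => rw [← b.sum_repr x]
  simp only [map_sum, map_smul]

/-- Structure constants with respect to a basis. -/
noncomputable def cbrid_alg (σ : B →ₗ[R] B) (h1 : ∀ x, σ (σ x) = x)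
    (h2 : ∀ x y, σ (x * y) = σ y * σ x) : SAlg R N where
  L i := Algebra.leftMulMatrix b (b i)
  one := b.repr 1
  st := LinearMap.toMatrix b b σ
  L_mul i j := by
    simp only [Algebra.leftMulMatrix_eq_repr_mul]
    rw [cbrid_lm, map_mul]
  one_L := by rw [cbrid_lm, map_one]
  L_one i := by
    rw [Algebra.leftMulMatrix_mulVec_repr, mul_one, b.repr_self, Finsupp.single_eq_pi_single]
  st_st := by
    rw [← LinearMap.toMatrix_comp b b b, show σ ∘ₗ σ = LinearMap.id from LinearMap.ext h1,
      LinearMap.toMatrix_id]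
  st_L i j k := by
    have e : ∀ a, LinearMap.toMatrix b b σ a j = b.repr (σ (b j)) a := fun a =>
      LinearMap.toMatrix_apply b b σ a j
    simp only [e]
    rw [cbrid_lm, Algebra.leftMulMatrix_apply, Algebra.leftMulMatrix_apply,
      ← LinearMap.toMatrix_comp b b b, ← LinearMap.toMatrix_comp b b b, LinearMap.toMatrix_apply,
      LinearMap.toMatrix_apply]
    simp [h2]

end

/-- A finite free algebra with involution in coordinates, over every `R`-algebra. -/
theorem exists_salg {R B : Type u} [CommRing R] [Ring B] [Algebra R B] [Module.Free R B]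
    [Module.Finite R B] (σ : B →ₗ[R] B) (h1 : ∀ x, σ (σ x) = x)
    (h2 : ∀ x y, σ (x * y) = σ y * σ x) :
    ∃ (N : ℕ) (A : SAlg R N) (Ψ : ∀ (T : Type u) [CommRing T] [Algebra R T],
      T ⊗[R] B ≃ₐ[T] (A.map (algebraMap R T)).Car),
      (∀ (T : Type u) [CommRing T] [Algebra R T] (x : T ⊗[R] B),
        Ψ T (σ.baseChange T x) = star (Ψ T x)) ∧
      ∀ (T T' : Type u) [CommRing T] [Algebra R T] [CommRing T'] [Algebra R T'] (f : T →ₐ[R] T')
        (x : T ⊗[R] B), Ψ T' (f.toLinearMap.rTensor B x) = A.alg f (Ψ T x) := by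
  let b := (Module.Free.chooseBasis R B).reindex (Fintype.equivFin _)
  let A := cbrid_alg b σ h1 h2
  let ψ : B → A.Car := fun x => ⟨b.repr x⟩
  have ψ1 : ψ 1 = 1 := rfl
  have ψm : ∀ x y, ψ (x * y) = ψ x * ψ y := fun x y => Car.ext (by
    change _ = (∑ a, b.repr x a • Algebra.leftMulMatrix b (b a)) *ᵥ b.repr y
    rw [cbrid_lm, Algebra.leftMulMatrix_mulVec_repr])
  have ψs : ∀ x, ψ (σ x) = star (ψ x) := fun x =>
    Car.ext (LinearMap.toMatrix_mulVec_repr b b σ x).symm
  let l := fun (T : Type u) [CommRing T] [Algebra R T] =>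
    (Algebra.TensorProduct.basis T b).equivFun.trans (A.map (algebraMap R T)).coL.symm
  have hl : ∀ (T : Type u) [CommRing T] [Algebra R T] (t : T) (x : B),
      l T (t ⊗ₜ x) = t • A.bc (algebraMap R T) (ψ x) := fun T _ _ t x => Car.ext (by
    change ⇑((Algebra.TensorProduct.basis T b).repr (t ⊗ₜ x)) = _
    rw [Algebra.TensorProduct.basis_repr_tmul]
    rfl)
  refine ⟨_, A, fun T _ _ => AlgEquiv.ofLinearEquiv (l T) ?_ fun x y => ?_, fun T _ _ x => ?_,
    fun T T' _ _ _ _ f x => ?_⟩
  · rw [Algebra.TensorProduct.one_def, hl, ψ1, map_one, one_smul]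
  · induction x with
    | zero => simp
    | add x x' hx hx' => rw [add_mul, map_add, map_add, hx, hx', add_mul]
    | tmul t x =>
      induction y with
      | zero => simp
      | add y y' hy hy' => rw [mul_add, map_add, map_add, hy, hy', mul_add]
      | tmul s y =>
        rw [Algebra.TensorProduct.tmul_mul_tmul, hl, hl, hl, ψm, map_mul, smul_mul_smul_comm]
  · change l T _ = star (l T x)
    induction x with
    | zero => simp
    | add x x' hx hx' => rw [map_add, map_add, map_add, hx, hx', star_add]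
    | tmul t x => rw [LinearMap.baseChange_tmul, hl, hl, ψs, bc_star, star_smul']
  · change l T' _ = A.alg f (l T x)
    induction x with
    | zero => simp
    | add x x' hx hx' => rw [map_add, map_add, map_add, hx, hx', map_add]
    | tmul t x =>
      rw [LinearMap.rTensor_tmul, hl, hl, ← A.alg_bc f]
      exact Car.ext (funext fun i => (map_mul f _ _).symm)

end Pool.Agent.SU
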