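import Pool.Agent.P.MP_c1f06d_ag.Core
import Pool.Agent.P.MP_c1f06d_ag.Dom

open Polynomial

universe u

namespace Pool.Agent.SU

open IsLocalRing Pool.Agent.P.MP_c1f06d_ag

section Nb

variable {B B' B'' O : Type u} [CommRing B] [CommRing B'] [CommRing B''] [CommRing O]

/-- `B'` is `B` with one element inverted, and `O` is still a localisation of it. -/
structure Nb (ρ : B →+* O) (j : B →+* B') (ρ' : B' →+* O) : Prop where
  comp : ρ'.comp j = ρ
  lp : LocPres ρ' 0
  frac : ∀ b', ∃ a s, IsUnit (j s) ∧ b' * j s = j a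
  ext : ∃ F, IsUnit (j F) ∧ ∀ (S : Type u) [CommRing S] (ψ : B →+* S), IsUnit (ψ F) →
    ∃ ψ' : B' →+* S, ψ'.comp j = ψ

variable {ρ : B →+* O} {j : B →+* B'} {ρ' : B' →+* O} {j' : B' →+* B''} {ρ'' : B'' →+* O}

theorem Nb.apply (h : Nb ρ j ρ') (b : B) : ρ' (j b) = ρ b := RingHom.congr_fun h.comp b

theorem Nb.refl (h : LocPres ρ 0) : Nb ρ (RingHom.id B) ρ :=
  ⟨rfl, h, fun b => ⟨b, 1, isUnit_one, mul_one b⟩, 1, isUnit_one, fun _ _ ψ _ => ⟨ψ, rfl⟩⟩

theorem Nb.trans (h : Nb ρ j ρ') (h' : Nb ρ' j' ρ'') : Nb ρ (j'.comp j) ρ'' := by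
  refine ⟨by rw [← RingHom.comp_assoc, h'.comp, h.comp], h'.lp, fun b => ?_, ?_⟩
  · obtain ⟨a, s, hs, e⟩ := h'.frac b
    obtain ⟨a1, s1, hs1, e1⟩ := h.frac a
    obtain ⟨a2, s2, hs2, e2⟩ := h.frac s
    refine ⟨a1 * s2, a2 * s1, ?_, ?_⟩
    · rw [RingHom.comp_apply, map_mul, ← e2, map_mul, map_mul]
      exact (hs.mul (hs2.map j')).mul (hs1.map j')
    · simp only [RingHom.comp_apply, map_mul]
      rw [← e1, ← e2, map_mul, map_mul, ← e]
      ring
  · obtain ⟨F, hF, hx⟩ := h.ext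
    obtain ⟨F', hF', hx'⟩ := h'.ext
    obtain ⟨a, s, hs, e⟩ := h.frac F'
    refine ⟨F * a, ?_, fun S _ ψ hψ => ?_⟩
    · rw [RingHom.comp_apply, map_mul, ← e, map_mul, map_mul]
      exact (hF.map j').mul (hF'.mul (hs.map j'))
    · rw [map_mul] at hψ
      obtain ⟨ψ', rfl⟩ := hx S ψ (isUnit_of_mul_isUnit_left hψ)
      have h1 : IsUnit (ψ' (j a)) := isUnit_of_mul_isUnit_right hψ
      rw [← e, map_mul] at h1
      obtain ⟨ψ'', rfl⟩ := hx' S ψ' (isUnit_of_mul_isUnit_left h1)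
      exact ⟨ψ'', rfl⟩

theorem Nb.epi (h : Nb ρ j ρ') {S : Type*} [CommRing S] {f g : B' →+* S}
    (e : f.comp j = g.comp j) : f = g := by
  refine RingHom.ext fun b => ?_
  obtain ⟨a, s, hs, e1⟩ := h.frac b
  have h1 : ∀ x, f (j x) = g (j x) := fun x => RingHom.congr_fun e x
  refine (hs.map g).mul_right_cancel ?_
  rw [← map_mul g, e1, ← h1, ← h1, ← map_mul, e1]

/-- An element whose image is a unit becomes a unit. -/
theorem exists_nb_unit (h : LocPres ρ 0) (s : B) (hs : IsUnit (ρ s)) :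
    ∃ (B' : Type u) (_ : CommRing B') (j : B →+* B') (ρ' : B' →+* O), Nb ρ j ρ' ∧ IsUnit (j s) := by
  have hu : IsUnit (algebraMap B (Localization.Away s) s) := IsLocalization.Away.algebraMap_isUnit s
  have hc : ∀ b, IsLocalization.Away.lift s hs (algebraMap B (Localization.Away s) b) = ρ b :=
    fun b => IsLocalization.Away.lift_eq s hs b
  have hf : ∀ b' : Localization.Away s, ∃ a t, IsUnit (algebraMap B (Localization.Away s) t) ∧
      b' * algebraMap B _ t = algebraMap B _ a := fun b' => by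
    obtain ⟨⟨a, t⟩, e⟩ := IsLocalization.surj (Submonoid.powers s) b'
    exact ⟨a, t, IsLocalization.map_units _ t, e⟩
  refine ⟨Localization.Away s, inferInstance, algebraMap _ _, IsLocalization.Away.lift s hs,
    ⟨RingHom.ext hc, ⟨map_zero _, fun r => ?_, fun b hb => ?_⟩, hf, s, hu, fun S _ ψ hψ =>
      ⟨IsLocalization.Away.lift s hψ, RingHom.ext (IsLocalization.Away.lift_eq s hψ)⟩⟩, hu⟩
  · obtain ⟨a, t, ht, e⟩ := h.surj r
    exact ⟨algebraMap B _ a, algebraMap B _ t, by rwa [hc], by rwa [hc, hc]⟩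
  · obtain ⟨a, t, ht, e⟩ := hf b
    obtain ⟨w, hw, hd⟩ := h.ker a (by rw [← hc, ← e, map_mul, hb, zero_mul])
    refine ⟨algebraMap B _ w * algebraMap B _ t, ?_, ?_⟩
    · rw [map_mul, hc]
      exact hw.mul (ht.map _)
    · rw [mul_assoc, mul_comm _ b, e, ← map_mul, zero_dvd_iff.1 hd, map_zero]

/-- Finitely many elements of `O` come from a neighbourhood. -/
theorem exists_nb_lift (h : LocPres ρ 0) {ι : Type*} [Finite ι] (r : ι → O) :
    ∃ (B' : Type u) (_ : CommRing B') (j : B →+* B') (ρ' : B' →+* O), Nb ρ j ρ' ∧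
      ∃ a : ι → B', ∀ i, ρ' (a i) = r i := by
  have := Fintype.ofFinite ι
  obtain ⟨a, s, hs, e⟩ := spread_den h r
  obtain ⟨B', _, j, ρ', hn, hu⟩ := exists_nb_unit h s hs
  obtain ⟨t, ht⟩ := hu.exists_right_inv
  refine ⟨B', inferInstance, j, ρ', hn, fun i => j (a i) * t, fun i => ?_⟩
  rw [map_mul, hn.apply, ← e, ← hn.apply, mul_assoc, ← map_mul, ht, map_one, mul_one]

/-- Finitely many equations that hold in `O` hold in a neighbourhood. -/
theorem exists_nb_eq (h : LocPres ρ 0) {ι : Type*} [Finite ι] (a b : ι → B)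
    (e : ∀ i, ρ (a i) = ρ (b i)) :
    ∃ (B' : Type u) (_ : CommRing B') (j : B →+* B') (ρ' : B' →+* O), Nb ρ j ρ' ∧
      ∀ i, j (a i) = j (b i) := by
  have := Fintype.ofFinite ι
  obtain ⟨s, hs, hd⟩ := spread_ker h (fun i => a i - b i) fun i => by rw [map_sub, e, sub_self]
  obtain ⟨B', _, j, ρ', hn, hu⟩ := exists_nb_unit h s hs
  refine ⟨B', inferInstance, j, ρ', hn, fun i => hu.mul_left_cancel ?_⟩
  rw [← sub_eq_zero, ← mul_sub, ← map_sub, ← map_mul, zero_dvd_iff.1 (hd i), map_zero]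

end Nb

section GP

variable {R B B' : Type u} [CommRing R] [CommRing B] [CommRing B']

/-- A property of a pair of ring maps with the same target. -/
abbrev Pr (R B : Type u) [CommRing R] [CommRing B] : Type (u + 1) :=
  ∀ (A : Type u) [CommRing A], (R →+* A) → (B →+* A) → Prop

/-- The property passes along ring maps. -/
def Pr.Stable (W : Pr R B) : Prop :=
  ∀ (A A' : Type u) [CommRing A] [CommRing A'] (χ : A →+* A') (i : R →+* A) (ψ : B →+* A),
    W A i ψ → W A' (χ.comp i) (χ.comp ψ)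

/-- The property holds on an etale neighbourhood of every section over the diagonal. -/
def Pr.Near (W : Pr R B) (ρ : B →+* R) : Prop :=
  ∀ (A : Type u) [CommRing A] (i : R →+* A) (ψ : B →+* A) (σ : A →+* R),
    σ.comp i = RingHom.id R → σ.comp ψ = ρ →
    ∃ (A' : Type u) (_ : CommRing A') (f : A →+* A') (σ' : A' →+* R),
      f.Etale ∧ σ'.comp f = σ ∧ W A' (f.comp i) (f.comp ψ)

/-- The geometric principle. -/
structure GP (ρ : B →+* R) (q : Ideal R) : Prop where
  lp : LocPres ρ 0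
  geo : ∀ D : ℕ, 0 < D → ∀ W : Pr R B, W.Stable → W.Near ρ → ∀ F, ρ F ∉ q →
    ∃ (P : R[X]) (k : ℕ) (ψ : B →+* AdjoinRoot P), P.Monic ∧ P.natDegree = D * k + 1 ∧
      IsUnit (ψ F) ∧ W (AdjoinRoot P) (AdjoinRoot.of P) ψ

variable {ρ : B →+* R} {q : Ideal R} {j : B →+* B'}

theorem Pr.Stable.and {W W' : Pr R B} (h : W.Stable) (h' : W'.Stable) :
    Pr.Stable (fun A _ i ψ => W A i ψ ∧ W' A i ψ : Pr R B) :=
  fun A A' _ _ χ i ψ hw => ⟨h A A' χ i ψ hw.1, h' A A' χ i ψ hw.2⟩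

theorem Pr.Near.and {W W' : Pr R B} (hs : W.Stable) (h : W.Near ρ) (h' : W'.Near ρ) :
    Pr.Near (fun A _ i ψ => W A i ψ ∧ W' A i ψ : Pr R B) ρ := by
  intro A _ i ψ σ hi hψ
  obtain ⟨A1, _, f1, σ1, e1, c1, w1⟩ := h A i ψ σ hi hψ
  obtain ⟨A2, _, f2, σ2, e2, c2, w2⟩ := h' A1 (f1.comp i) (f1.comp ψ) σ1
    (by rw [← RingHom.comp_assoc, c1, hi]) (by rw [← RingHom.comp_assoc, c1, hψ])
  exact ⟨A2, inferInstance, f2.comp f1, σ2, RingHom.Etale.stableUnderComposition _ _ e1 e2,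
    by rw [← RingHom.comp_assoc, c2, c1], hs _ _ f2 _ _ w1, w2⟩

/-- The principle passes to neighbourhoods. -/
theorem GP.nb [q.IsPrime] {ρ' : B' →+* R} (h : GP ρ q) (hn : Nb ρ j ρ') : GP ρ' q := by
  refine ⟨hn.lp, fun D hD W hs hW F hF => ?_⟩
  obtain ⟨a, s, hu, e⟩ := hn.frac F
  obtain ⟨F0, hF0, hx⟩ := hn.ext
  have ha : ρ a ∉ q := by
    rw [← hn.apply, ← e, map_mul]
    exact fun hm => (Ideal.IsPrime.mem_or_mem inferInstance hm).elim hF fun h1 =>
      Ideal.IsPrime.ne_top inferInstance (Ideal.eq_top_of_isUnit_mem q h1 (hu.map ρ'))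
  obtain ⟨P, k, ψ, hP, hd, hψ, ψ', rfl, hw⟩ := h.geo D hD
    (fun A _ i ψ => ∃ ψ' : B' →+* A, ψ'.comp j = ψ ∧ W A i ψ')
    (fun A A' _ _ χ i ψ ⟨ψ', e', hw⟩ => ⟨χ.comp ψ', e' ▸ rfl, hs _ _ χ _ _ hw⟩)
    (fun A _ i ψ σ hi hψ => by
      obtain ⟨A1, _, f1, σ1, e1, c1, u1⟩ := exists_etale_unit σ (ψ F0)
        (by rw [← RingHom.comp_apply, hψ, ← hn.apply]; exact hF0.map ρ')
      obtain ⟨ψ1, hψ1⟩ := hx A1 (f1.comp ψ) u1
      obtain ⟨A2, _, f2, σ2, e2, c2, w2⟩ := hW A1 (f1.comp i) ψ1 σ1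
        (by rw [← RingHom.comp_assoc, c1, hi])
        (hn.epi (by rw [RingHom.comp_assoc, hψ1, ← RingHom.comp_assoc, c1, hψ, hn.comp]))
      exact ⟨A2, inferInstance, f2.comp f1, σ2, RingHom.Etale.stableUnderComposition _ _ e1 e2,
        by rw [← RingHom.comp_assoc, c2, c1], f2.comp ψ1,
        by rw [RingHom.comp_assoc, hψ1]; rfl, w2⟩) a ha
  refine ⟨P, k, ψ', hP, hd, ?_, hw⟩
  rw [RingHom.comp_apply, ← e, map_mul] at hψ
  exact isUnit_of_mul_isUnit_left hψ

theorem GP.lp_at [q.IsPrime] (h : GP ρ q) (O : Type u) [CommRing O] [Algebra R O]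
    [IsLocalization.AtPrime O q] : LocPres ((algebraMap R O).comp ρ) 0 :=
  h.lp.localization q.primeCompl O

/-- The form in which the principle is used: data over `O = R_q`, spread to a neighbourhood `B'`,
are carried to a monogenic algebra of degree `D k + 1`. -/
theorem GP.run [q.IsPrime] (h : GP ρ q) {O : Type u} [CommRing O] [Algebra R O]
    [IsLocalization.AtPrime O q] {ρ' : B' →+* O} (hn : Nb ((algebraMap R O).comp ρ) j ρ')
    (D : ℕ) (hD : 0 < D) (W : Pr R B) (hs : W.Stable) (hW : W.Near ρ) :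
    ∃ (P : R[X]) (k : ℕ) (ψ' : B' →+* AdjoinRoot P), P.Monic ∧ P.natDegree = D * k + 1 ∧
      W (AdjoinRoot P) (AdjoinRoot.of P) (ψ'.comp j) := by
  obtain ⟨F, hF, hx⟩ := hn.ext
  have h1 : IsUnit (algebraMap R O (ρ F)) := by
    have := hF.map ρ'
    rwa [hn.apply] at this
  obtain ⟨P, k, ψ, hP, hd, hψ, hw⟩ := h.geo D hD W hs hW F
    ((IsLocalization.AtPrime.isUnit_to_map_iff O q _).1 h1)
  obtain ⟨ψ', rfl⟩ := hx _ ψ hψ
  exact ⟨P, k, ψ', hP, hd, hw⟩

end GP

section Ex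

variable {V R : Type u} [CommRing V] [IsDomain V] [ValuationRing V] [CommRing R] [IsLocalRing R]
  {d : ℕ} {π : (MvPolynomial (Fin d) V)[X] →+* R} {G : (MvPolynomial (Fin d) V)[X]}

theorem exists_gp_of_pres [Infinite (ResidueField R)] [IsDomain R] (h : Pres π G) :
    ∃ (B : Type u) (_ : CommRing B) (ρ : B →+* R) (q : Ideal R) (_ : q.IsPrime),
      ValuationRing (Localization.AtPrime q) ∧ GP ρ q := by
  obtain ⟨q, hqp, hq, hF⟩ := h.exists_prime
  have hker : ∀ a ∈ Ideal.span {G}, π a = 0 := fun a ha => by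
    obtain ⟨c, rfl⟩ := Ideal.mem_span_singleton.1 ha
    rw [map_mul, h.lp.map_G, zero_mul]
  let mk := Ideal.Quotient.mk (Ideal.span {G})
  let ρ := Ideal.Quotient.lift _ π hker
  have hρ : ∀ a, ρ (mk a) = π a := fun a => rfl
  refine ⟨(MvPolynomial (Fin d) V)[X] ⧸ Ideal.span {G}, inferInstance, ρ, q, hqp,
    h.valuationRing q hq,
    ⟨map_zero _, fun r => ?_, fun a ha => ?_⟩, fun D hD W hs hW F hFq => ?_⟩
  · obtain ⟨a, s, hu, e⟩ := h.lp.surj r
    exact ⟨mk a, mk s, hu, e⟩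
  · obtain ⟨a, rfl⟩ := Ideal.Quotient.mk_surjective a
    obtain ⟨s, hu, hd⟩ := h.lp.ker a ha
    have h0 : mk (s * a) = 0 := Ideal.Quotient.eq_zero_iff_mem.2 (Ideal.mem_span_singleton.2 hd)
    exact ⟨mk s, hu, 0, by rw [zero_mul, ← h0, map_mul]⟩
  · obtain ⟨F, rfl⟩ := Ideal.Quotient.mk_surjective F
    obtain ⟨a, H, b, ha, hH, hab⟩ := hF F hFq
    obtain ⟨A, _, f, σ, ψ, b0, hf, hσ, hψ, hG, hu, hv, hb, hb0⟩ := h.exists_curve a ha H hH
    have hk : ∀ a ∈ Ideal.span {G}, ψ a = 0 := fun a ha => by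
      obtain ⟨c, rfl⟩ := Ideal.mem_span_singleton.1 ha
      rw [map_mul, hG, zero_mul]
    let ψ0 := Ideal.Quotient.lift _ ψ hk
    obtain ⟨A', _, f', σ', hf', hσ', hW'⟩ :=
      hW A (f.comp C) ψ0 σ (RingHom.ext fun r => by simp [hσ])
        (Ideal.Quotient.ringHom_ext hψ)
    obtain ⟨P, χ, hP, ⟨k, hk'⟩, hχ, hb1⟩ := move_etale_gen (fun n => ∃ k, n = D * k + 1)
      (fun n0 => ⟨D * n0 + 1, by nlinarith, n0, rfl⟩) (f'.comp f)
      (RingHom.Etale.stableUnderComposition f f' hf hf') σ'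
      (fun p => (RingHom.congr_fun hσ' (f p)).trans (hσ p)) b0 hb0
    have hG' : χ.comp (f'.comp ψ) G = 0 := by simp [hG]
    have := hP.finite_adjoinRoot
    refine ⟨P, k, χ.comp (f'.comp ψ0), hP, hk', ?_, ?_⟩
    · have hI : Ideal.span {G} ⊔ (maximalIdeal V).map
          ((C : _ →+* (MvPolynomial (Fin d) V)[X]).comp MvPolynomial.C) ≤
          ((maximalIdeal R).map (algebraMap R (AdjoinRoot P))).comap (χ.comp (f'.comp ψ)) := by
        refine sup_le ((Ideal.span_singleton_le_iff_mem _).2 ?_)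
          (Ideal.map_le_iff_le_comap.2 fun v hv' => ?_)
        · rw [Ideal.mem_comap, hG']
          exact zero_mem _
        · change χ (f' (ψ (C (MvPolynomial.C v)))) ∈ (maximalIdeal R).map _
          rw [hv, show χ (f' (f _)) = _ from hχ _]
          exact Ideal.mem_map_of_mem (algebraMap R (AdjoinRoot P)) fun u => hv' (h.loc v u)
      have h1 := Ideal.mem_comap.1 (hI hab)
      rw [map_sub, map_mul, map_mul] at h1
      refine isUnit_of_mul_isUnit_right (isUnit_of_sub_mem_map (IsUnit.mul ?_ ?_) h1)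
      · change IsUnit (χ (f' (ψ (C a))))
        rw [hb]
        exact hb1
      · exact (hu.map f').map χ
    · rw [← show χ.comp (f'.comp (f.comp C)) = AdjoinRoot.of P from RingHom.ext hχ]
      exact hs _ _ χ _ _ hW'

/-- The principle for a local ring of a smooth algebra over a valuation ring. -/
theorem exists_gp (V A : Type u) [CommRing V] [IsDomain V] [ValuationRing V] [CommRing A]
    [Algebra V A] [Algebra.Smooth V A] (p : Ideal A) [p.IsPrime] (R : Type u) [CommRing R]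
    [IsLocalRing R] [IsDomain R] [Infinite (ResidueField R)] [Algebra A R]
    [IsLocalization.AtPrime R p] :
    ∃ (B : Type u) (_ : CommRing B) (ρ : B →+* R) (q : Ideal R) (_ : q.IsPrime),
      ValuationRing (Localization.AtPrime q) ∧ GP ρ q := by
  obtain ⟨V', _, _, _, d, π, G, h⟩ := exists_pres V A p R
  exact exists_gp_of_pres h

/-- The same for `R(X)`, whose residue field is always infinite. -/
theorem exists_gp_RX (V A : Type u) [CommRing V] [IsDomain V] [ValuationRing V] [CommRing A]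
    [Algebra V A] [Algebra.Smooth V A] (p : Ideal A) [p.IsPrime] (R : Type u) [CommRing R]
    [IsLocalRing R] [IsDomain R] [Algebra A R] [IsLocalization.AtPrime R p] :
    ∃ (B : Type u) (_ : CommRing B) (ρ : B →+* RX R) (q : Ideal (RX R)) (_ : q.IsPrime),
      ValuationRing (Localization.AtPrime q) ∧ GP ρ q := by
  obtain ⟨V', _, _, _, d, π, G, h⟩ := exists_pres_RX V A p R
  have := infinite_residueField_RX R
  exact exists_gp_of_pres h

theorem isDomain_of_smooth (V A : Type u) [CommRing V] [IsDomain V] [ValuationRing V] [CommRing A]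
    [Algebra V A] [Algebra.Smooth V A] (p : Ideal A) [p.IsPrime] (R : Type u) [CommRing R]
    [IsLocalRing R] [Algebra A R] [IsLocalization.AtPrime R p] : IsDomain R := by
  obtain ⟨V', _, _, _, d, π, G, h⟩ := exists_pres V A p R
  exact h.isDomain

theorem exists_irreducible_degree (k : Type*) [Field k] [Finite k] (l : ℕ) (hl : l ≠ 0) :
    ∃ P : k[X], P.Monic ∧ Irreducible P ∧ P.natDegree = l := by
  obtain ⟨p, hp⟩ := CharP.exists k
  have : Fact p.Prime := ⟨CharP.char_is_prime k p⟩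
  have : NeZero l := ⟨hl⟩
  obtain ⟨x, hx⟩ := Field.exists_primitive_element k (FiniteField.Extension k p l)
  have hi : IsIntegral k x := IsIntegral.of_finite k x
  refine ⟨minpoly k x, minpoly.monic hi, minpoly.irreducible hi, ?_⟩
  rw [← IntermediateField.adjoin.finrank hi, hx, IntermediateField.finrank_top',
    FiniteField.finrank_extension]

/-- The step from `R(X)` back to a local ring `R` with finite residue field. -/
theorem run_RX [Finite (ResidueField R)] {B' : Type u} [CommRing B'] {j : R[X] →+* B'}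
    {ρ' : B' →+* RX R} (hn : Nb (algebraMap R[X] (RX R)) j ρ') (D : ℕ) (hD : 0 < D) :
    ∃ (P : R[X]) (k : ℕ) (ψ' : B' →+* AdjoinRoot P), P.Monic ∧ P.natDegree = D * k + 1 ∧
      Irreducible (P.map (residue R)) ∧ (ψ'.comp j).comp C = AdjoinRoot.of P := by
  obtain ⟨s, hF, hx⟩ := hn.ext
  have hs : s.map (residue R) ≠ 0 := by
    have := hF.map ρ'
    rw [hn.apply] at this
    exact (isUnit_RX_iff R s).1 this
  obtain ⟨Q, q1, q2, q3⟩ := exists_irreducible_degree (ResidueField R)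
    (D * (s.map (residue R)).natDegree + 1) (Nat.succ_ne_zero _)
  have su : Function.Surjective (Polynomial.map (residue R)) :=
    map_surjective _ residue_surjective
  obtain ⟨P, p1, p2, p3⟩ := lifts_and_natDegree_eq_and_monic (f := residue R) (p := Q)
    ((mem_lifts Q).mpr (su Q)) q1
  have hu : IsUnit (AdjoinRoot.mk P s) := by
    obtain ⟨a, b, hab⟩ : IsCoprime Q (s.map (residue R)) :=
      q2.coprime_iff_not_dvd.mpr fun h => absurd (natDegree_le_of_dvd h hs) (by rw [q3]; nlinarith)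
    obtain ⟨a, rfl⟩ := su a
    obtain ⟨b, rfl⟩ := su b
    have := p3.finite_adjoinRoot
    have h1 : a * P + b * s - 1 ∈ mX R := by
      rw [rx_mem_iff, Polynomial.map_sub, Polynomial.map_add, Polynomial.map_mul,
        Polynomial.map_mul, p1, hab, Polynomial.map_one, sub_self]
    have h2 := Ideal.mem_map_of_mem (AdjoinRoot.mk P) h1
    rw [Ideal.map_map, map_sub, map_add, map_mul, map_mul, AdjoinRoot.mk_self, mul_zero, zero_add,
      map_one] at h2
    exact isUnit_of_mul_isUnit_right (isUnit_of_sub_mem_map (R := R) isUnit_one h2)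
  obtain ⟨ψ', e⟩ := hx _ (AdjoinRoot.mk P) hu
  exact ⟨P, _, ψ', p3, p2.trans q3, p1 ▸ q2, by rw [e]; rfl⟩

theorem lp_RX [IsDomain R] : LocPres (algebraMap R[X] (RX R)) 0 :=
  locPres_of_isLocalization (mX R).primeCompl

end Ex

end Pool.Agent.SU
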