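import Pool.Agent.P.MP_c1f06d_ag.su.Rp
import Pool.Agent.P.MP_c1f06d_ag.su.GeoD

open Matrix Polynomial IsLocalRing

universe u

namespace Pool.Agent.SU

open SAlg Pool.Agent.P.MP_c1f06d_ag

variable {B O : Type u} [CommRing B] [CommRing O] {ρ : B →+* O} {N d : ℕ}

theorem locPres_lift (h : LocPres ρ 0) {S : Type u} [CommRing S] (ψ : B →+* S)
    (hψ : ∀ F, IsUnit (ρ F) → IsUnit (ψ F)) : ∃ ψ' : O →+* S, ψ'.comp ρ = ψ := by
  let := ρ.toAlgebra
  have : IsLocalization ((IsUnit.submonoid O).comap ρ) O := by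
    refine (isLocalization_iff _ _).2 ⟨fun y => y.2, fun r => ?_, fun {x y} e => ?_⟩
    · obtain ⟨a, s, hs, e⟩ := h.surj r
      exact ⟨(a, ⟨s, hs⟩), e⟩
    · obtain ⟨s, hs, hd⟩ := h.ker (x - y) (by rw [map_sub]; exact sub_eq_zero.2 e)
      exact ⟨⟨s, hs⟩, sub_eq_zero.1 ((mul_sub s x y).symm.trans (zero_dvd_iff.1 hd))⟩
  exact ⟨IsLocalization.lift (M := (IsUnit.submonoid O).comap ρ) (g := ψ) fun y => hψ _ y.2,
    IsLocalization.lift_comp _⟩

/-- The generic matrices. -/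
noncomputable def spr_X (B : Type u) [CommRing B] (N d : ℕ) (i : Fin N) :
    Matrix (Fin d) (Fin d) (MvPolynomial (Fin N × Fin d × Fin d) B) :=
  of fun p q => MvPolynomial.X (i, p, q)

theorem spr_sum_map {T T' : Type u} [CommRing T] [CommRing T'] (f : T →+* T') (a : Fin N → T)
    (M : Fin N → Matrix (Fin d) (Fin d) T) :
    (∑ i, a i • M i).map f = ∑ i, f (a i) • (M i).map f := by
  ext; simp [Matrix.sum_apply]

/-- The universal representation. -/
theorem spr_univ (d : ℕ) (A : SAlg B N) : ∃ (U : Type u) (_ : CommRing U) (rU : Rep d A U),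
    ∀ (T : Type u) [CommRing T] (r : Rep d A T), ∃ g : U →+* T, g.comp rU.f = r.f ∧
      ∀ x, (rU.φ x).map g = r.φ x := by
  let c : B →+* MvPolynomial (Fin N × Fin d × Fin d) B := MvPolynomial.C
  let u1 : Matrix (Fin d) (Fin d) (MvPolynomial (Fin N × Fin d × Fin d) B) :=
    ∑ i, c (A.one i) • spr_X B N d i - 1
  let u2 : Fin N → Fin N → Matrix (Fin d) (Fin d) (MvPolynomial (Fin N × Fin d × Fin d) B) :=
    fun i j => spr_X B N d i * spr_X B N d j - ∑ a, c (A.L i a j) • spr_X B N d a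
  let I : Ideal (MvPolynomial (Fin N × Fin d × Fin d) B) :=
    Ideal.span {t | (∃ p q, t = u1 p q) ∨ ∃ i j p q, t = u2 i j p q}
  have m1 : ∀ {T : Type u} [CommRing T] (g : MvPolynomial (Fin N × Fin d × Fin d) B →+* T),
      u1.map g = ∑ i, g (c (A.one i)) • (spr_X B N d i).map g - 1 := fun g => by
    rw [Matrix.map_sub _ (map_sub g), spr_sum_map, Matrix.map_one _ (map_zero g) (map_one g)]
  have m2 : ∀ {T : Type u} [CommRing T] (g : MvPolynomial (Fin N × Fin d × Fin d) B →+* T) i j,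
      (u2 i j).map g = (spr_X B N d i).map g * (spr_X B N d j).map g -
        ∑ a, g (c (A.L i a j)) • (spr_X B N d a).map g := fun g i j => by
    rw [Matrix.map_sub _ (map_sub g), spr_sum_map, Matrix.map_mul]
  refine ⟨_ ⧸ I, inferInstance, Rep.ofBasis A ((Ideal.Quotient.mk I).comp c)
    (fun i => (spr_X B N d i).map (Ideal.Quotient.mk I)) ?_ fun i j => ?_, fun T _ r => ?_⟩
  · rw [← sub_eq_zero]
    refine (m1 (Ideal.Quotient.mk I)).symm.trans (Matrix.ext fun p q => ?_)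
    exact Ideal.Quotient.eq_zero_iff_mem.2 (Ideal.subset_span (Or.inl ⟨p, q, rfl⟩))
  · rw [← sub_eq_zero]
    refine (m2 (Ideal.Quotient.mk I) i j).symm.trans (Matrix.ext fun p q => ?_)
    exact Ideal.Quotient.eq_zero_iff_mem.2 (Ideal.subset_span (Or.inr ⟨i, j, p, q, rfl⟩))
  · let g0 : MvPolynomial (Fin N × Fin d × Fin d) B →+* T :=
      MvPolynomial.eval₂Hom r.f fun v => r.φ (A.e v.1) v.2.1 v.2.2
    have gC : ∀ t, g0 (c t) = r.f t := fun t => MvPolynomial.eval₂Hom_C _ _ t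
    have gX : ∀ i, (spr_X B N d i).map g0 = r.φ (A.e i) := fun i =>
      Matrix.ext fun p q => MvPolynomial.eval₂Hom_X' _ _ _
    have hI : ∀ t ∈ I, g0 t = 0 := by
      refine fun t ht => RingHom.mem_ker.1 (Ideal.span_le.2 ?_ ht)
      rintro _ (⟨p, q, rfl⟩ | ⟨i, j, p, q, rfl⟩)
      · have := m1 g0
        simp only [gC, gX, r.basis_one, sub_self] at this
        exact congrFun (congrFun this p) q
      · have := m2 g0 i j
        simp only [gC, gX, r.basis_mul, sub_self] at this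
        exact congrFun (congrFun this p) q
    refine ⟨Ideal.Quotient.lift I g0 hI, RingHom.ext gC, fun x => ?_⟩
    rw [Rep.ofBasis_φ, spr_sum_map, r.eq_sum x]
    exact Finset.sum_congr rfl fun i _ => congrArg₂ _ (gC _) (gX i)

theorem isNrd_spread (h : LocPres ρ 0) (A : SAlg B N) {b z : A.Car}
    (H : IsNrd d (A.bc ρ b) (A.bc ρ z)) :
    ∃ (B' : Type u) (_ : CommRing B') (j : B →+* B') (ρ' : B' →+* O), Nb ρ j ρ' ∧
      IsNrd d (A.bc j b) (A.bc j z) := by
  obtain ⟨U, _, rU, hU⟩ := spr_univ d A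
  let M : Submonoid U := ((IsUnit.submonoid O).comap ρ).map rU.f
  obtain ⟨ψ, hψ⟩ := locPres_lift h (rU.post (algebraMap U (Localization M))).f fun F hF =>
    IsLocalization.map_units (Localization M) (⟨rU.f F, F, hF, rfl⟩ : M)
  have key : ∀ {T : Type u} [CommRing T] (g : U →+* T),
      (rU.φ z - (rU.φ b).det • (1 : Matrix (Fin d) (Fin d) U)).map g =
        (rU.φ z).map g - ((rU.φ b).map g).det • 1 := fun g => by
    rw [← RingHom.mapMatrix_apply g (rU.φ b), ← RingHom.map_det]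
    ext p q
    by_cases e : p = q <;> simp [e]
  have h1 := H _ ((rU.post (algebraMap U (Localization M))).lift ρ ψ hψ)
  rw [Rep.lift_bc, Rep.lift_bc, Rep.post_φ, Rep.post_φ, ← sub_eq_zero, ← key] at h1
  have h2 : ∀ p : Fin d × Fin d, ∃ F, IsUnit (ρ F) ∧
      rU.f F * (rU.φ z - (rU.φ b).det • (1 : Matrix (Fin d) (Fin d) U)) p.1 p.2 = 0 := fun p => by
    obtain ⟨⟨_, F, hF, rfl⟩, e⟩ := (IsLocalization.map_eq_zero_iff M (Localization M) _).1
      (congrFun (congrFun h1 p.1) p.2)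
    exact ⟨F, hF, e⟩
  choose F hF e using h2
  obtain ⟨B', _, j, ρ', hn, hu⟩ := exists_nb_unit h (∏ p, F p)
    (by rw [map_prod]; exact IsUnit.prod_iff.2 fun p _ => hF p)
  refine ⟨B', inferInstance, j, ρ', hn, fun T _ r => ?_⟩
  obtain ⟨g, hg, hφ⟩ := hU T (r.comap j)
  rw [← Rep.comap_φ, ← Rep.comap_φ, ← hφ, ← hφ, ← sub_eq_zero, ← key]
  ext p q
  rw [map_prod] at hu
  have h3 : IsUnit (g (rU.f (F (p, q)))) := by
    rw [← RingHom.comp_apply, hg]
    exact (IsUnit.prod_iff.1 hu (p, q) (Finset.mem_univ _)).map r.f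
  refine h3.mul_right_eq_zero.1 ?_
  rw [Matrix.map_apply, ← map_mul, e (p, q), map_zero]

theorem spr_eq (h : LocPres ρ 0) (A : SAlg B N) {ι : Type} [Finite ι] (x y : ι → A.Car)
    (e : ∀ i, A.bc ρ (x i) = A.bc ρ (y i)) :
    ∃ (B' : Type u) (_ : CommRing B') (j : B →+* B') (ρ' : B' →+* O), Nb ρ j ρ' ∧
      ∀ i, A.bc j (x i) = A.bc j (y i) := by
  obtain ⟨B', _, j, ρ', hn, e'⟩ := exists_nb_eq h (fun p : ι × Fin N => (x p.1).co p.2)
    (fun p => (y p.1).co p.2) fun p => congrFun (congrArg Car.co (e p.1)) p.2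
  exact ⟨B', inferInstance, j, ρ', hn, fun i => Car.ext (funext fun k => e' (i, k))⟩

theorem spr_lift (h : LocPres ρ 0) (A : SAlg B N) {ι : Type} [Finite ι]
    (x : ι → (A.map ρ).Car) :
    ∃ (B' : Type u) (_ : CommRing B') (j : B →+* B') (ρ' : B' →+* O), Nb ρ j ρ' ∧
      ∃ y : ι → (A.map j).Car, ∀ i, ρ' ∘ (y i).co = (x i).co := by
  obtain ⟨B', _, j, ρ', hn, a, e⟩ := exists_nb_lift h fun p : ι × Fin N => (x p.1).co p.2
  exact ⟨B', inferInstance, j, ρ', hn, fun i => ⟨fun k => a (i, k)⟩,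
    fun i => funext fun k => e (i, k)⟩

theorem triv_spread (h : LocPres ρ 0) (A : SAlg B N) {s z : A.Car}
    (H : Triv d (A.bc ρ s) (A.bc ρ z)) :
    ∃ (B' : Type u) (_ : CommRing B') (j : B →+* B') (ρ' : B' →+* O), Nb ρ j ρ' ∧
      Triv d (A.bc j s) (A.bc j z) := by
  obtain ⟨b, hb, hz⟩ := H
  obtain ⟨B1, _, j1, ρ1, n1, y, hy⟩ := spr_lift h A fun _ : Unit => b
  obtain rfl := n1.comp
  obtain rfl : (A.map j1).bc ρ1 (y ()) = b := Car.ext (hy ())
  obtain ⟨B2, _, j2, ρ2, n2, e2⟩ := spr_eq n1.lp (A.map j1) (fun _ : Unit => A.bc j1 s)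
    (fun _ => y () * star (y ())) fun _ => by rw [map_mul, bc_star]; exact hb
  obtain rfl := n2.comp
  obtain ⟨B3, _, j3, ρ3, n3, e3⟩ := isNrd_spread (d := d) n2.lp ((A.map j1).map j2)
    (b := (A.map j1).bc j2 (y ())) (z := (A.map j1).bc j2 (A.bc j1 z)) hz
  refine ⟨B3, inferInstance, _, ρ3, (n1.trans n2).trans n3, _, ?_, e3⟩
  have := congrArg (((A.map j1).map j2).bc j3) (e2 ())
  rw [map_mul, map_mul, bc_star, bc_star] at this
  exact this

/-- Index set of the laws of `SAlg`. -/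
abbrev spr_Ix (N : ℕ) : Type :=
  ((Fin N × Fin N) × Fin N × Fin N) ⊕ (Fin N × Fin N) ⊕ (Fin N × Fin N) ⊕ (Fin N × Fin N) ⊕
    (Fin N × Fin N × Fin N)

/-- The laws of `SAlg`, as differences. -/
def spr_ax {T : Type u} [CommRing T] (L : Fin N → Matrix (Fin N) (Fin N) T) (o : Fin N → T)
    (st : Matrix (Fin N) (Fin N) T) : spr_Ix N → T
  | .inl p => (L p.1.1 * L p.1.2 - ∑ a, L p.1.1 a p.1.2 • L a) p.2.1 p.2.2
  | .inr (.inl p) => (∑ i, o i • L i - 1 : Matrix (Fin N) (Fin N) T) p.1 p.2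
  | .inr (.inr (.inl p)) => (L p.1 *ᵥ o) p.2 - (1 : Matrix (Fin N) (Fin N) T) p.2 p.1
  | .inr (.inr (.inr (.inl p))) => (st * st - 1 : Matrix (Fin N) (Fin N) T) p.1 p.2
  | .inr (.inr (.inr (.inr p))) =>
      (st * L p.1) p.2.2 p.2.1 - ((∑ a, st a p.2.1 • L a) * st) p.2.2 p.1

theorem spr_ax_map {T T' : Type u} [CommRing T] [CommRing T'] (f : T →+* T')
    (L : Fin N → Matrix (Fin N) (Fin N) T) (o : Fin N → T) (st : Matrix (Fin N) (Fin N) T)
    (k : spr_Ix N) :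
    f (spr_ax L o st k) = spr_ax (fun i => (L i).map f) (f ∘ o) (st.map f) k := by
  rcases k with p | p | p | p | p <;>
    simp [spr_ax, Matrix.mul_apply, Matrix.sum_apply, Matrix.one_apply, mulVec, dotProduct,
      apply_ite f]

theorem spr_ax_zero {T : Type u} [CommRing T] (A : SAlg T N) (k : spr_Ix N) :
    spr_ax A.L A.one A.st k = 0 := by
  rcases k with p | p | p | p | p
  · simp only [spr_ax, A.L_mul, sub_self, Matrix.zero_apply]
  · simp only [spr_ax, A.one_L, sub_self, Matrix.zero_apply]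
  · simp only [spr_ax, A.L_one, Pi.single_apply, Matrix.one_apply, sub_self]
  · simp only [spr_ax, A.st_st, sub_self, Matrix.zero_apply]
  · simp only [spr_ax, A.st_L, sub_self]

theorem spr_model (h : LocPres ρ 0) (A : SAlg O N) :
    ∃ (B' : Type u) (_ : CommRing B') (j : B →+* B') (ρ' : B' →+* O), Nb ρ j ρ' ∧
      ∃ A0 : SAlg B' N, A0.map ρ' = A := by
  obtain ⟨B1, _, j1, ρ1, n1, a, ha⟩ := exists_nb_lift h
    (Sum.elim (fun p : Fin N × Fin N × Fin N => A.L p.1 p.2.1 p.2.2)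
      (Sum.elim A.one fun p : Fin N × Fin N => A.st p.1 p.2))
  let L : Fin N → Matrix (Fin N) (Fin N) B1 := fun i => of fun p q => a (.inl (i, p, q))
  let o : Fin N → B1 := fun i => a (.inr (.inl i))
  let st : Matrix (Fin N) (Fin N) B1 := of fun p q => a (.inr (.inr (p, q)))
  have hL : (fun i => (L i).map ρ1) = A.L := funext fun i => Matrix.ext fun p q => ha _
  have ho : ρ1 ∘ o = A.one := funext fun i => ha _
  have hs : st.map ρ1 = A.st := Matrix.ext fun p q => ha _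
  obtain ⟨B2, _, j2, ρ2, n2, e⟩ := exists_nb_eq n1.lp (spr_ax L o st) (fun _ => 0) fun k => by
    rw [spr_ax_map, hL, ho, hs, spr_ax_zero, map_zero]
  simp only [spr_ax_map, map_zero] at e
  refine ⟨B2, inferInstance, _, ρ2, n1.trans n2, ⟨fun i => (L i).map j2, j2 ∘ o, st.map j2,
    fun i j => sub_eq_zero.1 (Matrix.ext fun p q => e (.inl ((i, j), p, q))),
    sub_eq_zero.1 (Matrix.ext fun p q => e (.inr (.inl (p, q)))),
    fun i => funext fun k => ?_,
    sub_eq_zero.1 (Matrix.ext fun p q => e (.inr (.inr (.inr (.inl (p, q)))))),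
    fun i j k => sub_eq_zero.1 (e (.inr (.inr (.inr (.inr (i, j, k))))))⟩, ?_⟩
  · rw [sub_eq_zero.1 (e (.inr (.inr (.inl (i, k))))), Pi.single_apply, Matrix.one_apply]
  · obtain rfl := n2.comp
    cases A
    obtain rfl := hL
    obtain rfl := ho
    obtain rfl := hs
    rfl

theorem exists_model (h : LocPres ρ 0) (A : SAlg O N) {s z : A.Car} (H : Adm d s z) :
    ∃ (B' : Type u) (_ : CommRing B') (j : B →+* B') (ρ' : B' →+* O), Nb ρ j ρ' ∧
      ∃ (A0 : SAlg B' N) (s0 z0 : A0.Car), A0.map ρ' = A ∧ ρ' ∘ s0.co = s.co ∧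
        ρ' ∘ z0.co = z.co ∧ Adm d s0 z0 := by
  obtain ⟨B1, _, j1, ρ1, n1, A1, rfl⟩ := spr_model h A
  obtain ⟨h1, h2, h3, h4⟩ := H
  obtain ⟨t, ht⟩ := h2.exists_right_inv
  obtain ⟨B2, _, j2, ρ2, n2, y, hy⟩ := spr_lift n1.lp A1 ![s, z, t]
  obtain rfl := n2.comp
  obtain rfl : (A1.map j2).bc ρ2 (y 0) = s := Car.ext (hy 0)
  obtain rfl : (A1.map j2).bc ρ2 (y 1) = z := Car.ext (hy 1)
  obtain rfl : (A1.map j2).bc ρ2 (y 2) = t := Car.ext (hy 2)
  let A2 := A1.map j2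
  obtain ⟨B3, _, j3, ρ3, n3, e3⟩ := spr_eq n2.lp A2
    (Sum.elim ![star (y 0), y 0 * y 2] fun i => y 1 * A2.e i)
    (Sum.elim ![y 0, 1] fun i => A2.e i * y 1) (by
      rintro (i | i)
      · fin_cases i
        · exact (bc_star _ _).trans h1
        · exact (map_mul _ _ _).trans (ht.trans (map_one _).symm)
      · exact (map_mul (A2.bc ρ2) _ _).trans ((h3 _).trans (map_mul (A2.bc ρ2) _ _).symm))
  obtain rfl := n3.comp
  obtain ⟨B4, _, j4, ρ4, n4, e4⟩ := isNrd_spread (d := d) n3.lp (A2.map j3)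
    (b := A2.bc j3 (y 0)) (z := A2.bc j3 (y 1 * star (y 1))) (by
      rw [bc_bc, bc_bc, map_mul, bc_star]; exact h4)
  obtain rfl := n4.comp
  have a1 : star (A2.bc j3 (y 0)) = A2.bc j3 (y 0) := (bc_star _ _).symm.trans (e3 (.inl 0))
  have a2 : IsUnit (A2.bc j3 (y 0)) := isUnit_of_mul_eq_one (y := A2.bc j3 (y 2))
    ((map_mul _ _ _).symm.trans ((e3 (.inl 1)).trans (map_one _)))
  have a3 : Cen (A2.bc j3 (y 1)) := cen_of_e fun i => by
    rw [← bc_e, ← map_mul, ← map_mul]; exact e3 (.inr i)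
  refine ⟨B4, inferInstance, _, ρ4, ((n1.trans n2).trans n3).trans n4, (A2.map j3).map j4,
    (A2.map j3).bc j4 (A2.bc j3 (y 0)), (A2.map j3).bc j4 (A2.bc j3 (y 1)), rfl, rfl, rfl,
    (bc_star _ _).symm.trans (congrArg _ a1), a2.map _, a3.bc _, ?_⟩
  rwa [map_mul, map_mul, bc_star, bc_star] at e4

end Pool.Agent.SU
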