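import Pool.Agent.P.MP_c1f06d_ag.su.CDefs
import Pool.Agent.P.MP_c1f06d_ag.su.Spr

open Matrix Polynomial IsLocalRing TensorProduct

universe u

namespace Pool.Agent.SU

open SAlg Pool.Agent.P.MP_c1f06d_ag

variable {B O : Type u} [CommRing B] [CommRing O] {ρ : B →+* O} {N : ℕ}

theorem cspr_sep_of_e {A : SAlg B N} (v : Fin N → A.Car) (h1 : ∑ i, A.e i * v i = 1)
    (h2 : ∀ k a, v a * A.e k = ∑ i, (A.e k * A.e i).co a • v i) : Sep A :=
  ⟨v, h1, fun x a => by
    rw [eq_sum x]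
    simp only [Finset.mul_sum, Finset.sum_mul, mul_smul_comm, smul_mul_assoc, h2, co_sum, co_smul,
      Finset.sum_apply, Pi.smul_apply, smul_eq_mul, Finset.sum_smul, Finset.smul_sum, smul_smul]
    exact Finset.sum_comm⟩

theorem cspr_co {B' : Type u} [CommRing B'] (A : SAlg B N) (f : B →+* B') (k i a : Fin N) :
    f ((A.e k * A.e i).co a) = ((A.map f).e k * (A.map f).e i).co a := by
  rw [← bc_e, ← bc_e, ← map_mul]
  rfl

theorem cspr_sep (h : LocPres ρ 0) (A : SAlg B N) (H : Sep (A.map ρ)) :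
    ∃ (B' : Type u) (_ : CommRing B') (j : B →+* B') (ρ' : B' →+* O), Nb ρ j ρ' ∧
      Sep (A.map j) := by
  obtain ⟨v, h1, h2⟩ := H
  obtain ⟨B1, _, j1, ρ1, n1, y, hy⟩ := spr_lift h A v
  obtain rfl := n1.comp
  obtain rfl : (fun i => (A.map j1).bc ρ1 (y i)) = v := funext fun i => Car.ext (hy i)
  obtain ⟨B2, _, j2, ρ2, n2, e2⟩ := spr_eq n1.lp (A.map j1)
    (fun o : Option (Fin N × Fin N) => o.elim (∑ i, (A.map j1).e i * y i)
      fun p => y p.2 * (A.map j1).e p.1)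
    (fun o => o.elim 1 fun p => ∑ i, ((A.map j1).e p.1 * (A.map j1).e i).co p.2 • y i) (by
      rintro (_ | p)
      · simp only [Option.elim, map_sum, map_mul, bc_e, map_one]
        exact h1
      · simp only [Option.elim, map_sum, map_mul, bc_e, bc_smul, cspr_co]
        exact h2 _ _)
  refine ⟨B2, inferInstance, _, ρ2, n1.trans n2,
    cspr_sep_of_e (A := (A.map j1).map j2) (fun i => (A.map j1).bc j2 (y i)) ?_ fun k a => ?_⟩
  · simpa only [Option.elim, map_sum, map_mul, bc_e, map_one] using e2 none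
  · simpa only [Option.elim, map_sum, map_mul, bc_e, bc_smul, cspr_co] using e2 (some (k, a))

theorem cspr_half (h : LocPres ρ 0) (A : SAlg B N) {P : Matrix (Fin N) (Fin N) O}
    (H : Half (A.map ρ) P) :
    ∃ (B' : Type u) (_ : CommRing B') (j : B →+* B') (ρ' : B' →+* O), Nb ρ j ρ' ∧
      ∃ P', Half (A.map j) P' := by
  obtain ⟨B1, _, j1, ρ1, n1, a, ha⟩ := exists_nb_lift h fun p : Fin N × Fin N => P p.1 p.2
  obtain rfl := n1.comp
  let P1 : Matrix (Fin N) (Fin N) B1 := of fun k l => a (k, l)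
  obtain rfl : P1.map ρ1 = P := Matrix.ext fun k l => ha (k, l)
  let z : Option (Fin N) → (A.map j1).Car := fun o =>
    o.elim 1 fun i => (A.map j1).e i + star ((A.map j1).e i)
  obtain ⟨B2, _, j2, ρ2, n2, e2⟩ := spr_eq n1.lp (A.map j1)
    (fun o => ap (A.map j1) P1 (z o) + star (ap (A.map j1) P1 (z o))) z (by
      rintro (_ | i)
      · simp only [z, Option.elim, map_add, bc_star, bc_ap, map_one]
        exact H.2
      · simp only [z, Option.elim, map_add, bc_star, bc_ap, bc_e]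
        exact H.1 i)
  refine ⟨B2, inferInstance, _, ρ2, n1.trans n2, P1.map j2,
    (⟨fun i => ?_, ?_⟩ : Half ((A.map j1).map j2) _)⟩
  · simpa only [z, Option.elim, map_add, bc_star, bc_ap, bc_e] using e2 (some i)
  · simpa only [z, Option.elim, map_add, bc_star, bc_ap, map_one] using e2 none

theorem cspr_alt (h : LocPres ρ 0) (A : SAlg B N) {m : ℕ} {s : Fin m → (A.map ρ).Car}
    {G : Fin m → Fin N → Fin N → O} (H : AltD (A.map ρ) s G) :
    ∃ (B' : Type u) (_ : CommRing B') (j : B →+* B') (ρ' : B' →+* O), Nb ρ j ρ' ∧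
      ∃ (s' : Fin m → (A.map j).Car) (G' : Fin m → Fin N → Fin N → B'), AltD (A.map j) s' G' := by
  obtain ⟨B1, _, j1, ρ1, n1, a, ha⟩ := exists_nb_lift h
    (Sum.elim (fun p : Fin m × Fin N => (s p.1).co p.2)
      fun p : Fin m × Fin N × Fin N => G p.1 p.2.1 p.2.2)
  obtain rfl := n1.comp
  let y : Fin m → (A.map j1).Car := fun j => ⟨fun k => a (.inl (j, k))⟩
  let G1 : Fin m → Fin N → Fin N → B1 := fun j k l => a (.inr (j, k, l))
  obtain rfl : (fun j => (A.map j1).bc ρ1 (y j)) = s :=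
    funext fun j => Car.ext (funext fun k => ha (.inl (j, k)))
  obtain rfl : (fun j k l => ρ1 (G1 j k l)) = G :=
    funext fun j => funext fun k => funext fun l => ha (.inr (j, k, l))
  obtain ⟨B2, _, j2, ρ2, n2, e2⟩ := spr_eq n1.lp (A.map j1)
    (fun o : Option (Fin m ⊕ Fin m × Fin N) => o.elim (∑ j, sand (G1 j) (y j))
      (Sum.elim (fun j => y j + star (y j))
        fun p => sand (G1 p.1) ((A.map j1).e p.2 + star ((A.map j1).e p.2))))
    (fun o => o.elim 1 fun _ => 0) (by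
      rintro (_ | j | p)
      · simp only [Option.elim, map_sum, bc_sand, map_one]
        exact H.2.2
      · simp only [Option.elim, Sum.elim_inl, map_add, bc_star, map_zero]
        exact H.1 j
      · simp only [Option.elim, Sum.elim_inr, bc_sand, map_add, bc_star, bc_e, map_zero]
        exact H.2.1 _ _)
  refine ⟨B2, inferInstance, _, ρ2, n1.trans n2, fun j => (A.map j1).bc j2 (y j),
    fun j k l => j2 (G1 j k l), (⟨fun j => ?_, fun j i => ?_, ?_⟩ : AltD ((A.map j1).map j2) _ _)⟩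
  · simpa only [Option.elim, Sum.elim_inl, map_add, bc_star, map_zero] using e2 (some (.inl j))
  · simpa only [Option.elim, Sum.elim_inr, bc_sand, map_add, bc_star, bc_e, map_zero]
      using e2 (some (.inr (j, i)))
  · simpa only [Option.elim, map_sum, bc_sand, map_one] using e2 none

theorem cd_spread (h : LocPres ρ 0) (A : SAlg B N) (H : CD (A.map ρ)) :
    ∃ (B' : Type u) (_ : CommRing B') (j : B →+* B') (ρ' : B' →+* O), Nb ρ j ρ' ∧
      CD (A.map j) := by
  obtain ⟨h1, ⟨P, h2⟩, m, s, G, h3⟩ := H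
  obtain ⟨B1, _, j1, ρ1, n1, k1⟩ := cspr_sep h A h1
  obtain rfl := n1.comp
  obtain ⟨B2, _, j2, ρ2, n2, P', k2⟩ := cspr_half n1.lp (A.map j1) h2
  obtain rfl := n2.comp
  obtain ⟨B3, _, j3, ρ3, n3, s', G', k3⟩ := cspr_alt n2.lp ((A.map j1).map j2) h3
  exact ⟨B3, inferInstance, _, ρ3, (n1.trans n2).trans n3, (k1.map j2).map j3, ⟨_, k2.map j3⟩,
    m, s', G', k3⟩

theorem isN_spread (h : LocPres ρ 0) (A : SAlg B N) {s : A.Car} (H : IsN (A.bc ρ s)) :
    ∃ (B' : Type u) (_ : CommRing B') (j : B →+* B') (ρ' : B' →+* O), Nb ρ j ρ' ∧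
      IsN (A.bc j s) := by
  obtain ⟨b, hb⟩ := H
  obtain ⟨B1, _, j1, ρ1, n1, y, hy⟩ := spr_lift h A fun _ : Unit => b
  obtain rfl := n1.comp
  obtain rfl : (A.map j1).bc ρ1 (y ()) = b := Car.ext (hy ())
  obtain ⟨B2, _, j2, ρ2, n2, e2⟩ := spr_eq n1.lp (A.map j1) (fun _ : Unit => star (y ()) * y ())
    (fun _ => A.bc j1 s) fun _ => by rw [map_mul, bc_star]; exact hb
  refine ⟨B2, inferInstance, _, ρ2, n1.trans n2, (A.map j1).bc j2 (y ()), ?_⟩
  have := e2 ()
  rw [map_mul, bc_star] at this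
  exact this

theorem exists_modelC (h : LocPres ρ 0) (A : SAlg O N) (H : CD A) (q : A.Car) :
    ∃ (B' : Type u) (_ : CommRing B') (j : B →+* B') (ρ' : B' →+* O), Nb ρ j ρ' ∧
      ∃ (A0 : SAlg B' N) (q0 : A0.Car), A0.map ρ' = A ∧ ρ' ∘ q0.co = q.co ∧ CD A0 := by
  obtain ⟨B1, _, j1, ρ1, n1, A1, rfl⟩ := spr_model h A
  obtain ⟨B2, _, j2, ρ2, n2, y, hy⟩ := spr_lift n1.lp A1 fun _ : Unit => q
  obtain rfl := n2.comp
  obtain ⟨B3, _, j3, ρ3, n3, k3⟩ := cd_spread n2.lp (A1.map j2) H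
  obtain rfl := n3.comp
  exact ⟨B3, inferInstance, _, ρ3, (n1.trans n2).trans n3, (A1.map j2).map j3,
    (A1.map j2).bc j3 (y ()), rfl, hy (), k3⟩

end Pool.Agent.SU
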