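import Pool.Agent.P.MP_c1f06d_ag.su.VBez
import Pool.Agent.P.MP_c1f06d_ag.OddA

namespace Pool.Agent.SU

open IsLocalRing Pool.Agent.P.MP_c1f06d_ag

section
variable {A : Type*} [Ring A] [StarRing A]

/-- The matrix whose first column is `v` and whose other columns vanish. -/
def ucol (v : Fin 3 → A) : Matrix (Fin 3) (Fin 3) A := Matrix.of fun i j => if j = 0 then v i else 0

theorem ucol_form (t u v : Fin 3 → A) :
    star (ucol u) * Matrix.diagonal t * ucol v =
      Matrix.single 0 0 (star (u 0) * t 0 * v 0 + star (u 1) * t 1 * v 1 +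
        star (u 2) * t 2 * v 2) := by
  ext i j
  rw [Matrix.mul_apply, Fin.sum_univ_three]
  simp only [Matrix.mul_diagonal, Matrix.star_apply, ucol, Matrix.of_apply, Matrix.single_apply]
  by_cases hi : i = 0 <;> by_cases hj : j = 0 <;> simp [hi, hj, eq_comm]

theorem ucol_qa (t u : Fin 3 → A) : qa (Matrix.diagonal t) (ucol u) =
    Matrix.single 0 0 (star (u 0) * t 0 * u 0 + star (u 1) * t 1 * u 1 +
      star (u 2) * t 2 * u 2) := ucol_form t u u

theorem ucol_ba (t u v : Fin 3 → A) : ba (Matrix.diagonal t) (ucol u) (ucol v) =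
    Matrix.single 0 0 (star (u 0) * (t 0 + star (t 0)) * v 0 +
      star (u 1) * (t 1 + star (t 1)) * v 1 + star (u 2) * (t 2 + star (t 2)) * v 2) := by
  rw [ba, Matrix.star_eq_conjTranspose (Matrix.diagonal t), Matrix.diagonal_conjTranspose,
    Matrix.diagonal_add, ucol_form]
  rfl

omit [StarRing A] in
theorem ucol_mul_single (v : Fin 3 → A) : ucol v * Matrix.single 0 0 1 = ucol v := by
  ext i j
  by_cases hj : j = 0
  · rw [hj, Matrix.mul_single_apply_same, mul_one]
  · rw [Matrix.mul_single_apply_of_ne (hbj := hj)]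
    simp [ucol, hj]

omit [StarRing A] in
theorem mul_ucol (g : Matrix (Fin 3) (Fin 3) A) (v : Fin 3 → A) :
    g * ucol v = ucol (g.mulVec v) := by
  ext i j
  by_cases hj : j = 0 <;> simp [ucol, Matrix.mul_apply, Matrix.mulVec, dotProduct, hj]

theorem mat_mem_single {L : FP A} {x : A} (hx : L.Mem x) :
    (L.mat (Fin 3)).Mem (Matrix.single 0 0 x) := by
  refine ⟨?_, fun i => ?_⟩
  · rw [Matrix.star_eq_conjTranspose, Matrix.conjTranspose_single, ← Matrix.single_add,
      hx.add_star, Matrix.single_zero]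
  · by_cases hi : i = 0
    · rw [hi, Matrix.single_apply_same]; exact hx
    · rw [Matrix.single_apply_of_ne _ _ _ _ _ (fun h => hi h.1.symm)]; exact L.zero

/-- Two forms of rank one whose difference has a unimodular isotropic vector are isometric. -/
theorem iso_of_unimod {κ D : Type*} [Field κ] [Ring D] [Algebra κ D] [FiniteDimensional κ D]
    [IsSemisimpleRing D] (ρ : A →+* D) (hρ : Function.Surjective ρ)
    (hu : ∀ x, IsUnit (ρ x) → IsUnit x) (L : FP A) {q l x0 y0 r1 r2 : A}
    (hq : IsUnit (q + star q)) (hl : IsUnit (l + star l)) (hr : r1 * x0 + r2 * y0 = 1)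
    (e : L.Mem (star y0 * l * y0 - star x0 * q * x0)) : ∃ x, L.Mem (star x * l * x - q) := by
  obtain ⟨b, hb⟩ := hq
  obtain ⟨c, hc⟩ := hl
  have hρ' : Function.Surjective (ρ.mapMatrix : Matrix (Fin 3) (Fin 3) A →+* _) := fun M => by
    choose N hN using fun i j => hρ (M i j)
    exact ⟨Matrix.of N, by ext i j; exact hN i j⟩
  have hn : -q + star (-q) = -↑b := by rw [star_neg, hb, neg_add]
  obtain ⟨σ, hσ, hσg⟩ := frames_conjA (κ := κ) (L := L.mat (Fin 3))
    (Θ := Matrix.diagonal ![l, -q, q]) (π := Matrix.single 0 0 1) ρ.mapMatrix hρ'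
    (mat_unit_lift ρ hρ hu)
    (by rw [Matrix.star_eq_conjTranspose, Matrix.conjTranspose_single, star_one])
    (by rw [Matrix.single_mul_single_same, mul_one])
    (E := ucol ![y0, x0, 0]) (F := ucol ![↑c⁻¹ * star r2, -(↑b⁻¹ * star r1), 0])
    (E1 := ucol ![0, 1, 1]) (F1 := ucol ![0, 0, ↑b⁻¹]) (y := ucol ![1, 0, 0])
    (ucol_mul_single _)
    (by
      rw [ucol_qa]
      refine mat_mem_single (e.of_eq ?_)
      simp [sub_eq_add_neg])
    (by
      rw [ucol_ba]
      congr 1
      have := congrArg star hr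
      rw [star_add, star_mul, star_mul, star_one] at this
      simp only [Matrix.cons_val_zero, Matrix.cons_val_one, Matrix.cons_val, hn, ← hc, mul_assoc,
        Units.mul_inv_cancel_left, neg_mul_neg, mul_zero, add_zero]
      rw [add_comm, this])
    (ucol_mul_single _)
    (by
      rw [ucol_qa]
      refine mat_mem_single (L.zero.of_eq ?_)
      simp)
    (by
      rw [ucol_ba]
      congr 1
      simp [← hb])
    (by rw [ucol_ba]; simp)
    (by
      have hyy : ba (Matrix.diagonal ![l, -q, q]) (ucol ![1, 0, 0]) (ucol ![1, 0, 0]) =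
          Matrix.single 0 0 ↑c := by
        rw [ucol_ba]; simp [hc]
      refine fullEl_of_sum (fun i => ρ.mapMatrix (Matrix.single i 0 (c⁻¹).1))
        (fun i => ρ.mapMatrix (Matrix.single 0 i 1)) ?_
      simp only [hyy, ← map_mul, Matrix.single_mul_single_same, Units.inv_mul, mul_one]
      rw [← map_sum, Matrix.sum_single_one, map_one])
  have h1 := hσ.ba (ucol ![y0, x0, 0]) (ucol ![0, 0, 1])
  have h2 := (hσ.qa (ucol ![0, 0, 1])).2 0
  rw [hσg, mul_ucol, ucol_ba, ucol_ba] at h1
  rw [mul_ucol, ucol_qa, ucol_qa] at h2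
  generalize σ.mulVec ![0, 0, 1] = n at h1 h2
  have h3 := congrFun (congrFun h1 0) 0
  simp only [Matrix.single_apply_same, Matrix.cons_val_zero, Matrix.cons_val_one, Matrix.cons_val,
    hn, ← hb, star_zero, star_one, zero_mul, mul_zero, one_mul, zero_add, add_zero, neg_mul,
    neg_add_eq_zero, Units.mul_right_inj] at h3
  refine ⟨n 0, h2.of_eq ?_⟩
  simp [h3]

end

/-- The residue algebra over the residue field. -/
@[reducible] noncomputable def uResAlg (T A : Type*) [CommRing T] [IsLocalRing T] [Ring A]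
    [Algebra T A] : Algebra (ResidueField T) (QA A (maximalIdeal T)) :=
  RingHom.toAlgebra'
    (Ideal.Quotient.lift (maximalIdeal T) ((qm (maximalIdeal T)).comp (algebraMap T A))
      fun t ht => by
        have := qm_smul (A := A) ht 1
        rwa [Algebra.smul_def, mul_one] at this)
    fun c x => by
      obtain ⟨t, rfl⟩ := residue_surjective c
      obtain ⟨a, rfl⟩ := qm_surjective (maximalIdeal T) x
      change qm _ (algebraMap T A t) * qm _ a = qm _ a * qm _ (algebraMap T A t)
      rw [← map_mul, ← map_mul, Algebra.commutes]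

theorem uResFin (T A : Type*) [CommRing T] [IsLocalRing T] [Ring A] [Algebra T A]
    [Module.Finite T A] :
    letI := uResAlg T A
    FiniteDimensional (ResidueField T) (QA A (maximalIdeal T)) := by
  let _ := uResAlg T A
  have hs : ∀ (t : T) (a : A),
      residue T t • qm (maximalIdeal T) a = qm (maximalIdeal T) (t • a) := fun t a => by
    rw [Algebra.smul_def, Algebra.smul_def, map_mul]
    rfl
  obtain ⟨s, hs'⟩ := Module.Finite.fg_top (R := T) (M := A)
  classical
  refine ⟨⟨s.image (qm (maximalIdeal T)), top_le_iff.1 fun x _ => ?_⟩⟩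
  obtain ⟨a, rfl⟩ := qm_surjective (maximalIdeal T) x
  have ha : a ∈ Submodule.span T (s : Set A) := hs' ▸ Submodule.mem_top
  induction ha using Submodule.span_induction with
  | mem y hy => exact Submodule.subset_span (Finset.mem_coe.2 (Finset.mem_image_of_mem _ hy))
  | zero => rw [map_zero]; exact zero_mem _
  | add y z _ _ hy hz => rw [map_add]; exact add_mem (hy trivial) (hz trivial)
  | smul t y _ hy => rw [← hs]; exact Submodule.smul_mem _ _ (hy trivial)

/-- Forms of rank one that are isometric over the fraction field of a valuation ring are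
isometric. -/
theorem valU {O A : Type*} [CommRing O] [IsDomain O] [ValuationRing O] [Ring A] [Algebra O A]
    [Module.Finite O A] [Module.Free O A] [StarRing A] [StarFix O A] (h : Avg O A) (L : FP A)
    (hsat : ∀ c : O, c ≠ 0 → ∀ x, L.Mem (c • x) → L.Mem x) {q l a : A} {d : O} (hd : d ≠ 0)
    (hq : IsUnit (q + star q)) (hl : IsUnit (l + star l))
    (e : L.Mem (star a * l * a - (d * d) • q)) : ∃ x, L.Mem (star x * l * x - q) := by
  have := h.isSemisimpleRing
  let _ := uResAlg O A
  have := uResFin O A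
  obtain ⟨g, g', c, hc, hg, -, hN⟩ := vbez h (Ideal.span {algebraMap O A d, a})
    (Submodule.fg_span (Set.toFinite _)) hd (Ideal.subset_span (by simp))
  obtain ⟨x0, hx0⟩ := Ideal.mem_span_singleton'.1
    (hN ▸ Ideal.subset_span (by simp) : algebraMap O A d ∈ Ideal.span {g})
  obtain ⟨y0, hy0⟩ := Ideal.mem_span_singleton'.1
    (hN ▸ Ideal.subset_span (by simp) : a ∈ Ideal.span {g})
  obtain ⟨r1, r2, hr⟩ := Submodule.mem_span_pair.1
    (show g ∈ Ideal.span {algebraMap O A d, a} from hN ▸ Ideal.subset_span rfl)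
  refine iso_of_unimod (κ := ResidueField O) (qm (maximalIdeal O)) (qm_surjective _)
    (fun _ => isUnit_of_qm) L hq hl (x0 := x0) (y0 := y0) (r1 := r1) (r2 := r2) ?_
    (hsat (c * c) (mul_ne_zero hc hc) _ ((e.conj g').of_eq ?_))
  · refine smul_right_injective A hc ?_
    change c • (r1 * x0 + r2 * y0) = c • (1 : A)
    rw [Algebra.smul_def, Algebra.smul_def, mul_one, Algebra.commutes, ← hg, ← mul_assoc, add_mul,
      mul_assoc r1, mul_assoc r2, hx0, hy0]
    exact congrArg (· * g') hr
  · have e1 : (d * d) • q = star (x0 * g) * q * (x0 * g) := by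
      rw [hx0, StarFix.fix, mul_assoc, ← Algebra.commutes, ← mul_assoc, ← map_mul, Algebra.smul_def]
    have e2 : ∀ z : A, (c * c) • z = star (g * g') * z * (g * g') := fun z => by
      rw [hg, StarFix.fix, mul_assoc, ← Algebra.commutes, ← mul_assoc, ← map_mul, Algebra.smul_def]
    rw [e1, e2, ← hy0]
    simp only [star_mul]
    noncomm_ring

end Pool.Agent.SU
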