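import Pool.Agent.P.MP_c1f06d_ag.su.CDefs
import Pool.Agent.P.MP_c1f06d_ag.su.VValU

open Matrix Polynomial IsLocalRing TensorProduct

universe u

namespace Pool.Agent.SU

open SAlg Pool.Agent.P.MP_c1f06d_ag

variable {N : ℕ}

instance starFixCar {T : Type u} [CommRing T] (A : SAlg T N) : StarFix T A.Car :=
  ⟨SAlg.star_algebraMap⟩

theorem Sep.avgC {T : Type u} [CommRing T] {A : SAlg T N} (h : Sep A) : Avg T A.Car := by
  obtain ⟨v, h1, h2⟩ := h
  refine ⟨N, A.e, v, h1, fun p a => ?_⟩
  have := sep_bil h2 ((LinearMap.mul T A.Car).compl₂ p) a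
  simpa [Finset.mul_sum, mul_assoc] using this

theorem CTr_iff {B : Type*} [Ring B] [StarRing B] {l q x : B} (hl : l + star l = 1) :
    (FP.skew B).Mem (star x * l * x - q) ↔ star x * x = q + star q := by
  have e : star x * l * x - q + star (star x * l * x - q) =
      star x * (l + star l) * x - (q + star q) := by
    simp only [star_sub, star_mul, star_star]
    noncomm_ring
  change star x * l * x - q + star (star x * l * x - q) = 0 ↔ _
  rw [e, hl, mul_one, sub_eq_zero]

theorem CTr_co {R S : Type u} [CommRing R] [CommRing S] [Algebra R S] (A : SAlg R N)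
    (pb : PowerBasis R S) (c : Fin pb.dim → A.Car) (m : Fin N) :
    (∑ i : Fin pb.dim, algebraMap S (A.map (algebraMap R S)).Car pb.gen ^ (i : ℕ) *
      A.bc (algebraMap R S) (c i)).co m = ∑ i : Fin pb.dim, (c i).co m • pb.basis i := by
  rw [co_sum, Finset.sum_apply]
  refine Finset.sum_congr rfl fun i _ => ?_
  rw [← map_pow, ← Algebra.smul_def, co_smul, co_bc, pb.basis_eq_pow,
    Algebra.smul_def ((c i).co m), mul_comm]
  rfl

theorem CTr_pb {R S : Type u} [CommRing R] [IsLocalRing R] [CommRing S] [Algebra R S]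
    {A : SAlg R N} (hA : Sep A) {l q : A.Car} (hl : l + star l = 1) (hq : IsUnit (q + star q))
    (pb : PowerBasis R S) {k : ℕ} (hk : pb.dim = 2 * k + 1)
    (H : IsN (A.bc (algebraMap R S) (q + star q))) : IsN (q + star q) := by
  have := hA.avgC.isSemisimpleRing
  let _ := uResAlg R A.Car
  have := uResFin R A.Car
  obtain ⟨x, hx⟩ := H
  have hex : ∀ y : (A.map (algebraMap R S)).Car, ∃ c : Fin pb.dim → A.Car,
      y = ∑ i : Fin pb.dim, algebraMap S (A.map (algebraMap R S)).Car pb.gen ^ (i : ℕ) *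
        A.bc (algebraMap R S) (c i) := fun y =>
    ⟨fun i => ⟨fun m => pb.basis.repr (y.co m) i⟩, Car.ext (funext fun m => by
      rw [CTr_co]
      exact (pb.basis.sum_repr (y.co m)).symm)⟩
  have hun : ∀ c : Fin pb.dim → A.Car,
      ∑ i : Fin pb.dim, algebraMap S (A.map (algebraMap R S)).Car pb.gen ^ (i : ℕ) *
        A.bc (algebraMap R S) (c i) = 0 → c = 0 := fun c hc =>
    funext fun i => Car.ext (funext fun m =>
      Fintype.linearIndependent_iff.1 pb.basis.linearIndependent (fun i => (c i).co m)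
        (by rw [← CTr_co, hc]; rfl) i)
  rw [hk] at hex hun
  have ht := SAlg.star_algebraMap (A := A.map (algebraMap R S)) pb.gen
  have htc := Algebra.commutes (A := (A.map (algebraMap R S)).Car) pb.gen
  have hl' : A.bc (algebraMap R S) l + star (A.bc (algebraMap R S) l) = 1 := by
    rw [← bc_star, ← map_add, hl, map_one]
  obtain ⟨x0, hx0⟩ := odd_descent (κ := ResidueField R) (qm (maximalIdeal R)) (qm_surjective _)
    (fun _ => isUnit_of_qm) (FP.skew A.Car) (FP.skew _) (A.bc (algebraMap R S)) (bc_star _) _ ht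
    htc k hex hun (fun c hc => coord_skew _ (bc_star _) _ ht htc hun c hc _) (θ := l) (θ1 := q)
    (hl ▸ isUnit_one) hq (x := x) ((CTr_iff hl').2 (by rw [hx, map_add, bc_star]))
  exact ⟨x0, (CTr_iff hl).1 hx0⟩

theorem isN_of_adjoinRoot {R : Type u} [CommRing R] [IsLocalRing R] {A : SAlg R N} (hA : Sep A)
    {l q : A.Car} (hl : l + star l = 1) (hq : IsUnit (q + star q)) {P : R[X]} (hP : P.Monic)
    {k : ℕ} (hk : P.natDegree = 2 * k + 1) (H : IsN (A.bc (AdjoinRoot.of P) (q + star q))) :
    IsN (q + star q) := by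
  exact CTr_pb hA hl hq (AdjoinRoot.powerBasis' hP) hk H

theorem isN_of_frac {O : Type u} [CommRing O] [IsDomain O] [ValuationRing O] (K : Type u) [Field K]
    [Algebra O K] [IsFractionRing O K] {A : SAlg O N} (hA : Sep A) {l q : A.Car}
    (hl : l + star l = 1) (hq : IsUnit (q + star q))
    (H : IsN (A.bc (algebraMap O K) (q + star q))) : IsN (q + star q) := by
  obtain ⟨x, hx⟩ := H
  obtain ⟨d, hd⟩ := IsLocalization.exist_integer_multiples_of_finite (nonZeroDivisors O) x.co
  choose a ha using hd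
  have hd0 : (d : O) ≠ 0 := nonZeroDivisors.coe_ne_zero d
  have h1 : A.bc (algebraMap O K) ⟨a⟩ = algebraMap O K d • x := Car.ext (funext fun i => by
    rw [co_bc, co_smul, Function.comp_apply, ha, Algebra.smul_def]
    rfl)
  have h2 : star (⟨a⟩ : A.Car) * ⟨a⟩ = ((d : O) * d) • q + star (((d : O) * d) • q) := by
    refine bc_injective (IsFractionRing.injective O K) ?_
    rw [star_smul', ← smul_add, bc_smul, map_mul, bc_star, h1, star_smul', smul_mul_smul_comm, hx,
      map_mul]
  obtain ⟨x0, hx0⟩ := valU hA.avgC (FP.skew A.Car) (fun c hc y hy => by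
    have h3 := hy.add_star
    rw [star_smul', ← smul_add] at h3
    exact Car.ext (funext fun i =>
      (mul_eq_zero.1 (congrFun (congrArg Car.co h3) i)).resolve_left hc)) hd0 hq
    (hl ▸ isUnit_one : IsUnit (l + star l)) ((CTr_iff hl).2 h2)
  exact ⟨x0, (CTr_iff hl).1 hx0⟩

end Pool.Agent.SU
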