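import Pool.Agent.P.MP_c1f06d_ag.su.CEq
import Pool.Agent.P.MP_c1f06d_ag.su.CSpr
import Pool.Agent.P.MP_c1f06d_ag.su.CTr

open Matrix Polynomial IsLocalRing

universe u

namespace Pool.Agent.SU

open SAlg Pool.Agent.P.MP_c1f06d_ag

section
variable {B R : Type u} [CommRing B] [CommRing R] {N : ℕ}

theorem bc_add_star {A : SAlg B N} (f : B →+* R) (q : A.Car) :
    A.bc f (q + star q) = A.bc f q + star (A.bc f q) := by rw [map_add, bc_star]

/-- Solutions pass from the element pulled back along `ψ` to the constant element. -/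
def WC (A : SAlg B N) (s : A.Car) (ρ : B →+* R) : Pr R B := fun _ _ i ψ =>
  Tr (A.bc ψ s) (A.bc (i.comp ρ) s)

variable {A : SAlg B N} {q : A.Car} {ρ : B →+* R}

theorem wc_stable : (WC A q ρ).Stable := fun _ _ _ _ χ _ _ h => h.map χ

theorem wc_near [IsLocalRing R] (hA : CD A) (hu : IsUnit (A.bc ρ (q + star q))) :
    (WC A (q + star q) ρ).Near ρ := by
  intro T _ i ψ σ hi hψ
  have hσ : Function.Surjective σ := fun r => ⟨i r, RingHom.congr_fun hi r⟩
  have hc : ρ = σ.comp (i.comp ρ) := by rw [← RingHom.comp_assoc, hi]; rfl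
  have hu' : IsUnit (A.bc (σ.comp (i.comp ρ)) (q + star q)) := hc ▸ hu
  obtain ⟨T1, _, f, σ1, e1, c1, t⟩ := exists_etale_tr (A1 := A.map ψ) (A2 := A.map (i.comp ρ)) σ hσ
    (congrArg A.map (hψ.trans hc)) (hA.map ψ) (hA.map _) (q1 := A.bc ψ q)
    (q2 := A.bc (i.comp ρ) q) (funext fun a => RingHom.congr_fun (hψ.trans hc) (q.co a))
    (by rw [← bc_add_star]; exact hu')
  rw [← bc_add_star, ← bc_add_star] at t
  exact ⟨T1, inferInstance, f, σ1, e1, c1, t⟩

end

theorem isN_inf {B R : Type u} [CommRing B] [CommRing R] [IsDomain R] [IsLocalRing R]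
    {ρ : B →+* R} {p : Ideal R} [p.IsPrime] [ValuationRing (Localization.AtPrime p)] (hg : GP ρ p)
    (K : Type u) [Field K] [Algebra R K] [IsFractionRing R K] {N : ℕ} {A : SAlg R N} (hA : CD A)
    {q : A.Car} (hq : IsUnit (q + star q)) (ht : IsN (A.bc (algebraMap R K) (q + star q))) :
    IsN (q + star q) := by
  obtain ⟨B1, _, j, ρ1, hn, A0, q0, rfl, hs, h0⟩ := exists_modelC hg.lp A hA q
  obtain rfl : A0.bc ρ1 q0 = q := Car.ext hs
  have hg1 := hg.nb hn
  let O := Localization.AtPrime p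
  let _ : Algebra O K := IsLocalization.localizationAlgebraOfSubmonoidLe O K p.primeCompl _
    p.primeCompl_le_nonZeroDivisors
  have : IsScalarTower R O K := IsLocalization.localization_isScalarTower_of_submonoid_le O K
    p.primeCompl _ p.primeCompl_le_nonZeroDivisors
  have : IsFractionRing O K :=
    IsFractionRing.isFractionRing_of_isDomain_of_isLocalization p.primeCompl O K
  rw [IsScalarTower.algebraMap_eq R O K] at ht
  obtain ⟨_, hP⟩ := hA.half
  have hO := isN_of_frac K (hA.sep.map (algebraMap R O)) (hP.map _).2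
    (q := SAlg.bc _ (algebraMap R O) (A0.bc ρ1 q0)) (by rw [← bc_add_star]; exact hq.map _)
    (by rw [← bc_add_star]; exact ht)
  rw [← bc_add_star, ← bc_add_star] at hO
  obtain ⟨B2, _, j2, ρ2, hn2, t2⟩ := isN_spread (hg1.lp_at O) A0 hO
  obtain ⟨P, k, ψ, hPm, hk, hW⟩ := hg1.run hn2 2 two_pos (WC A0 (q0 + star q0) ρ1) wc_stable
    (wc_near h0 (by rwa [bc_add_star]))
  refine isN_of_adjoinRoot hA.sep hP.2 hq hPm hk ?_
  rw [← bc_add_star]
  exact Tr.isN hW (t2.bc ψ)

theorem isN_main (V C : Type u) [CommRing V] [IsDomain V] [ValuationRing V] [CommRing C]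
    [Algebra V C] [Algebra.Smooth V C] (p : Ideal C) [p.IsPrime] (R : Type u) [CommRing R]
    [IsLocalRing R] [IsDomain R] [Algebra C R] [IsLocalization.AtPrime R p] (K : Type u) [Field K]
    [Algebra R K] [IsFractionRing R K] {N : ℕ} {A : SAlg R N} (hA : CD A) {q : A.Car}
    (hq : IsUnit (q + star q)) (ht : IsN (A.bc (algebraMap R K) (q + star q))) :
    IsN (q + star q) := by
  rcases finite_or_infinite (ResidueField R) with hfin | hinf
  · obtain ⟨B, _, ρ, p', _, _, hg⟩ := exists_gp_RX V C p R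
    obtain ⟨K1, _, _, _, j, hj⟩ := exists_frac_RX R K
    have t1 := ht.bc j
    rw [bc_bc] at t1
    have t2 : IsN (A.bc ((algebraMap (RX R) K1).comp ((algebraMap R[X] (RX R)).comp Polynomial.C))
        (q + star q)) := hj ▸ t1
    have t3 := isN_inf hg K1 (hA.map ((algebraMap R[X] (RX R)).comp Polynomial.C))
      (q := A.bc _ q) (by rw [← bc_add_star]; exact hq.map _) (by rw [← bc_add_star]; exact t2)
    rw [← bc_add_star] at t3
    obtain ⟨B2, _, j2, ρ2, hn, t4⟩ := isN_spread lp_RX (A.map Polynomial.C)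
      (s := A.bc Polynomial.C (q + star q)) t3
    obtain ⟨P, k, ψ, hP, hk, -, hψ⟩ := run_RX hn 2 two_pos
    have t5 : IsN (A.bc ((ψ.comp j2).comp Polynomial.C) (q + star q)) := t4.bc ψ
    obtain ⟨_, hH⟩ := hA.half
    exact isN_of_adjoinRoot hA.sep hH.2 hq hP hk (hψ ▸ t5)
  · obtain ⟨B, _, ρ, p', _, _, hg⟩ := exists_gp V C p R
    exact isN_inf hg K hA hq ht

end Pool.Agent.SU
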