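import Pool.Agent.P.MP_c1f06d_ag.su.SepX

open Matrix

universe u

namespace Pool.Agent.SU

open SAlg

variable {T T' : Type u} [CommRing T] [CommRing T'] {N : ℕ}

/-- A matrix applied to coordinates. -/
def ap {A : SAlg T N} (A' : SAlg T N) (M : Matrix (Fin N) (Fin N) T) (x : A.Car) : A'.Car :=
  ⟨M *ᵥ x.co⟩

section
variable {A : SAlg T N} (A' : SAlg T N) (M : Matrix (Fin N) (Fin N) T)

theorem co_ap (x : A.Car) : (ap A' M x).co = M *ᵥ x.co := rfl
theorem ap_add (x y : A.Car) : ap A' M (x + y) = ap A' M x + ap A' M y :=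
  Car.ext (mulVec_add M x.co y.co)
theorem ap_smul (t : T) (x : A.Car) : ap A' M (t • x) = t • ap A' M x :=
  Car.ext (mulVec_smul M t x.co)

/-- The same as a linear map. -/
def apL (A : SAlg T N) : A.Car →ₗ[T] A'.Car := ⟨⟨ap A' M, ap_add A' M⟩, ap_smul A' M⟩

theorem apL_apply (x : A.Car) : apL A' M A x = ap A' M x := rfl

theorem bc_ap (f : T →+* T') (x : A.Car) :
    A'.bc f (ap A' M x) = ap (A'.map f) (M.map f) (A.bc f x) :=
  Car.ext (funext fun k => RingHom.map_mulVec f M x.co k)

theorem exists_ap (g : A.Car →ₗ[T] A'.Car) : ∃ M, ∀ x, ap A' M x = g x :=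
  ⟨of fun k i => (g (A.e i)).co k, fun x => by
    conv_rhs => rw [eq_sum x]
    ext k
    simp [co_ap, mulVec, dotProduct, mul_comm]⟩

end

/-- Linear identities are checked on the basis. -/
theorem lin_ext {A : SAlg T N} {M : Type*} [AddCommGroup M] [Module T M] {g g' : A.Car →ₗ[T] M}
    (h : ∀ i, g (A.e i) = g' (A.e i)) (x : A.Car) : g x = g' x := by
  rw [eq_sum x]
  simp only [map_sum, map_smul, h]

variable {A : SAlg T N}

/-- Two-sided multiplication. -/
def sand (G : Fin N → Fin N → T) (x : A.Car) : A.Car := ∑ k, ∑ l, G k l • (A.e k * x * A.e l)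

theorem sand_add (G : Fin N → Fin N → T) (x y : A.Car) : sand G (x + y) = sand G x + sand G y := by
  simp only [sand, mul_add, add_mul, smul_add, Finset.sum_add_distrib]

theorem sand_smul (G : Fin N → Fin N → T) (t : T) (x : A.Car) : sand G (t • x) = t • sand G x := by
  simp only [sand, mul_smul_comm, smul_mul_assoc, Finset.smul_sum, smul_comm t]

/-- The same as a linear map. -/
def sandL (A : SAlg T N) (G : Fin N → Fin N → T) : A.Car →ₗ[T] A.Car :=
  ⟨⟨sand G, sand_add G⟩, sand_smul G⟩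

theorem sandL_apply (G : Fin N → Fin N → T) (x : A.Car) : sandL A G x = sand G x := rfl

theorem bc_sand (f : T →+* T') (G : Fin N → Fin N → T) (x : A.Car) :
    A.bc f (sand G x) = sand (fun k l => f (G k l)) (A.bc f x) := by
  simp only [sand, map_sum, bc_smul, map_mul, bc_e]

theorem exists_sand {ι : Type*} [Fintype ι] (a b : ι → A.Car) :
    ∃ G, ∀ x : A.Car, sand G x = ∑ i, a i * x * b i :=
  ⟨fun k l => ∑ i, (a i).co k * (b i).co l, fun x => by
    have e : ∀ i, a i * x * b i = ∑ k, ∑ l, ((a i).co k * (b i).co l) • (A.e k * x * A.e l) := by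
      intro i
      conv_lhs => rw [eq_sum (a i), eq_sum (b i)]
      simp only [Finset.sum_mul, Finset.mul_sum, smul_mul_assoc, mul_smul_comm, Finset.smul_sum,
        smul_smul]
      rw [Finset.sum_comm]
      exact Finset.sum_congr rfl fun k _ => Finset.sum_congr rfl fun l _ => by rw [mul_comm]
    simp only [e, sand, Finset.sum_smul]
    rw [Finset.sum_comm (s := Finset.univ (α := ι))]
    exact Finset.sum_congr rfl fun k _ => Finset.sum_comm⟩

/-- `P` halves the elements `x + x*`, and `1` is such an element. -/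
def Half (A : SAlg T N) (P : Matrix (Fin N) (Fin N) T) : Prop :=
  (∀ i, ap A P (A.e i + star (A.e i)) + star (ap A P (A.e i + star (A.e i))) =
    A.e i + star (A.e i)) ∧ ap A P (1 : A.Car) + star (ap A P (1 : A.Car)) = 1

theorem Half.apply {P : Matrix (Fin N) (Fin N) T} (h : Half A P) (x : A.Car) :
    ap A P (x + star x) + star (ap A P (x + star x)) = x + star x := by
  have := lin_ext (g := (LinearMap.id + A.stL) ∘ₗ apL A P A ∘ₗ (LinearMap.id + A.stL))
    (g' := LinearMap.id + A.stL) (fun i => by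
      simpa only [LinearMap.comp_apply, LinearMap.add_apply, LinearMap.id_apply, stL_apply,
        apL_apply] using h.1 i) x
  simpa only [LinearMap.comp_apply, LinearMap.add_apply, LinearMap.id_apply, stL_apply,
    apL_apply] using this

theorem Half.map {P : Matrix (Fin N) (Fin N) T} (h : Half A P) (f : T →+* T') :
    Half (A.map f) (P.map f) :=
  ⟨fun i => by
    have := congrArg (A.bc f) (h.1 i)
    simpa only [map_add, bc_star, bc_ap, bc_e] using this, by
    have := congrArg (A.bc f) h.2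
    simpa only [map_add, bc_star, bc_ap, map_one] using this⟩

/-- Two-sided multiplications that kill all `x + x*` and reach `1` on skew elements. -/
def AltD (A : SAlg T N) {m : ℕ} (s : Fin m → A.Car) (G : Fin m → Fin N → Fin N → T) : Prop :=
  (∀ j, s j + star (s j) = 0) ∧ (∀ j i, sand (G j) (A.e i + star (A.e i)) = 0) ∧
    ∑ j, sand (G j) (s j) = 1

theorem AltD.apply {m : ℕ} {s : Fin m → A.Car} {G : Fin m → Fin N → Fin N → T} (h : AltD A s G)
    (j : Fin m) (x : A.Car) : sand (G j) (x + star x) = 0 := by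
  have := lin_ext (g := sandL A (G j) ∘ₗ (LinearMap.id + A.stL)) (g' := 0) (fun i => by
    simpa only [LinearMap.comp_apply, LinearMap.add_apply, LinearMap.id_apply, stL_apply,
      sandL_apply, LinearMap.zero_apply] using h.2.1 j i) x
  simpa only [LinearMap.comp_apply, LinearMap.add_apply, LinearMap.id_apply, stL_apply,
    sandL_apply, LinearMap.zero_apply] using this

theorem AltD.map {m : ℕ} {s : Fin m → A.Car} {G : Fin m → Fin N → Fin N → T} (h : AltD A s G)
    (f : T →+* T') : AltD (A.map f) (fun j => A.bc f (s j)) fun j k l => f (G j k l) :=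
  ⟨fun j => by rw [← bc_star, ← map_add, h.1, map_zero], fun j i => by
    rw [← bc_e, ← bc_star, ← map_add, ← bc_sand, h.2.1, map_zero], by
    simp only [← bc_sand]
    rw [← map_sum, h.2.2, map_one]⟩

/-- What the proof uses of a symplectic involution. -/
structure CD (A : SAlg T N) : Prop where
  sep : Sep A
  half : ∃ P, Half A P
  alt : ∃ (m : ℕ) (s : Fin m → A.Car) (G : Fin m → Fin N → Fin N → T), AltD A s G

theorem CD.map (h : CD A) (f : T →+* T') : CD (A.map f) :=
  ⟨h.sep.map f, let ⟨_, hP⟩ := h.half; ⟨_, hP.map f⟩,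
    let ⟨m, _, _, hs⟩ := h.alt; ⟨m, _, _, hs.map f⟩⟩

/-- `h = x* x`. -/
def IsN (h : A.Car) : Prop := ∃ x, star x * x = h

theorem IsN.bc {h : A.Car} (H : IsN h) (f : T →+* T') : IsN (A.bc f h) :=
  let ⟨x, hx⟩ := H; ⟨A.bc f x, by rw [← bc_star, ← map_mul, hx]⟩

/-- `M` is the matrix of an algebra map. -/
def IsHom (A A' : SAlg T N) (M : Matrix (Fin N) (Fin N) T) : Prop :=
  ap A' M (1 : A.Car) = 1 ∧ ∀ i j, ap A' M (A.e i * A.e j) = ap A' M (A.e i) * ap A' M (A.e j)

theorem IsHom.mul {A' : SAlg T N} {M : Matrix (Fin N) (Fin N) T} (h : IsHom A A' M)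
    (x y : A.Car) : ap A' M (x * y) = ap A' M x * ap A' M y := by
  have h1 : ∀ i y, ap A' M (A.e i * y) = ap A' M (A.e i) * ap A' M y := fun i y =>
    lin_ext (g := apL A' M A ∘ₗ LinearMap.mulLeft T (A.e i))
      (g' := LinearMap.mulLeft T (ap A' M (A.e i)) ∘ₗ apL A' M A) (h.2 i) y
  exact lin_ext (g := apL A' M A ∘ₗ LinearMap.mulRight T y)
    (g' := LinearMap.mulRight T (ap A' M y) ∘ₗ apL A' M A) (fun i => h1 i y) x

theorem IsHom.map {A' : SAlg T N} {M : Matrix (Fin N) (Fin N) T} (h : IsHom A A' M)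
    (f : T →+* T') : IsHom (A.map f) (A'.map f) (M.map f) :=
  ⟨by rw [← map_one (A.bc f), ← bc_ap, h.1, map_one], fun i j => by
    rw [← bc_e, ← bc_e, ← map_mul, ← bc_ap, ← bc_ap, ← bc_ap, h.2, map_mul]⟩

/-- Data that carry an equation `x* x = h` to an equation `y* y = h'`. -/
def Tr {A A' : SAlg T N} (h : A.Car) (h' : A'.Car) : Prop :=
  ∃ (M : Matrix (Fin N) (Fin N) T) (v v' : A'.Car), IsHom A A' M ∧
    (∀ i, star v * v * ap A' M (star (A.e i)) = star (ap A' M (A.e i)) * (star v * v)) ∧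
    h' = star v' * (star v * v * ap A' M h) * v'

theorem Tr.map {A' : SAlg T N} {h : A.Car} {h' : A'.Car} (H : Tr h h') (f : T →+* T') :
    Tr (A.bc f h) (A'.bc f h') := by
  obtain ⟨M, v, v', h1, h2, h3⟩ := H
  refine ⟨M.map f, A'.bc f v, A'.bc f v', h1.map f, fun i => ?_, ?_⟩
  · have := congrArg (A'.bc f) (h2 i)
    simpa only [map_mul, bc_star, bc_ap, bc_e] using this
  · rw [h3]
    simp only [map_mul, bc_star, bc_ap]

theorem Tr.isN {A' : SAlg T N} {h : A.Car} {h' : A'.Car} (H : Tr h h') (hn : IsN h) : IsN h' := by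
  obtain ⟨M, v, v', h1, h2, h3⟩ := H
  obtain ⟨x, rfl⟩ := hn
  have h4 : star v * v * ap A' M (star x) = star (ap A' M x) * (star v * v) :=
    lin_ext (g := LinearMap.mulLeft T (star v * v) ∘ₗ apL A' M A ∘ₗ A.stL)
      (g' := LinearMap.mulRight T (star v * v) ∘ₗ A'.stL ∘ₗ apL A' M A) h2 x
  refine ⟨v * ap A' M x * v', ?_⟩
  rw [h3, h1.mul, ← mul_assoc (star v * v), h4, star_mul, star_mul]
  simp only [mul_assoc]

end Pool.Agent.SU
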