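import Pool.Agent.P.MP_c1f06d_ag.su.CDefs

open Matrix Polynomial IsLocalRing TensorProduct

universe u

namespace Pool.Agent.SU

open SAlg Pool.Agent.P.MP_c1f06d_ag

section
variable {T : Type u} [CommRing T] {N : ℕ}

/-- Coordinates of a family. -/
def cdesCo (A : SAlg T N) (κ : Type) : (κ → A.Car) →ₗ[T] (κ × Fin N → T) where
  toFun v t := (v t.1).co t.2
  map_add' _ _ := rfl
  map_smul' _ _ := rfl

/-- The linear system for a halving matrix. -/
def cdesH (A : SAlg T N) {κ : Type} (w : κ → A.Car) : (Fin N × Fin N → T) →ₗ[T] (κ → A.Car) where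
  toFun y k := ap A (of fun a b => y (a, b)) (w k) + star (ap A (of fun a b => y (a, b)) (w k))
  map_add' y z := by
    funext k
    have : ap A (of fun a b => (y + z) (a, b)) (w k) =
        ap A (of fun a b => y (a, b)) (w k) + ap A (of fun a b => z (a, b)) (w k) :=
      Car.ext (add_mulVec (of fun a b => y (a, b)) (of fun a b => z (a, b)) (w k).co)
    rw [this, star_add, Pi.add_apply]
    abel
  map_smul' c y := by
    funext k
    have : ap A (of fun a b => (c • y) (a, b)) (w k) = c • ap A (of fun a b => y (a, b)) (w k) :=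
      Car.ext (smul_mulVec c (of fun a b => y (a, b)) (w k).co)
    rw [this, star_smul', Pi.smul_apply, smul_add, RingHom.id_apply]

theorem cdes_sand {A : SAlg T N} {ι : Type} [Fintype ι] (c : ι → T) (G : ι → Fin N → Fin N → T)
    (x : A.Car) : sand (fun k l => ∑ m, c m * G m k l) x = ∑ m, c m • sand (G m) x := by
  simp only [sand, Finset.sum_smul, Finset.smul_sum, mul_smul]
  rw [Finset.sum_comm (s := Finset.univ (α := ι))]
  exact Finset.sum_congr rfl fun k _ => Finset.sum_comm

/-- The linear system for the two-sided multiplications. -/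
def cdesA (A : SAlg T N) (s : Fin N → A.Car) :
    (Fin N × Fin N × Fin N → T) →ₗ[T] (Option (Fin N × Fin N) → A.Car) where
  toFun y o := o.elim (∑ j, sand (fun k l => y (j, k, l)) (s j)) fun t =>
    sand (fun k l => y (t.1, k, l)) (A.e t.2 + star (A.e t.2))
  map_add' y z := by
    funext o
    cases o <;> simp [sand, add_smul, Finset.sum_add_distrib]
  map_smul' c y := by
    funext o
    cases o <;> simp [sand, mul_smul, Finset.smul_sum]

theorem cdes_skew {A : SAlg T N} (P : Matrix (Fin N) (Fin N) T) {x : A.Car} (hx : x + star x = 0) :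
    ∑ j, x.co j • (A.e j - ap A P (A.e j + star (A.e j))) = x := by
  let g : A.Car →ₗ[T] A.Car := LinearMap.id - apL A P A ∘ₗ (LinearMap.id + A.stL)
  have hg : ∀ y, g y = y - apL A P A (y + star y) := fun _ => rfl
  have h1 : g x = ∑ j, x.co j • g (A.e j) := by
    conv_lhs => rw [eq_sum x]
    simp only [map_sum, map_smul]
  rw [hg, hx, map_zero, sub_zero] at h1
  exact h1.symm

end

variable {T T' : Type u} [CommRing T] [CommRing T'] [Algebra T T'] [Module.FaithfullyFlat T T']
  {N : ℕ} {A : SAlg T N}

theorem cdes_solve {ι κ : Type} [Finite ι] [Finite κ] (L : (ι → T) →ₗ[T] (κ → A.Car))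
    (L' : (ι → T') →ₗ[T'] (κ → (A.map (algebraMap T T')).Car))
    (h : ∀ y k, L' (algebraMap T T' ∘ y) k = A.bc (algebraMap T T') (L y k)) (v : κ → A.Car)
    (y' : ι → T') (hv : ∀ k, L' y' k = A.bc (algebraMap T T') (v k)) : ∃ y, ∀ k, L y k = v k := by
  obtain ⟨y, hy⟩ := ff_solve (cdesCo A κ ∘ₗ L) (cdesCo (A.map (algebraMap T T')) κ ∘ₗ L')
    (fun y => funext fun t => congrFun (congrArg Car.co (h y t.1)) t.2) (cdesCo A κ v)
    ⟨y', funext fun t => congrFun (congrArg Car.co (hv t.1)) t.2⟩
  exact ⟨y, fun k => Car.ext (funext fun a => congrFun hy (k, a))⟩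

theorem Sep.descend (h : Sep (A.map (algebraMap T T'))) : Sep A := by
  obtain ⟨v, h1, h2⟩ := h
  obtain ⟨y, hy⟩ := ff_solve (sepxL A) (sepxL (A.map (algebraMap T T'))) (sepxL_map A _)
    (Sum.elim A.one 0) ⟨fun t => (v t.1).co t.2, by
      have hv : ∀ i, sepxV (A.map (algebraMap T T')) (fun t => (v t.1).co t.2) i = v i :=
        fun _ => rfl
      ext t
      rcases t with k | t
      · change (∑ i, _ * sepxV _ _ i).co k = _
        simp only [hv, h1]; rfl
      · change (sepxV _ _ t.2.1 * _ - ∑ i, _ • sepxV _ _ i).co t.2.2 = _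
        simp only [hv, h2, sub_self]
        simp⟩
  refine ⟨sepxV A y, Car.ext (funext fun k => congrFun hy (Sum.inl k)), sepx_of_e fun j a => ?_⟩
  exact sub_eq_zero.1 (Car.ext (funext fun k => congrFun hy (Sum.inr (j, a, k))))

theorem Half.descend {P' : Matrix (Fin N) (Fin N) T'} (h : Half (A.map (algebraMap T T')) P') :
    ∃ P, Half A P := by
  let w : Option (Fin N) → A.Car := fun o => o.elim 1 fun i => A.e i + star (A.e i)
  obtain ⟨y, hy⟩ := cdes_solve (cdesH A w)
    (cdesH (A.map (algebraMap T T')) fun o => A.bc (algebraMap T T') (w o)) (fun y k => by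
      change _ = A.bc _ (ap A _ _ + star (ap A _ _))
      rw [map_add, bc_star, bc_ap]
      rfl) w (fun t => P' t.1 t.2) (fun o => by
      change ap _ P' (A.bc _ (w o)) + star (ap _ P' (A.bc _ (w o))) = _
      cases o with
      | none => simpa only [w, Option.elim, map_one] using h.2
      | some i => simpa only [w, Option.elim, map_add, bc_star, bc_e] using h.1 i)
  exact ⟨of fun a b => y (a, b), fun i => hy (some i), hy none⟩

theorem AltD.descend {P : Matrix (Fin N) (Fin N) T} (hP : Half A P) {m : ℕ}
    {s : Fin m → (A.map (algebraMap T T')).Car} {G : Fin m → Fin N → Fin N → T'}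
    (h : AltD (A.map (algebraMap T T')) s G) :
    ∃ (s0 : Fin N → A.Car) (G0 : Fin N → Fin N → Fin N → T), AltD A s0 G0 := by
  let s0 : Fin N → A.Car := fun j => A.e j - ap A P (A.e j + star (A.e j))
  obtain ⟨y, hy⟩ := cdes_solve (cdesA A s0)
    (cdesA (A.map (algebraMap T T')) fun j => A.bc (algebraMap T T') (s0 j)) (fun y o => by
      cases o with
      | none =>
        change _ = A.bc _ (∑ j, sand (fun k l => y (j, k, l)) (s0 j))
        simp only [map_sum, bc_sand]
        rfl
      | some t =>
        change _ = A.bc _ (sand _ _)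
        rw [bc_sand, map_add, bc_star, bc_e]
        rfl) (fun o => o.elim 1 fun _ => 0) (fun t => ∑ a, (s a).co t.1 * G a t.2.1 t.2.2)
      (fun o => by
      cases o with
      | none =>
        change ∑ j, sand (fun k l => ∑ a, (s a).co j * G a k l) (A.bc _ (s0 j)) = A.bc _ 1
        simp only [cdes_sand]
        rw [Finset.sum_comm, map_one, ← h.2.2]
        refine Finset.sum_congr rfl fun a _ => ?_
        conv_rhs => rw [← cdes_skew (P.map (algebraMap T T')) (h.1 a), ← sandL_apply, map_sum]
        refine Finset.sum_congr rfl fun j _ => ?_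
        rw [map_smul, sandL_apply]
        simp only [s0, map_sub, bc_ap, map_add, bc_star, bc_e]
      | some t =>
        change sand (fun k l => ∑ a, (s a).co t.1 * G a k l) _ = A.bc _ 0
        simp only [cdes_sand, h.2.1, smul_zero, Finset.sum_const_zero, map_zero])
  refine ⟨s0, fun j k l => y (j, k, l), fun j => ?_, fun j i => hy (some (j, i)), hy none⟩
  have := hP.1 j
  simp only [s0, star_sub]
  rw [sub_add_sub_comm, this, sub_self]

theorem CD.descend (h : CD (A.map (algebraMap T T'))) : CD A := by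
  obtain ⟨P', hP'⟩ := h.half
  obtain ⟨P, hP⟩ := hP'.descend
  obtain ⟨m, s, G, hs⟩ := h.alt
  obtain ⟨s0, G0, h0⟩ := AltD.descend hP hs
  exact ⟨h.sep.descend, ⟨P, hP⟩, N, s0, G0, h0⟩

end Pool.Agent.SU
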