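import Pool.Agent.P.MP_c1f06d_ag.su.CEqA
import Pool.Agent.P.MP_c1f06d_ag.Equate

open Matrix Polynomial IsLocalRing TensorProduct

universe u

namespace Pool.Agent.SU

open SAlg Pool.Agent.P.MP_c1f06d_ag

variable {T R : Type u} [CommRing T] [CommRing R] [IsLocalRing R] {N : ℕ} {A1 A2 : SAlg T N}

section aux

variable {S S' : Type u} [CommRing S] [CommRing S'] {B1 B2 : SAlg S N}
  {M : Matrix (Fin N) (Fin N) S}

theorem ceq_one (x : B1.Car) : (ap B2 1 x).co = x.co := one_mulVec x.co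

theorem ceq_zero : ap B2 M (0 : B1.Car) = 0 := map_zero (apL B2 M B1)

theorem ceq_star0 (h : B1 = B2) (x : B1.Car) : ap B2 1 (star x) = star (ap B2 1 x) := by
  subst h
  rw [Car.ext (ceq_one (star x)), Car.ext (ceq_one x)]

theorem ceq_star {g : S →+* S'} (h : B1.map g = B2.map g) (hM : M.map g = 1) (x : B1.Car) :
    B2.bc g (ap B2 M (star x)) = star (B2.bc g (ap B2 M x)) := by
  rw [bc_ap, bc_ap, hM, bc_star, ceq_star0 h]

theorem ceq_co {g : S →+* S'} (hM : M.map g = 1) (x : B1.Car) :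
    (B2.bc g (ap B2 M x)).co = (B1.bc g x).co := by
  rw [bc_ap, hM, ceq_one]

theorem ceq_bij (hdet : IsUnit M.det) : Function.Bijective (ap B2 M : B1.Car → B2.Car) := by
  refine ⟨fun y z hyz => Car.ext ?_, fun z => ⟨⟨M⁻¹ *ᵥ z.co⟩, Car.ext ?_⟩⟩
  · have h4 := congrArg (fun t : B2.Car => M⁻¹ *ᵥ t.co) hyz
    simpa only [co_ap, mulVec_mulVec, nonsing_inv_mul _ hdet, one_mulVec] using h4
  · rw [co_ap, mulVec_mulVec, mul_nonsing_inv _ hdet, one_mulVec]

theorem ceq_det (hdet : IsUnit M.det) (g : S →+* S') : IsUnit (M.map g).det := by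
  rw [← RingHom.mapMatrix_apply, ← RingHom.map_det]
  exact hdet.map g

theorem ceq_lm (g : S →+* S') (x : B1.Car) : IsUnit (B1.bc g x) ↔ IsUnit (g (lm x).det) := by
  rw [isUnit_iff_lm, lm_bc, ← RingHom.mapMatrix_apply, ← RingHom.map_det]

/-- `w` intertwines the two involutions. -/
def ceq_rel (B1 : SAlg S N) (M : Matrix (Fin N) (Fin N) S) (w : B2.Car) : Prop :=
  ∀ x : B1.Car, w * ap B2 M (star x) = star (ap B2 M x) * w

theorem ceq_rel.map {w : B2.Car} (h : ceq_rel B1 M w) (g : S →+* S') :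
    ceq_rel (B1.map g) (M.map g) (B2.bc g w) := fun x =>
  lin_ext (g := LinearMap.mulLeft S' (B2.bc g w) ∘ₗ apL (B2.map g) (M.map g) (B1.map g) ∘ₗ
      (B1.map g).stL)
    (g' := LinearMap.mulRight S' (B2.bc g w) ∘ₗ (B2.map g).stL ∘ₗ
      apL (B2.map g) (M.map g) (B1.map g)) (fun i => by
    have := congrArg (B2.bc g) (h (B1.e i))
    simp only [map_mul, bc_star, bc_ap, bc_e] at this
    exact this) x

theorem ceq_sand (G : Fin N → Fin N → S) (x : B1.Car) {c : B1.Car} (hc : Cen c) :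
    sand G (x * c) = sand G x * c := by
  simp only [sand, Finset.sum_mul, smul_mul_assoc, mul_assoc, hc (B1.e _)]

theorem ceq_norm {w : B2.Car} (h : ceq_rel B1 M w) (hw : star w = w) (q : B1.Car) :
    w * ap B2 M q + star (w * ap B2 M q) = w * ap B2 M (q + star q) := by
  rw [star_mul, hw, ← h, ap_add, mul_add]

end aux

theorem ceq_sym (σ : T →+* R) (h : A1.map σ = A2.map σ) (h1 : CD A1) (h2 : CD A2)
    {M : Matrix (Fin N) (Fin N) T} (hM : IsHom A1 A2 M) (hM1 : M.map σ = 1) (hdet : IsUnit M.det)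
    {w : A2.Car} (hw : IsUnit w) (hw1 : A2.bc σ w = 1) (hr : ceq_rel A1 M w) :
    ∃ (T' : Type u) (_ : CommRing T') (f : T →+* T') (σ' : T' →+* R), f.Etale ∧ σ'.comp f = σ ∧
      star (A2.bc f w) = A2.bc f w := by
  obtain ⟨P, hP⟩ := h2.half
  obtain ⟨m, s, G, hs⟩ := h1.alt
  obtain ⟨hinj, hsur⟩ := ceq_bij (B1 := A1) (B2 := A2) hdet
  obtain ⟨wi, e1⟩ := hw.exists_right_inv
  have e2 : wi * w = 1 := mul_eq_one_comm' e1
  have e3 : star w * star wi = 1 := by rw [← star_mul, e2, star_one]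
  have e4 : star wi * star w = 1 := by rw [← star_mul, e1, star_one]
  have ewi : A2.bc σ wi = 1 := by
    have := congrArg (A2.bc σ) e1
    rwa [map_mul, hw1, one_mul, map_one] at this
  have r1 : ∀ x : A1.Car, ap A2 M (star x) = wi * (star (ap A2 M x) * w) := fun x => by
    rw [← hr, ← mul_assoc, e2, one_mul]
  have r2 : ∀ x : A1.Car, star wi * star (ap A2 M (star x)) = ap A2 M x * star wi := fun x => by
    have := congrArg star (hr x)
    rw [star_mul, star_mul, star_star] at this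
    rw [← one_mul (ap A2 M x), ← e4, mul_assoc (star wi), ← this, mul_assoc, mul_assoc, e3, mul_one]
  have hd : Cen (star wi * w) := fun y => by
    obtain ⟨x, rfl⟩ := hsur y
    have := hr (star x)
    rw [star_star] at this
    rw [mul_assoc, this, ← mul_assoc, r2, mul_assoc]
  obtain ⟨δ, hδ⟩ := hsur (1 - star wi * w)
  have hδc : Cen δ := fun y => hinj (by rw [hM.mul, hM.mul, hδ]; exact (cen_one.sub hd) _)
  obtain ⟨t, ht⟩ : ∃ t : Fin m → A2.Car, ∀ j, t j = ap A2 M (s j) -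
      ap A2 P (ap A2 M (s j) + star (ap A2 M (s j))) := ⟨_, fun _ => rfl⟩
  have t1 : ∀ j, star (t j) = -t j := fun j => by
    have := hP.apply (ap A2 M (s j))
    rw [ht, star_sub]
    linear_combination (norm := abel1) -this
  have t2 : ∀ j, A2.bc σ (t j) = A2.bc σ (ap A2 M (s j)) := fun j => by
    have : A2.bc σ (ap A2 M (s j) + star (ap A2 M (s j))) = 0 := by
      rw [map_add, bc_star, ← ceq_star h hM1, ← map_add, ← ap_add, hs.1, ceq_zero, map_zero]
    rw [ht, map_sub, bc_ap A2 P, this, ceq_zero, sub_zero]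
  choose a ha using fun j => hsur (wi * t j)
  have a1 : ∀ j, a j + star (a j) = a j * δ := fun j => hinj (by
    rw [ap_add, r1, hM.mul, hδ, ha, star_mul, t1]
    simp only [mul_add, mul_one, neg_mul, mul_neg, mul_assoc, sub_eq_add_neg])
  have a2 : ∀ j, A1.bc σ (a j) = A1.bc σ (s j) := fun j => Car.ext (by
    rw [← ceq_co (B2 := A2) hM1 (a j), ← ceq_co (B2 := A2) hM1 (s j), ha, map_mul, ewi, one_mul,
      t2])
  have u1 : (∑ j, sand (G j) (a j)) * δ = 0 := by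
    rw [Finset.sum_mul]
    exact Finset.sum_eq_zero fun j _ => by rw [← ceq_sand _ _ hδc, ← a1, hs.apply]
  have u2 : A1.bc σ (∑ j, sand (G j) (a j)) = 1 := by
    rw [← map_one (A1.bc σ), ← hs.2.2]
    simp only [map_sum, bc_sand, a2]
  obtain ⟨T', _, f, σ', b1, b2, b3⟩ := exists_etale_unit σ (lm (∑ j, sand (G j) (a j))).det
    ((ceq_lm σ _).1 (by rw [u2]; exact isUnit_one))
  refine ⟨T', _, f, σ', b1, b2, ?_⟩
  have z : A1.bc f δ = 0 :=
    ((ceq_lm f _).2 b3).mul_right_eq_zero.1 (by rw [← map_mul, u1, map_zero])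
  have z2 : A2.bc f (star w * (1 - star wi * w)) = 0 := by
    rw [← hδ, map_mul, bc_ap, z, ceq_zero, mul_zero]
  rwa [mul_sub, mul_one, ← mul_assoc, e3, one_mul, map_sub, sub_eq_zero, bc_star] at z2

/-- The two involutions differ by a symmetric element that is `1` along the section. -/
theorem exists_etale_twist (σ : T →+* R) (hσ : Function.Surjective σ) (h : A1.map σ = A2.map σ)
    (h1 : CD A1) (h2 : CD A2) {M : Matrix (Fin N) (Fin N) T} (hM : IsHom A1 A2 M)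
    (hM1 : M.map σ = 1) (hdet : IsUnit M.det) :
    ∃ (T' : Type u) (_ : CommRing T') (f : T →+* T') (σ' : T' →+* R), f.Etale ∧ σ'.comp f = σ ∧
      ∃ w : A2.Car, A2.bc σ w = 1 ∧ star (A2.bc f w) = A2.bc f w ∧
        ∀ x : A1.Car, w * ap A2 M (star x) = star (ap A2 M x) * w := by
  obtain ⟨v, hv1, hv⟩ := h1.sep
  obtain ⟨w, hw⟩ : ∃ w, w = ∑ i, star (ap A2 M (star (A1.e i))) * ap A2 M (v i) := ⟨_, rfl⟩
  have hr : ceq_rel A1 M w := fun x => by
    have s1 := sep_bil hv ((LinearMap.mul T A2.Car).compl₁₂ (A2.stL ∘ₗ apL A2 M A1 ∘ₗ A1.stL)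
      (apL A2 M A1)) (star x)
    simp only [LinearMap.compl₁₂_apply, LinearMap.mul_apply', LinearMap.comp_apply, stL_apply,
      apL_apply, star_mul, star_star, hM.mul] at s1
    rw [hw, Finset.mul_sum, Finset.sum_mul]
    simpa only [mul_assoc] using s1.symm
  have hw1 : A2.bc σ w = 1 := by
    rw [hw, ← map_one (A2.bc σ), ← hM.1, ← hv1, ← apL_apply, map_sum, map_sum, map_sum]
    refine Finset.sum_congr rfl fun i _ => ?_
    rw [apL_apply, hM.mul, map_mul, map_mul, bc_star, ceq_star h hM1, star_star]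
  obtain ⟨T1, _, f1, σ1, b1, rfl, b3⟩ := exists_etale_unit σ (lm w).det
    ((ceq_lm σ _).1 (by rw [hw1]; exact isUnit_one))
  obtain ⟨T2, _, f2, σ2, c1, rfl, c3⟩ := ceq_sym (A1 := A1.map f1) (A2 := A2.map f1) σ1 h
    (h1.map f1) (h2.map f1) (hM.map f1) hM1 (ceq_det hdet f1) ((ceq_lm f1 w).2 b3) hw1 (hr.map f1)
  exact ⟨T2, _, f2.comp f1, σ2, RingHom.Etale.stableUnderComposition _ _ b1 c1, rfl, w, hw1, c3, hr⟩

/-- The goal. -/
def ceq_goal (σ : T →+* R) (q1 : A1.Car) (q2 : A2.Car) : Prop :=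
  ∃ (T' : Type u) (_ : CommRing T') (f : T →+* T') (σ' : T' →+* R), f.Etale ∧ σ'.comp f = σ ∧
    Tr (A1.bc f (q1 + star q1)) (A2.bc f (q2 + star q2))

theorem ceq_comp {T' : Type u} [CommRing T'] {f : T →+* T'} {σ' : T' →+* R} (hf : f.Etale)
    {q1 : A1.Car} {q2 : A2.Car} (H : ceq_goal σ' (A1.bc f q1) (A2.bc f q2)) :
    ceq_goal (σ'.comp f) q1 q2 := by
  obtain ⟨T2, _, g, τ, c1, rfl, c3⟩ := H
  rw [← bc_star, ← bc_star, ← map_add, ← map_add] at c3
  exact ⟨T2, _, g.comp f, τ, RingHom.Etale.stableUnderComposition _ _ hf c1, rfl, c3⟩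

theorem ceq_hu {T' : Type u} [CommRing T'] {f : T →+* T'} {σ' : T' →+* R} {q2 : A2.Car}
    (hu : IsUnit (A2.bc (σ'.comp f) (q2 + star q2))) :
    IsUnit ((A2.map f).bc σ' (A2.bc f q2 + star (A2.bc f q2))) := by
  rw [← bc_star, ← map_add]
  exact hu

theorem ceq_tr3 (σ : T →+* R) (hσ : Function.Surjective σ) (h : A1.map σ = A2.map σ) (h2 : CD A2)
    {q1 : A1.Car} {q2 : A2.Car} (hq : σ ∘ q1.co = σ ∘ q2.co)
    (hu : IsUnit (A2.bc σ (q2 + star q2))) {M : Matrix (Fin N) (Fin N) T} (hM : IsHom A1 A2 M)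
    (hM1 : M.map σ = 1) {v : A2.Car} (hw1 : A2.bc σ (star v * v) = 1)
    (hr : ceq_rel A1 M (star v * v)) : ceq_goal σ q1 q2 := by
  obtain ⟨P, hP⟩ := h2.half
  have hn := ceq_norm hr (by rw [star_mul, star_star]) q1
  have e : A2.bc σ (star v * v * ap A2 M q1 + star (star v * v * ap A2 M q1)) =
      A2.bc σ (q2 + star q2) := by
    have : A2.bc σ (ap A2 M q1) = A2.bc σ q2 := Car.ext ((ceq_co hM1 q1).trans hq)
    rw [map_add, map_add, bc_star, bc_star, map_mul, hw1, one_mul, this]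
  obtain ⟨T', _, f, σ', c1, c2, v', c3⟩ := exists_etale_congr σ hσ hP e (e ▸ hu)
  refine ⟨T', _, f, σ', c1, c2, M.map f, A2.bc f v, v', hM.map f, fun i => ?_, ?_⟩
  · have := hr.map f ((A1.map f).e i)
    rwa [map_mul, bc_star] at this
  · rw [c3, hn, map_mul, map_mul, bc_star, bc_ap]

theorem ceq_tr2 (σ : T →+* R) (hσ : Function.Surjective σ) (h : A1.map σ = A2.map σ) (h1 : CD A1)
    (h2 : CD A2) {q1 : A1.Car} {q2 : A2.Car} (hq : σ ∘ q1.co = σ ∘ q2.co)
    (hu : IsUnit (A2.bc σ (q2 + star q2))) {M : Matrix (Fin N) (Fin N) T} (hM : IsHom A1 A2 M)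
    (hM1 : M.map σ = 1) {w : A2.Car} (hw1 : A2.bc σ w = 1) (hw : star w = w)
    (hr : ceq_rel A1 M w) : ceq_goal σ q1 q2 := by
  obtain ⟨P1, hP1⟩ := h1.half
  obtain ⟨P, hP⟩ := h2.half
  have hn := ceq_norm hr hw (ap A1 P1 (1 : A1.Car))
  rw [hP1.2, hM.1, mul_one] at hn
  obtain ⟨T', _, f, σ', c1, rfl, v, c3⟩ := exists_etale_congr σ hσ hP (q1 := ap A2 P (1 : A2.Car))
    (q2 := w * ap A2 M (ap A1 P1 (1 : A1.Car))) (by rw [hn, hP.2, hw1, map_one])
    (by rw [hP.2, map_one]; exact isUnit_one)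
  rw [hn, hP.2, map_one, mul_one] at c3
  exact ceq_comp c1 (ceq_tr3 (A1 := A1.map f) (A2 := A2.map f) σ' (Function.Surjective.of_comp hσ)
    h (h2.map f) hq (ceq_hu hu) (hM.map f) hM1 (v := v) (c3 ▸ hw1) (c3 ▸ hr.map f))

theorem exists_etale_tr (σ : T →+* R) (hσ : Function.Surjective σ) (h : A1.map σ = A2.map σ)
    (h1 : CD A1) (h2 : CD A2) {q1 : A1.Car} {q2 : A2.Car} (hq : σ ∘ q1.co = σ ∘ q2.co)
    (hu : IsUnit (A2.bc σ (q2 + star q2))) :
    ∃ (T' : Type u) (_ : CommRing T') (f : T →+* T') (σ' : T' →+* R), f.Etale ∧ σ'.comp f = σ ∧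
      Tr (A1.bc f (q1 + star q1)) (A2.bc f (q2 + star q2)) := by
  obtain ⟨T1, _, f1, σ1, b1, rfl, M, hM, hM1, hdet⟩ := exists_etale_hom σ hσ h h1.sep
  have s1 : Function.Surjective σ1 := Function.Surjective.of_comp hσ
  obtain ⟨T2, _, f2, σ2, c1, rfl, w, w1, w2, w3⟩ := exists_etale_twist (A1 := A1.map f1)
    (A2 := A2.map f1) σ1 s1 h (h1.map f1) (h2.map f1) hM hM1 hdet
  exact ceq_comp b1 (ceq_comp c1 (ceq_tr2 (A1 := (A1.map f1).map f2) (A2 := (A2.map f1).map f2) σ2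
    (Function.Surjective.of_comp s1) h ((h1.map f1).map f2) ((h2.map f1).map f2) hq
    (ceq_hu (ceq_hu hu)) (hM.map f2) hM1 w1 w2 (ceq_rel.map w3 f2)))

end Pool.Agent.SU
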