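import Pool.Agent.P.MP_c1f06d_ag.su.SepX

open Matrix Polynomial IsLocalRing

universe u

namespace Pool.Agent.SU

open SAlg Pool.Agent.P.MP_c1f06d_ag

variable {T : Type u} [CommRing T] {N : ℕ} {A A1 A2 : SAlg T N}

/-- All coordinates lie in `I`. -/
def Sm (I : Ideal T) (x : A.Car) : Prop := A.bc (Ideal.Quotient.mk I) x = 0

theorem sm_iff {I : Ideal T} {x : A.Car} : Sm I x ↔ ∀ i, x.co i ∈ I := by
  simp only [Sm, bc_eq_zero_iff, Ideal.Quotient.eq_zero_iff_mem]

theorem eqa1_add {I : Ideal T} {x y : A.Car} (hx : Sm I x) (hy : Sm I y) : Sm I (x + y) := by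
  unfold Sm at *; rw [map_add, hx, hy, add_zero]

theorem eqa1_sub {I : Ideal T} {x y : A.Car} (hx : Sm I x) (hy : Sm I y) : Sm I (x - y) := by
  unfold Sm at *; rw [map_sub, hx, hy, sub_zero]

theorem eqa1_neg {I : Ideal T} {x : A.Car} (hx : Sm I x) : Sm I (-x) := by
  unfold Sm at *; rw [map_neg, hx, neg_zero]

theorem eqa1_left {I : Ideal T} {x : A.Car} (y : A.Car) (hx : Sm I x) : Sm I (y * x) := by
  unfold Sm at *; rw [map_mul, hx, mul_zero]

theorem eqa1_right {I : Ideal T} {x : A.Car} (y : A.Car) (hx : Sm I x) : Sm I (x * y) := by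
  unfold Sm at *; rw [map_mul, hx, zero_mul]

theorem eqa1_star {I : Ideal T} {x : A.Car} (hx : Sm I x) : Sm I (star x) := by
  unfold Sm at *; rw [bc_star, hx, star_zero]

theorem eqa1_sum {I : Ideal T} {ι : Type*} (s : Finset ι) {x : ι → A.Car}
    (hx : ∀ i, Sm I (x i)) : Sm I (∑ i ∈ s, x i) := by
  unfold Sm at *; rw [map_sum]; exact Finset.sum_eq_zero fun i _ => hx i

theorem eqa1_zero {I : Ideal T} (hI : I ^ 2 = ⊥) {x y : A.Car} (hx : Sm I x) (hy : Sm I y) :
    x * y = 0 := mul_eq_zero_of_sq hI hx hy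

theorem lift_alg {I : Ideal T} (hI : I ^ 2 = ⊥) (h : Sep A1) (f : A1.Car →ₗ[T] A2.Car)
    (h1 : Sm I (f 1 - 1)) (hm : ∀ x y, Sm I (f (x * y) - f x * f y)) :
    ∃ φ : A1.Car →ₐ[T] A2.Car, ∀ x, Sm I (φ x - f x) := by
  obtain ⟨v, hv1, hv⟩ := h
  let g : A1.Car →ₗ[T] A2.Car :=
    { toFun := fun x => ∑ i, (f (x * A1.e i) - f x * f (A1.e i)) * f (v i)
      map_add' := fun x y => by
        rw [← Finset.sum_add_distrib]
        refine Finset.sum_congr rfl fun i _ => ?_
        rw [add_mul, map_add, map_add]; noncomm_ring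
      map_smul' := fun t x => by
        rw [RingHom.id_apply, Finset.smul_sum]
        refine Finset.sum_congr rfl fun i _ => ?_
        rw [smul_mul_assoc, map_smul, map_smul, smul_mul_assoc, ← smul_sub, smul_mul_assoc] }
  have hg : ∀ x, g x = ∑ i, (f (x * A1.e i) - f x * f (A1.e i)) * f (v i) := fun _ => rfl
  have hgs : ∀ x, Sm I (g x) := fun x => by
    rw [hg]; exact eqa1_sum _ fun i => eqa1_right _ (hm _ _)
  have hn : Sm I (∑ i, f (A1.e i) * f (v i) - 1) := by
    have e1 : ∑ i, f (A1.e i) * f (v i) - 1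
        = (f 1 - 1) - ∑ i, (f (A1.e i * v i) - f (A1.e i) * f (v i)) := by
      rw [Finset.sum_sub_distrib, ← map_sum, hv1]; abel
    rw [e1]
    exact eqa1_sub h1 (eqa1_sum _ fun i => hm _ _)
  have key : ∀ x y, f (x * y) - f x * f y = f x * g y - g (x * y) + g x * f y := fun x y => by
    have s1 := sep_bil hv ((LinearMap.mul T A2.Car).compl₁₂
      (f ∘ₗ LinearMap.mulLeft T x - LinearMap.mulLeft T (f x) ∘ₗ f) f) y
    simp only [LinearMap.compl₁₂_apply, LinearMap.mul_apply', LinearMap.sub_apply,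
      LinearMap.comp_apply, LinearMap.mulLeft_apply] at s1
    have s2 : ∑ i, (f (x * A1.e i) - f x * f (A1.e i)) * f (v i * y) = g x * f y := by
      rw [hg, Finset.sum_mul]
      refine Finset.sum_congr rfl fun i _ => ?_
      have z := eqa1_zero hI (hm x (A1.e i)) (hm (v i) y)
      rw [mul_sub, sub_eq_zero] at z
      rw [z, mul_assoc]
    have s3 : (f (x * y) - f x * f y) * ∑ i, f (A1.e i) * f (v i) = f (x * y) - f x * f y := by
      have z := eqa1_zero hI (hm x y) hn
      rwa [mul_sub, mul_one, sub_eq_zero] at z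
    rw [← s3, ← s2, ← s1, hg, hg, Finset.mul_sum, Finset.mul_sum, ← Finset.sum_sub_distrib,
      ← Finset.sum_add_distrib]
    refine Finset.sum_congr rfl fun i _ => ?_
    rw [mul_assoc x y]
    noncomm_ring
  have hmul : ∀ x y, (f + g) (x * y) = (f + g) x * (f + g) y := fun x y => by
    simp only [LinearMap.add_apply]
    have z := eqa1_zero hI (hgs x) (hgs y)
    rw [add_mul, mul_add, mul_add, z, add_zero, ← sub_add_cancel (f (x * y)) (f x * f y), key]
    abel
  have hone : (f + g) 1 = 1 := by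
    have hs : Sm I ((f + g) 1 - 1) := by
      rw [LinearMap.add_apply, add_sub_right_comm]
      exact eqa1_add h1 (hgs 1)
    have z := eqa1_zero hI hs hs
    have m := hmul 1 1
    rw [mul_one] at m
    rw [mul_sub, mul_one, sub_mul, one_mul, ← m, sub_self, zero_sub, neg_eq_zero, sub_eq_zero] at z
    exact z
  refine ⟨AlgHom.ofLinearMap (f + g) hone hmul, fun x => ?_⟩
  rw [AlgHom.ofLinearMap_apply, LinearMap.add_apply, add_sub_cancel_left]
  exact hgs x

theorem lift_star {I : Ideal T} (hI : I ^ 2 = ⊥) (h : Sep A1) {θ : A1.Car} (hθ : Th θ)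
    (φ : A1.Car →ₐ[T] A2.Car) (hφ : Function.Surjective φ)
    (hs : ∀ x, Sm I (φ (star x) - star (φ x))) :
    ∃ ψ : A1.Car →ₐ[T] A2.Car, (∀ x, ψ (star x) = star (ψ x)) ∧ ∀ x, Sm I (ψ x - φ x) := by
  obtain ⟨v, hv1, hv⟩ := h
  let φ' : A1.Car →ₗ[T] A2.Car := A2.stL ∘ₗ φ.toLinearMap ∘ₗ A1.stL
  have hφ' : ∀ x, φ' x = star (φ (star x)) := fun _ => rfl
  have hm' : ∀ x y, φ' (x * y) = φ' x * φ' y := fun x y => by
    rw [hφ', hφ', hφ', star_mul, map_mul, star_mul]
  have hd : ∀ x, Sm I (φ' x - φ x) := fun x => by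
    have z := eqa1_neg (hs (star x))
    rwa [star_star, neg_sub] at z
  obtain ⟨a, ha⟩ : ∃ a, a = ∑ i, (φ' (A1.e i) - φ (A1.e i)) * φ (v i) := ⟨_, rfl⟩
  have has : Sm I a := by rw [ha]; exact eqa1_sum _ fun i => eqa1_right _ (hd _)
  have ha1 : ∑ i, φ' (A1.e i) * φ (v i) = 1 + a := by
    rw [ha, ← map_one φ, ← hv1, map_sum, ← Finset.sum_add_distrib]
    refine Finset.sum_congr rfl fun i _ => ?_
    rw [map_mul, sub_mul, add_sub_cancel]
  have E0 : ∀ x, φ' x * (1 + a) = (1 + a) * φ x := fun x => by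
    have s1 := sep_bil hv ((LinearMap.mul T A2.Car).compl₁₂ φ' φ.toLinearMap) x
    simp only [LinearMap.compl₁₂_apply, LinearMap.mul_apply', AlgHom.toLinearMap_apply, hm',
      map_mul] at s1
    rw [← ha1, Finset.mul_sum, Finset.sum_mul]
    simpa only [mul_assoc] using s1
  have swR : ∀ x c, Sm I c → φ' x * c = φ x * c := fun x c hc => by
    have z := eqa1_zero hI (hd x) hc
    rwa [sub_mul, sub_eq_zero] at z
  have swL : ∀ x c, Sm I c → c * φ' x = c * φ x := fun x c hc => by
    have z := eqa1_zero hI hc (hd x)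
    rwa [mul_sub, sub_eq_zero] at z
  have E1 : ∀ x, φ' x = φ x + a * φ x - φ x * a := fun x => by
    have z := E0 x
    rw [mul_add, mul_one, add_mul, one_mul, swR x a has] at z
    rw [← z, add_sub_cancel_right]
  have E2 : ∀ x, φ' x = φ x + star a * φ x - φ x * star a := fun x => by
    have z := congrArg star (E1 (star x))
    rw [hφ', star_star, star_star, star_sub, star_add, star_mul, star_mul, ← hφ',
      swR x _ (eqa1_star has), swL x _ (eqa1_star has)] at z
    rw [eq_sub_iff_add_eq] at z ⊢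
    exact z.symm
  have E3 : ∀ x, (a - star a) * φ x = φ x * (a - star a) := fun x => by
    have z := (E1 x).symm.trans (E2 x)
    rw [sub_mul, mul_sub]
    linear_combination (norm := abel1) z
  have hc : ∀ t : A1.Car, Cen t → Cen (φ t) := fun t ht y => by
    obtain ⟨w, rfl⟩ := hφ y
    rw [← map_mul, ← map_mul, ht]
  have ht := hc θ hθ.1
  have ht' := hc _ hθ.1.star
  have htt : φ θ + φ (star θ) = 1 := by rw [← map_add, hθ.2, map_one]
  obtain ⟨b, hb⟩ : ∃ b, b = φ θ * a := ⟨_, rfl⟩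
  have hbs : Sm I b := by rw [hb]; exact eqa1_left _ has
  have hbst : star b = φ (star θ) * star a := by
    have z := swL (star θ) _ (eqa1_star has)
    rw [hφ', star_star] at z
    rw [hb, star_mul, z, ht']
  have hbb : b * b = 0 := eqa1_zero hI hbs hbs
  have habb : a - b - star b = φ (star θ) * (a - star a) := by
    rw [hbst, hb, eq_sub_of_add_eq htt]; noncomm_ring
  have E4 : ∀ x, (a - b - star b) * φ x = φ x * (a - b - star b) := fun x => by
    rw [habb, mul_assoc, E3, ← mul_assoc, ht', mul_assoc]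
  have u1 : (1 - b) * (1 + b) = 1 := by
    rw [sub_mul, one_mul, mul_add, mul_one, hbb]; abel
  have u2 : (1 + b) * (1 - b) = 1 := by
    rw [add_mul, one_mul, mul_sub, mul_one, hbb]; abel
  let l : A1.Car →ₗ[T] A2.Car :=
    LinearMap.mulRight T (1 - b) ∘ₗ LinearMap.mulLeft T (1 + b) ∘ₗ φ.toLinearMap
  have hl : ∀ x, l x = (1 + b) * φ x * (1 - b) := fun _ => rfl
  have hl' : ∀ x, l x = φ x + b * φ x - φ x * b := fun x => by
    have z := eqa1_zero hI (eqa1_right (φ x) hbs) hbs
    rw [hl, mul_sub, mul_one, add_mul, one_mul, add_mul, z, add_zero]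
  refine ⟨AlgHom.ofLinearMap l (by rw [hl, map_one, mul_one, u2]) fun x y => ?_,
    fun x => ?_, fun x => ?_⟩
  · rw [hl, hl, hl, map_mul]
    calc (1 + b) * (φ x * φ y) * (1 - b)
        = (1 + b) * φ x * ((1 - b) * (1 + b)) * φ y * (1 - b) := by
          rw [u1, mul_one, mul_assoc (1 + b) (φ x)]
      _ = _ := by simp only [mul_assoc]
  · rw [AlgHom.ofLinearMap_apply, AlgHom.ofLinearMap_apply, hl', hl', star_sub, star_add, star_mul,
      star_mul]
    have e1 : star (φ x) = φ' (star x) := by rw [hφ', star_star]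
    rw [e1, swR _ _ (eqa1_star hbs), swL _ _ (eqa1_star hbs), E1]
    have z := E4 (star x)
    simp only [sub_mul, mul_sub] at z
    linear_combination (norm := abel1) -z
  · rw [AlgHom.ofLinearMap_apply, hl', sub_right_comm, add_sub_cancel_left]
    exact eqa1_sub (eqa1_right _ hbs) (eqa1_left _ hbs)

end Pool.Agent.SU
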