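import Pool.Agent.P.MP_c1f06d_ag.su.Rp

open Matrix Polynomial IsLocalRing

universe u

namespace Pool.Agent.SU

open SAlg

open TensorProduct in
/-- Cutting an etale algebra over affine space by a section through the given point. -/
theorem sm_cut {C R B : Type u} [CommRing C] [CommRing R] [CommRing B] (σ : C →+* R)
    (hσ : Function.Surjective σ) {n : ℕ} (g : MvPolynomial (Fin n) C →+* B) (hg : g.Etale)
    (τ : B →+* R) (hτ : τ.comp (g.comp MvPolynomial.C) = σ) :
    ∃ (C' : Type u) (_ : CommRing C') (f : C →+* C') (σ' : C' →+* R) (φ : B →+* C'),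
      f.Etale ∧ σ'.comp f = σ ∧ σ'.comp φ = τ ∧ φ.comp (g.comp MvPolynomial.C) = f := by
  choose c hc using fun i : Fin n => hσ (τ (g (MvPolynomial.X i)))
  letI a1 : Algebra (MvPolynomial (Fin n) C) C := (MvPolynomial.eval c).toAlgebra
  letI a2 : Algebra (MvPolynomial (Fin n) C) B := g.toAlgebra
  letI a3 : Algebra (MvPolynomial (Fin n) C) R := (τ.comp g).toAlgebra
  haveI : Algebra.Etale (MvPolynomial (Fin n) C) B := hg
  have e : σ.comp (MvPolynomial.eval c) = τ.comp g := by
    refine MvPolynomial.ringHom_ext (fun a => ?_) (fun i => ?_)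
    · have := RingHom.congr_fun hτ a
      simp only [RingHom.comp_apply] at this ⊢
      rw [MvPolynomial.eval_C, this]
    · simp only [RingHom.comp_apply]
      rw [MvPolynomial.eval_X, hc]
  let σa : C →ₐ[MvPolynomial (Fin n) C] R := { σ with commutes' := fun q => RingHom.congr_fun e q }
  let τa : B →ₐ[MvPolynomial (Fin n) C] R := { τ with commutes' := fun q => rfl }
  refine ⟨C ⊗[MvPolynomial (Fin n) C] B, inferInstance, algebraMap C _,
    (Algebra.TensorProduct.productMap σa τa).toRingHom,
    (Algebra.TensorProduct.includeRight (R := MvPolynomial (Fin n) C) (A := C) (B := B)).toRingHom,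
    RingHom.etale_algebraMap.mpr inferInstance, ?_, ?_, ?_⟩
  · ext a
    show Algebra.TensorProduct.productMap σa τa (a ⊗ₜ 1) = σ a
    rw [Algebra.TensorProduct.productMap_apply_tmul, map_one, mul_one]
    rfl
  · ext b
    show Algebra.TensorProduct.productMap σa τa (1 ⊗ₜ b) = τ b
    rw [Algebra.TensorProduct.productMap_apply_tmul, map_one, one_mul]
    rfl
  · ext a
    have h1 := (Algebra.TensorProduct.includeRight (R := MvPolynomial (Fin n) C) (A := C)
      (B := B)).commutes (MvPolynomial.C a)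
    have h2 : algebraMap (MvPolynomial (Fin n) C) C (MvPolynomial.C a) = a :=
      MvPolynomial.eval_C a
    rw [Algebra.TensorProduct.algebraMap_apply, h2] at h1
    exact h1

/-- A smooth algebra with a point along a section has a point on an etale neighbourhood. -/
theorem sm_sec {C R A : Type u} [CommRing C] [CommRing R] [IsLocalRing R] [CommRing A]
    [Algebra C A] [Algebra.FinitePresentation C A] [Algebra.FormallySmooth C A] (σ : C →+* R)
    (hσ : Function.Surjective σ) (τ : A →+* R) (hτ : τ.comp (algebraMap C A) = σ) :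
    ∃ (C' : Type u) (_ : CommRing C') (f : C →+* C') (σ' : C' →+* R) (φ : A →+* C'),
      f.Etale ∧ σ'.comp f = σ ∧ σ'.comp φ = τ ∧ φ.comp (algebraMap C A) = f := by
  obtain ⟨s, hs, hstd⟩ := Algebra.IsSmoothAt.exists_notMem_isStandardSmooth C
    (Ideal.comap τ (maximalIdeal R))
  obtain ⟨n, g, hgC, hg⟩ := RingHom.IsStandardSmooth.exists_etale_mvPolynomial
    (f := algebraMap C (Localization.Away s)) (RingHom.isStandardSmooth_algebraMap.mpr hstd)
  have hu : IsUnit (τ s) := IsLocalRing.notMem_maximalIdeal.mp hs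
  have h1 : (IsLocalization.Away.lift (S := Localization.Away s) s hu).comp
      (algebraMap A (Localization.Away s)) = τ := IsLocalization.Away.lift_comp s hu
  have h2 : (algebraMap A (Localization.Away s)).comp (algebraMap C A) =
      algebraMap C (Localization.Away s) := (IsScalarTower.algebraMap_eq C A _).symm
  obtain ⟨C', i, f, σ', φ, e1, e2, e3, e4⟩ := sm_cut σ hσ g hg
    (IsLocalization.Away.lift (S := Localization.Away s) s hu)
    (by rw [hgC, ← h2, ← RingHom.comp_assoc, h1, hτ])
  refine ⟨C', i, f, σ', φ.comp (algebraMap A (Localization.Away s)), e1, e2, ?_, ?_⟩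
  · rw [← RingHom.comp_assoc, e3, h1]
  · rw [RingHom.comp_assoc, h2, ← hgC, e4]

/-- A formally smooth natural system of equations with a solution along a section has a solution
on an etale neighbourhood of the section. -/
theorem exists_etale_sol {C R : Type u} [CommRing C] [CommRing R] [IsLocalRing R] (σ : C →+* R)
    (hσ : Function.Surjective σ) {ι κ : Type} [Finite ι] [Finite κ]
    (F : ∀ (T : Type u) [CommRing T], (C →+* T) → (ι → T) → κ → T)
    (hnat : ∀ (T T' : Type u) [CommRing T] [CommRing T'] (f : C →+* T) (g : T →+* T') (x : ι → T),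
      F T' (g.comp f) (g ∘ x) = g ∘ F T f x)
    (hlift : ∀ (T : Type u) [CommRing T] (f : C →+* T) (I : Ideal T), I ^ 2 = ⊥ → ∀ x : ι → T,
      (∀ a, F T f x a ∈ I) → ∃ y : ι → T, (∀ i, y i - x i ∈ I) ∧ F T f y = 0)
    (x0 : ι → R) (h0 : F R σ x0 = 0) :
    ∃ (C' : Type u) (_ : CommRing C') (f : C →+* C') (σ' : C' →+* R) (x : ι → C'),
      f.Etale ∧ σ'.comp f = σ ∧ σ' ∘ x = x0 ∧ F C' f x = 0 := by
  let J : Ideal (MvPolynomial ι C) :=
    Ideal.span (Set.range (F (MvPolynomial ι C) MvPolynomial.C MvPolynomial.X))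
  let xH : ι → MvPolynomial ι C ⧸ J := Ideal.Quotient.mk J ∘ MvPolynomial.X
  have hal : algebraMap C (MvPolynomial ι C ⧸ J) = (Ideal.Quotient.mk J).comp MvPolynomial.C := rfl
  have hH : F (MvPolynomial ι C ⧸ J) (algebraMap C _) xH = 0 := by
    rw [hal, hnat]
    funext a
    exact Ideal.Quotient.eq_zero_iff_mem.mpr (Ideal.subset_span ⟨a, rfl⟩)
  have hsol : ∀ (T : Type u) [CommRing T] (φ : (MvPolynomial ι C ⧸ J) →+* T),
      F T (φ.comp (algebraMap C _)) (φ ∘ xH) = 0 := by
    intro T _ φ
    rw [hnat, hH]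
    funext a
    exact map_zero φ
  have hhom : ∀ (T : Type u) [CommRing T] (f : C →+* T) (y : ι → T), F T f y = 0 →
      ∃ φ : (MvPolynomial ι C ⧸ J) →+* T, φ.comp (algebraMap C _) = f ∧ φ ∘ xH = y := by
    intro T _ f y hy
    have e1 : (MvPolynomial.eval₂Hom f y).comp MvPolynomial.C = f := by
      ext a
      simp
    have e2 : (MvPolynomial.eval₂Hom f y) ∘ MvPolynomial.X = y := by
      funext i
      simp
    have hk : J ≤ RingHom.ker (MvPolynomial.eval₂Hom f y) := by
      refine Ideal.span_le.mpr ?_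
      rintro _ ⟨a, rfl⟩
      have := congrFun (hnat _ T MvPolynomial.C (MvPolynomial.eval₂Hom f y) MvPolynomial.X) a
      rw [e1, e2, hy] at this
      exact this.symm
    exact ⟨Ideal.Quotient.lift J (MvPolynomial.eval₂Hom f y) fun a ha => hk ha, e1, e2⟩
  haveI : Algebra.FinitePresentation C (MvPolynomial ι C ⧸ J) :=
    Algebra.FinitePresentation.quotient (Submodule.fg_span (Set.finite_range _))
  haveI : Algebra.FormallySmooth C (MvPolynomial ι C ⧸ J) := by
    refine Algebra.FormallySmooth.of_comp_surjective fun B _ _ I hI ψ => ?_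
    choose x hx using fun i => Ideal.Quotient.mk_surjective (I := I) (ψ (xH i))
    have e1 : (Ideal.Quotient.mk I).comp (algebraMap C B) =
        ψ.toRingHom.comp (algebraMap C _) := by
      ext a
      exact (ψ.commutes a).symm
    have e2 : Ideal.Quotient.mk I ∘ x = ψ.toRingHom ∘ xH := funext hx
    obtain ⟨y, hy, hF⟩ := hlift B (algebraMap C B) I hI x fun a => by
      have := congrFun (hnat B _ (algebraMap C B) (Ideal.Quotient.mk I) x) a
      rw [e1, e2, hsol] at this
      exact Ideal.Quotient.eq_zero_iff_mem.mp this.symm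
    obtain ⟨φ, h1, h2⟩ := hhom B (algebraMap C B) y hF
    refine ⟨{ φ with commutes' := fun a => RingHom.congr_fun h1 a }, ?_⟩
    refine Ideal.Quotient.algHom_ext _ (MvPolynomial.algHom_ext fun i => ?_)
    show Ideal.Quotient.mk I (φ (xH i)) = ψ (xH i)
    rw [← hx i, show φ (xH i) = y i from congrFun h2 i]
    exact Ideal.Quotient.eq.mpr (hy i)
  obtain ⟨τ, t1, t2⟩ := hhom R σ x0 h0
  obtain ⟨C', i, f, σ', φ, e1, e2, e3, e4⟩ := sm_sec σ hσ τ t1
  refine ⟨C', i, f, σ', φ ∘ xH, e1, e2, ?_, ?_⟩
  · rw [← t2, ← e3]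
    rfl
  · rw [← e4]
    exact hsol C' φ

end Pool.Agent.SU
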