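import Pool.Agent.P.MP_c1f06d_ag.su.CDefs
import Pool.Agent.P.MP_c1f06d_ag.su.EqA1
import Pool.Agent.P.MP_c1f06d_ag.su.SM

open Matrix Polynomial IsLocalRing TensorProduct

universe u

namespace Pool.Agent.SU

open SAlg Pool.Agent.P.MP_c1f06d_ag

variable {T R : Type u} [CommRing T] [CommRing R] [IsLocalRing R] {N : ℕ} {A A1 A2 : SAlg T N}

section aux

variable {S S' : Type u} [CommRing S] [CommRing S'] {B B1 B2 : SAlg S N}

theorem ceqa_unit (σ : S →+* S') (a : S) (ha : IsUnit (σ a)) :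
    ∃ (T' : Type u) (_ : CommRing T') (f : S →+* T') (σ' : T' →+* S'),
      f.Etale ∧ σ'.comp f = σ ∧ IsUnit (f a) :=
  ⟨Localization.Away a, inferInstance, algebraMap _ _, IsLocalization.Away.lift a ha,
    RingHom.etale_algebraMap.2 (Algebra.Etale.of_isLocalizationAway a),
    IsLocalization.Away.lift_comp a ha, IsLocalization.Away.algebraMap_isUnit a⟩

/-- The unknowns as a matrix. -/
def ceqa_mat (x : Fin N × Fin N → S) : Matrix (Fin N) (Fin N) S := of fun a b => x (a, b)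

/-- The equations for an algebra map. -/
def ceqa_F (B1 B2 : SAlg S N) (x : Fin N × Fin N → S) : Option (Fin N × Fin N) × Fin N → S
  | (none, k) => (ap B2 (ceqa_mat x) (1 : B1.Car) - 1).co k
  | (some (i, j), k) => (ap B2 (ceqa_mat x) (B1.e i * B1.e j) -
      ap B2 (ceqa_mat x) (B1.e i) * ap B2 (ceqa_mat x) (B1.e j)).co k

theorem ceqa_iff {x : Fin N × Fin N → S} : ceqa_F B1 B2 x = 0 ↔ IsHom B1 B2 (ceqa_mat x) := by
  refine ⟨fun h => ⟨sub_eq_zero.1 (Car.ext (funext fun k => congrFun h (none, k))), fun i j =>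
    sub_eq_zero.1 (Car.ext (funext fun k => congrFun h (some (i, j), k)))⟩, fun h => ?_⟩
  funext k
  rcases k with ⟨_ | ⟨i, j⟩, k⟩
  · exact congrFun (congrArg Car.co (sub_eq_zero.2 h.1)) k
  · exact congrFun (congrArg Car.co (sub_eq_zero.2 (h.2 i j))) k

theorem ceqa_nat (g : S →+* S') (x : Fin N × Fin N → S) :
    ceqa_F (B1.map g) (B2.map g) (g ∘ x) = g ∘ ceqa_F B1 B2 x := by
  funext k
  rcases k with ⟨_ | ⟨i, j⟩, k⟩
  · change _ = (B2.bc g (_ - _)).co k
    rw [map_sub, bc_ap, map_one, map_one]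
    rfl
  · change _ = (B2.bc g (_ - _)).co k
    rw [map_sub, map_mul, bc_ap, bc_ap, bc_ap, map_mul, bc_e, bc_e]
    rfl

theorem ceqa_lift (hB : Sep B1) (I : Ideal S) (hI : I ^ 2 = ⊥) (x : Fin N × Fin N → S)
    (h : ∀ a, ceqa_F B1 B2 x a ∈ I) :
    ∃ y : Fin N × Fin N → S, (∀ i, y i - x i ∈ I) ∧ ceqa_F B1 B2 y = 0 := by
  have h0 : IsHom (B1.map (Ideal.Quotient.mk I)) (B2.map (Ideal.Quotient.mk I))
      ((ceqa_mat x).map (Ideal.Quotient.mk I)) := by
    refine (ceqa_iff (x := Ideal.Quotient.mk I ∘ x)).1 ?_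
    rw [ceqa_nat]
    exact funext fun a => Ideal.Quotient.eq_zero_iff_mem.2 (h a)
  obtain ⟨φ, hφ⟩ := lift_alg hI hB (apL B2 (ceqa_mat x) B1)
    (by rw [Sm, map_sub, apL_apply, bc_ap, map_one, map_one, h0.1, sub_self])
    (fun a b => by
      rw [Sm, apL_apply, apL_apply, apL_apply, map_sub, map_mul (B2.bc _), bc_ap, bc_ap, bc_ap,
        map_mul, h0.mul, sub_self])
  obtain ⟨M, hM⟩ := exists_ap B2 φ.toLinearMap
  have hM' : ∀ y, ap B2 M y = φ y := hM
  refine ⟨fun q => M q.1 q.2, fun q => ?_, ceqa_iff.2 ?_⟩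
  · have h1 := sm_iff.1 (hφ (B1.e q.2)) q.1
    rw [← hM', apL_apply, co_sub, co_ap, co_ap] at h1
    change (M *ᵥ Pi.single q.2 1 - ceqa_mat x *ᵥ Pi.single q.2 1) q.1 ∈ I at h1
    rw [mulVec_single_one, mulVec_single_one] at h1
    exact h1
  · change IsHom B1 B2 M
    exact ⟨by rw [hM', map_one], fun i j => by rw [hM', hM', hM', map_mul]⟩

theorem ceqa_one (B : SAlg S N) : IsHom B B 1 :=
  have h : ∀ y : B.Car, ap B 1 y = y := fun y => Car.ext (one_mulVec _)
  ⟨h _, fun i j => by rw [h, h, h]⟩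

theorem ceqa_congr {P : Matrix (Fin N) (Fin N) S} (hP : Half B P) {I : Ideal S} (hI : I ^ 2 = ⊥)
    {q1 q2 v : B.Car} (hu : IsUnit (q2 + star q2))
    (h : Sm I (q2 + star q2 - star v * (q1 + star q1) * v)) :
    ∃ w, Sm I (w - v) ∧ q2 + star q2 = star w * (q1 + star q1) * w := by
  have : IsLocalHom (Ideal.Quotient.mk I) :=
    ⟨fun a ha => (IsNilpotent.isUnit_quotient_mk_iff ⟨2, hI⟩).1 ha⟩
  obtain ⟨H, hH⟩ : ∃ H, H = star v * (q1 + star q1) * v := ⟨_, rfl⟩
  have hs : star H = H := by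
    rw [hH, star_mul, star_mul, star_star, star_add, star_star, add_comm (star q1), mul_assoc]
  have hj : q2 + star q2 - H = q2 - star v * q1 * v + star (q2 - star v * q1 * v) := by
    rw [hH, star_sub, star_mul, star_mul, star_star]
    noncomm_ring
  rw [← hH] at h
  have hHu : IsUnit H := by
    refine isUnit_of_bc (Ideal.Quotient.mk I) ?_
    have h1 := h
    rw [Sm, map_sub, sub_eq_zero] at h1
    rw [← h1]
    exact hu.map _
  obtain ⟨K, hK⟩ := hHu.exists_right_inv
  obtain ⟨r, hr⟩ : ∃ r, r = ap B P (q2 + star q2 - H) := ⟨_, rfl⟩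
  have hr1 : r + star r = q2 + star q2 - H := by rw [hr, hj]; exact hP.apply _
  have hr2 : Sm I r := by
    have h1 := h
    rw [Sm] at h1
    rw [hr, Sm, bc_ap, h1]
    exact Car.ext (by rw [co_ap, co_zero, mulVec_zero])
  have hz : Sm I (K * r) := eqa1_left _ hr2
  have e1 : H * (K * r) = r := by rw [← mul_assoc, hK, one_mul]
  have e2 : star (K * r) * H = star r := by
    have := congrArg star e1
    rwa [star_mul, hs] at this
  have e3 : star (K * r) * r = 0 := eqa1_zero hI (eqa1_star hz) hr2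
  refine ⟨v * (1 + K * r), ?_, ?_⟩
  · rw [mul_add, mul_one, add_sub_cancel_left]
    exact eqa1_left _ hz
  · have e4 : star (v * (1 + K * r)) * (q1 + star q1) * (v * (1 + K * r)) =
        H + H * (K * r) + star (K * r) * H + star (K * r) * (H * (K * r)) := by
      rw [star_mul, star_add, star_one, hH]
      noncomm_ring
    rw [e4, e1, e2, e3, add_zero, add_assoc, hr1, add_sub_cancel]

end aux

/-- Two algebras that agree along a section are isomorphic on an etale neighbourhood. -/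
theorem exists_etale_hom (σ : T →+* R) (hσ : Function.Surjective σ) (h : A1.map σ = A2.map σ)
    (hA : Sep A1) :
    ∃ (T' : Type u) (_ : CommRing T') (f : T →+* T') (σ' : T' →+* R), f.Etale ∧ σ'.comp f = σ ∧
      ∃ M, IsHom (A1.map f) (A2.map f) M ∧ M.map σ' = 1 ∧ IsUnit M.det := by
  obtain ⟨T1, _, f, σ1, x, hf, hc, hx, h0⟩ := exists_etale_sol σ hσ
    (fun S _ f x => ceqa_F (A1.map f) (A2.map f) x)
    (fun S S' _ _ f g x => ceqa_nat (B1 := A1.map f) (B2 := A2.map f) g x)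
    (fun S _ f I hI x hx => ceqa_lift (hA.map f) I hI x hx)
    (fun q => (1 : Matrix (Fin N) (Fin N) R) q.1 q.2) (by
      rw [h, ceqa_iff]
      exact ceqa_one _)
  have h1 : (ceqa_mat x).map σ1 = 1 := Matrix.ext fun a b => congrFun hx (a, b)
  obtain ⟨T2, _, f2, σ2, hf2, hc2, hu⟩ := ceqa_unit σ1 (ceqa_mat x).det (by
    rw [RingHom.map_det, RingHom.mapMatrix_apply, h1, det_one]
    exact isUnit_one)
  refine ⟨T2, inferInstance, f2.comp f, σ2, RingHom.Etale.stableUnderComposition _ _ hf hf2, ?_,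
    (ceqa_mat x).map f2, (ceqa_iff.1 h0).map f2, ?_, ?_⟩
  · rw [← RingHom.comp_assoc, hc2, hc]
  · rw [← h1, ← hc2]
    rfl
  · rwa [RingHom.map_det, RingHom.mapMatrix_apply] at hu

/-- Two even hermitian units that agree along a section are congruent on an etale
neighbourhood. -/
theorem exists_etale_congr (σ : T →+* R) (hσ : Function.Surjective σ)
    {P : Matrix (Fin N) (Fin N) T} (hP : Half A P) {q1 q2 : A.Car}
    (h : A.bc σ (q1 + star q1) = A.bc σ (q2 + star q2)) (hu : IsUnit (A.bc σ (q1 + star q1))) :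
    ∃ (T' : Type u) (_ : CommRing T') (f : T →+* T') (σ' : T' →+* R), f.Etale ∧ σ'.comp f = σ ∧
      ∃ v, A.bc f (q2 + star q2) = star v * A.bc f (q1 + star q1) * v := by
  obtain ⟨T0, _, f0, σ0, hf0, rfl, hu0⟩ := ceqa_unit σ (lm (q2 + star q2)).det (by
    rw [RingHom.map_det, RingHom.mapMatrix_apply, ← lm_bc, ← isUnit_iff_lm, ← h]
    exact hu)
  rw [RingHom.map_det, RingHom.mapMatrix_apply, ← lm_bc, ← isUnit_iff_lm] at hu0
  obtain ⟨T1, _, f, σ1, x, hf, hc, -, hx⟩ := exists_etale_sol σ0 (Function.Surjective.of_comp hσ)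
    (ι := Fin N) (κ := Fin N)
    (fun S _ f x => (A.bc (f.comp f0) (q2 + star q2) - star (⟨x⟩ : (A.map (f.comp f0)).Car) *
      A.bc (f.comp f0) (q1 + star q1) * ⟨x⟩).co)
    (fun S S' _ _ f g x => by
      rw [← co_bc g (_ - _)]
      simp only [map_sub, map_mul, bc_star]
      rfl)
    (fun S _ f I hI x hx => by
      have h1 : IsUnit (A.bc (f.comp f0) (q2 + star q2)) := hu0.map ((A.map f0).bc f)
      have h2 := sm_iff.2 hx
      rw [map_add, map_add, bc_star, bc_star] at h2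
      rw [map_add, bc_star] at h1
      obtain ⟨w, e0, e1⟩ := ceqa_congr (hP.map (f.comp f0)) hI h1 h2
      refine ⟨w.co, sm_iff.1 e0, ?_⟩
      change (_ - star w * _ * w).co = 0
      rw [map_add, map_add, bc_star, bc_star, ← e1, sub_self, co_zero])
    (1 : (A.map (σ0.comp f0)).Car).co (by
      change (_ - star (1 : (A.map (σ0.comp f0)).Car) * _ * 1).co = 0
      rw [star_one, one_mul, mul_one, h, sub_self, co_zero])
  refine ⟨T1, inferInstance, f.comp f0, σ1, RingHom.Etale.stableUnderComposition _ _ hf0 hf, ?_,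
    ⟨x⟩, sub_eq_zero.1 (Car.ext hx)⟩
  rw [← RingHom.comp_assoc, hc]

end Pool.Agent.SU
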