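import Pool.Agent.P.MP_c1f06d_ag.su.Loc
import Pool.Agent.P.MP_c1f06d_ag.Tors2

open Matrix Polynomial IsLocalRing TensorProduct

universe u

namespace Pool.Agent.SU

open SAlg Pool.Agent.P.MP_c1f06d_ag

variable {R : Type u} [CommRing R] {N : ℕ}

/-- Base change along a map of `R`-algebras. -/
def SAlg.alg (A : SAlg R N) {T T' : Type u} [CommRing T] [Algebra R T] [CommRing T'] [Algebra R T']
    (f : T →ₐ[R] T') : (A.map (algebraMap R T)).Car →+* (A.map (algebraMap R T')).Car :=
  A.hom (f : T →+* T') f.comp_algebraMap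

section
variable (A : SAlg R N) {T T' T'' : Type u} [CommRing T] [Algebra R T] [CommRing T'] [Algebra R T']
  [CommRing T''] [Algebra R T'']

theorem SAlg.co_alg (f : T →ₐ[R] T') (x : (A.map (algebraMap R T)).Car) :
    (A.alg f x).co = f ∘ x.co := rfl

theorem SAlg.alg_alg (f : T →ₐ[R] T') (g : T' →ₐ[R] T'') (x : (A.map (algebraMap R T)).Car) :
    A.alg g (A.alg f x) = A.alg (g.comp f) x := rfl

theorem SAlg.alg_bc (f : T →ₐ[R] T') (x : A.Car) :
    A.alg f (A.bc (algebraMap R T) x) = A.bc (algebraMap R T') x :=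
  Car.ext (funext fun i => f.commutes (x.co i))

theorem SAlg.alg_star (f : T →ₐ[R] T') (x : (A.map (algebraMap R T)).Car) :
    A.alg f (star x) = star (A.alg f x) :=
  Car.ext (funext fun k => by
    change f ((A.st.map (algebraMap R T) *ᵥ x.co) k) = (A.st.map (algebraMap R T') *ᵥ (f ∘ x.co)) k
    simp [mulVec, dotProduct])

theorem ch90_rm (f : T →ₐ[R] T') (x : (A.map (algebraMap R T)).Car) :
    rm (A.alg f x) = (rm x).map f := by
  ext k i
  change ((A.L i).map (algebraMap R T') *ᵥ (f ∘ x.co)) k = f (((A.L i).map (algebraMap R T) *ᵥ x.co) k)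
  simp [mulVec, dotProduct]

theorem ch90_inj (f : T →ₐ[R] T') (hf : Function.Injective f) : Function.Injective (A.alg f) :=
  fun _ _ h => Car.ext (funext fun i => hf (congrFun (congrArg Car.co h) i))

theorem ch90_left_inj (E S : Type u) [CommRing E] [Algebra R E] [CommRing S] [Algebra R S]
    [Module.FaithfullyFlat R S] :
    Function.Injective (Algebra.TensorProduct.includeLeft : E →ₐ[R] E ⊗[R] S) :=
  FaithfulSMul.algebraMap_injective E (E ⊗[R] S)

theorem ch90_desc (E S : Type u) [CommRing E] [Algebra R E] [CommRing S] [Algebra R S]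
    [Module.FaithfullyFlat R S] (x : (A.map (algebraMap R (E ⊗[R] S))).Car)
    (hx : ∀ (T : Type u) [CommRing T] [Algebra R T] (a b : E ⊗[R] S →ₐ[R] T),
      a.comp (Algebra.TensorProduct.includeLeft : E →ₐ[R] E ⊗[R] S) =
        b.comp (Algebra.TensorProduct.includeLeft : E →ₐ[R] E ⊗[R] S) → A.alg a x = A.alg b x) :
    ∃ y, A.alg (Algebra.TensorProduct.includeLeft : E →ₐ[R] E ⊗[R] S) y = x := by
  have h := hx ((E ⊗[R] S) ⊗[E] (E ⊗[R] S)) Algebra.TensorProduct.includeLeft
    ((Algebra.TensorProduct.includeRight :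
      E ⊗[R] S →ₐ[E] (E ⊗[R] S) ⊗[E] (E ⊗[R] S)).restrictScalars R) (by
      apply AlgHom.ext
      intro k
      change (algebraMap E (E ⊗[R] S) k) ⊗ₜ[E] (1 : E ⊗[R] S) =
        (1 : E ⊗[R] S) ⊗ₜ[E] (algebraMap E (E ⊗[R] S) k)
      rw [Algebra.algebraMap_eq_smul_one, smul_tmul])
  choose y hy using fun i =>
    mem_range_of_includeLeft_eq (R := E) (x.co i) (congrFun (congrArg Car.co h) i)
  exact ⟨⟨y⟩, Car.ext (funext hy)⟩

end

/-- Cocycles of units for a faithfully flat algebra over a local ring are coboundaries. -/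
theorem h90E [IsLocalRing R] {A : SAlg R N} (hA : Sep A) (E : Type u) [CommRing E] [Algebra R E]
    [Module.FaithfullyFlat R E]
    (γ : ∀ (T : Type u) [CommRing T] [Algebra R T],
      (E →ₐ[R] T) → (E →ₐ[R] T) → (A.map (algebraMap R T)).Car)
    (hnat : ∀ (T T' : Type u) [CommRing T] [Algebra R T] [CommRing T'] [Algebra R T']
      (f : T →ₐ[R] T') (a b : E →ₐ[R] T), A.alg f (γ T a b) = γ T' (f.comp a) (f.comp b))
    (hone : ∀ (T : Type u) [CommRing T] [Algebra R T] (a : E →ₐ[R] T), γ T a a = 1)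
    (hmul : ∀ (T : Type u) [CommRing T] [Algebra R T] (a b c : E →ₐ[R] T),
      γ T a b * γ T b c = γ T a c) :
    ∃ β : (A.map (algebraMap R E)).Car, IsUnit β ∧
      ∀ (T : Type u) [CommRing T] [Algebra R T] (a b : E →ₐ[R] T),
        A.alg a β * γ T a b = A.alg b β := by
  obtain ⟨S, _, _, _, hff, -, ⟨e⟩⟩ := exists_local_cover R E
  obtain ⟨H, hH, hh⟩ := h90 (R := R) (S := S) (n := N)
    (fun T _ _ a b => rm (γ T (a.comp e) (b.comp e)))
    (fun T T' _ _ _ _ f a b => by rw [← ch90_rm, hnat]; rfl)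
    (fun T _ _ a => by rw [hone, rm_one]) (fun T _ _ a b c => by rw [← rm_mul, hmul])
  obtain ⟨m, hm, -⟩ := free_local hA (algebraMap R S) (FaithfulSMul.algebraMap_injective R S) H hH
    (fun x => by
      have key : ∀ i k, ∃ c, algebraMap R S c = (H⁻¹ * ((lm x).map (algebraMap R S) * H)) i k := by
        intro i k
        refine desc_base _ fun T _ _ a b => ?_
        have e1 : ∀ a : S →ₐ[R] T, H.map a * (H⁻¹ * ((lm x).map (algebraMap R S) * H)).map a =
            lm (A.bc (algebraMap R T) x) * H.map a := fun a => by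
          rw [← map_mul_algHom, mul_nonsing_inv_cancel_left _ _ hH, map_mul_algHom,
            map_algebraMap_algHom, lm_bc]
        have hb : IsUnit (H.map b) := ((isUnit_iff_isUnit_det H).2 hH).map b.mapMatrix
        have e2 : (H⁻¹ * ((lm x).map (algebraMap R S) * H)).map a =
            (H⁻¹ * ((lm x).map (algebraMap R S) * H)).map b := hb.mul_left_cancel (by
          rw [e1, ← hh T a b, Matrix.mul_assoc, e1, ← Matrix.mul_assoc, ← Matrix.mul_assoc, lm_rm])
        exact congrFun (congrFun e2 i) k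
      choose c hc using key
      refine ⟨Matrix.of c, ?_⟩
      have : (Matrix.of c).map (algebraMap R S) = H⁻¹ * ((lm x).map (algebraMap R S) * H) :=
        Matrix.ext fun i k => hc i k
      rw [this, mul_nonsing_inv_cancel_left _ _ hH])
  set β0 : (A.map (algebraMap R S)).Car := ⟨H *ᵥ (algebraMap R S ∘ m)⟩ with hβ0
  have hco : ∀ (T : Type u) [CommRing T] [Algebra R T] (a : S →ₐ[R] T),
      (A.alg a β0).co = H.map a *ᵥ (algebraMap R T ∘ m) := fun T _ _ a => by
    funext k
    change a ((H *ᵥ (algebraMap R S ∘ m)) k) = _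
    simp [mulVec, dotProduct]
  have h0 : ∀ (T : Type u) [CommRing T] [Algebra R T] (a b : S →ₐ[R] T),
      A.alg a β0 * γ T (a.comp e) (b.comp e) = A.alg b β0 := fun T _ _ a b =>
    Car.ext (by rw [co_mul', hco, hco, mulVec_mulVec, hh])
  set l : E →ₐ[R] E ⊗[R] S := Algebra.TensorProduct.includeLeft with hl
  set r : S →ₐ[R] E ⊗[R] S := Algebra.TensorProduct.includeRight with hr
  set β1 := A.alg r β0 * γ (E ⊗[R] S) (r.comp e) l with hβ1
  have h1 : ∀ (T : Type u) [CommRing T] [Algebra R T] (a : E ⊗[R] S →ₐ[R] T),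
      A.alg a β1 = A.alg (a.comp r) β0 * γ T ((a.comp r).comp e) (a.comp l) := fun T _ _ a => by
    rw [hβ1, map_mul, hnat, SAlg.alg_alg]; rfl
  have h2 : ∀ (T : Type u) [CommRing T] [Algebra R T] (a b : E ⊗[R] S →ₐ[R] T),
      a.comp l = b.comp l → A.alg a β1 = A.alg b β1 := fun T _ _ a b hab => by
    rw [h1, h1, ← h0 T (a.comp r) (b.comp r), mul_assoc, hmul, hab]
  have hu : IsUnit β1 := (hm.map (A.alg r)).mul
    (isUnit_of_mul_eq_one (y := γ (E ⊗[R] S) l (r.comp e)) (by rw [hmul, hone]))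
  obtain ⟨δ1, hδ, hδ'⟩ := isUnit_iff_exists.1 hu
  obtain ⟨β, hβ⟩ := ch90_desc A E S β1 h2
  obtain ⟨δ, hd⟩ := ch90_desc A E S δ1 fun T _ _ a b hab =>
    left_inv_eq_right_inv (a := A.alg a β1) (by rw [← map_mul, hδ', map_one])
      (by rw [h2 T a b hab, ← map_mul, hδ, map_one])
  refine ⟨β, isUnit_of_mul_eq_one (y := δ) (ch90_inj A _ (ch90_left_inj E S) (by
    rw [map_mul, hβ, hd, hδ, map_one])), fun T _ _ a b => ?_⟩
  have h3 : ∀ a : E →ₐ[R] T,
      A.alg (Algebra.TensorProduct.includeLeft : T →ₐ[R] T ⊗[R] S) (A.alg a β) =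
        A.alg Algebra.TensorProduct.includeRight β0 *
          γ (T ⊗[R] S) (Algebra.TensorProduct.includeRight.comp e)
            (Algebra.TensorProduct.includeLeft.comp a) := fun a => by
    have e1 : (Algebra.TensorProduct.map a (AlgHom.id R S)).comp l =
        (Algebra.TensorProduct.includeLeft : T →ₐ[R] T ⊗[R] S).comp a :=
      Algebra.TensorProduct.map_comp_includeLeft _ _
    have e2 : (Algebra.TensorProduct.map a (AlgHom.id R S)).comp r =
        (Algebra.TensorProduct.includeRight : S →ₐ[R] T ⊗[R] S) := AlgHom.ext fun s => by simp [hr]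
    rw [SAlg.alg_alg, ← e1, ← SAlg.alg_alg, hβ, h1, e2]
  refine ch90_inj A _ (ch90_left_inj T S) ?_
  rw [map_mul, h3, h3, hnat, mul_assoc, hmul]

end Pool.Agent.SU
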