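import Mathlib

open Matrix TensorProduct

universe u

namespace Pool.Agent.SU.C

/-- The product of the matrix algebras of sizes `2 * n i`. -/
abbrev Mats {r : ℕ} (n : Fin r → ℕ) (S : Type u) : Type u :=
  ∀ i, Matrix (Fin (n i) ⊕ Fin (n i)) (Fin (n i) ⊕ Fin (n i)) S

/-- The standard symplectic involution `x ↦ J⁻¹ xᵀ J` on every factor. -/
def stdInv {r : ℕ} {n : Fin r → ℕ} {S : Type u} [CommRing S] (x : Mats n S) : Mats n S :=
  fun i => -(J (Fin (n i)) S * (x i)ᵀ * J (Fin (n i)) S)

variable {R B : Type u} [CommRing R] [Ring B] [Algebra R B]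

/-- `φ` carries the extension of `σ` to the standard symplectic involution. -/
def Splits (σ : B →ₗ[R] B) (S : Type u) [CommRing S] [Algebra R S] {r : ℕ} (n : Fin r → ℕ) :
    Prop :=
  ∃ φ : S ⊗[R] B ≃ₐ[S] Mats n S, ∀ x, φ (σ.baseChange S x) = stdInv (φ x)

/-- After a faithfully flat base change, `(B, σ)` is a product of matrix algebras with their
standard symplectic involutions. -/
def IsSymplectic (σ : B →ₗ[R] B) : Prop :=
  ∃ (S : Type u) (_ : CommRing S) (_ : Algebra R S) (r : ℕ) (n : Fin r → ℕ),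
    Module.FaithfullyFlat R S ∧ Splits σ S n

/-- `x σ(x) = 1 = σ(x) x` in `T ⊗ B`. -/
def InSp (σ : B →ₗ[R] B) (T : Type u) [CommRing T] [Algebra R T] (x : T ⊗[R] B) : Prop :=
  x * σ.baseChange T x = 1 ∧ σ.baseChange T x * x = 1

/-- The points of `Sp(B, σ)` with values in `T`. -/
structure SpPt (σ : B →ₗ[R] B) (T : Type u) [CommRing T] [Algebra R T] where
  val : T ⊗[R] B
  inSp : InSp σ T val

/-- A family of maps `Sp(B, σ)(T) × E(T) → E(T)`, one for every `R`-algebra `T`. -/
def PtAction (σ : B →ₗ[R] B) (E : Type u) [CommRing E] [Algebra R E] : Type (u + 1) :=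
  ∀ (T : Type u) [CommRing T] [Algebra R T], SpPt σ T → (E →ₐ[R] T) → (E →ₐ[R] T)

variable {σ : B →ₗ[R] B} {E : Type u} [CommRing E] [Algebra R E]

/-- The unit acts trivially and products act by composition. -/
def PtAction.IsAction (act : PtAction σ E) : Prop :=
  ∀ (T : Type u) [CommRing T] [Algebra R T] (e : E →ₐ[R] T),
    (∀ x : SpPt σ T, x.val = 1 → act T x e = e) ∧
    ∀ x y z : SpPt σ T, z.val = x.val * y.val → act T z e = act T x (act T y e)

/-- The action commutes with maps of `R`-algebras. -/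
def PtAction.IsNatural (act : PtAction σ E) : Prop :=
  ∀ (T T' : Type u) [CommRing T] [Algebra R T] [CommRing T'] [Algebra R T'] (f : T →ₐ[R] T')
    (x : SpPt σ T) (x' : SpPt σ T') (e : E →ₐ[R] T),
    f.toLinearMap.rTensor B x.val = x'.val → f.comp (act T x e) = act T' x' (f.comp e)

/-- Exactly one group element moves a given point to a given point. -/
def PtAction.IsSimplyTransitive (act : PtAction σ E) : Prop :=
  ∀ (T : Type u) [CommRing T] [Algebra R T] (e e' : E →ₐ[R] T), ∃! x : SpPt σ T, act T x e = e'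

/-- `Spec E` is a torsor under `Sp(B, σ)`: it is faithfully flat over `R`, and `Sp(B, σ)(T)` acts
simply transitively on `E(T)`, naturally in the `R`-algebra `T`. -/
def IsSpTorsor (σ : B →ₗ[R] B) (E : Type u) [CommRing E] [Algebra R E] : Prop :=
  Module.FaithfullyFlat R E ∧
    ∃ act : PtAction σ E, act.IsAction ∧ act.IsNatural ∧ act.IsSimplyTransitive

end Pool.Agent.SU.C
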