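import Pool.Agent.P.MP_c1f06d_ag.su.CDefs
import Pool.Agent.P.MP_c1f06d_ag.su.CStmt

open Matrix Polynomial IsLocalRing TensorProduct

universe u

namespace Pool.Agent.SU

open SAlg Pool.Agent.P.MP_c1f06d_ag

variable {T : Type u} [CommRing T] {N : ℕ} {A : SAlg T N}

section Mat
variable {ι : Type} [Fintype ι] [DecidableEq ι]

theorem cspl_sand (o : ι → ι) (Y : Matrix ι ι T) (c : T) (h : ∀ k, Y (o k) (o k) = c) :
    ∑ k, single k (o k) (1 : T) * Y * single (o k) k (1 : T) = c • 1 := by
  simp only [single_mul_mul_single, h, one_mul, mul_one]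
  rw [← sum_single_one, Finset.smul_sum]
  exact Finset.sum_congr rfl fun k _ => by rw [smul_single, smul_eq_mul, mul_one]

theorem cspl_mat (o : ι → ι) (ho : ∀ k k', o k = o k') (lam : Matrix ι ι T →ₗ[T] T)
    (X : Matrix ι ι T) :
    ∑ j, lam (single j (o j) 1) • (single (o j) j (1 : T) * X) =
      ∑ j, lam (X * single j (o j) 1) • single (o j) j (1 : T) := by
  have h1 : ∀ j, X * single j (o j) (1 : T) = ∑ i, X i j • single i (o i) (1 : T) := fun j => by
    ext i k
    simp only [ho _ j]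
    by_cases hk : k = o j
    · subst hk; simp [Matrix.sum_apply, single_apply]
    · simp [Matrix.sum_apply, hk, Ne.symm hk]
  have h2 : ∀ j, single (o j) j (1 : T) * X = ∑ k, X j k • single (o k) k (1 : T) := fun j => by
    ext i k
    simp only [ho _ j]
    by_cases hk : i = o j
    · subst hk; simp [Matrix.sum_apply, single_apply]
    · simp [Matrix.sum_apply, hk, Ne.symm hk]
  simp only [h1, h2, map_sum, map_smul, Finset.smul_sum, Finset.sum_smul, smul_eq_mul, ← mul_smul]
  rw [Finset.sum_comm]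
  exact Finset.sum_congr rfl fun i _ => Finset.sum_congr rfl fun j _ => by rw [mul_comm]

/-- The strictly upper part for some order of the indices. -/
noncomputable def csplUp (ι : Type) [Fintype ι] : Matrix ι ι T →ₗ[T] Matrix ι ι T where
  toFun Y := of fun a b => if Fintype.equivFin ι a < Fintype.equivFin ι b then Y a b else 0
  map_add' Y Z := by ext a b; simp only [of_apply, Matrix.add_apply]; split_ifs <;> simp
  map_smul' t Y := by ext a b; simp only [of_apply, Matrix.smul_apply]; split_ifs <;> simp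

omit [DecidableEq ι] in
theorem cspl_up {Y : Matrix ι ι T} (h1 : Yᵀ = -Y) (h2 : ∀ a, Y a a = 0) :
    csplUp ι Y - (csplUp ι Y)ᵀ = Y := by
  ext a b
  change (if Fintype.equivFin ι a < Fintype.equivFin ι b then Y a b else 0) -
    (if Fintype.equivFin ι b < Fintype.equivFin ι a then Y b a else 0) = Y a b
  rcases lt_trichotomy (Fintype.equivFin ι a) (Fintype.equivFin ι b) with h | h | h
  · rw [if_pos h, if_neg h.not_gt, sub_zero]
  · rw [(Fintype.equivFin ι).injective h, h2, sub_self]
  · have h3 : Y b a = -Y a b := congrFun (congrFun h1 a) b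
    rw [if_neg h.not_gt, if_pos h, h3, zero_sub, neg_neg]

theorem cspl_J_add (a : Matrix (ι ⊕ ι) (ι ⊕ ι) T) :
    J ι T * (a + -(J ι T * aᵀ * J ι T)) = J ι T * a - (J ι T * a)ᵀ := by
  rw [transpose_mul, J_transpose, mul_add, Matrix.mul_neg, ← Matrix.mul_assoc, ← Matrix.mul_assoc,
    J_squared]
  simp [sub_eq_add_neg]

theorem cspl_half {X : Matrix (ι ⊕ ι) (ι ⊕ ι) T} (h1 : (J ι T * X)ᵀ = -(J ι T * X))
    (h2 : ∀ a, (J ι T * X) a a = 0) :
    -(J ι T * csplUp _ (J ι T * X)) +
      -(J ι T * (-(J ι T * csplUp _ (J ι T * X)))ᵀ * J ι T) = X := by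
  have h3 := cspl_up h1 h2
  generalize csplUp _ (J ι T * X) = U at h3
  have h4 : X = -(J ι T * (U - Uᵀ)) := by
    rw [h3, ← Matrix.mul_assoc, J_squared]; simp
  rw [h4, transpose_neg, transpose_mul, J_transpose, Matrix.mul_neg Uᵀ, neg_neg, Matrix.mul_assoc,
    Matrix.mul_assoc, J_squared, Matrix.mul_sub]
  simp [sub_eq_add_neg, add_comm]

end Mat

variable {r : ℕ} {n : Fin r → ℕ}

/-- A chosen index in every nonzero factor. -/
def csplO {m : ℕ} (k : Fin m ⊕ Fin m) : Fin m ⊕ Fin m := Sum.inl ⟨0, k.elim Fin.pos Fin.pos⟩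

theorem cspl_single_mul (i : Fin r) (a : Matrix (Fin (n i) ⊕ Fin (n i)) (Fin (n i) ⊕ Fin (n i)) T)
    (X : C.Mats n T) : (Pi.single i a : C.Mats n T) * X = Pi.single i (a * X i) := by
  funext j
  by_cases h : j = i
  · subst h; simp
  · simp [Pi.single_eq_of_ne h]

theorem cspl_mul_single (i : Fin r) (a : Matrix (Fin (n i) ⊕ Fin (n i)) (Fin (n i) ⊕ Fin (n i)) T)
    (X : C.Mats n T) : X * (Pi.single i a : C.Mats n T) = Pi.single i (X i * a) := by
  funext j
  by_cases h : j = i
  · subst h; simp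
  · simp [Pi.single_eq_of_ne h]

theorem cspl_sum (f : ∀ i : Fin r, (Fin (n i) ⊕ Fin (n i)) →
    Matrix (Fin (n i) ⊕ Fin (n i)) (Fin (n i) ⊕ Fin (n i)) T) :
    ∑ l : Σ i, Fin (n i) ⊕ Fin (n i), (Pi.single l.1 (f l.1 l.2) : C.Mats n T) =
      fun i => ∑ k, f i k := by
  rw [Fintype.sum_sigma, ← Finset.univ_sum_single (fun i => ∑ k, f i k)]
  exact Finset.sum_congr rfl fun i _ =>
    (map_sum (AddMonoidHom.single (fun i => Matrix (Fin (n i) ⊕ Fin (n i))
      (Fin (n i) ⊕ Fin (n i)) T) i) (f i) Finset.univ).symm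

theorem cspl_sep (φ : A.Car ≃ₐ[T] C.Mats n T) : Sep A := by
  refine sepx_family (ι := Σ i, Fin (n i) ⊕ Fin (n i))
    (fun l => φ.symm (Pi.single l.1 (single l.2 (csplO l.2) 1)))
    (fun l => φ.symm (Pi.single l.1 (single (csplO l.2) l.2 1))) ?_ ?_
  · simp only [← map_mul, ← map_sum, cspl_single_mul, Pi.single_eq_same]
    rw [← map_one φ.symm,
      cspl_sum fun i k => single k (csplO k) (1 : T) * single (csplO k) k (1 : T)]
    congr 1
    funext i
    have := cspl_sand (T := T) (csplO (m := n i)) 1 1 fun k => one_apply_eq _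
    simpa only [Matrix.mul_one, one_smul, Pi.one_apply] using this
  · intro x a
    obtain ⟨X, rfl⟩ := φ.symm.surjective x
    let lam : C.Mats n T →ₗ[T] T :=
      (LinearMap.proj a).comp (A.coL.toLinearMap.comp φ.symm.toLinearMap)
    have hl : ∀ Y, (φ.symm Y).co a = lam Y := fun _ => rfl
    simp only [← map_mul, hl, ← map_smul, ← map_sum, cspl_single_mul, cspl_mul_single,
      ← Pi.single_smul]
    rw [cspl_sum fun i k => lam (Pi.single i (single k (csplO k) (1 : T))) •
        (single (csplO k) k (1 : T) * X i),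
      cspl_sum fun i k => lam (Pi.single i (X i * single k (csplO k) (1 : T))) •
        single (csplO k) k (1 : T)]
    congr 1
    funext i
    exact cspl_mat csplO (fun _ _ => rfl) (lam.comp (LinearMap.single T
      (fun i => Matrix (Fin (n i) ⊕ Fin (n i)) (Fin (n i) ⊕ Fin (n i)) T) i)) (X i)

theorem cspl_alt (a : C.Mats n T) (i : Fin r) :
    (J (Fin (n i)) T * (a + C.stdInv a) i)ᵀ = -(J (Fin (n i)) T * (a + C.stdInv a) i) ∧
      ∀ k, (J (Fin (n i)) T * (a + C.stdInv a) i) k k = 0 := by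
  rw [Pi.add_apply, C.stdInv, cspl_J_add]
  exact ⟨by rw [transpose_sub, transpose_transpose, neg_sub], fun k => sub_self _⟩

/-- A product of matrix algebras with the standard symplectic involutions has the data `CD`. -/
theorem cd_of_split {r : ℕ} {n : Fin r → ℕ} (φ : A.Car ≃ₐ[T] C.Mats n T)
    (hφ : ∀ x, φ (star x) = C.stdInv (φ x)) : CD A := by
  refine ⟨cspl_sep φ, ?_, ?_⟩
  · let ρ : C.Mats n T →ₗ[T] C.Mats n T := LinearMap.pi fun i =>
      -(LinearMap.mulLeft T (J (Fin (n i)) T) ∘ₗ csplUp _ ∘ₗ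
        LinearMap.mulLeft T (J (Fin (n i)) T) ∘ₗ LinearMap.proj i)
    obtain ⟨P, hP⟩ := exists_ap A (φ.symm.toLinearMap ∘ₗ ρ ∘ₗ φ.toLinearMap)
    have key : ∀ x : A.Car, (∀ i, (J (Fin (n i)) T * φ x i)ᵀ = -(J (Fin (n i)) T * φ x i) ∧
        ∀ k, (J (Fin (n i)) T * φ x i) k k = 0) → ap A P x + star (ap A P x) = x := by
      intro x hx
      apply φ.injective
      have h1 : φ (ap A P x) = ρ (φ x) := by rw [hP]; exact φ.apply_symm_apply _
      rw [map_add, hφ, h1]
      funext i
      exact cspl_half (hx i).1 (hx i).2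
    refine ⟨P, fun i => key _ fun j => ?_, key _ fun j => ?_⟩
    · rw [map_add, hφ]
      exact cspl_alt _ j
    · rw [map_one, Pi.one_apply, Matrix.mul_one]
      exact ⟨J_transpose _ _, fun k => by rcases k with k | k <;> simp [J]⟩
  · obtain ⟨G, hG⟩ := exists_sand (A := A) (ι := Σ i, Fin (n i) ⊕ Fin (n i))
      (fun l => φ.symm (Pi.single l.1 (single l.2 (csplO l.2) 1 * J (Fin (n l.1)) T)))
      (fun l => φ.symm (Pi.single l.1 (single (csplO l.2) l.2 1)))
    have key : ∀ (x : A.Car) (c : T), (∀ i k, (J (Fin (n i)) T * φ x i) k k = c) →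
        sand G x = c • 1 := by
      intro x c hx
      apply φ.injective
      rw [hG, map_sum, map_smul, map_one]
      simp only [map_mul, AlgEquiv.apply_symm_apply, cspl_single_mul, Pi.single_eq_same]
      refine (cspl_sum fun i k => single k (csplO k) (1 : T) * J (Fin (n i)) T * φ x i *
        single (csplO k) k (1 : T)).trans ?_
      funext i
      simp only [Matrix.mul_assoc _ (J (Fin (n i)) T)]
      exact cspl_sand csplO _ c fun k => hx i _
    refine ⟨1, fun _ => φ.symm fun i => -J (Fin (n i)) T, fun _ => G, fun _ => ?_, fun _ i => ?_, ?_⟩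
    · apply φ.injective
      rw [map_add, hφ, map_zero, φ.apply_symm_apply]
      funext i
      rw [Pi.add_apply, C.stdInv, transpose_neg, J_transpose, neg_neg, J_squared]
      simp
    · rw [key _ 0 fun j k => by rw [map_add, hφ]; exact (cspl_alt _ j).2 k, zero_smul]
    · rw [Fin.sum_univ_one, key _ 1 fun j k => by
        rw [φ.apply_symm_apply, Matrix.mul_neg, J_squared, neg_neg, one_apply_eq], one_smul]

end Pool.Agent.SU
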