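import Pool.Agent.P.MP_c1f06d_ag.su.CTors
import Pool.Agent.P.MP_c1f06d_ag.su.CCore
import Pool.Agent.P.MP_c1f06d_ag.su.CSpl
import Pool.Agent.P.MP_c1f06d_ag.su.CDes
import Pool.Agent.P.MP_c1f06d_ag.su.CBrid

open Matrix IsLocalRing TensorProduct

universe u

namespace Pool.Agent.SU

open SAlg Pool.Agent.P.MP_c1f06d_ag C

section
variable {r : ℕ} {n : Fin r → ℕ} {S : Type u} [CommRing S]

theorem stdInv_stdInv (x : Mats n S) : stdInv (stdInv x) = x := by
  funext i
  simp only [stdInv, transpose_neg, transpose_mul, transpose_transpose, J_transpose, neg_mul,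
    mul_neg, neg_neg, Matrix.mul_assoc, J_squared, Matrix.mul_one]
  rw [← Matrix.mul_assoc, J_squared, neg_mul, Matrix.one_mul, neg_neg]

theorem stdInv_mul (x y : Mats n S) : stdInv (x * y) = stdInv y * stdInv x := by
  funext i
  simp only [stdInv, Pi.mul_apply, transpose_mul, neg_mul, mul_neg, neg_neg, Matrix.mul_assoc]
  rw [← Matrix.mul_assoc (J _ S) (J _ S), J_squared, neg_mul, Matrix.one_mul, mul_neg, mul_neg]

end

theorem exists_coord {R B : Type u} [CommRing R] [IsLocalRing R] [Ring B] [Algebra R B]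
    {σ : B →ₗ[R] B} (hσ : IsSymplectic σ) :
    ∃ (N : ℕ) (A : SAlg R N), CD A ∧ Nonempty (Coord σ A) := by
  obtain ⟨S, _, _, r, n, hff, φ, hφ⟩ := hσ
  have h1 : Module.Finite S (S ⊗[R] B) := Module.Finite.equiv φ.symm.toLinearEquiv
  have h2 : Module.Free S (S ⊗[R] B) := Module.Free.of_equiv φ.symm.toLinearEquiv
  have h3 : Module.Finite R B := Module.Finite.of_finite_tensorProduct_of_faithfullyFlat S
  have h4 : Module.Flat R B := Module.Flat.of_flat_tensorProduct R B S
  have h5 : Module.Free R B := Module.free_of_flat_of_isLocalRing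
  have hi := Module.FaithfullyFlat.tensorProduct_mk_injective (A := R) (B := S) B
  have e : ∀ x, φ (1 ⊗ₜ σ x) = stdInv (φ (1 ⊗ₜ x)) := fun x => hφ (1 ⊗ₜ x)
  obtain ⟨N, A, Ψ, hs, hn⟩ := exists_salg σ
    (fun x => hi (φ.injective (by
      rw [TensorProduct.mk_apply, TensorProduct.mk_apply, e, e, stdInv_stdInv])))
    fun x y => hi (φ.injective (by
      have m : ∀ a b : B, φ (1 ⊗ₜ (a * b)) = φ (1 ⊗ₜ a) * φ (1 ⊗ₜ b) := fun a b => by
        rw [← map_mul, Algebra.TensorProduct.tmul_mul_tmul, one_mul]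
      rw [TensorProduct.mk_apply, TensorProduct.mk_apply, e, m, m, e, e, stdInv_mul]))
  refine ⟨N, A, CD.descend (T' := S) (cd_of_split ((Ψ S).symm.trans φ) fun x => ?_), ⟨Ψ, hs, hn⟩⟩
  obtain ⟨y, rfl⟩ := (Ψ S).surjective x
  rw [← hs, AlgEquiv.trans_apply, AlgEquiv.trans_apply, AlgEquiv.symm_apply_apply,
    AlgEquiv.symm_apply_apply, hφ]

theorem sp_main (V C : Type u) [CommRing V] [IsDomain V] [ValuationRing V] [CommRing C]
    [Algebra V C] [Algebra.Smooth V C] (p : Ideal C) [p.IsPrime] (R : Type u) [CommRing R]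
    [Algebra C R] [IsLocalization.AtPrime R p] (B : Type u) [Ring B] [Algebra R B]
    (σ : B →ₗ[R] B) (hσ : IsSymplectic σ) (E : Type u) [CommRing E] [Algebra R E]
    (hE : IsSpTorsor σ E) (hK : Nonempty (E →ₐ[R] FractionRing R)) : Nonempty (E →ₐ[R] R) := by
  have : IsLocalRing R := IsLocalization.AtPrime.isLocalRing R p
  have : IsDomain R := isDomain_of_smooth V C p R
  obtain ⟨N, A, hA, ⟨c⟩⟩ := exists_coord hσ
  exact tors_main c hA (fun q hq ht => isN_main V C p R (FractionRing R) hA hq ht) hE hK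

end Pool.Agent.SU
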