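import Pool.Agent.P.MP_c1f06d_ag.su.CH90
import Pool.Agent.P.MP_c1f06d_ag.su.CDefs
import Pool.Agent.P.MP_c1f06d_ag.su.CStmt

open Matrix IsLocalRing TensorProduct

universe u

namespace Pool.Agent.SU

open SAlg Pool.Agent.P.MP_c1f06d_ag C

variable {R B : Type u} [CommRing R] [Ring B] [Algebra R B] {σ : B →ₗ[R] B} {N : ℕ} {A : SAlg R N}

/-- Coordinates for `T ⊗ B`, natural in `T`. -/
structure Coord (σ : B →ₗ[R] B) (A : SAlg R N) where
  Ψ : ∀ (T : Type u) [CommRing T] [Algebra R T], T ⊗[R] B ≃ₐ[T] (A.map (algebraMap R T)).Car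
  st : ∀ (T : Type u) [CommRing T] [Algebra R T] (x : T ⊗[R] B),
    Ψ T (σ.baseChange T x) = star (Ψ T x)
  nat : ∀ (T T' : Type u) [CommRing T] [Algebra R T] [CommRing T'] [Algebra R T']
    (f : T →ₐ[R] T') (x : T ⊗[R] B), Ψ T' (f.toLinearMap.rTensor B x) = A.alg f (Ψ T x)

section
variable (c : Coord σ A) {T T' : Type u} [CommRing T] [Algebra R T] [CommRing T'] [Algebra R T']

/-- A unitary element as a point of the group. -/
noncomputable def Coord.pt (y : (A.map (algebraMap R T)).Car) (h : y * star y = 1) : SpPt σ T :=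
  ⟨(c.Ψ T).symm y, (c.Ψ T).injective (by rw [map_mul, c.st, AlgEquiv.apply_symm_apply, h, map_one]),
    (c.Ψ T).injective (by
      rw [map_mul, c.st, AlgEquiv.apply_symm_apply, mul_eq_one_comm' h, map_one])⟩

theorem Coord.pt_val (y : (A.map (algebraMap R T)).Car) (h : y * star y = 1) :
    c.Ψ T (c.pt y h).val = y := (c.Ψ T).apply_symm_apply y

theorem Coord.unit (x : SpPt σ T) : c.Ψ T x.val * star (c.Ψ T x.val) = 1 := by
  rw [← c.st, ← map_mul, x.inSp.1, map_one]

theorem alg_unit (f : T →ₐ[R] T') {y : (A.map (algebraMap R T)).Car} (h : y * star y = 1) :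
    A.alg f y * star (A.alg f y) = 1 := by rw [← alg_star, ← map_mul, h, map_one]

theorem mul_unit {y z : (A.map (algebraMap R T)).Car} (h : y * star y = 1) (h' : z * star z = 1) :
    y * z * star (y * z) = 1 := by
  rw [star_mul, mul_assoc, ← mul_assoc z, h', one_mul, h]

end

theorem tors_main [IsLocalRing R] (c : Coord σ A) (hA : CD A) {K : Type u} [CommRing K]
    [Algebra R K] (core : ∀ q : A.Car, IsUnit (q + star q) →
      IsN (A.bc (algebraMap R K) (q + star q)) → IsN (q + star q))
    {E : Type u} [CommRing E] [Algebra R E] (hE : IsSpTorsor σ E) (hK : Nonempty (E →ₐ[R] K)) :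
    Nonempty (E →ₐ[R] R) := by
  obtain ⟨hff, act, hact, hnat, htr⟩ := hE
  obtain ⟨eK⟩ := hK
  choose g hg hu using htr
  have n1 : ∀ (T T' : Type u) [CommRing T] [Algebra R T] [CommRing T'] [Algebra R T']
      (f : T →ₐ[R] T') (x : SpPt σ T) (e : E →ₐ[R] T),
      f.comp (act T x e) = act T' (c.pt _ (alg_unit f (c.unit x))) (f.comp e) :=
    fun T T' _ _ _ _ f x e => hnat T T' f x _ e ((c.Ψ T').injective (by rw [c.nat, c.pt_val]))
  have m1 : ∀ (T : Type u) [CommRing T] [Algebra R T] (x y z : SpPt σ T) (e : E →ₐ[R] T),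
      c.Ψ T z.val = c.Ψ T x.val * c.Ψ T y.val → act T z e = act T x (act T y e) :=
    fun T _ _ x y z e h => (hact T e).2 x y z ((c.Ψ T).injective (by rw [h, map_mul]))
  obtain ⟨β, hβ, hb⟩ := h90E hA.sep E (fun T _ _ a b => c.Ψ T (g T b a).val)
    (fun T T' _ _ _ _ f a b => by
      rw [← hu T' _ _ _ ((n1 T T' f (g T b a) b).symm.trans (congrArg f.comp (hg T b a))),
        c.pt_val])
    (fun T _ _ a => by
      rw [← hu T a a (c.pt 1 (by rw [star_one, mul_one])) ((hact T a).1 _ (map_one _)), c.pt_val])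
    (fun T _ _ a b d => by
      rw [← hu T d a (c.pt _ (mul_unit (c.unit (g T b a)) (c.unit (g T d b))))
        ((m1 T (g T b a) (g T d b) _ d (c.pt_val _ _)).trans (by rw [hg, hg])), c.pt_val])
  have hd : ∀ i, ∃ r, algebraMap R E r = (β * star β).co i := fun i =>
    desc_base _ fun T _ _ a b => by
      have : A.alg a (β * star β) = A.alg b (β * star β) := by
        rw [map_mul, map_mul, alg_star, alg_star, ← hb T a b, star_mul, mul_assoc,
          ← mul_assoc (c.Ψ T _), c.unit, one_mul]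
      exact congrFun (congrArg Car.co this) i
  choose h0 hh using hd
  have hh' : A.bc (algebraMap R E) ⟨h0⟩ = β * star β := Car.ext (funext hh)
  generalize (⟨h0⟩ : A.Car) = h at hh'
  obtain ⟨P, hP⟩ := hA.half
  have hi : Function.Injective (algebraMap R E) := FaithfulSMul.algebraMap_injective R E
  have hq : ap A P h + star (ap A P h) = h := by
    refine bc_injective hi ?_
    have h1 := (hP.map (algebraMap R E)).2
    generalize ap _ (P.map (algebraMap R E)) (1 : (A.map (algebraMap R E)).Car) = l at h1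
    have h2 : β * star β = β * l * star β + star (β * l * star β) := by
      rw [star_mul, star_mul, star_star, ← mul_assoc, ← add_mul, ← mul_add, h1, mul_one]
    rw [map_add, bc_star, bc_ap, hh', h2]
    exact (hP.map _).apply _
  have := isLocalHom_of_faithfullyFlat (R := R) (S := E)
  have hhu : IsUnit h := isUnit_of_bc (algebraMap R E) (hh' ▸ hβ.mul hβ.star)
  obtain ⟨x, hx⟩ := core (ap A P h) (by rwa [hq]) ⟨star (A.alg eK β), by
    rw [hq, star_star, ← alg_star, ← map_mul, ← hh', alg_bc]⟩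
  rw [hq] at hx
  obtain ⟨x', hx'⟩ := (isUnit_of_mul_right (hx ▸ hhu : IsUnit (star x * x))).exists_right_inv
  have hk : A.bc (algebraMap R E) (star x') * β * star (A.bc (algebraMap R E) (star x') * β) = 1 := by
    rw [star_mul, mul_assoc, ← mul_assoc β, ← hh', ← bc_star, ← map_mul, ← map_mul, star_star, ← hx,
      mul_assoc, hx', mul_one, ← star_mul, hx', star_one, map_one]
  have hpt : ∀ (T : Type u) [CommRing T] [Algebra R T] (a b : E →ₐ[R] T),
      a.comp (act E (c.pt _ hk) (AlgHom.id R E)) = b.comp (act E (c.pt _ hk) (AlgHom.id R E)) := by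
    intro T _ _ a b
    rw [n1, n1, AlgHom.comp_id, AlgHom.comp_id]
    refine Eq.symm ((m1 T (c.pt _ (alg_unit a (c.unit (c.pt _ hk)))) (g T b a) _ b ?_).trans
      (congrArg _ (hg T b a)))
    simp only [c.pt_val]
    rw [map_mul, map_mul, alg_bc, alg_bc, mul_assoc, hb]
  exact exists_algHom_of_eq (act E (c.pt _ hk) (AlgHom.id R E)) fun z =>
    DFunLike.congr_fun (hpt (E ⊗[R] E) Algebra.TensorProduct.includeLeft
      Algebra.TensorProduct.includeRight) z

end Pool.Agent.SU
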