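import Pool.Agent.P.MP_c1f06d_ag.su.Reg

open Matrix Polynomial IsLocalRing

universe u

namespace Pool.Agent.SU

open SAlg Pool.Agent.P.MP_c1f06d_ag

theorem gam3_field {K : Type*} [Field K] [Finite K] {n : K} (hn : 1 - 4 * n ≠ 0) (x : K) :
    ∃ a b : K, a * a + a * b + n * (b * b) = x := by
  by_cases h2 : ringChar K = 2
  · obtain ⟨a, ha⟩ := FiniteField.isSquare_of_char_two h2 x
    exact ⟨a, 0, by rw [ha]; ring⟩
  · cases nonempty_fintype K
    have h2' : (2 : K) ≠ 0 := Ring.two_ne_zero h2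
    obtain ⟨a, b, hab⟩ := FiniteField.exists_root_sum_quadratic
      (f := C (1 : K) * X ^ 2 + C 0 * X + C 0)
      (g := C (-(1 - 4 * n)) * X ^ 2 + C 0 * X + C (-(4 * x)))
      (degree_quadratic one_ne_zero) (degree_quadratic (neg_ne_zero.2 hn))
      (FiniteField.odd_card_of_char_ne_two h2)
    simp only [eval_add, eval_mul, eval_C, eval_pow, eval_X] at hab
    refine ⟨(a - b) / 2, b, ?_⟩
    field_simp
    linear_combination hab

theorem gam3_nil {F : Type*} [CommRing F] [Finite F] (n : F) {j : F} (hj : IsNilpotent j) :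
    ∃ b : F, b + n * (b * b) = j := by
  let φ : nilradical F → nilradical F := fun b =>
    ⟨b.1 + n * (b.1 * b.1), add_mem b.2 (Ideal.mul_mem_left _ _ (Ideal.mul_mem_left _ _ b.2))⟩
  have hφ : Function.Injective φ := fun b c h => by
    have h1 : b.1 + n * (b.1 * b.1) = c.1 + n * (c.1 * c.1) := congrArg Subtype.val h
    have h2 : IsNilpotent (n * (b.1 + c.1)) :=
      mem_nilradical.1 (Ideal.mul_mem_left _ _ (add_mem b.2 c.2))
    have h3 : (1 + n * (b.1 + c.1)) * (b.1 - c.1) = 0 := by linear_combination h1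
    exact Subtype.ext (sub_eq_zero.1 ((h2.isUnit_one_add.mul_right_eq_zero).1 h3))
  obtain ⟨b, hb⟩ := Finite.injective_iff_surjective.1 hφ ⟨j, mem_nilradical.2 hj⟩
  exact ⟨b.1, congrArg Subtype.val hb⟩

theorem norm_form_surj {F : Type*} [CommRing F] [Finite F] {n x : F} (hn : IsUnit (1 - 4 * n))
    (hx : IsUnit x) : ∃ a b : F, a * a + a * b + n * (b * b) = x := by
  have h1 : ∀ m : MaximalSpectrum F, ∃ a b : F, a * a + a * b + n * (b * b) - x ∈ m.asIdeal := by
    intro m
    let := Ideal.Quotient.field m.asIdeal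
    have : Finite (F ⧸ m.asIdeal) := Finite.of_surjective _ Ideal.Quotient.mk_surjective
    have h0 : (1 : F ⧸ m.asIdeal) - 4 * Ideal.Quotient.mk _ n ≠ 0 := by
      have := (hn.map (Ideal.Quotient.mk m.asIdeal)).ne_zero
      rwa [map_sub, map_one, map_mul, map_ofNat] at this
    obtain ⟨a, b, hab⟩ := gam3_field h0 (Ideal.Quotient.mk _ x)
    obtain ⟨a, rfl⟩ := Ideal.Quotient.mk_surjective a
    obtain ⟨b, rfl⟩ := Ideal.Quotient.mk_surjective b
    refine ⟨a, b, Ideal.Quotient.eq.1 ?_⟩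
    simpa only [map_add, map_mul] using hab
  choose a b hab using h1
  have hc : Pairwise (Function.onFun IsCoprime fun m : MaximalSpectrum F => m.asIdeal) :=
    fun _ _ h => MaximalSpectrum.isCoprime_of_ne h
  obtain ⟨a0, ha⟩ := Ideal.exists_forall_sub_mem_ideal hc a
  obtain ⟨b0, hb⟩ := Ideal.exists_forall_sub_mem_ideal hc b
  have hnil : IsNilpotent (x - (a0 * a0 + a0 * b0 + n * (b0 * b0))) := by
    refine nilpotent_iff_mem_prime.2 fun J hJ => ?_
    let m : MaximalSpectrum F := ⟨J, IsArtinianRing.isMaximal_of_isPrime J⟩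
    have e : x - (a0 * a0 + a0 * b0 + n * (b0 * b0)) =
        -(a m * a m + a m * b m + n * (b m * b m) - x) - (a0 + a m + b0) * (a0 - a m) -
          (a m + n * (b0 + b m)) * (b0 - b m) := by ring
    rw [e]
    exact sub_mem (sub_mem (neg_mem (hab m)) (J.mul_mem_left _ (ha m))) (J.mul_mem_left _ (hb m))
  have hu : IsUnit (a0 * a0 + a0 * b0 + n * (b0 * b0)) := by
    have := hnil.neg.isUnit_add_left_of_commute hx (Commute.all _ _)
    rwa [neg_sub, add_sub_cancel] at this
  obtain ⟨v, hv⟩ := hu.exists_right_inv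
  obtain ⟨c, hc⟩ := gam3_nil n (((Commute.all v _).isNilpotent_mul_left hnil))
  refine ⟨a0 - n * (b0 * c), a0 * c + b0 + b0 * c, ?_⟩
  linear_combination (a0 * a0 + a0 * b0 + n * (b0 * b0)) * hc +
    (x - (a0 * a0 + a0 * b0 + n * (b0 * b0))) * hv

variable {k : Type u} [Field k] {N d : ℕ} {A : SAlg k N}

theorem gam3_inner (h : Sep A) {s : A.Car} (hs : star s = s) :
    ∃ x, star x = x ∧ s * x * s = s := by
  obtain ⟨z, hz⟩ := h.reg s
  have hz' : s * star z * s = s := by
    have := congrArg star hz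
    rwa [star_mul, star_mul, hs, ← mul_assoc] at this
  refine ⟨z * s * star z, by rw [star_mul, star_mul, star_star, hs, mul_assoc], ?_⟩
  calc s * (z * s * star z) * s = s * z * s * star z * s := by simp only [mul_assoc]
    _ = s := by rw [hz, hz']

theorem gam3_sym (h : Good d A) {p q a : A.Car} (ha : p * a * q ≠ 0) :
    ∃ c, star c = c ∧ p * c * q ≠ 0 := by
  obtain ⟨θ, ⟨hc, -⟩, hu⟩ := h.th
  by_contra hne
  have H : ∀ c, star c = c → p * c * q = 0 := fun c hc => by
    by_contra h0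
    exact hne ⟨c, hc, h0⟩
  have h1 := H (a + star a) (by rw [star_add, star_star, add_comm])
  have h2 := H (θ * a + star θ * star a) (by
    rw [star_add, star_mul, star_mul, star_star, star_star, ← hc a, ← hc.star (star a), add_comm])
  refine ha ((hu.mul_right_eq_zero).1 ?_)
  have e1 : θ * p = p * θ := hc p
  have e2 : star θ * p = p * star θ := hc.star p
  calc (θ - star θ) * (p * a * q)
      = θ * p * a * q - star θ * p * a * q := by noncomm_ring
    _ = p * (θ * a + star θ * star a) * q - p * star θ * (a + star a) * q := by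
      rw [e1, e2]; noncomm_ring
    _ = 0 := by rw [h2, ← e2, mul_assoc (star θ), mul_assoc (star θ), h1, mul_zero, sub_zero]

theorem sym_unit_reg (h : Good d A) {s : A.Car} (hs : star s = s) :
    ∃ x, star x = x ∧ IsUnit x ∧ s * x * s = s := by
  obtain ⟨x, ⟨hx, hsx⟩, hmax⟩ :=
    exists_max_rk (P := fun x => star x = x ∧ s * x * s = s) (gam3_inner h.form.sep hs)
  refine ⟨x, hx, ?_, hsx⟩
  by_contra hnu
  obtain ⟨w2, hw2s, hw2⟩ := gam3_inner h.form.sep (s := x - x * s * x)
    (by rw [star_sub, star_mul, star_mul, hx, hs, mul_assoc])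
  obtain ⟨w, hw⟩ : ∃ w, w = s + (1 - s * x) * w2 * (1 - x * s) := ⟨_, rfl⟩
  have hws : star w = w := by
    rw [hw]
    simp only [star_add, star_mul, star_sub, star_one, hx, hs, hw2s, mul_assoc]
  have hxw : x * w * x = x := by
    calc x * w * x = x * s * x + (x - x * s * x) * w2 * (x - x * s * x) := by
          rw [hw]; noncomm_ring
      _ = x := by rw [hw2, add_sub_cancel]
  have hsw : s * x * w = s := by
    calc s * x * w = s * x * s + (s * x - s * x * s * x) * w2 * (1 - x * s) := by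
          rw [hw]; noncomm_ring
      _ = s := by rw [hsx, sub_self, zero_mul, zero_mul, add_zero]
  obtain ⟨a, ha⟩ := dim_lemma hxw hnu
  obtain ⟨c, hc, hc0⟩ := gam3_sym h ha
  have hsq : s * (1 - x * w) = 0 := by rw [mul_sub, mul_one, ← mul_assoc, hsw, sub_self]
  have hqx : (1 - x * w) * x = 0 := by rw [sub_mul, one_mul, hxw, sub_self]
  have hxq : x * (1 - w * x) = 0 := by rw [mul_sub, mul_one, ← mul_assoc, hxw, sub_self]
  have hq1 : (1 - w * x) * (w * x) = 0 := by
    rw [sub_mul, one_mul, mul_assoc w, ← mul_assoc x, hxw, sub_self]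
  have hq2 : (1 - w * x) * (1 - w * x) = 1 - w * x := by rw [mul_sub, hq1, mul_one, sub_zero]
  have hq3 : (1 - x * w) * (1 - x * w) = 1 - x * w := by
    rw [mul_sub, mul_one, ← mul_assoc, hqx, zero_mul, sub_zero]
  have h1 := hmax (x + (1 - x * w) * c * (1 - w * x)) ⟨?_, ?_⟩
  · refine absurd (rk_lt (w := (1 - x * w) * c * (1 - w * x)) ⟨w * x, ?_⟩ ?_ ⟨1 - w * x, ?_⟩)
      (not_lt.2 h1)
    · rw [add_mul, mul_assoc _ _ (w * x), hq1, mul_zero, add_zero, ← mul_assoc, hxw]
    · rintro ⟨b, hb⟩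
      refine hc0 ?_
      rw [← hq3, mul_assoc, mul_assoc, ← mul_assoc _ c, hb, ← mul_assoc, hqx, zero_mul]
    · rw [add_mul, hxq, zero_add, mul_assoc _ (1 - w * x) (1 - w * x), hq2]
  · simp only [star_add, star_mul, star_sub, star_one, hx, hws, hc, mul_assoc]
  · rw [mul_add, add_mul, hsx, ← mul_assoc, ← mul_assoc, hsq, zero_mul, zero_mul, zero_mul,
      add_zero]

theorem gam3_unit {R : Type*} [Ring R] [Finite R] (S : Subring R) {y : S} (hy : IsUnit y.1) :
    ∃ z : S, y * z = 1 := by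
  have hi : Function.Injective fun z : S => y * z := fun z z' h =>
    Subtype.ext (hy.mul_left_cancel (congrArg Subtype.val h))
  exact Finite.injective_iff_surjective.1 hi 1

theorem sym_eq_norm [Finite k] (h : Good d A) {s : A.Car} (hs : star s = s) :
    ∃ y, s = y * star y := by
  obtain ⟨x, hx, hu, hsx⟩ := sym_unit_reg h hs
  obtain ⟨θ, ⟨hc, ht⟩, hd⟩ := h.th
  have : Finite A.Car := Finite.of_injective _ co_injective
  let S : Subring A.Car :=
    { carrier := {y | star y = y ∧ y * x = x * y ∧ ∀ z, z * x = x * z → y * z = z * y}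
      zero_mem' := ⟨star_zero _, by simp, by simp⟩
      one_mem' := ⟨star_one _, by simp, by simp⟩
      neg_mem' := fun {y} hy => ⟨by rw [star_neg, hy.1], by rw [neg_mul, mul_neg, hy.2.1],
        fun z hz => by rw [neg_mul, mul_neg, hy.2.2 z hz]⟩
      add_mem' := fun {y y'} hy hy' => ⟨by rw [star_add, hy.1, hy'.1],
        by rw [add_mul, mul_add, hy.2.1, hy'.2.1],
        fun z hz => by rw [add_mul, mul_add, hy.2.2 z hz, hy'.2.2 z hz]⟩
      mul_mem' := fun {y y'} hy hy' => ⟨by rw [star_mul, hy.1, hy'.1, hy.2.2 _ hy'.2.1],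
        by rw [mul_assoc, hy'.2.1, ← mul_assoc, hy.2.1, mul_assoc],
        fun z hz => by rw [mul_assoc, hy'.2.2 z hz, ← mul_assoc, hy.2.2 z hz, mul_assoc]⟩ }
  let : CommRing S :=
    { (inferInstance : Ring S) with mul_comm := fun y y' => Subtype.ext (y.2.2.2 _ y'.2.2.1) }
  have hn := hc.mul hc.star
  let x' : S := ⟨x, hx, rfl, fun z hz => hz.symm⟩
  let n' : S := ⟨θ * star θ, by rw [star_mul, star_star], hn x, fun z _ => hn z⟩
  have e : star θ = 1 - θ := eq_sub_of_add_eq' ht
  have u1 : IsUnit (1 - 4 * n') := by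
    have e1 : (1 - 4 * n' : S).1 = (θ - star θ) * (θ - star θ) := by
      have e4 : (4 : S) * n' = n' + n' + n' + n' := by ring
      rw [e4]
      change 1 - (θ * star θ + θ * star θ + θ * star θ + θ * star θ) = _
      rw [e]
      noncomm_ring
    obtain ⟨z, hz⟩ := gam3_unit S (y := 1 - 4 * n') (by rw [e1]; exact hd.mul hd)
    exact IsUnit.of_mul_eq_one z hz
  have u2 : IsUnit x' := by
    obtain ⟨z, hz⟩ := gam3_unit S (y := x') hu
    exact IsUnit.of_mul_eq_one z hz
  obtain ⟨a, b, hab⟩ := norm_form_surj u1 u2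
  have h1 : a.1 * a.1 + a.1 * b.1 + θ * star θ * (b.1 * b.1) = x := congrArg Subtype.val hab
  have h2 : b.1 * a.1 = a.1 * b.1 := b.2.2.2 _ a.2.2.1
  have h3 : (a.1 + θ * b.1) * (a.1 + b.1 * star θ) = x := by
    calc (a.1 + θ * b.1) * (a.1 + b.1 * star θ)
        = a.1 * a.1 + (a.1 * b.1 * star θ + θ * (b.1 * a.1)) + θ * (b.1 * b.1 * star θ) := by
          noncomm_ring
      _ = x := by
          rw [← hc.star (a.1 * b.1), ← hc.star (b.1 * b.1), h2, ← add_mul, add_comm (star θ), ht,
            one_mul, ← mul_assoc, h1]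
  refine ⟨s * (a.1 + θ * b.1), ?_⟩
  rw [star_mul, star_add, star_mul, a.2.1, b.2.1, hs, ← mul_assoc, mul_assoc s, h3, hsx]

end Pool.Agent.SU
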