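import Pool.Agent.P.MP_c1f06d_ag.su.Gam2
import Pool.Agent.P.MP_c1f06d_ag.su.Gam3

open Matrix Polynomial IsLocalRing

universe u

namespace Pool.Agent.SU

open SAlg Pool.Agent.P.MP_c1f06d_ag

variable {R : Type u} [CommRing R] [IsLocalRing R] {N d : ℕ} {A : SAlg R N}

theorem gm_all (h : Good d A) {b : A.Car} (hb : IsUnit b) : Gm d b := by
  obtain ⟨θ, hθ, -⟩ := h.th
  have hs : Function.Surjective (A.bc (residue R)) := bc_surjective residue_surjective
  rcases finite_or_infinite (ResidueField R) with hk | hk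
  · obtain ⟨y, hy⟩ := sym_eq_norm (h.map (residue R)) (s := A.bc (residue R) (b + star b))
      (by rw [← bc_star, star_add, star_star, add_comm])
    obtain ⟨y, rfl⟩ := hs y
    have h0 : A.bc (residue R) (b + star b - y * star y) = 0 := by
      rw [map_sub, hy, map_mul, bc_star, sub_self]
    have h1 : star (b + star b - y * star y) = b + star b - y * star y := by
      rw [star_sub, star_add, star_mul, star_star, star_star, add_comm]
    have h2 : b + star b - (b + star b - y * star y) = y * star y := sub_sub_cancel _ _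
    generalize b + star b - y * star y = δ at h0 h1 h2
    have h3 : A.bc (residue R) (b - θ * δ) = A.bc (residue R) b := by
      rw [map_sub, map_mul, h0, mul_zero, sub_zero]
    have hc : IsUnit (b - θ * δ) := isUnit_of_bc (residue R) (h3 ▸ hb.map _)
    have h4 : b - θ * δ + star (b - θ * δ) = y * star y := by
      rw [star_sub, star_mul, h1, ← hθ.1.star δ, ← h2, sub_add_sub_comm, ← add_mul, hθ.2, one_mul]
    obtain ⟨c', hc1, hc2⟩ := isUnit_iff_exists.1 hc
    have h5 : Gm d (b * c') := gm_of_sg h.form hθ (by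
      rw [map_mul, ← h3, ← map_mul, hc1, map_one]
      exact sg_one (hθ.bc _))
    have h6 := Gm.mul h.form h5 (gm_refl h.form hc h4)
    rwa [mul_assoc, hc2, mul_one] at h6
  · obtain ⟨c, h1, h2⟩ := exists_sg (hθ.bc (residue R)) (hb.map (A.bc (residue R)))
    obtain ⟨c, rfl⟩ := hs c
    rw [← map_mul] at h2
    exact Gm.cancel h.form (gm_of_sg h.form hθ h2) (gm_of_sg h.form hθ h1)

theorem exists_unitary_of_wd (h : Good d A) {z : A.Car} (hz : Wd d z) :
    ∃ u, u * star u = 1 ∧ nrd d u = z := by
  obtain ⟨y, hy, e⟩ := hz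
  obtain ⟨-, u, h1, h2⟩ := gm_all h hy
  exact ⟨u, h1, (h.form.nrd_isUnit hy).star.mul_right_cancel (h2.trans e.symm)⟩

end Pool.Agent.SU
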