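import Pool.Agent.P.MP_c1f06d_ag.su.Loc
import Pool.Agent.P.MP_c1f06d_ag.Avoid

open Matrix Polynomial IsLocalRing

universe u

namespace Pool.Agent.SU

open SAlg Pool.Agent.P.MP_c1f06d_ag

section

variable {R : Type u} [CommRing R] {N d : ℕ} {A : SAlg R N} {S : Type u} [CommRing S]
  [Algebra R S] {n : ℕ}

/-- Left multiplication of the base change on the free right module. -/
noncomputable def np_lam (bS : Module.Basis (Fin n) R S) (x : (A.map (algebraMap R S)).Car) :
    Matrix (Fin n) (Fin n) A.Car :=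
  of fun i j => ⟨fun a => Algebra.leftMulMatrix bS (x.co a) i j⟩

theorem np_ext (bS : Module.Basis (Fin n) R S) {T : Type u} [CommRing T] (f : R →+* T) :
    ∃ (S' : Type u) (_ : CommRing S') (il : T →+* S') (ir : S →+* S')
      (μ : S' →+* Matrix (Fin n) (Fin n) T), ir.comp (algebraMap R S) = il.comp f ∧
      (∀ t, μ (il t) = t • 1) ∧ ∀ s, μ (ir s) = (Algebra.leftMulMatrix bS s).map f := by
  let _ := f.toAlgebra
  let g : S →ₐ[R] Matrix (Fin n) (Fin n) T :=
    (AlgHom.mapMatrix (Algebra.ofId R T)).comp (Algebra.leftMulMatrix bS)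
  let μ : TensorProduct R T S →ₐ[T] Matrix (Fin n) (Fin n) T :=
    Algebra.TensorProduct.lift (Algebra.ofId T _) g fun t s => Algebra.commutes t (g s)
  refine ⟨TensorProduct R T S, inferInstance, Algebra.TensorProduct.includeLeftRingHom,
    (Algebra.TensorProduct.includeRight (R := R) (A := T) (B := S)).toRingHom, μ.toRingHom,
    ?_, fun t => ?_, fun s => ?_⟩
  · exact (Algebra.TensorProduct.includeLeftRingHom_comp_algebraMap (R := R) (A := T)
      (B := S)).symm
  · refine (Algebra.TensorProduct.lift_tmul _ _ _ t 1).trans ?_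
    rw [map_one, mul_one, Algebra.ofId_apply, Algebra.algebraMap_eq_smul_one]
  · refine (Algebra.TensorProduct.lift_tmul _ _ _ 1 s).trans ?_
    rw [map_one, one_mul]
    rfl

theorem np_key (bS : Module.Basis (Fin n) R S) {T S' : Type u} [CommRing T] [CommRing S']
    (r : Rep d A T) (il : T →+* S') (ir : S →+* S') (μ : S' →+* Matrix (Fin n) (Fin n) T)
    (h : ir.comp (algebraMap R S) = (r.post il).f) (h1 : ∀ t, μ (il t) = t • 1)
    (h2 : ∀ s, μ (ir s) = (Algebra.leftMulMatrix bS s).map r.f)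
    (x : (A.map (algebraMap R S)).Car) (i j : Fin n) (p q : Fin d) :
    r.φ (np_lam bS x i j) p q = μ (((r.post il).lift (algebraMap R S) ir h).φ x p q) i j := by
  rw [r.eq_sum, Rep.lift_φ]
  simp only [Matrix.sum_apply, Matrix.smul_apply, smul_eq_mul, map_sum, map_mul, Rep.post_φ,
    Matrix.map_apply, h1, h2, Matrix.mul_smul, Matrix.mul_one]
  exact Finset.sum_congr rfl fun a _ => mul_comm _ _

theorem np_lam_mul (h : Form d A) (bS : Module.Basis (Fin n) R S)
    (x y : (A.map (algebraMap R S)).Car) : np_lam bS (x * y) = np_lam bS x * np_lam bS y := by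
  ext1 i j
  refine h.ext fun T _ r => ?_
  obtain ⟨S', _, il, ir, μ, h0, h1, h2⟩ := np_ext bS r.f
  ext p q
  rw [Matrix.mul_apply, map_sum, Matrix.sum_apply]
  simp only [map_mul, Matrix.mul_apply, np_key bS r il ir μ h0 h1 h2, map_sum, Matrix.sum_apply]
  exact Finset.sum_comm

theorem np_lam_one (bS : Module.Basis (Fin n) R S) :
    np_lam bS (1 : (A.map (algebraMap R S)).Car) = 1 := by
  ext i j a
  change Algebra.leftMulMatrix bS (algebraMap R S (A.one a)) i j = _
  rw [AlgHom.commutes, Matrix.algebraMap_matrix_apply, Matrix.one_apply]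
  split_ifs <;> rfl

theorem np_det (bS : Module.Basis (Fin n) R S) {T S' : Type u} [CommRing T] [CommRing S']
    (r : Rep d A T) (il : T →+* S') (ir : S →+* S') (μ : S' →+* Matrix (Fin n) (Fin n) T)
    (h : ir.comp (algebraMap R S) = (r.post il).f) (h1 : ∀ t, μ (il t) = t • 1)
    (h2 : ∀ s, μ (ir s) = (Algebra.leftMulMatrix bS s).map r.f)
    (x : (A.map (algebraMap R S)).Car) :
    (Matrix.comp _ _ _ _ _ ((np_lam bS x).map r.φ)).det =
      (μ (((r.post il).lift (algebraMap R S) ir h).φ x).det).det := by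
  rw [Matrix.det_det, ← Matrix.det_submatrix_equiv_self (Equiv.prodComm (Fin d) (Fin n))]
  congr 1
  ext ⟨p, i⟩ ⟨q, j⟩
  exact np_key bS r il ir μ h h1 h2 x i j p q

end

variable {R : Type u} [CommRing R] [IsLocalRing R] {N d : ℕ} {A : SAlg R N}

/-- Norm principle. -/
theorem wd_norm (h : Form d A) {S : Type u} [CommRing S] [Algebra R S] {n : ℕ}
    (bS : Module.Basis (Fin n) R S) {z : A.Car} (hz : Cen z)
    (H : Wd d (A.bc (algebraMap R S) z)) : Wd d (z ^ n) := by
  obtain ⟨y, ⟨w, rfl⟩, hy⟩ := H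
  have hS := h.map (algebraMap R S)
  have hu : IsUnit (np_lam bS w.1) :=
    ⟨⟨np_lam bS w.1, np_lam bS w.inv, by rw [← np_lam_mul h, w.val_inv, np_lam_one],
      by rw [← np_lam_mul h, w.inv_val, np_lam_one]⟩, rfl⟩
  obtain ⟨y0, hy0, hd⟩ := gln (d := d) h.sep n _ hu
  refine ⟨y0, hy0, h.ext fun T _ r => ?_⟩
  obtain ⟨S', _, il, ir, μ, h0, h1, h2⟩ := np_ext bS r.f
  obtain ⟨ζ, hζ⟩ := h.scalar hz r
  have e1 := (hd T r).symm.trans (np_det bS r il ir μ h0 h1 h2 w.1)
  have e2 := (hd T r.conj).symm.trans (np_det bS r.conj il ir μ h0 h1 h2 w.1)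
  have e3 : ((r.conj.post il).lift (algebraMap R S) ir h0).φ w.1 =
      ((r.post il).lift (algebraMap R S) ir h0).conj.φ w.1 :=
    (Rep.lift_conj (r.post il) (algebraMap R S) ir h0 w.1).symm
  rw [e3, Rep.conj_φ, Rep.conj_φ, det_transpose, det_transpose] at e2
  have e4 := congrArg ((r.post il).lift (algebraMap R S) ir h0).φ hy
  rw [map_mul, Rep.lift_bc (r.post il) (algebraMap R S) ir h0, Rep.post_φ, hζ, ← hS.nrd_star, hS.isNrd, hS.isNrd] at e4
  have e5 := congrFun (congrFun e4 ⟨0, h.1⟩) ⟨0, h.1⟩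
  have e6 : (ζ • (1 : Matrix (Fin d) (Fin d) T)).map il = il ζ • 1 := by
    ext p q
    simp only [Matrix.map_apply, Matrix.smul_apply, Matrix.one_apply, smul_eq_mul]
    split_ifs <;> simp
  rw [e6, smul_mul_smul_comm, one_mul, Matrix.smul_apply, Matrix.smul_apply, Matrix.one_apply_eq,
    smul_eq_mul, smul_eq_mul, mul_one, mul_one] at e5
  rw [map_mul, map_pow, hζ, ← h.nrd_star, h.isNrd, h.isNrd, e1, e2, ← e5, map_mul, h1,
    _root_.smul_pow, one_pow, smul_mul_smul_comm, one_mul, smul_mul_assoc, one_mul, det_smul,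
    Fintype.card_fin]

end Pool.Agent.SU
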