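import Pool.Agent.P.MP_c1f06d_ag.su.Herm2

open Matrix Polynomial IsLocalRing

universe u

namespace Pool.Agent.SU

open SAlg Pool.Agent.P.MP_c1f06d_ag

/-- The top coefficient functional, its dual elements and the middle coefficient. -/
theorem tra_data {R : Type u} [CommRing R] [Nontrivial R] {P : R[X]} (hP : P.Monic)
    (hodd : Odd P.natDegree) :
    ∃ (k : ℕ) (lam c : AdjoinRoot P →ₗ[R] R) (s : Fin k → AdjoinRoot P),
      (∀ a, a < 2 * k → lam (AdjoinRoot.root P ^ a) = 0) ∧
      lam (AdjoinRoot.root P ^ (2 * k)) = 1 ∧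
      (∀ i j : Fin k, lam (AdjoinRoot.root P ^ (i : ℕ) * s j) = if i = j then 1 else 0) ∧
      ∀ y z : AdjoinRoot P, (∀ j : Fin k, lam (AdjoinRoot.root P ^ (j : ℕ) * y) = 0) →
        (∀ j : Fin k, lam (AdjoinRoot.root P ^ (j : ℕ) * z) = 0) → lam (y * z) = c y * c z := by
  obtain ⟨k, hk⟩ := hodd
  have hdeg : P.degree = ((2 * k + 1 : ℕ) : WithBot ℕ) := by
    rw [degree_eq_natDegree hP.ne_zero, hk]
  obtain ⟨lam, hlam⟩ : ∃ lam : AdjoinRoot P →ₗ[R] R, ∀ p : R[X], p.natDegree ≤ 2 * k →
      lam (AdjoinRoot.mk P p) = p.coeff (2 * k) := by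
    refine ⟨lcoeff R (2 * k) ∘ₗ AdjoinRoot.modByMonicHom hP, fun p hp => ?_⟩
    rw [LinearMap.comp_apply, AdjoinRoot.modByMonicHom_mk, lcoeff_apply,
      (modByMonic_eq_self_iff hP).2]
    rw [hdeg]
    exact degree_le_natDegree.trans_lt (by exact_mod_cast Nat.lt_succ_of_le hp)
  have hX : ∀ (a : ℕ) (p : R[X]), AdjoinRoot.root P ^ a * AdjoinRoot.mk P p =
      AdjoinRoot.mk P (X ^ a * p) := fun a p => by
    rw [map_mul, map_pow, AdjoinRoot.mk_X]
  have hXd : ∀ (a b : ℕ) (p : R[X]), p.natDegree ≤ b → a + b ≤ 2 * k →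
      (X ^ a * p).natDegree ≤ 2 * k := fun a b p hp hab =>
    (natDegree_mul_le_of_le (natDegree_X_pow_le a) hp).trans hab
  have hpow : ∀ a, a ≤ 2 * k → lam (AdjoinRoot.root P ^ a) = if 2 * k = a then 1 else 0 :=
    fun a ha => by
      rw [← AdjoinRoot.mk_X, ← map_pow, hlam _ ((natDegree_X_pow_le a).trans ha), coeff_X_pow]
  have hlow : ∀ y : AdjoinRoot P, (∀ j : Fin k, lam (AdjoinRoot.root P ^ (j : ℕ) * y) = 0) →
      ∃ p : R[X], p.natDegree ≤ k ∧ AdjoinRoot.mk P p = y := fun y hy => by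
    obtain ⟨p, hp, rfl⟩ : ∃ p : R[X], p.natDegree ≤ 2 * k ∧ AdjoinRoot.mk P p = y := by
      refine ⟨AdjoinRoot.modByMonicHom hP y, ?_, AdjoinRoot.mk_leftInverse hP y⟩
      induction y using AdjoinRoot.induction_on with
      | ih p =>
        rw [AdjoinRoot.modByMonicHom_mk]
        have hne : P ≠ 1 := fun e => by rw [e, natDegree_one] at hk; omega
        have := natDegree_modByMonic_lt p hP hne
        omega
    have key : ∀ j, j ≤ k → p.natDegree ≤ 2 * k - j := by
      intro j
      induction j with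
      | zero => intro _; simpa using hp
      | succ j ih =>
        intro hj
        have h1 := ih (by omega)
        have h2 := hy ⟨j, by omega⟩
        rw [hX, hlam _ (hXd _ _ _ h1 (by simp only; omega)), coeff_X_pow_mul',
          if_pos (by simp only; omega)] at h2
        have h3 := natDegree_le_pred h1 h2
        omega
    exact ⟨p, (key k le_rfl).trans (by omega), rfl⟩
  refine ⟨k, lam, lam ∘ₗ LinearMap.mulLeft R (AdjoinRoot.root P ^ k),
    fun j => AdjoinRoot.mk P (P /ₘ X ^ ((j : ℕ) + 1)), fun a ha => ?_, ?_, fun i j => ?_,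
    fun y z hy hz => ?_⟩
  · rw [hpow a ha.le, if_neg ha.ne']
  · rw [hpow _ le_rfl, if_pos rfl]
  · have hi := i.2
    have hj := j.2
    dsimp only
    have hm : (X ^ ((j : ℕ) + 1) : R[X]).Monic := monic_X_pow _
    have hA : (P /ₘ X ^ ((j : ℕ) + 1)).natDegree = 2 * k - j := by
      rw [natDegree_divByMonic _ hm, natDegree_X_pow, hk]; omega
    have hB : (P %ₘ X ^ ((j : ℕ) + 1)).natDegree ≤ j := by
      have hne : (X ^ ((j : ℕ) + 1) : R[X]) ≠ 1 := fun e => by
        have := congrArg natDegree e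
        rw [natDegree_X_pow, natDegree_one] at this
        omega
      have := natDegree_modByMonic_lt P hm hne
      rw [natDegree_X_pow] at this
      omega
    have hAB := modByMonic_add_div P (X ^ ((j : ℕ) + 1))
    generalize P /ₘ X ^ ((j : ℕ) + 1) = A at hA hAB
    generalize P %ₘ X ^ ((j : ℕ) + 1) = B at hB hAB
    rw [hX]
    rcases Nat.lt_or_ge (j : ℕ) i with hij | hij
    · obtain ⟨l, hl⟩ : ∃ l, (i : ℕ) = l + (j + 1) := ⟨i - (j + 1), by omega⟩
      have e : AdjoinRoot.mk P (X ^ (i : ℕ) * A) = AdjoinRoot.mk P (X ^ l * (-B)) := by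
        rw [AdjoinRoot.mk_eq_mk]
        refine ⟨X ^ l, ?_⟩
        rw [hl, pow_add, ← hAB]
        ring
      have hB' : (-B).natDegree ≤ j := by rwa [natDegree_neg]
      rw [e, hlam _ (hXd _ _ _ hB' (by omega)), if_neg (fun e' => by rw [e'] at hij; omega)]
      exact coeff_eq_zero_of_natDegree_lt
        ((natDegree_mul_le_of_le (natDegree_X_pow_le l) hB').trans_lt (by omega))
    · rw [hlam _ (hXd _ _ _ hA.le (by omega)), coeff_X_pow_mul', if_pos (by omega)]
      by_cases e : i = j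
      · subst e
        rw [if_pos rfl]
        have h1 : P.coeff (2 * k + 1) = 1 := by rw [← hk]; exact hP.coeff_natDegree
        rw [← hAB, coeff_add, coeff_eq_zero_of_natDegree_lt (hB.trans_lt (by omega)), zero_add,
          coeff_X_pow_mul', if_pos (by omega)] at h1
        rw [← h1]
        congr 1
        omega
      · rw [if_neg e]
        have : (i : ℕ) ≠ j := fun e' => e (Fin.ext e')
        exact coeff_eq_zero_of_natDegree_lt (by omega)
  · obtain ⟨p, hp, rfl⟩ := hlow y hy
    obtain ⟨q, hq, rfl⟩ := hlow z hz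
    have hc : ∀ r : R[X], r.natDegree ≤ k →
        (lam ∘ₗ LinearMap.mulLeft R (AdjoinRoot.root P ^ k)) (AdjoinRoot.mk P r) = r.coeff k :=
      fun r hr => by
        rw [LinearMap.comp_apply, LinearMap.mulLeft_apply, hX,
          hlam _ (hXd _ _ _ hr (by omega)), two_mul, coeff_X_pow_mul]
    rw [hc p hp, hc q hq, ← map_mul,
      hlam _ ((natDegree_mul_le_of_le hp hq).trans (by omega)), two_mul,
      coeff_mul_add_eq_of_natDegree_le hp hq]

section
variable {R S : Type u} [CommRing R] [CommRing S] [Algebra R S] {N : ℕ} {A : SAlg R N}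

/-- A linear functional applied to the coordinates. -/
def traCo (A : SAlg R N) (lam : S →ₗ[R] R) : (A.map (algebraMap R S)).Car →+ A.Car where
  toFun x := ⟨lam ∘ x.co⟩
  map_zero' := Car.ext (funext fun _ => lam.map_zero)
  map_add' _ _ := Car.ext (funext fun _ => lam.map_add _ _)

theorem tra_smul_bc (lam : S →ₗ[R] R) (t : S) (a : A.Car) :
    traCo A lam (t • A.bc (algebraMap R S) a) = lam t • a :=
  Car.ext (funext fun i => by
    change lam (t * algebraMap R S (a.co i)) = lam t * a.co i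
    rw [mul_comm, ← Algebra.smul_def, map_smul, smul_eq_mul, mul_comm])

theorem tra_eq_sum (x : (A.map (algebraMap R S)).Car) :
    x = ∑ i, x.co i • A.bc (algebraMap R S) (A.e i) := by
  simp only [bc_e]
  exact eq_sum x

theorem tra_mul (lam : S →ₗ[R] R) (a : A.Car) (x : (A.map (algebraMap R S)).Car) :
    traCo A lam (A.bc (algebraMap R S) a * x) = a * traCo A lam x := by
  rw [tra_eq_sum x]
  simp only [Finset.mul_sum, map_sum, mul_smul_comm, ← map_mul, tra_smul_bc]

theorem tra_star (lam : S →ₗ[R] R) (x : (A.map (algebraMap R S)).Car) :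
    traCo A lam (star x) = star (traCo A lam x) := by
  rw [tra_eq_sum x]
  simp only [star_sum, map_sum, star_smul', ← bc_star, tra_smul_bc]

theorem tra_norm (lam c : S →ₗ[R] R) (y : (A.map (algebraMap R S)).Car)
    (h : ∀ i j, lam (y.co i * y.co j) = c (y.co i) * c (y.co j)) :
    traCo A lam (y * star y) = traCo A c y * star (traCo A c y) := by
  have e : traCo A c y = ∑ i, c (y.co i) • A.e i := eq_sum _
  rw [e]
  conv_lhs => rw [tra_eq_sum y]
  simp only [star_sum, Finset.sum_mul, Finset.mul_sum, map_sum, star_smul', ← bc_star,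
    smul_mul_assoc, mul_smul_comm, Finset.smul_sum, smul_smul, ← map_mul, tra_smul_bc, h]

theorem tra_core [IsLocalRing R] (hA : Nice A) (lam c : S →ₗ[R] R) (t : S) (k : ℕ) (d : Fin k → S)
    (h0 : ∀ a, a < 2 * k → lam (t ^ a) = 0) (h1 : lam (t ^ (2 * k)) = 1)
    (hd : ∀ i j : Fin k, lam (t ^ (i : ℕ) * d j) = if i = j then 1 else 0)
    (hc : ∀ y z : S, (∀ j : Fin k, lam (t ^ (j : ℕ) * y) = 0) →
      (∀ j : Fin k, lam (t ^ (j : ℕ) * z) = 0) → lam (y * z) = c y * c z)
    {s : A.Car} (hu : IsUnit s) (h : ∃ b, A.bc (algebraMap R S) s = b * star b) :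
    ∃ b, s = b * star b := by
  obtain ⟨b, hb⟩ := h
  obtain ⟨bi, hbi⟩ := (isUnit_of_mul_left (hb ▸ hu.map (A.bc (algebraMap R S)))).exists_right_inv
  let _ : Module A.Car (A.map (algebraMap R S)).Car := Module.compHom _ (A.bc (algebraMap R S))
  let H : Herm A.Car (A.map (algebraMap R S)).Car :=
    { h := fun x y => traCo A lam (x * star y)
      add_left := fun x y z => by rw [add_mul, map_add]
      smul_left := fun a x y => by
        rw [← tra_mul, ← mul_assoc]
        rfl
      symm := fun x y => by rw [← tra_star, star_mul, star_star] }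
  have hH : ∀ (p q : S) (x y : (A.map (algebraMap R S)).Car) (a : A.Car),
      x * star y = A.bc (algebraMap R S) a → H.h (p • x) (q • y) = lam (p * q) • a := by
    intro p q x y a e
    change traCo A lam (p • x * star (q • y)) = _
    rw [star_smul', smul_mul_assoc, mul_smul_comm, smul_smul, e, tra_smul_bc]
  have hi : ∀ i j : Fin k, lam (t ^ (i : ℕ) * d j) • (1 : A.Car) = if i = j then 1 else 0 := by
    intro i j
    rw [hd]
    split_ifs
    · exact one_smul _ _
    · exact zero_smul _ _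
  have hz : ∀ (i : ℕ) (j : Fin k) (a : A.Car), i ≤ k → lam (t ^ i * t ^ (j : ℕ)) • a = 0 := by
    intro i j a hi
    rw [← pow_add, h0 _ (by have := j.2; omega), zero_smul]
  have e1 : (1 : (A.map (algebraMap R S)).Car) * star 1 = A.bc (algebraMap R S) 1 := by
    rw [star_one, mul_one, map_one]
  obtain ⟨σ, hσ, hσe⟩ := H.frames_conj hA k (fun j => t ^ (j : ℕ) • b) (fun j => d j • star bi)
    (fun j => t ^ (j : ℕ) • 1) (fun j => d j • 1)
    (fun i j => by rw [hH _ _ _ _ s hb.symm, hz _ _ _ i.2.le])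
    (fun i j => by rw [hH _ _ _ _ 1 (by rw [star_star, hbi, map_one]), hi])
    (fun i j => by rw [hH _ _ _ _ 1 e1, hz _ _ _ i.2.le])
    (fun i j => by rw [hH _ _ _ _ 1 e1, hi])
  have hy : ∀ i (j : Fin k), lam (t ^ (j : ℕ) * (σ (t ^ k • b)).co i) = 0 := fun i j => by
    have e := hσ (t ^ k • b) (t ^ (j : ℕ) • b)
    rw [hσe, hH _ _ _ _ s hb.symm, hz _ _ _ le_rfl] at e
    change traCo A lam (σ (t ^ k • b) * star (t ^ (j : ℕ) • 1)) = 0 at e
    rw [star_smul', star_one, mul_smul_comm, mul_one] at e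
    exact congrFun (congrArg Car.co e) i
  have e := hσ (t ^ k • b) (t ^ k • b)
  rw [hH _ _ _ _ s hb.symm, ← pow_add, ← two_mul, h1, one_smul] at e
  exact ⟨_, e.symm.trans (tra_norm lam c _ fun i j => hc _ _ (hy i) (hy j))⟩

end

variable {R : Type u} [CommRing R] [IsLocalRing R] {N : ℕ} {A : SAlg R N}

theorem herm_of_adjoinRoot (hA : Nice A) {P : R[X]} (hP : P.Monic) (hodd : Odd P.natDegree)
    {s : A.Car} (hs : star s = s) (hu : IsUnit s)
    (h : ∃ b, A.bc (AdjoinRoot.of P) s = b * star b) : ∃ b, s = b * star b := by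
  obtain ⟨k, lam, c, d, h0, h1, hd, hc⟩ := tra_data hP hodd
  exact tra_core hA lam c (AdjoinRoot.root P) k d h0 h1 hd hc hu h

end Pool.Agent.SU
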