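import Pool.Agent.P.MP_c1f06d_ag.su.Herm1

open Matrix Polynomial IsLocalRing

universe u

namespace Pool.Agent.SU

open SAlg Pool.Agent.P.MP_c1f06d_ag

/-- The split hermitian plane. -/
def uw_herm (B : Type u) [Ring B] [StarRing B] : Herm B (B × B) where
  h x y := x.1 * star y.1 - x.2 * star y.2
  add_left x y z := by simp only [Prod.fst_add, Prod.snd_add]; noncomm_ring
  smul_left a x y := by simp only [Prod.smul_fst, Prod.smul_snd, smul_eq_mul]; noncomm_ring
  symm x y := by simp only [star_sub, star_mul, star_star]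

theorem uw_local {R : Type u} [CommRing R] [IsLocalRing R] {N : ℕ} {A : SAlg R N} (hA : Nice A)
    {θ u : A.Car} (hθ : Th θ) (hu : u * star u = 1) :
    ∃ c, c + star c = 0 ∧ IsUnit (u * (1 + star θ * c) - (1 - θ * c)) := by
  obtain ⟨hc, h1⟩ := hθ
  have hc' := hc.star
  obtain ⟨⟨a, b⟩, h2, h3, h4⟩ := Herm.exists_unit_move hA (uw_herm A.Car) (e := (1, 1))
    (f := (θ, -star θ)) (x := (u, 1)) (w := (0, -1)) (by simp [uw_herm])
    (by simp only [uw_herm, star_neg, star_star, neg_mul_neg]; rw [hc, sub_self])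
    (by simp only [uw_herm, star_neg, star_star, one_mul, sub_neg_eq_add]; rw [add_comm, h1])
    (by simp [uw_herm, hu]) (by simp [uw_herm])
  simp only [uw_herm, star_neg, star_star, mul_neg, sub_neg_eq_add, one_mul] at h2 h3 h4
  obtain ⟨s, hs⟩ : ∃ s, s = a - b := ⟨_, rfl⟩
  have ha : a = 1 + s * θ := by
    rw [hs, ← h3]
    calc a = a * (θ + star θ) := by rw [h1, mul_one]
      _ = _ := by noncomm_ring
  have hb : b = 1 - s * star θ := by
    rw [hs, ← h3]
    calc b = b * (θ + star θ) := by rw [h1, mul_one]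
      _ = _ := by noncomm_ring
  have ha' : star a = 1 + star θ * star s := by rw [ha, star_add, star_one, star_mul]
  have hb' : star b = 1 - θ * star s := by rw [hb, star_sub, star_one, star_mul, star_star]
  refine ⟨star s, ?_, by rwa [← ha', ← hb']⟩
  rw [ha', hb', ha, hb] at h2
  rw [star_star, ← h2]
  calc star s + s = (θ + star θ) * star s + s * (θ + star θ)
        + s * (θ * star θ - star θ * θ) * star s := by rw [h1, hc, sub_self]; noncomm_ring
    _ = _ := by noncomm_ring

variable {T : Type u} [CommRing T] [Finite (MaximalSpectrum T)] {N d : ℕ} {A : SAlg T N}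

theorem uw_crt (x : ∀ m : MaximalSpectrum T, (A.map (Ideal.Quotient.mk m.asIdeal)).Car) :
    ∃ y : A.Car, ∀ m, A.bc (Ideal.Quotient.mk m.asIdeal) y = x m := by
  have h := fun i : Fin N => Ideal.pi_quotient_surjective
    (I := fun m : MaximalSpectrum T => m.asIdeal) (fun I _ => I.isCoprime_of_ne)
    fun m => (x m).co i
  choose v hv using h
  exact ⟨⟨v⟩, fun m => Car.ext (funext fun i => hv i m)⟩

omit [Finite (MaximalSpectrum T)] in
theorem uw_unit {y : A.Car}
    (h : ∀ m : MaximalSpectrum T, IsUnit (A.bc (Ideal.Quotient.mk m.asIdeal) y)) : IsUnit y := by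
  rw [isUnit_iff_lm]
  by_contra hy
  obtain ⟨m, hm, hm'⟩ := exists_max_ideal_of_mem_nonunits (mem_nonunits_iff.2 hy)
  have h1 := isUnit_iff_lm.1 (h ⟨m, hm⟩)
  rw [lm_bc, ← RingHom.mapMatrix_apply, ← RingHom.map_det,
    Ideal.Quotient.eq_zero_iff_mem.2 hm', isUnit_zero_iff] at h1
  exact hm.ne_top (Ideal.Quotient.zero_eq_one_iff.1 h1)

theorem exists_skew_unit (hA : Nice A) {θ u : A.Car} (hθ : Th θ) (hu : u * star u = 1) :
    ∃ c, c + star c = 0 ∧ IsUnit (u * (1 + star θ * c) - (1 - θ * c)) := by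
  have h := fun m : MaximalSpectrum T =>
    haveI := m.isMaximal
    haveI : IsLocalRing (T ⧸ m.asIdeal) :=
      letI := Ideal.Quotient.field m.asIdeal; inferInstance
    uw_local (hA.map (Ideal.Quotient.mk m.asIdeal)) (hθ.bc _) (u := A.bc _ u)
      (by rw [← bc_star, ← map_mul, hu, map_one])
  choose x hx hx' using h
  obtain ⟨y, hy⟩ := uw_crt x
  refine ⟨θ * y - star θ * star y, ?_, uw_unit fun m => ?_⟩
  · rw [star_sub, star_mul, star_mul, star_star, star_star, hθ.1, hθ.1.star, sub_add_sub_cancel,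
      sub_self]
  · have h1 : A.bc (Ideal.Quotient.mk m.asIdeal) (θ * y - star θ * star y) = x m := by
      rw [map_sub, map_mul, map_mul, bc_star, bc_star, hy, eq_neg_of_add_eq_zero_right (hx m),
        mul_neg, sub_neg_eq_add, ← add_mul, (hθ.bc _).2, one_mul]
    rw [map_sub, map_sub, map_mul, map_add, map_mul, map_mul _ θ, h1, map_one, bc_star]
    exact hx' m

theorem wd_of_unitary (hA : Good d A) {u : A.Car} (hu : u * star u = 1) : Wd d (nrd d u) := by
  obtain ⟨θ, hθ, hδ⟩ := hA.th
  obtain ⟨c, hc, hg⟩ := exists_skew_unit hA.nice hθ hu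
  have hF := hA.form
  have hs : star (1 + star θ * c) = 1 - θ * c := by
    rw [star_add, star_one, star_mul, star_star, eq_neg_of_add_eq_zero_right hc, neg_mul, hθ.1,
      sub_eq_add_neg]
  obtain ⟨a, ha⟩ : ∃ a, a = 1 + star θ * c := ⟨_, rfl⟩
  have hcm : a * star a = star a * a := by
    rw [ha, hs]
    have : star θ * c * (θ * c) = θ * c * (star θ * c) := by
      rw [mul_assoc, ← mul_assoc c, ← hθ.1 c, mul_assoc θ c c, ← mul_assoc, ← hθ.1 (star θ),
        mul_assoc θ c, ← mul_assoc c, ← hθ.1.star c, mul_assoc, mul_assoc]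
    calc _ = 1 + star θ * c - θ * c - star θ * c * (θ * c) := by noncomm_ring
      _ = _ := by rw [this]; noncomm_ring
  rw [← hs, ← ha] at hg
  have hn : nrd d (u * a - star a) = nrd d (a * u - star a) := hF.ext fun T' _ r => by
    rw [hF.isNrd, hF.isNrd, map_sub, map_sub, map_mul, map_mul,
      det_mul_sub_comm _ _ _ (by rw [← map_mul, ← map_mul, hcm])]
  refine ⟨(θ - star θ) * (u * a - star a), hδ.mul hg, ?_⟩
  have h1 : star ((θ - star θ) * (u * a - star a)) * u = (θ - star θ) * (a * u - star a) := by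
    rw [star_mul, star_sub, star_sub, star_star, star_star, star_mul, ← (hθ.1.star.sub hθ.1) _,
      mul_assoc, sub_mul (star a * star u), mul_assoc, mul_eq_one_comm' hu]
    noncomm_ring
  rw [← hF.nrd_star, hF.nrd_cen u, ← hF.nrd_mul, h1, hF.nrd_mul, hF.nrd_mul, hn]

end Pool.Agent.SU
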