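import Pool.Agent.P.MP_c1f06d_ag.su.VGam

namespace Pool.Agent.SU

open IsLocalRing

section
variable {O A : Type*} [CommRing O] [IsDomain O] [ValuationRing O] [Ring A] [Algebra O A]
  [Module.Finite O A] [Module.Free O A]

theorem vbez_step (h : Avg O A) (N : Ideal A) (hN : N.FG) {f : O} (hf : f ≠ 0)
    (hfN : algebraMap O A f ∈ N) (hne : N ≠ ⊤) :
    ∃ (γ γ' : A) (c : O), c ≠ 0 ∧ γ * γ' = algebraMap O A c ∧ γ' * γ = algebraMap O A c ∧
      (∀ y ∈ N, y * γ ∈ N) ∧ (∀ y ∈ N, ∃ z, z * γ = y) ∧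
      ∃ z, z * γ ∈ N ∧ ∀ y ∈ N, qm (maximalIdeal O) y ≠ qm (maximalIdeal O) z := by
  obtain ⟨n, u, v, h1, h2⟩ := h
  obtain ⟨c, p, w, c1, c2, hp, hc, hw, hw'⟩ := vlay (N.restrictScalars O)
    (Submodule.FG.restrictScalars hN) hf
    (fun y => by
      change f • y ∈ N
      rw [Algebra.smul_def, Algebra.commutes]
      exact N.mul_mem_left _ hfN)
    (fun ht => hne ((Submodule.restrictScalars_eq_top_iff O A A).1 ht))
  obtain ⟨ε, hε⟩ : ∃ ε, ε = ∑ i, u i * p (v i) := ⟨_, rfl⟩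
  have hεN : ε ∈ N := hε ▸ N.sum_mem fun i _ => N.mul_mem_left _ (hp _)
  have hy : ∀ y ∈ N, ∃ m, y * (1 - ε) = c • m := by
    intro y hy
    choose m hm using fun i => hc (v i * y) (N.mul_mem_left _ hy)
    refine ⟨-∑ i, u i * m i, ?_⟩
    rw [mul_sub, mul_one, hε, h2, smul_neg, ← neg_sub, neg_inj]
    conv_lhs => arg 2; rw [← one_mul y, ← h1, Finset.sum_mul]
    rw [← Finset.sum_sub_distrib, Finset.smul_sum]
    exact Finset.sum_congr rfl fun i _ => by rw [mul_assoc, ← mul_sub, hm, mul_smul_comm]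
  obtain ⟨π, hπ⟩ : ∃ π, π = 1 - ε := ⟨_, rfl⟩
  rw [← hπ] at hy
  have hr : ∀ y ∈ N, y * π ∈ N := fun y hy => by
    rw [hπ, mul_sub, mul_one]
    exact N.sub_mem hy (N.mul_mem_left _ hεN)
  obtain ⟨n1, hn1⟩ : ∃ n1, π * π - π = c • n1 := by
    obtain ⟨m, hm⟩ := hy ε hεN
    exact ⟨-m, by rw [smul_neg, ← hm, hπ]; noncomm_ring⟩
  obtain ⟨s, hs⟩ : ∃ s : A, s = 3 * (π * π) - 2 * (π * π * π) := ⟨_, rfl⟩
  have hn : s * s - s = (c * c) • (n1 * n1 * (4 * (π * π) - 4 * π - 3)) := by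
    rw [← smul_mul_assoc, ← smul_mul_smul_comm, ← hn1, hs]
    noncomm_ring
  generalize n1 * n1 * (4 * (π * π) - 4 * π - 3) = k at hn
  have hsn : s * k = k * s := by
    apply smul_right_injective A (mul_ne_zero c2 c2)
    simp only
    rw [← mul_smul_comm, ← smul_mul_assoc, ← hn]
    noncomm_ring
  obtain ⟨γ', g1, g2, g3⟩ := vgam_inv c1 hn hsn
  have hsr : ∀ y ∈ N, y * s ∈ N := fun y hy => by
    rw [show y * s = 3 * (y * π * π) - 2 * (y * π * π * π) by rw [hs]; noncomm_ring]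
    exact N.sub_mem (N.mul_mem_left _ (hr _ (hr _ hy))) (N.mul_mem_left _ (hr _ (hr _ (hr _ hy))))
  have hc' : ∀ a : A, c • a = a * γ' * (1 - s + c • s) := fun a => by
    rw [mul_assoc, g1, ← Algebra.commutes, Algebra.smul_def]
  refine ⟨1 - s + c • s, γ', c, c2, g2, g1, fun y hy => ?_, fun y hyN => ?_, w * γ', ?_,
    fun y hyN e => hw' ?_⟩
  · rw [mul_add, mul_sub, mul_one, mul_smul_comm, Algebra.smul_def]
    exact N.add_mem (N.sub_mem hy (hsr y hy)) (N.mul_mem_left _ (hsr y hy))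
  · obtain ⟨m, hm⟩ := hy y hyN
    have e : y * s = c • (m * (3 * π - 2 * (π * π))) := by
      rw [← smul_mul_assoc, ← hm, hs]; noncomm_ring
    refine ⟨y - (y * s - m * (3 * π - 2 * (π * π))) * γ', ?_⟩
    rw [sub_mul, ← hc', smul_sub, ← e, mul_add, mul_sub, mul_one, mul_smul_comm]
    abel
  · rw [← hc']
    exact hw
  · have e1 : qm (maximalIdeal O) s = qm (maximalIdeal O) π := by
      have : qm (maximalIdeal O) π * qm (maximalIdeal O) π = qm (maximalIdeal O) π := by
        rw [← map_mul, ← sub_eq_zero, ← map_sub, hn1, qm_smul c1]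
      rw [hs]
      simp only [map_sub, map_mul, map_ofNat, this]
      noncomm_ring
    rw [map_mul, g3, e1, ← map_mul] at e
    rw [show w = (y + w * ε) + (w * π - y) by rw [hπ]; noncomm_ring]
    exact Submodule.add_mem_sup (N.add_mem hyN (N.mul_mem_left _ hεN))
      (mem_extI_iff.1 (Ideal.Quotient.eq.1 e.symm))

end

/-- A finitely generated left ideal that contains a nonzero scalar is principal. -/
theorem vbez {O A : Type*} [CommRing O] [IsDomain O] [ValuationRing O] [Ring A] [Algebra O A]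
    [Module.Finite O A] [Module.Free O A] (h : Avg O A) (N : Ideal A) (hN : N.FG) {f : O}
    (hf : f ≠ 0) (hfN : algebraMap O A f ∈ N) :
    ∃ (g g' : A) (c : O), c ≠ 0 ∧ g * g' = algebraMap O A c ∧ g' * g = algebraMap O A c ∧
      N = Ideal.span {g} := by
  have := h.isSemisimpleRing
  have hsu := qm_surjective (A := A) (maximalIdeal O)
  induction hJ : N.map (qm (maximalIdeal O)) using IsNoetherian.induction generalizing N with
  | _ J ih =>
  by_cases hne : N = ⊤
  · exact ⟨1, 1, 1, one_ne_zero, by simp, by simp, by rw [hne, Ideal.span_singleton_one]⟩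
  obtain ⟨γ, γ', c, c2, g1, g2, h1, h2, z, h3, h4⟩ := vbez_step h N hN hf hfN hne
  let ρ : A →ₗ[A] A := LinearMap.toSpanSingleton A A γ
  have hρ : Function.Injective ρ := by
    rw [injective_iff_map_eq_zero]
    intro a ha
    have e : c • a = 0 := by
      rw [Algebra.smul_def, Algebra.commutes, ← g1, ← mul_assoc, show a * γ = 0 from ha, zero_mul]
    exact (smul_eq_zero.1 e).resolve_left c2
  have hmap : Submodule.map ρ (Submodule.comap ρ N) = N := Submodule.map_comap_eq_self fun y hy => h2 y hy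
  have hle : N ≤ Submodule.comap ρ N := fun y hy => h1 y hy
  obtain ⟨g, g', c', d1, d2, d3, d4⟩ := ih (Ideal.map (qm (maximalIdeal O)) (Submodule.comap ρ N))
    (by
      rw [← hJ]
      refine lt_of_le_of_ne (Ideal.map_mono hle) fun e => ?_
      have : qm (maximalIdeal O) z ∈ Ideal.map (qm (maximalIdeal O)) N :=
        e ▸ Ideal.mem_map_of_mem _ (show z ∈ Submodule.comap ρ N from h3)
      obtain ⟨y, hy, e'⟩ := (Ideal.mem_map_iff_of_surjective _ hsu).1 this
      exact h4 y hy e')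
    (Submodule.comap ρ N) (Submodule.fg_of_fg_map_injective ρ hρ (hmap.symm ▸ hN)) (hle hfN) rfl
  refine ⟨g * γ, γ' * g', c * c', mul_ne_zero c2 d1, ?_, ?_, ?_⟩
  · rw [mul_assoc, ← mul_assoc γ, g1, ← mul_assoc, ← Algebra.commutes, mul_assoc, d2, map_mul]
  · rw [mul_assoc, ← mul_assoc g', d3, ← mul_assoc, ← Algebra.commutes, mul_assoc, g2, ← map_mul,
      mul_comm]
  · rw [← hmap, d4, Ideal.span, Submodule.map_span, Set.image_singleton]
    rfl

end Pool.Agent.SU
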