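import Pool.Agent.P.MP_c1f06d_ag.su.Herm2
import Pool.Agent.P.MP_c1f06d_ag.su.VBez
import Pool.Agent.P.MP_c1f06d_ag.ValA

open Matrix Polynomial IsLocalRing

universe u

namespace Pool.Agent.SU

open SAlg Pool.Agent.P.MP_c1f06d_ag

theorem va_avg {T : Type u} [CommRing T] {N : ℕ} {A : SAlg T N} (hA : Sep A) : Avg T A.Car := by
  obtain ⟨v, h1, h2⟩ := hA
  refine ⟨N, A.e, v, h1, fun p a => ?_⟩
  have := sep_bil h2 ((LinearMap.mul T A.Car).compl₂ p) a
  simp only [LinearMap.compl₂_apply, LinearMap.mul_apply'] at this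
  rw [← this, Finset.mul_sum]
  simp only [mul_assoc]

variable {O K : Type u} [CommRing O] [IsDomain O] [ValuationRing O] [Field K] [Algebra O K]
  [IsFractionRing O K] {N : ℕ} {A : SAlg O N}

omit [ValuationRing O] in
theorem va_den (b : (A.map (algebraMap O K)).Car) :
    ∃ (d : O) (a : A.Car), d ≠ 0 ∧ A.bc (algebraMap O K) a = algebraMap O K d • b := by
  obtain ⟨d, hd⟩ := IsLocalization.exist_integer_multiples_of_finite (nonZeroDivisors O) b.co
  choose c hc using hd
  refine ⟨d, ⟨c⟩, nonZeroDivisors.ne_zero d.2, Car.ext (funext fun i => ?_)⟩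
  change algebraMap O K (c i) = algebraMap O K d * b.co i
  rw [hc, Algebra.smul_def]

set_option linter.unusedVariables false in
theorem exists_gen (hA : Sep A) (b : (A.map (algebraMap O K)).Car) (hb : IsUnit b) :
    ∃ x1 x2 a1 a2 : A.Car, IsUnit (A.bc (algebraMap O K) x1) ∧
      A.bc (algebraMap O K) x1 * b = A.bc (algebraMap O K) x2 ∧ x1 * a1 + x2 * a2 = 1 := by
  obtain ⟨d, a, hd, ha⟩ := va_den b
  obtain ⟨g, g', c, hc, h1, h2, hN⟩ := vbez (va_avg hA)
    (Ideal.span {algebraMap O A.Car d, star a})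
    (Submodule.fg_span (Set.toFinite _)) hd (Ideal.subset_span (by simp))
  have m1 : algebraMap O A.Car d ∈ Ideal.span {g} := hN ▸ Ideal.subset_span (by simp)
  have m2 : star a ∈ Ideal.span {g} := hN ▸ Ideal.subset_span (by simp)
  have m3 : g ∈ Ideal.span {algebraMap O A.Car d, star a} := hN ▸ Ideal.subset_span (by simp)
  obtain ⟨x, hx⟩ := Submodule.mem_span_singleton.1 m1
  obtain ⟨y, hy⟩ := Submodule.mem_span_singleton.1 m2
  obtain ⟨r1, r2, hr⟩ := Submodule.mem_span_pair.1 m3
  rw [smul_eq_mul] at hx hy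
  rw [smul_eq_mul, smul_eq_mul, ← hx, ← hy] at hr
  have hinj := bc_injective (A := A) (IsFractionRing.injective O K)
  have hu : ∀ t : O, t ≠ 0 → IsUnit (A.bc (algebraMap O K) (algebraMap O A.Car t)) := fun t ht => by
    rw [bc_algebraMap]
    exact (IsUnit.mk0 _ ((map_ne_zero_iff _ (IsFractionRing.injective O K)).2 ht)).map _
  have hg : IsUnit (A.bc (algebraMap O K) (star g)) := by
    refine isUnit_of_mul_left (y := A.bc _ (star g')) ?_
    rw [← map_mul, ← star_mul, h2, star_algebraMap]
    exact hu c hc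
  have hx' : star g * star x = algebraMap O A.Car d := by rw [← star_mul, hx, star_algebraMap]
  have hy' : star g * star y = a := by rw [← star_mul, hy, star_star]
  refine ⟨star x, star y, star r1, star r2, ?_, hg.mul_left_cancel ?_, hinj (hg.mul_left_cancel ?_)⟩
  · refine isUnit_of_mul_right (x := A.bc _ (star g)) ?_
    rw [← map_mul, hx']
    exact hu d hd
  · rw [← mul_assoc, ← map_mul, ← map_mul, hx', hy', ha, bc_algebraMap, Algebra.smul_def]
  · rw [← map_mul, ← map_mul, mul_one]
    congr 1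
    have := congrArg star hr
    simp only [star_add, star_mul] at this
    rw [mul_add, ← mul_assoc, ← mul_assoc, this]

/-- The form `⟨s, -1, 1⟩`. -/
def vaHerm {B : Type u} [Ring B] [StarRing B] {s : B} (hs : star s = s) : Herm B (B × B × B) where
  h x y := x.1 * s * star y.1 - x.2.1 * star y.2.1 + x.2.2 * star y.2.2
  add_left x y z := by simp only [Prod.fst_add, Prod.snd_add]; noncomm_ring
  smul_left a x y := by simp only [Prod.smul_fst, Prod.smul_snd, smul_eq_mul]; noncomm_ring
  symm x y := by simp only [star_add, star_sub, star_mul, star_star, hs, mul_assoc]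

theorem vaHerm_h {B : Type u} [Ring B] [StarRing B] {s : B} (hs : star s = s) (x y : B × B × B) :
    (vaHerm hs).h x y = x.1 * s * star y.1 - x.2.1 * star y.2.1 + x.2.2 * star y.2.2 := rfl

theorem herm_of_frac (hA : Nice A) {s : A.Car} (hs : star s = s) (hu : IsUnit s)
    (h : ∃ b, A.bc (algebraMap O K) s = b * star b) : ∃ b, s = b * star b := by
  obtain ⟨b, hb⟩ := h
  have hbu : IsUnit b := isUnit_of_mul_left (hb ▸ hu.map _)
  obtain ⟨x1, x2, a1, a2, -, h1, h2⟩ := exists_gen hA.sep b hbu
  obtain ⟨si, hsi⟩ := hu.exists_right_inv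
  have h3 : x1 * s * star x1 = x2 * star x2 := by
    refine bc_injective (A := A) (IsFractionRing.injective O K) ?_
    rw [map_mul, map_mul, map_mul, bc_star, bc_star, hb, ← h1, star_mul]
    simp only [mul_assoc]
  obtain ⟨σ, hσ, he⟩ := (vaHerm hs).frames_conj hA 1 (fun _ => (x1, x2, 0))
    (fun _ => (star (si * a1), -star a2, 0)) (fun _ => (0, 1, 1)) (fun _ => (0, 0, 1))
    (fun _ _ => by rw [vaHerm_h]; simp [h3])
    (fun i j => by
      rw [if_pos (Subsingleton.elim i j), vaHerm_h]
      simp only [star_star, star_neg, zero_mul, add_zero]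
      rw [mul_assoc, ← mul_assoc s, hsi, one_mul, mul_neg, sub_neg_eq_add, h2])
    (fun _ _ => by rw [vaHerm_h]; simp)
    (fun i j => by rw [if_pos (Subsingleton.elim i j), vaHerm_h]; simp)
  have e1 := hσ (0, 0, 1) (x1, x2, 0)
  have e2 := hσ (0, 0, 1) (0, 0, 1)
  rw [he 0] at e1
  generalize σ (0, 0, 1) = n at e1 e2
  obtain ⟨y, c, c'⟩ := n
  simp only [vaHerm_h, star_zero, star_one, mul_zero, zero_mul, mul_one, zero_sub, sub_zero,
    add_zero, zero_add] at e1 e2
  have e3 : c' = c := by rw [← sub_eq_zero, sub_eq_neg_add, e1]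
  rw [e3, sub_add_cancel] at e2
  obtain ⟨z, hz⟩ := (isUnit_of_mul_eq_one ((mul_assoc _ _ _).symm.trans e2)).exists_left_inv
  refine ⟨z, ?_⟩
  have hz' : star y * star z = 1 := by rw [← star_mul, hz, star_one]
  calc s = (z * y) * s * (star y * star z) := by rw [hz, hz', one_mul, mul_one]
    _ = z * (y * s * star y) * star z := by noncomm_ring
    _ = z * star z := by rw [e2, mul_one]

end Pool.Agent.SU
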