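import Pool.Agent.P.MP_c1f06d_ag.su.VMain

namespace Pool.Agent.SU

open IsLocalRing

/-- The properties of the reduced norm that are used, for an arbitrary centre. -/
structure NuW (T : Type*) {A : Type*} [CommRing T] [IsLocalRing T] [Ring A] [Algebra T A]
    [StarRing A] (ν : A →* A) : Prop where
  cen : ∀ a, Cen (ν a)
  symm : ∀ a, star a = a → star (ν a) = ν a
  adj : ∀ a, ∃ a', a * a' = ν a ∧ a' * a = ν a
  cong : ∀ a b, qm (maximalIdeal T) a = qm (maximalIdeal T) b →
    qm (maximalIdeal T) (ν a) = qm (maximalIdeal T) (ν b)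
  pow : ∃ d, ∀ z, Cen z → ν z = z ^ (d + 1)

/-- The support of `e1` contains the support of `e`. -/
def FullIn {S : Type*} [Ring S] (e e1 : S) : Prop :=
  ∀ a, (∀ s, a * s * e1 = 0) → a * e = 0

section
variable {S : Type*} [Ring S] [StarRing S] [IsSemisimpleRing S]

theorem wval_full {e p q v z : S} (h5 : v * e = v) (hp : p * v * p = p) (hz : Cen z)
    (hzz : z * z = z) (g1 : z * (q * p) = z * star e) (g2 : (1 - z) * (p * q) = (1 - z) * e)
    (hf : ∀ y : S, Cen y → y * y = y → y * e = 0 → y * star e = 0) : FullIn e (p * v) := by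
  have hz' := vpi_one_sub hz
  have i2 : (1 - z) * (p * v) = (1 - z) * e := by
    calc (1 - z) * (p * v) = p * v * ((1 - z) * e) := by
          rw [vpi_left hz', mul_assoc p, h5]
      _ = (1 - z) * (p * v * p * q) := by rw [← g2, vpi_left hz', mul_assoc (p * v)]
      _ = (1 - z) * e := by rw [hp, g2]
  intro a ha
  obtain ⟨y, hy, hyy, hya, hy0⟩ := vci ha
  have j1 : y * (1 - z) * e = 0 := by rw [mul_assoc, ← i2, ← vpi_left hy, hy0, mul_zero]
  have j2 : y * p = 0 := by rw [← hp, ← mul_assoc, hy0, zero_mul]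
  have j3 : y * z * star e = 0 := by
    rw [mul_assoc, ← g1, ← vpi_left hy, ← vpi_left hy, j2, mul_zero, mul_zero]
  have hc := vpi_cen_star (vpi_cen_mul hy hz)
  have j4 : star (y * z) * star e = 0 := hf _ hc
    (by rw [← star_mul, vpi_idem_mul hy hyy hzz])
    (by rw [hc e, ← star_star e, ← star_mul, j3, star_zero])
  rw [← star_mul, star_eq_zero, ← vpi_cen_mul hy hz e] at j4
  rw [mul_sub, mul_one, sub_mul, j4, sub_zero] at j1
  rw [← hya, hy a, mul_assoc, j1, mul_zero]

theorem wval_conj {e p q v z : S} (h2 : p * star e = p) (h3 : e * p = p)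
    (h4 : star e * v = v) (h5 : v * e = v) (hp : p * v * p = p) (hz : Cen z) (hzz : z * z = z)
    (g1 : z * (q * p) = z * star e) (g2 : (1 - z) * (p * q) = (1 - z) * e) :
    ∃ t, IsUnit t ∧ t * (p * v) = star (p * v) * t := by
  have hz' := vpi_one_sub hz
  have i1 : z * (v * p) = z * star e := by
    calc z * (v * p) = z * star e * (v * p) := by rw [mul_assoc, ← mul_assoc (star e), h4]
      _ = z * (q * (p * v * p)) := by rw [← g1]; simp only [mul_assoc]
      _ = z * star e := by rw [hp, g1]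
  have i2 : (1 - z) * (p * v) = (1 - z) * e := by
    calc (1 - z) * (p * v) = p * v * ((1 - z) * e) := by
          rw [vpi_left hz', mul_assoc p, h5]
      _ = (1 - z) * (p * v * p * q) := by rw [← g2, vpi_left hz', mul_assoc (p * v)]
      _ = (1 - z) * e := by rw [hp, g2]
  have hidem : p * v * (p * v) = p * v := by rw [← mul_assoc, hp]
  have hy := vpi_cen_star hz
  have hy' := vpi_one_sub hy
  have hyy : star z * star z = star z := by rw [← star_mul, hzz]
  have k1 : star z * star (v * p) = star z * e := by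
    have := congrArg star i1
    rw [star_mul, star_mul z, star_star] at this
    rw [hy, hy, this]
  have k2 : (1 - star z) * star (p * v) = (1 - star z) * star e := by
    have := congrArg star i2
    rw [star_mul, star_mul (1 - z), star_sub, star_one] at this
    rw [hy', hy', this]
  have z1 : star z * (1 - star z) = 0 := by rw [mul_sub, mul_one, hyy, sub_self]
  have z2 : (1 - star z) * star z = 0 := by rw [sub_mul, one_mul, hyy, sub_self]
  have e1 : e * (p * v) = p * v := by rw [← mul_assoc, h3]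
  have l1 : (star z * (p * v * star p) + (1 - star z) * p) * star (p * v) =
      star z * (p * v * star p) + (1 - star z) * p := by
    rw [add_mul, mul_assoc, mul_assoc (p * v), ← star_mul, hp, mul_assoc (1 - star z),
      ← vpi_left hy', k2, vpi_left hy', h2]
  have l2 : (star z * (p * v * star p) + (1 - star z) * p) *
      (star z * (star v * (p * v)) + (1 - star z) * v) = p * v := by
    have m1 : star z * (p * v * star p) * (star z * (star v * (p * v))) = star z * (p * v) := by
      calc _ = p * v * (star z * star (v * p) * (p * v)) := by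
            rw [mul_assoc (star z), vpi_left hy, ← mul_assoc (star z), hyy, star_mul v p,
              mul_assoc (star z), vpi_left hy]
            simp only [mul_assoc]
        _ = star z * (p * v) := by rw [k1, mul_assoc (star z), e1, vpi_left hy, hidem]
    have m2 : star z * (p * v * star p) * ((1 - star z) * v) = 0 := by
      rw [mul_assoc, vpi_left hy', ← mul_assoc, z1, zero_mul]
    have m3 : (1 - star z) * p * (star z * (star v * (p * v))) = 0 := by
      rw [mul_assoc, vpi_left hy, ← mul_assoc, z2, zero_mul]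
    have m4 : (1 - star z) * p * ((1 - star z) * v) = (1 - star z) * (p * v) := by
      rw [mul_assoc, vpi_left hy', ← mul_assoc, vpi_idem_sub hyy]
    rw [add_mul, mul_add, mul_add, m1, m2, m3, m4, add_zero, zero_add, ← add_mul,
      add_sub_cancel, one_mul]
  have hidem' : star (p * v) * star (p * v) = star (p * v) := by rw [← star_mul, hidem]
  have l3 : (star z * (p * v * star p) + (1 - star z) * p) *
      (star (p * v) * (star z * (star v * (p * v)) + (1 - star z) * v)) = p * v := by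
    rw [← mul_assoc, l1, l2]
  refine vsb hidem hidem' l3 l1 (a' := star (star (p * v) *
    (star z * (star v * (p * v)) + (1 - star z) * v)))
    (b' := star (star z * (p * v * star p) + (1 - star z) * p)) ?_ ?_
  · rw [← star_mul, l3]
  · rw [star_mul (star (p * v)), star_star, mul_assoc, hidem]

end

section
variable {T A : Type*} [CommRing T] [IsLocalRing T] [Ring A] [Algebra T A] [Module.Finite T A]
  [Module.Free T A] [StarRing A] [StarFix T A] {ν : A →* A}

omit [Module.Finite T A] [Module.Free T A] [StarFix T A] in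
theorem wval_nu (hν : NuW T ν) {η a : A} (hη : Cen η)
    (hi : qm (maximalIdeal T) η * qm (maximalIdeal T) η = qm (maximalIdeal T) η)
    (ha : qm (maximalIdeal T) η * qm (maximalIdeal T) a = qm (maximalIdeal T) η) :
    qm (maximalIdeal T) η * qm (maximalIdeal T) (ν a) = qm (maximalIdeal T) η := by
  obtain ⟨d, hd⟩ := hν.pow
  have h1 := hν.cong (η * a) η (by rw [map_mul, ha])
  rwa [map_mul, hd η hη, map_mul, map_pow, vpi_pow hi] at h1

theorem wval_pi (h : Avg T A) (hν : NuW T ν) {I : Ideal T} (hI : I ≤ maximalIdeal T) {π : A}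
    (hπ : qm I π * qm I π = qm I π)
    (hf : ∀ z : QA A (maximalIdeal T), Cen z → z * z = z → z * qm _ π = 0 →
      z * star (qm _ π) = 0) :
    ∃ π1 t : A, qm I π1 * qm I π1 = qm I π1 ∧ qm I π * qm I π1 = qm I π1 ∧
      qm I π1 * qm I π = qm I π1 ∧ IsUnit t ∧ qm I (t * π1) = qm I (star π1 * t) ∧
      FullIn (qm (maximalIdeal T) π) (qm (maximalIdeal T) π1) := by
  have := h.isSemisimpleRing
  have hπs : qm I (star π) * qm I (star π) = qm I (star π) := by
    rw [qm_star, ← star_mul, hπ]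
  have he : qm (maximalIdeal T) π * qm (maximalIdeal T) π = qm (maximalIdeal T) π := by
    rw [← map_mul] at hπ ⊢
    exact qm_mono hI hπ
  have he' : star (qm (maximalIdeal T) π) * star (qm (maximalIdeal T) π) =
      star (qm (maximalIdeal T) π) := by rw [← star_mul, he]
  obtain ⟨p0, q0, z, hz, hzz, g1, g2⟩ := vgc he he'
  obtain ⟨p0, rfl⟩ := qm_surjective _ p0
  obtain ⟨q0, rfl⟩ := qm_surjective _ q0
  obtain ⟨η, hη, rfl⟩ := h.exists_cen _ hz
  obtain ⟨p, hp⟩ : ∃ p, p = π * p0 * star π := ⟨_, rfl⟩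
  obtain ⟨q, hq⟩ : ∃ q, q = star π * q0 * π := ⟨_, rfl⟩
  have hpm : qm (maximalIdeal T) π * qm (maximalIdeal T) p0 * star (qm (maximalIdeal T) π) =
      qm (maximalIdeal T) p := by rw [hp, map_mul, map_mul, qm_star]
  have hqm : star (qm (maximalIdeal T) π) * qm (maximalIdeal T) q0 * qm (maximalIdeal T) π =
      qm (maximalIdeal T) q := by rw [hq, map_mul, map_mul, qm_star]
  rw [hpm, hqm] at g1 g2
  have n0 := wval_nu hν (a := q * p + 1 - star π) hη hzz
    (by rw [map_sub, map_add, map_mul, map_one, qm_star, mul_sub, mul_add, g1, mul_one,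
      add_sub_cancel_left])
  have n1 := wval_nu hν (η := 1 - η) (a := p * q + 1 - π) (vpi_one_sub hη)
    (by rw [map_sub, map_one]; exact vpi_idem_sub hzz)
    (by rw [map_sub _ 1, map_one, map_sub, map_add, map_mul, map_one, mul_sub, mul_add, g2,
      mul_one, add_sub_cancel_left])
  have hDu : IsUnit (η * ν (q * p + 1 - star π) + (1 - η) * ν (p * q + 1 - π)) := by
    apply isUnit_of_qm (T := T)
    rw [map_add, map_mul, map_mul, n0, n1, ← map_add, add_sub_cancel, map_one]
    exact isUnit_one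
  have hDc : Cen (η * ν (q * p + 1 - star π) + (1 - η) * ν (p * q + 1 - π)) :=
    vpi_cen_add (vpi_cen_mul hη (hν.cen _)) (vpi_cen_mul (vpi_one_sub hη) (hν.cen _))
  obtain ⟨u, hu⟩ := hDu
  have hDi : Cen (↑u⁻¹ : A) := fun b => by
    rw [Units.inv_mul_eq_iff_eq_mul, ← mul_assoc, hu, hDc b, ← hu, Units.mul_inv_cancel_right]
  obtain ⟨e0', -, h0'⟩ := hν.adj (q * p + 1 - star π)
  obtain ⟨e1', h1', -⟩ := hν.adj (p * q + 1 - π)
  obtain ⟨v0, hv0⟩ : ∃ v0, v0 = (↑u⁻¹ : A) * (η * (e0' * q) + (1 - η) * (q * e1')) := ⟨_, rfl⟩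
  have sI := qm_surjective (A := A) I
  have a1 : qm I π * qm I p = qm I p := by
    rw [hp, map_mul, map_mul, ← mul_assoc, ← mul_assoc, hπ]
  have a2 : qm I p * qm I (star π) = qm I p := by
    rw [hp, map_mul, mul_assoc, hπs]
  have a3 : qm I p * qm I v0 * qm I p = qm I p := by
    have := vpi_reg (q := qm I q) (e0' := qm I e0') (e1' := qm I e1') hπ hπs a1 a2
      (vpi_cen_map _ sI hη) (vpi_cen_map _ sI (hν.cen (q * p + 1 - star π)))
      (vpi_cen_map _ sI (hν.cen (p * q + 1 - π))) (vpi_cen_map _ sI hDi)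
      (by rw [← h0', map_mul, map_sub, map_add, map_mul, map_one])
      (by rw [← h1', map_mul, map_sub, map_add, map_mul, map_one])
      (by
        have := congrArg (qm I) u.inv_mul
        rw [hu, map_mul, map_add, map_mul, map_mul, map_sub (qm I), map_one] at this
        exact this)
    rw [hv0, map_mul, map_add, map_mul, map_mul, map_mul, map_mul, map_sub, map_one]
    exact this
  obtain ⟨v, hv⟩ : ∃ v, v = star π * v0 * π := ⟨_, rfl⟩
  have a4 : qm I (star π) * qm I v = qm I v := by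
    rw [hv, map_mul, map_mul, ← mul_assoc, ← mul_assoc, hπs]
  have a5 : qm I v * qm I π = qm I v := by
    rw [hv, map_mul, mul_assoc, hπ]
  have a6 : qm I p * qm I v * qm I p = qm I p := by
    rw [hv, map_mul, map_mul, ← mul_assoc, ← mul_assoc, a2, mul_assoc, a1, a3]
  have tr : ∀ {a b c : A}, qm I a * qm I b = qm I c →
      qm (maximalIdeal T) a * qm (maximalIdeal T) b = qm (maximalIdeal T) c := by
    intro a b c hh
    rw [← map_mul] at hh ⊢
    exact qm_mono hI hh
  have b6 : qm (maximalIdeal T) p * qm (maximalIdeal T) v * qm (maximalIdeal T) p =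
      qm (maximalIdeal T) p := by
    rw [← map_mul] at a6 ⊢
    exact tr a6
  have hfull := wval_full (e := qm (maximalIdeal T) π) (tr a5) b6 hz hzz g1 g2 hf
  obtain ⟨t0, ht0, ht⟩ := wval_conj (e := qm (maximalIdeal T) π) (tr a2) (tr a1) (tr a4)
    (tr a5) b6 hz hzz g1 g2
  obtain ⟨t0, rfl⟩ := qm_surjective _ t0
  have c1 : qm I (p * v) * qm I (p * v) = qm I (p * v) := by
    rw [map_mul, ← mul_assoc, a6]
  have c2 : qm I (star (p * v)) * qm I (star (p * v)) = qm I (star (p * v)) := by
    rw [qm_star, ← star_mul, c1]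
  rw [← map_mul _ p v] at hfull ht
  refine ⟨p * v, star (p * v) * t0 * (p * v) + (1 - star (p * v)) * t0 * (1 - p * v), c1, ?_, ?_,
    ?_, ?_, hfull⟩
  · rw [map_mul, ← mul_assoc, a1]
  · rw [map_mul, mul_assoc, a5]
  · apply isUnit_of_qm (T := T)
    have d1 := tr c1
    rw [map_add, map_mul _ (_ * _), map_mul _ _ t0, map_mul _ (_ * _), map_mul _ _ t0, map_sub,
      map_sub, map_one, qm_star, sub_mul, one_mul, ← ht, mul_assoc, d1, ← mul_one_sub, mul_assoc,
      vpi_idem_sub d1, ← mul_add, add_sub_cancel, mul_one]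
    exact ht0
  · rw [map_mul _ _ (p * v), map_mul _ (star (p * v)), map_add, map_mul _ (_ * _), map_mul _ _ t0,
      map_mul _ (_ * _), map_mul _ _ t0, map_sub, map_sub, map_one, add_mul, mul_add]
    generalize qm I (p * v) = x at c1
    generalize qm I (star (p * v)) = y at c2
    have f1 : (1 - x) * x = 0 := by rw [sub_mul, one_mul, c1, sub_self]
    have f2 : y * (1 - y) = 0 := by rw [mul_sub, mul_one, c2, sub_self]
    rw [mul_assoc _ x x, c1, mul_assoc _ (1 - x), f1, mul_zero, ← mul_assoc y, ← mul_assoc y, c2,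
      ← mul_assoc y, ← mul_assoc y, f2, zero_mul, zero_mul]

omit [Module.Free T A] [StarRing A] [StarFix T A] in
theorem wval_unit {I : Ideal T} (hI : I ≤ maximalIdeal T) {ε π π1 w : A}
    (h0 : qm I ε * qm I π = 0) (h1 : qm I π1 * qm I π1 = qm I π1)
    (h2 : qm I π * qm I π1 = qm I π1) (h3 : qm I π1 * qm I π = qm I π1)
    (hπ : qm I π * qm I π = qm I π)
    (hf : FullIn (qm (maximalIdeal T) π) (qm (maximalIdeal T) π1))
    (hw : qm (maximalIdeal T) (w * π) ≠ 0) :
    ∃ u, IsUnit u ∧ qm I ε * qm I u * qm I π1 = 0 ∧ qm (maximalIdeal T) (w * u * π1) ≠ 0 := by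
  have h4 : qm I ε * qm I π1 = 0 := by rw [← h2, ← mul_assoc, h0, zero_mul]
  by_cases hc : qm (maximalIdeal T) (w * π1) = 0
  · obtain ⟨s, hs⟩ : ∃ s, qm (maximalIdeal T) (w * π) * s * qm (maximalIdeal T) π1 ≠ 0 := by
      by_contra hn
      push Not at hn
      have h5 := hf _ hn
      have h6 : qm (maximalIdeal T) (π * π) = qm (maximalIdeal T) π :=
        qm_mono hI (by rw [map_mul, hπ])
      rw [map_mul, mul_assoc, ← map_mul, h6, ← map_mul] at h5
      exact hw h5
    obtain ⟨s, rfl⟩ := qm_surjective _ s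
    have h5 : qm I π1 * (qm I π - qm I π1) = 0 := by rw [mul_sub, h3, h1, sub_self]
    have hn : qm I ((π - π1) * s * π1 * ((π - π1) * s * π1)) = qm I 0 := by
      simp only [map_mul, map_sub, map_zero]
      rw [mul_assoc, mul_assoc (qm I π - qm I π1) _ (qm I π1) , ← mul_assoc (qm I π1), h5, zero_mul,
        mul_zero]
    have hn' := qm_mono hI hn
    rw [map_mul, map_zero] at hn'
    refine ⟨1 + (π - π1) * s * π1, isUnit_of_qm (T := T) ?_, ?_, ?_⟩
    · rw [map_add, map_one]
      exact IsNilpotent.isUnit_one_add ⟨2, by rw [pow_two, hn']⟩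
    · simp only [map_add, map_mul, map_sub, map_one]
      rw [mul_add, mul_one, add_mul, h4, zero_add, ← mul_assoc, ← mul_assoc, mul_sub, h0, h4,
        sub_self, zero_mul, zero_mul, zero_mul]
    · have h1' : qm (maximalIdeal T) (π1 * π1) = qm (maximalIdeal T) π1 :=
        qm_mono hI (by rw [map_mul, h1])
      have e : w * (1 + (π - π1) * s * π1) * π1 =
          w * π1 + w * π * s * (π1 * π1) - w * π1 * (s * π1 * π1) := by noncomm_ring
      rw [e, map_sub, map_add, map_mul _ (w * π1), hc, zero_add, zero_mul, sub_zero,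
        map_mul _ _ (π1 * π1), h1', map_mul]
      exact hs
  · exact ⟨1, isUnit_one, by rw [map_one, mul_one, h4], by rwa [mul_one]⟩

omit [Module.Finite T A] [Module.Free T A] in
/-- The support of `π` is symmetric. -/
theorem wval_sym (h : Avg T A) (hν : NuW T ν) {x b f z π : A} (hf : Cen f) (hfs : star f = f)
    (hz : IsUnit z) (e : ν x = f * z) (hπ : π = 1 - b * x)
    (hx : qm (maximalIdeal T) (x * π) = 0)
    (y : QA A (maximalIdeal T)) (hy : Cen y) (hy2 : y * y = y) (h0 : y * qm _ π = 0) :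
    y * star (qm _ π) = 0 := by
  obtain ⟨y0, hc, rfl⟩ := h.exists_cen _ hy
  obtain ⟨d, hd⟩ := hν.pow
  rw [hπ, map_sub, map_one, mul_sub, mul_one, sub_eq_zero, ← map_mul] at h0
  have h1 := hν.cong _ _ h0
  rw [map_mul ν, map_mul ν, map_mul, hd y0 hc, map_pow, IsIdempotentElem.pow_succ_eq d hy2, e] at h1
  obtain ⟨x', -, hx2⟩ := hν.adj x
  obtain ⟨z', hz1, -⟩ := isUnit_iff_exists.1 hz
  have h2 := congrArg star h1
  rw [star_mul, ← qm_star _ (_ * _), star_mul, star_mul, hfs, mul_assoc (star z), hf,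
    ← mul_assoc (star z), map_mul] at h2
  have h3 : qm (maximalIdeal T) f * qm (maximalIdeal T) π = 0 := by
    have : f = z' * x' * x := by
      rw [mul_assoc, hx2, ← hν.cen x z', e, mul_assoc, hz1, mul_one]
    rw [← map_mul, this, mul_assoc, map_mul, hx, mul_zero]
  have hs := vpi_cen_star hy
  have h4 : star (qm (maximalIdeal T) y0) * qm (maximalIdeal T) π = 0 := by
    rw [h2, mul_assoc, hs, ← mul_assoc, mul_assoc _ _ (qm _ π), h3, mul_zero, zero_mul]
  rw [hy, ← star_star (qm (maximalIdeal T) y0), ← star_mul, h4, star_zero]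

end

variable {O A : Type*} [CommRing O] [IsDomain O] [ValuationRing O] [Infinite (ResidueField O)]
  [Ring A] [Algebra O A] [Module.Finite O A] [Module.Free O A] [StarRing A] [StarFix O A]
  {ν : A →* A}

/-- The induction step. -/
theorem wval_step (h : Avg O A) (hν : NuW O ν) {θ : A} (hθ : Cen θ) (hd : IsUnit (θ - star θ))
    {x z f f' : A} {c0 : O} (hf : Cen f) (hfs : star f = f) (hc00 : c0 ≠ 0)
    (hff : f * f' = algebraMap O A c0) (hz : IsUnit z) (e : ν x = f * z) (hx : ¬ IsUnit x) :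
    ∃ (x1 u g g' : A) (c1 : O), IsUnit u ∧ Cen g ∧ star g = g ∧ c1 ≠ 0 ∧
      g * g' = algebraMap O A c1 ∧ ν x * ν u = ν x1 * g ∧
      lann (qm (maximalIdeal O) x1) < lann (qm (maximalIdeal O) x) := by
  obtain ⟨x', hx1, hx2⟩ := hν.adj x
  obtain ⟨z', hz'', hz'⟩ := isUnit_iff_exists.1 hz
  obtain ⟨c, b, w, a, hc, hc0, hε, ha, hw⟩ := h.exists_eps (x := x) hc00
    ⟨f' * z' * x', by
      rw [mul_assoc, hx2, e, hf z, mul_assoc, ← mul_assoc z', hz', one_mul, ← hf, hff]⟩ hx
  have hI : Ideal.span {c} ≤ maximalIdeal O := (Ideal.span_singleton_le_iff_mem _).2 hc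
  have hεε : qm (Ideal.span {c}) (b * x) * qm (Ideal.span {c}) (b * x) =
      qm (Ideal.span {c}) (b * x) := by
    rw [map_mul _ b x, mul_assoc, ← map_mul _ b x, ← map_mul, hε, map_mul]
  have h0 : qm (Ideal.span {c}) (b * x) * qm (Ideal.span {c}) (1 - b * x) = 0 := by
    rw [map_sub, map_one, mul_sub, mul_one, hεε, sub_self]
  have hππ : qm (Ideal.span {c}) (1 - b * x) * qm (Ideal.span {c}) (1 - b * x) =
      qm (Ideal.span {c}) (1 - b * x) := by
    rw [map_sub, map_one]; exact (IsIdempotentElem.one_sub hεε).eq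
  obtain ⟨π1, t, p1, p2, p3, ht, htπ, hfull⟩ := wval_pi h hν hI (π := 1 - b * x) hππ
    (wval_sym h hν hf hfs hz e rfl (by rw [mul_sub, mul_one, map_sub, qm_mono hI hε, sub_self]))
  obtain ⟨k, s, γ', hk, hsym, hs, g1, g2, g3⟩ := vgam hθ hd hc hc0 p1 ht htπ
  obtain ⟨u, hu, u1, u2⟩ := wval_unit hI h0 p1 p2 p3 hππ hfull hw
  obtain ⟨n, hn⟩ : ∃ n, x * u * s - 0 = c • n := by
    refine qm_span_eq_iff.1 ?_
    rw [map_mul, map_mul, hs, ← hε, map_mul, mul_assoc, mul_assoc, ← mul_assoc (qm _ (b * x)), u1,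
      mul_zero, map_zero]
  have hg := hν.symm _ hsym
  generalize hγ : 1 - s + c • s = γ at *
  have hx1 : (x * u + (n - x * u * s) * γ') * γ = x * u := by
    rw [add_mul, mul_assoc _ γ', g1, ← Algebra.commutes, ← Algebra.smul_def, smul_sub, ← hn, ← hγ,
      mul_add, mul_smul_comm]
    noncomm_ring
  generalize x * u + (n - x * u * s) * γ' = x1 at hx1
  have ha1 : a * x1 = w * u * γ' := by
    refine vcancel hc0 ?_
    rw [← g2, ← mul_assoc, ← mul_assoc, mul_assoc a, hx1, mul_assoc _ γ', g1, ← mul_assoc, ha,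
      ← Algebra.commutes, ← Algebra.smul_def, smul_mul_assoc, smul_mul_assoc]
  obtain ⟨d, hd'⟩ := hν.pow
  obtain ⟨k', hk', -⟩ := isUnit_iff_exists.1 hk
  refine ⟨x1, u * k, ν (k * γ), ν (γ' * k'), c ^ (d + 1), hu.mul hk, hν.cen _, hg,
    pow_ne_zero _ hc0, ?_, ?_, lt_of_le_of_ne (fun y hy => ?_) fun hn => u2 ?_⟩
  · rw [← map_mul, mul_assoc, ← mul_assoc γ, g2, Algebra.commutes, ← mul_assoc, hk', one_mul,
      hd' _ (Algebra.commutes c), map_pow]
  · rw [map_mul, ← mul_assoc, ← map_mul, ← hx1, map_mul, map_mul, mul_assoc, hν.cen γ]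
  · obtain ⟨u', hu', -⟩ := isUnit_iff_exists.1 hu
    rw [mem_lann] at hy ⊢
    rw [← mul_one x, ← hu', ← mul_assoc, ← hx1, map_mul, map_mul, ← mul_assoc, ← mul_assoc, hy,
      zero_mul, zero_mul]
  · have h1 : qm (maximalIdeal O) a ∈ lann (qm (maximalIdeal O) x) := by
      rw [mem_lann, ← map_mul, ha, qm_smul hc]
    rw [← hn, mem_lann, ← map_mul, ha1, map_mul, g3, ← map_mul] at h1
    exact h1

/-- The valuation lemma for an arbitrary centre. -/
theorem valYW (h : Avg O A) (hν : NuW O ν) {θ : A} (hθ : Cen θ) (hd : IsUnit (θ - star θ))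
    {x z f f' : A} {c : O} (hf : Cen f) (hfs : star f = f) (hc : c ≠ 0)
    (hff : f * f' = algebraMap O A c) (hz : IsUnit z) (hzc : Cen z) (e : ν x = f * z) :
    ∃ f1 u : A, Cen f1 ∧ star f1 = f1 ∧ IsUnit u ∧ ν x = f1 * ν u := by
  have := h.isSemisimpleRing
  have key : ∀ (J : Ideal (QA A (maximalIdeal O))) (x z f f' : A) (c : O),
      lann (qm (maximalIdeal O) x) = J → Cen f → star f = f → c ≠ 0 →
      f * f' = algebraMap O A c → IsUnit z → Cen z → ν x = f * z →
      ∃ f1 u : A, Cen f1 ∧ star f1 = f1 ∧ IsUnit u ∧ ν x = f1 * ν u := by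
    intro J
    induction J using WellFoundedLT.induction with
    | ind J ih =>
      rintro x z f f' c rfl hf hfs hc hff hz hzc e
      by_cases hx : IsUnit x
      · exact ⟨1, x, fun b => by rw [one_mul, mul_one], star_one _, hx, by rw [one_mul]⟩
      obtain ⟨x1, u, g, g', c1, hu, hg, hgs, hc1, hgg, e1, hlt⟩ :=
        wval_step h hν hθ hd hf hfs hc hff hz e hx
      obtain ⟨v, hv⟩ : IsUnit (z * ν u) := hz.mul (hu.map ν)
      have hvc : Cen (v : A) := hv ▸ vpi_cen_mul hzc (hν.cen u)
      have hvi : Cen (↑v⁻¹ : A) := fun b => by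
        rw [Units.inv_mul_eq_iff_eq_mul, ← mul_assoc, hvc b, Units.mul_inv_cancel_right]
      have e2 : ν x1 * ↑v⁻¹ * g = f := by
        rw [mul_assoc, hvi g, ← mul_assoc, ← e1, e, mul_assoc f, ← hv, Units.mul_inv_cancel_right]
      have hs1 : star (ν x1 * ↑v⁻¹) = ν x1 * ↑v⁻¹ := by
        refine vcancel hc1 ?_
        rw [← hgg, ← mul_assoc, ← mul_assoc, e2, ← hg (star _), ← hgs, ← star_mul, e2, hfs]
      obtain ⟨f1, u1, k1, k2, hu1, e3⟩ := ih _ hlt x1 v (ν x1 * ↑v⁻¹) (g * f') c rfl
        (vpi_cen_mul (hν.cen x1) hvi) hs1 hc (by rw [← mul_assoc, e2, hff]) v.isUnit hvc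
        (Units.inv_mul_cancel_right _ _).symm
      obtain ⟨u', hu', hu''⟩ := isUnit_iff_exists.1 hu
      refine ⟨f1 * g, u1 * u', vpi_cen_mul k1 hg, by rw [star_mul, hgs, k2, hg],
        hu1.mul ⟨⟨u', u, hu'', hu'⟩, rfl⟩, ?_⟩
      rw [← mul_one (ν x), ← map_one ν, ← hu', map_mul, ← mul_assoc, e1, e3, map_mul,
        mul_assoc _ (ν u1), ← hg]
      simp only [mul_assoc]
  exact key _ x z f f' c rfl hf hfs hc hff hz hzc e

end Pool.Agent.SU
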