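import Pool.Agent.P.MP_c1f06d_ag.su.Des
import Pool.Agent.P.MP_c1f06d_ag.su.SepX
import Pool.Agent.P.MP_c1f06d_ag.su.WVal

open Matrix IsLocalRing

universe u

namespace Pool.Agent.SU

open SAlg

variable {T : Type u} [CommRing T] {N d : ℕ}

instance (A : SAlg T N) : StarFix T A.Car := ⟨SAlg.star_algebraMap⟩

theorem Sep.toAvg {A : SAlg T N} (h : Sep A) : Avg T A.Car := by
  obtain ⟨v, h1, h2⟩ := h
  refine ⟨N, A.e, v, h1, fun p a => ?_⟩
  have := sep_bil h2 ((LinearMap.mul T A.Car).compl₂ p) a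
  simpa [Finset.mul_sum, mul_assoc] using this

theorem vw_qm {I : Ideal T} {A : SAlg T N} {a b : A.Car} :
    qm I a = qm I b ↔ A.bc (Ideal.Quotient.mk I) a = A.bc (Ideal.Quotient.mk I) b := by
  rw [Ideal.Quotient.eq, ← sub_eq_zero (a := A.bc _ a), ← map_sub, bc_eq_zero_iff]
  generalize a - b = x
  simp only [Ideal.Quotient.eq_zero_iff_mem]
  refine ⟨fun h i => extI_induction (p := fun x : A.Car => x.co i ∈ I) (zero_mem _)
    (fun t ht a => I.mul_mem_right _ ht) (fun _ _ => add_mem) h, fun h => ?_⟩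
  rw [eq_sum x]
  exact sum_mem fun i _ => smul_mem_extI (h i) _

/-- The reduced norm as a monoid map. -/
noncomputable def vw_nu {A : SAlg T N} (h : Form d A) : A.Car →* A.Car :=
  ⟨⟨nrd d, h.nrd_one⟩, h.nrd_mul⟩

theorem vw_Nu [IsLocalRing T] {A : SAlg T N} (h : Form d A) : NuW T (vw_nu h) where
  cen := h.nrd_cen
  symm a ha := (h.nrd_star a).symm.trans (congrArg _ ha)
  adj := h.exists_adj
  cong a b e := by
    rw [vw_qm] at e ⊢
    change A.bc _ (nrd d a) = A.bc _ (nrd d b)
    rw [← h.nrd_bc, ← h.nrd_bc, e]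
  pow := ⟨d - 1, fun z hz => by rw [Nat.sub_add_cancel h.1]; exact h.nrd_of_cen hz⟩

theorem wd_of_frac {O : Type u} [CommRing O] [IsDomain O] [ValuationRing O]
    [Infinite (ResidueField O)] (K : Type u) [Field K] [Algebra O K] [IsFractionRing O K]
    {A : SAlg O N} (hA : Good d A) {z : A.Car} (hz : IsUnit z)
    (h : Wd d (A.bc (algebraMap O K) z)) : Wd d z := by
  obtain ⟨hF, θ, hθ, hd⟩ := hA
  obtain ⟨y, hy, e⟩ := h
  have hi := IsFractionRing.injective O K
  have hFK := hF.map (algebraMap O K)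
  obtain ⟨c, hc⟩ := IsLocalization.exist_integer_multiples_of_finite (nonZeroDivisors O) y.co
  choose v hv using hc
  have hcu : IsUnit (algebraMap K (A.map (algebraMap O K)).Car (algebraMap O K c)) :=
    (IsLocalization.map_units K c).map _
  have hx : A.bc (algebraMap O K) ⟨v⟩ = algebraMap K _ (algebraMap O K c) * y := by
    rw [← Algebra.smul_def]
    exact Car.ext (funext fun i => (hv i).trans (Algebra.smul_def _ _))
  have hn : A.bc (algebraMap O K) (nrd d ⟨v⟩) =
      algebraMap K _ (algebraMap O K c ^ d) * nrd d y := by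
    rw [← hF.nrd_bc, hx, hFK.nrd_mul, hFK.nrd_of_cen (cen_algebraMap _), map_pow]
  have hnu : IsUnit (A.bc (algebraMap O K) (nrd d ⟨v⟩)) := by
    rw [← hF.nrd_bc, hx]; exact hFK.nrd_isUnit (hcu.mul hy)
  have hnc := hF.nrd_cen (⟨v⟩ : A.Car)
  have e1 : z * star (nrd d ⟨v⟩) = nrd d ⟨v⟩ := bc_injective hi (by
    rw [map_mul, bc_star, hn, star_mul, star_algebraMap, ← mul_assoc, e, Algebra.commutes])
  have hval := fun (f f' w : A.Car) (c : O) h1 h2 h3 h4 h5 h6 =>
    valYW (x := (⟨v⟩ : A.Car)) (z := w) (f := f) (f' := f') (c := c) hF.sep.toAvg (vw_Nu hF) hθ.1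
      hd h1 h2 h3 h4 h5 h6
  change ∀ f f' w c, _ → _ → _ → _ → _ → _ → nrd d _ = _ →
    ∃ f1 u, _ ∧ _ ∧ _ ∧ nrd d _ = _ * nrd d u at hval
  generalize nrd d (⟨v⟩ : A.Car) = n at hnu hnc e1 hval
  have can : ∀ a b : A.Car, a * n = b * n → a = b := fun a b hab =>
    bc_injective hi (hnu.mul_right_cancel (by rw [← map_mul, ← map_mul, hab]))
  have can' : ∀ a b : A.Car, a * star n = b * star n → a = b := fun a b hab =>
    star_injective (can _ _ (by
      rw [← hnc, ← hnc, ← star_star n, ← star_mul, ← star_mul, hab]))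
  have hzc : SAlg.Cen z := fun b => can' _ _ (by
    rw [mul_assoc, ← hnc.star b, ← mul_assoc, e1, mul_assoc, e1, hnc])
  have hzz : z * star z = 1 := can _ _ (by
    have := congrArg star e1
    rw [star_mul, star_star] at this
    rw [mul_assoc, ← hnc, this, e1, one_mul])
  obtain ⟨r, hw⟩ := vgen (T := O) (t := 1) (t' := z) hθ.1 hθ.1.star hd isUnit_one
  have hwc : SAlg.Cen ((algebraMap O A.Car r + θ) * 1 + (algebraMap O A.Car r + star θ) * z) :=
    (((cen_algebraMap r).add hθ.1).mul cen_one).add (((cen_algebraMap r).add hθ.1.star).mul hzc)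
  have hws : z * star ((algebraMap O A.Car r + θ) * 1 + (algebraMap O A.Car r + star θ) * z) =
      (algebraMap O A.Car r + θ) * 1 + (algebraMap O A.Car r + star θ) * z := by
    rw [mul_one, star_add, star_mul, star_add, star_add, star_star, star_algebraMap, mul_add,
      ← mul_assoc, hzz, one_mul, hzc, add_comm]
  generalize (algebraMap O A.Car r + θ) * 1 + (algebraMap O A.Car r + star θ) * z = w at hw hwc hws
  obtain ⟨w', hw'⟩ := hw.exists_right_inv
  have hw'' := mul_eq_one_comm' hw'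
  have hw'c : SAlg.Cen w' := fun b => by
    rw [← mul_one (w' * b), ← hw', ← mul_assoc, mul_assoc w', ← hwc, ← mul_assoc, hw'', one_mul]
  have hfs : star (n * w') = n * w' := by
    have h1 : star w * star w' = 1 := by rw [← star_mul, hw'', star_one]
    have h2 : star w' = w' * z := by
      rw [← one_mul (star w'), ← hw'', ← hws, mul_assoc, mul_assoc, h1, mul_one]
    rw [star_mul, h2, mul_assoc, e1, hnc]
  obtain ⟨n1, hn1⟩ := hnu.exists_right_inv
  obtain ⟨c1, hc1⟩ := IsLocalization.exist_integer_multiples_of_finite (nonZeroDivisors O) n1.co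
  choose v1 hv1 using hc1
  have hx1 : A.bc (algebraMap O K) ⟨v1⟩ = algebraMap O K c1 • n1 :=
    Car.ext (funext fun i => (hv1 i).trans (Algebra.smul_def _ _))
  obtain ⟨f1, u, k1, k2, hu, e2⟩ := hval (n * w') (w * ⟨v1⟩) w c1 (hnc.mul hw'c) hfs
    (nonZeroDivisors.coe_ne_zero c1) (bc_injective hi (by
      rw [mul_assoc, ← mul_assoc w', hw'', one_mul, map_mul, hx1, mul_smul_comm, hn1,
        Algebra.algebraMap_eq_smul_one (A := A.Car), bc_smul, map_one])) hw hwc
    (by rw [mul_assoc, hw'', mul_one])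
  refine ⟨u, hu, can _ _ ?_⟩
  rw [e2, star_mul, k2, ← mul_assoc] at e1
  rw [e2, ← mul_assoc, e1, ← mul_assoc, k1]

end Pool.Agent.SU
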