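import Pool.Agent.P.MP_c1f06d_ag.su.Near
import Pool.Agent.P.MP_c1f06d_ag.su.Spr
import Pool.Agent.P.MP_c1f06d_ag.su.UW
import Pool.Agent.P.MP_c1f06d_ag.su.Gam4
import Pool.Agent.P.MP_c1f06d_ag.su.NP
import Pool.Agent.P.MP_c1f06d_ag.su.TrA
import Pool.Agent.P.MP_c1f06d_ag.su.VA
import Pool.Agent.P.MP_c1f06d_ag.su.VW

open Matrix Polynomial IsLocalRing

universe u

namespace Pool.Agent.SU

open SAlg Pool.Agent.P.MP_c1f06d_ag

section
variable {T S : Type u} [CommRing T] [CommRing S] {N d : ℕ} {A : SAlg T N}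

theorem triv_of_map [Finite (MaximalSpectrum S)] (f : T →+* S) (hA : Good d A) {s z : A.Car}
    (h : Adm d s z) (ht : Triv d (A.bc f s) (A.bc f z)) (HA : ∃ b, s = b * star b)
    (HB : ∀ w : A.Car, SAlg.Cen w → w * star w = 1 → Wd d (A.bc f w) →
      ∃ u, u * star u = 1 ∧ nrd d u = w) : Triv d s z := by
  have hF := hA.form
  obtain ⟨b, hb⟩ := HA
  obtain ⟨b1, e1, e2⟩ := ht
  obtain ⟨c, hc⟩ := (isUnit_of_mul_left (hb ▸ h.2.1)).exists_right_inv
  have hc' := mul_eq_one_comm' hc
  have hcs : star b * star c = 1 := by rw [← star_mul, hc', star_one]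
  have n1 : nrd d b * nrd d c = 1 := by rw [← hF.nrd_mul, hc, hF.nrd_one]
  have n2 : z * star z = nrd d (b * star b) := by rw [← hb, h.2.2.2.eq hF]
  obtain ⟨u, u1, u2⟩ := HB (nrd d c * z) ((hF.nrd_cen c).mul h.2.2.1) (by
    rw [star_mul, mul_assoc, ← mul_assoc z, n2, ← hF.nrd_star, ← hF.nrd_mul, ← hF.nrd_mul,
      mul_assoc, hcs, mul_one, hc', hF.nrd_one]) (by
    have := wd_of_unitary (hA.map f) (u := A.bc f c * b1) (by
      rw [star_mul, mul_assoc, ← mul_assoc b1, ← e1, ← bc_star, ← map_mul, ← map_mul, hb,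
        mul_assoc, hcs, mul_one, hc', map_one])
    rwa [(hF.map f).nrd_mul, e2.eq (hF.map f), hF.nrd_bc, ← map_mul] at this)
  refine ⟨b * u, by rw [star_mul, mul_assoc, ← mul_assoc u, u1, one_mul, hb], ?_⟩
  have := (hF.isNrd b).mul (hF.isNrd u)
  rwa [u2, ← mul_assoc, n1, one_mul] at this

end

theorem triv_of_adjoinRoot {R : Type u} [CommRing R] [IsLocalRing R] {N d : ℕ} {A : SAlg R N}
    (hA : Good d A) {s z : A.Car} (h : Adm d s z) {P : R[X]} (hP : P.Monic) {k : ℕ}
    (hk : P.natDegree = 2 * d * k + 1)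
    (ht : Triv d (A.bc (AdjoinRoot.of P) s) (A.bc (AdjoinRoot.of P) z)) : Triv d s z := by
  have hF := hA.form
  have := (AdjoinRoot.powerBasis' hP).finite
  have := finite_maximalSpectrum R (AdjoinRoot P)
  refine triv_of_map _ hA h ht (herm_of_adjoinRoot hA.nice hP ⟨d * k, by rw [hk]; ring⟩ h.1 h.2.1
    (let ⟨b, hb, _⟩ := ht; ⟨b, hb⟩)) fun w hw hu H => ?_
  obtain ⟨u, u1, u2⟩ := exists_unitary_of_wd hA
    (wd_norm hF (AdjoinRoot.powerBasis' hP).basis hw H)
  have hp : ∀ n : ℕ, w ^ n * star w ^ n = 1 := fun n => by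
    rw [← Commute.mul_pow (hw _), hu, one_pow]
  refine ⟨u * star w ^ (2 * k), ?_, ?_⟩
  · rw [star_mul, star_pow, star_star, mul_assoc, ← mul_assoc (star w ^ _),
      mul_eq_one_comm' (hp _), one_mul, u1]
  · rw [hF.nrd_mul, u2, hF.nrd_of_cen (hw.star.pow _), ← pow_mul, AdjoinRoot.powerBasis'_dim, hk,
      pow_succ', mul_assoc, show 2 * k * d = 2 * d * k by ring, hp, mul_one]

theorem triv_of_frac {O : Type u} [CommRing O] [IsDomain O] [ValuationRing O]
    [Infinite (ResidueField O)] (K : Type u) [Field K] [Algebra O K] [IsFractionRing O K]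
    {N d : ℕ} {A : SAlg O N} (hA : Good d A) {s z : A.Car} (h : Adm d s z)
    (ht : Triv d (A.bc (algebraMap O K) s) (A.bc (algebraMap O K) z)) : Triv d s z :=
  triv_of_map _ hA h ht (herm_of_frac hA.nice h.1 h.2.1 (let ⟨b, hb, _⟩ := ht; ⟨b, hb⟩))
    fun _ _ hu H => exists_unitary_of_wd hA (wd_of_frac K hA (isUnit_of_mul_eq_one hu) H)

theorem infinite_residue_of_hom {R O : Type u} [CommRing R] [IsLocalRing R] [CommRing O]
    [IsLocalRing O] [Infinite (ResidueField R)] (f : R →+* O) : Infinite (ResidueField O) := by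
  choose g hg using residue_surjective (R := R)
  refine Infinite.of_injective (fun a => residue O (f (g a))) fun a b e => ?_
  by_contra hne
  have : IsUnit (g a - g b) := by
    rw [← residue_ne_zero_iff_isUnit, map_sub, hg, hg]; exact sub_ne_zero.2 hne
  have := (residue_ne_zero_iff_isUnit _).2 (this.map f)
  rw [map_sub, map_sub] at this
  exact this (sub_eq_zero.2 e)

theorem triv_inf {B R : Type u} [CommRing B] [CommRing R] [IsDomain R] [IsLocalRing R]
    [Infinite (ResidueField R)] {ρ : B →+* R} {q : Ideal R} [q.IsPrime]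
    [ValuationRing (Localization.AtPrime q)] (hg : GP ρ q) (K : Type u) [Field K] [Algebra R K]
    [IsFractionRing R K] {N d : ℕ} {A : SAlg R N} (hA : Good d A) {s z : A.Car} (h : Adm d s z)
    (ht : Triv d (A.bc (algebraMap R K) s) (A.bc (algebraMap R K) z)) : Triv d s z := by
  obtain ⟨B1, _, j, ρ1, hn, A0, s0, z0, rfl, hs, hz, h0⟩ := exists_model hg.lp A h
  obtain rfl : A0.bc ρ1 s0 = s := Car.ext hs
  obtain rfl : A0.bc ρ1 z0 = z := Car.ext hz
  have hg1 := hg.nb hn
  let O := Localization.AtPrime q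
  have := infinite_residue_of_hom (algebraMap R O)
  let _ : Algebra O K := IsLocalization.localizationAlgebraOfSubmonoidLe O K q.primeCompl _
    q.primeCompl_le_nonZeroDivisors
  have : IsScalarTower R O K := IsLocalization.localization_isScalarTower_of_submonoid_le O K
    q.primeCompl _ q.primeCompl_le_nonZeroDivisors
  have : IsFractionRing O K :=
    IsFractionRing.isFractionRing_of_isDomain_of_isLocalization q.primeCompl O K
  rw [IsScalarTower.algebraMap_eq R O K] at ht
  have hO := triv_of_frac K (hA.map (algebraMap R O)) (h.bc _) ht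
  obtain ⟨B2, _, j2, ρ2, hn2, t2⟩ := triv_spread (hg1.lp_at O) A0 hO
  obtain ⟨P, k, ψ, hP, hk, hW⟩ := hg1.run hn2 (2 * d) (by have := hA.form.1; omega)
    (WT d A0 s0 z0 ρ1) wt_stable (wt_near hA h0)
  exact triv_of_adjoinRoot hA h hP hk (hW _ (RingHom.id _) (t2.bc ψ))

theorem triv_main (V C : Type u) [CommRing V] [IsDomain V] [ValuationRing V] [CommRing C]
    [Algebra V C] [Algebra.Smooth V C] (p : Ideal C) [p.IsPrime] (R : Type u) [CommRing R]
    [IsLocalRing R] [IsDomain R] [Algebra C R] [IsLocalization.AtPrime R p] (K : Type u) [Field K]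
    [Algebra R K] [IsFractionRing R K] {N d : ℕ} {A : SAlg R N} (hA : Good d A) {s z : A.Car}
    (h : Adm d s z) (ht : Triv d (A.bc (algebraMap R K) s) (A.bc (algebraMap R K) z)) :
    Triv d s z := by
  rcases finite_or_infinite (ResidueField R) with hfin | hinf
  · obtain ⟨B, _, ρ, q, _, _, hg⟩ := exists_gp_RX V C p R
    obtain ⟨K1, _, _, _, j, hj⟩ := exists_frac_RX R K
    have := infinite_residueField_RX R
    have t1 := ht.bc j
    rw [bc_bc, bc_bc] at t1
    have t2 : Triv d (A.bc ((algebraMap (RX R) K1).comp ((algebraMap R[X] (RX R)).comp Polynomial.C)) s)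
        (A.bc ((algebraMap (RX R) K1).comp ((algebraMap R[X] (RX R)).comp Polynomial.C)) z) := hj ▸ t1
    have t3 := triv_inf hg K1 (hA.map _) (h.bc _) t2
    obtain ⟨B2, _, j2, ρ2, hn, t4⟩ := triv_spread lp_RX (A.map Polynomial.C)
      (s := A.bc Polynomial.C s) (z := A.bc Polynomial.C z) t3
    obtain ⟨P, k, ψ, hP, hk, -, hψ⟩ := run_RX hn (2 * d) (by have := hA.form.1; omega)
    have t5 : Triv d (A.bc ((ψ.comp j2).comp Polynomial.C) s)
        (A.bc ((ψ.comp j2).comp Polynomial.C) z) := t4.bc ψ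
    exact triv_of_adjoinRoot hA h hP hk (hψ ▸ t5)
  · obtain ⟨B, _, ρ, q, _, _, hg⟩ := exists_gp V C p R
    exact triv_inf hg K hA h ht

end Pool.Agent.SU
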