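import Pool.Agent.P.MP_c1f06d_ag.su.Nrd
import Pool.Agent.P.MP_c1f06d_ag.Avoid

open Matrix Polynomial IsLocalRing

universe u

namespace Pool.Agent.SU

open SAlg Pool.Agent.P.MP_c1f06d_ag

variable {T T' : Type u} [CommRing T] [CommRing T'] {N d : ℕ} {A : SAlg T N}

/-- A family of linear maps in coordinates. -/
def des_fam {κ : Type} (L : κ → A.Car →ₗ[T] A.Car) : (Fin N → T) →ₗ[T] κ × Fin N → T :=
  LinearMap.pi fun p =>
    LinearMap.proj p.2 ∘ₗ A.coL.toLinearMap ∘ₗ L p.1 ∘ₗ A.coL.symm.toLinearMap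

theorem des_solve [Algebra T T'] [Module.FaithfullyFlat T T'] {κ : Type} [Finite κ]
    (L : κ → A.Car →ₗ[T] A.Car)
    (L' : κ → (A.map (algebraMap T T')).Car →ₗ[T'] (A.map (algebraMap T T')).Car)
    (h : ∀ k y, L' k (A.bc _ y) = A.bc _ (L k y)) (v : κ → A.Car)
    (hv : ∃ y, ∀ k, L' k y = A.bc _ (v k)) : ∃ y, ∀ k, L k y = v k := by
  obtain ⟨y1, hy1⟩ := hv
  obtain ⟨y, hy⟩ := ff_solve (des_fam L) (des_fam L')
    (fun y => funext fun p => congrFun (congrArg Car.co (h p.1 ⟨y⟩)) p.2) (fun p => (v p.1).co p.2)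
    ⟨y1.co, funext fun p => congrFun (congrArg Car.co (hy1 p.1)) p.2⟩
  exact ⟨⟨y⟩, fun k => Car.ext (funext fun i => congrFun hy (k, i))⟩

theorem des_ker [Algebra T T'] [Module.Flat T T'] {κ : Type} [Finite κ]
    (L : κ → A.Car →ₗ[T] A.Car)
    (L' : κ → (A.map (algebraMap T T')).Car →ₗ[T'] (A.map (algebraMap T T')).Car)
    (h : ∀ k y, L' k (A.bc _ y) = A.bc _ (L k y)) (y' : (A.map (algebraMap T T')).Car)
    (hy : ∀ k, L' k y' = 0) (P : Submodule T' (A.map (algebraMap T T')).Car)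
    (hP : ∀ y, (∀ k, L k y = 0) → A.bc _ y ∈ P) : y' ∈ P := by
  have := flat_ker (des_fam L) (des_fam L')
    (fun y => funext fun p => congrFun (congrArg Car.co (h p.1 ⟨y⟩)) p.2) y'.co
    (funext fun p => congrFun (congrArg Car.co (hy p.1)) p.2)
  refine (Submodule.span_le (p := P.comap (A.map (algebraMap T T')).coL.symm.toLinearMap)).2 ?_ this
  rintro w ⟨y, hy, rfl⟩
  exact hP ⟨y⟩ fun k => Car.ext (funext fun i => congrFun hy (k, i))

theorem des_split (h : Split d A) : ∃ (n : ℕ) (r : Fin n → Rep d A T),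
    (∀ x y, (∀ j, (fam r j).φ x = (fam r j).φ y) → x = y) ∧
    ∀ M : Fin n ⊕ Fin n → Matrix (Fin d) (Fin d) T, ∃ x, ∀ j, (fam r j).φ x = M j := by
  obtain ⟨n, r, -, hb⟩ := h
  obtain ⟨hi, hs⟩ := (fam_bij r).2 hb
  refine ⟨n, r, fun x y h1 => hi (funext h1), fun M => ?_⟩
  obtain ⟨x, hx⟩ := hs M
  exact ⟨x, congrFun hx⟩

/-- The commutators with the basis, and the map `y + star y`. -/
def des_eq (A : SAlg T N) : Option (Fin N) → A.Car →ₗ[T] A.Car
  | none => LinearMap.id + A.stL
  | some i => LinearMap.mulRight T (A.e i) - LinearMap.mulLeft T (A.e i)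

theorem des_eq_none (y : A.Car) : des_eq A none y = y + star y := rfl
theorem des_eq_some (i : Fin N) (y : A.Car) : des_eq A (some i) y = y * A.e i - A.e i * y := rfl

theorem des_eq_bc (f : T →+* T') (k : Option (Fin N)) (y : A.Car) :
    des_eq (A.map f) k (A.bc f y) = A.bc f (des_eq A k y) := by
  cases k with
  | none => rw [des_eq_none, des_eq_none, map_add, bc_star]
  | some i => rw [des_eq_some, des_eq_some, map_sub, map_mul, map_mul, bc_e]

theorem des_th (h : Form d A) : ∃ θ : A.Car, Th θ := by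
  obtain ⟨-, T1, _, _, _, hsp⟩ := id h
  obtain ⟨n, r, hi, hs⟩ := des_split hsp
  obtain ⟨y1, h1⟩ := hs (Sum.elim 1 0)
  obtain ⟨y, hy⟩ := des_solve (des_eq A) (des_eq (A.map (algebraMap T T1))) (des_eq_bc _)
    (fun k => k.elim 1 fun _ => 0) ⟨y1, fun k => by
      cases k with
      | none =>
        rw [des_eq_none]
        exact hi _ _ fun j => by cases j <;> simp [fam_star, h1]
      | some i =>
        rw [des_eq_some]
        exact hi _ _ fun j => by cases j <;> simp [h1]⟩
  exact ⟨y, cen_of_e fun i => sub_eq_zero.1 (hy (some i)), hy none⟩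

theorem des_comb {C : Type u} [CommRing C] [IsLocalRing T] [Algebra T C] [Module.Finite T C]
    {ι : Type} [Fintype ι] (s : ι × ι → C)
    (hs : ∀ i j, s (i, j) * s (i, j) = s (i, i) * s (j, j)) (a : ι × ι → T)
    (ha : ∑ p, a p • s p = 1) : ∃ w : ι → C, IsUnit (∑ p : ι × ι, w p.1 * w p.2 * s p) := by
  classical
  have := finite_maximalSpectrum T C
  have h1 : ∀ n : MaximalSpectrum C, ∃ i, s (i, i) ∉ n.asIdeal := fun n => by
    by_contra hn
    push Not at hn
    refine n.isMaximal.ne_top ((Ideal.eq_top_iff_one _).2 (ha ▸ Ideal.sum_mem _ fun p _ => ?_))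
    have h2 : s p * s p ∈ n.asIdeal := hs p.1 p.2 ▸ Ideal.mul_mem_right _ _ (hn _)
    rw [Algebra.smul_def]
    exact Ideal.mul_mem_left _ _ ((n.isMaximal.isPrime.mem_or_mem h2).elim id id)
  choose i0 hi0 using h1
  have h2 : ∀ i, ∃ w : C, ∀ n : MaximalSpectrum C,
      w - (if i = i0 n then 1 else 0) ∈ n.asIdeal := fun i =>
    Ideal.exists_forall_sub_mem_ideal (I := fun n : MaximalSpectrum C => n.asIdeal)
      (fun a b hab => MaximalSpectrum.isCoprime_of_ne hab) _
  choose w hw using h2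
  refine ⟨w, by_contra fun hu => ?_⟩
  obtain ⟨n, hn, hm⟩ := exists_max_ideal_of_mem_nonunits hu
  refine hi0 ⟨n, hn⟩ ?_
  rw [← Ideal.Quotient.eq_zero_iff_mem] at hm ⊢
  have h3 : ∀ i, Ideal.Quotient.mk n (w i) = if i = i0 ⟨n, hn⟩ then 1 else 0 := fun i => by
    rw [Ideal.Quotient.eq.2 (hw i ⟨n, hn⟩), apply_ite (Ideal.Quotient.mk n), map_one, map_zero]
  simpa [h3, Fintype.sum_prod_type] using hm

theorem des_skew [IsLocalRing T] (h : Form d A) :
    ∃ δ : A.Car, Cen δ ∧ star δ = -δ ∧ IsUnit δ := by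
  obtain ⟨hd, T1, _, _, _, hsp⟩ := id h
  obtain ⟨n, r, hi, hs⟩ := des_split hsp
  obtain ⟨y1, h1⟩ := hs (Sum.elim 1 (-1))
  have hy : y1 ∈ Submodule.span T1
      (A.bc (algebraMap T T1) '' {δ | Cen δ ∧ star δ = -δ}) := by
    refine des_ker (des_eq A) (des_eq (A.map (algebraMap T T1))) (des_eq_bc _) y1 (fun k => ?_) _
      fun δ hδ => Submodule.subset_span ⟨δ, ⟨cen_of_e fun i => sub_eq_zero.1 (hδ (some i)),
        eq_neg_of_add_eq_zero_right (hδ none)⟩, rfl⟩
    cases k with
    | none =>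
      rw [des_eq_none]
      exact hi _ _ fun j => by cases j <;> simp [fam_star, h1]
    | some i =>
      rw [des_eq_some]
      exact hi _ _ fun j => by cases j <;> simp [h1]
  obtain ⟨M, t, g, hg⟩ := Submodule.mem_span_set'.1 hy
  choose δ hδ e using fun i => (g i).2
  have hyy : y1 * y1 = 1 := hi _ _ fun j => by cases j <;> simp [h1]
  obtain ⟨a, ha⟩ := ff_solve (T' := T1) (ι := Fin M × Fin M)
    (A.coL.toLinearMap ∘ₗ Fintype.linearCombination T fun p => δ p.1 * δ p.2)
    ((A.map (algebraMap T T1)).coL.toLinearMap ∘ₗ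
      Fintype.linearCombination T1 fun p => A.bc _ (δ p.1 * δ p.2))
    (fun y => by
      have : Fintype.linearCombination T1 (fun p : Fin M × Fin M => A.bc _ (δ p.1 * δ p.2))
          (algebraMap T T1 ∘ y) = A.bc (algebraMap T T1)
            (Fintype.linearCombination T (fun p : Fin M × Fin M => δ p.1 * δ p.2) y) := by
        simp only [Fintype.linearCombination_apply, map_sum, bc_smul]
        rfl
      exact congrArg Car.co this) A.one ⟨fun p => t p.1 * t p.2, by
      have : Fintype.linearCombination T1 (fun p : Fin M × Fin M =>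
          A.bc (algebraMap T T1) (δ p.1 * δ p.2)) (fun p => t p.1 * t p.2) = 1 := by
        rw [← hyy, ← hg, Finset.sum_mul_sum, Fintype.linearCombination_apply,
          Fintype.sum_prod_type]
        simp only [map_mul, e, smul_mul_smul_comm]
      exact congrArg Car.co this⟩
  have ha' : ∑ p : Fin M × Fin M, a p • (δ p.1 * δ p.2) = 1 := Car.ext ha
  let Z := Subalgebra.center T A.Car
  let s : Fin M × Fin M → Z := fun p =>
    ⟨δ p.1 * δ p.2, Subalgebra.mem_center_iff.2 fun b => (((hδ _).1.mul (hδ _).1) b).symm⟩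
  let C := Algebra.adjoin T (Set.range s)
  have : Module.Finite T C := Algebra.finite_adjoin_of_finite_of_isIntegral (Set.finite_range s)
    fun x _ => (isIntegral_algHom_iff Z.val Subtype.val_injective).1 (IsIntegral.of_finite T _)
  have hsym : ∀ x ∈ C, star (x : A.Car) = x := fun x hx => by
    induction hx using Algebra.adjoin_induction with
    | mem x hx =>
      obtain ⟨p, rfl⟩ := hx
      change star (δ p.1 * δ p.2) = δ p.1 * δ p.2
      rw [star_mul, (hδ _).2, (hδ _).2, neg_mul_neg, (hδ _).1]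
    | algebraMap t => exact star_algebraMap t
    | add x y _ _ hx hy => rw [Subalgebra.coe_add, star_add, hx, hy]
    | mul x y _ _ hx hy => rw [mul_comm, Subalgebra.coe_mul, star_mul, hx, hy, ← Subalgebra.coe_mul,
        mul_comm, Subalgebra.coe_mul]
  obtain ⟨w, hw⟩ := des_comb (T := T) (C := C) (fun p => ⟨s p, Algebra.subset_adjoin ⟨p, rfl⟩⟩)
    (fun i j => Subtype.ext (Subtype.ext (by
      change δ i * δ j * (δ i * δ j) = δ i * δ i * (δ j * δ j)
      rw [mul_assoc, mul_assoc, ← mul_assoc (δ j), (hδ j).1 (δ i), mul_assoc]))) a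
    (Subtype.ext (Subtype.ext (by simpa using ha')))
  have hwc : ∀ i, Cen ((w i : Z) : A.Car) := fun i b =>
    (Subalgebra.mem_center_iff.1 (w i : Z).2 b).symm
  refine ⟨∑ i, ((w i : Z) : A.Car) * δ i, fun b => ?_, ?_,
    isUnit_of_mul_left (y := ∑ i, ((w i : Z) : A.Car) * δ i) ?_⟩
  · rw [Finset.sum_mul, Finset.mul_sum]
    exact Finset.sum_congr rfl fun i _ => (hwc i).mul (hδ i).1 b
  · rw [star_sum, ← Finset.sum_neg_distrib]
    exact Finset.sum_congr rfl fun i _ => by
      rw [star_mul, hsym _ (w i).2, (hδ i).2, neg_mul, hwc]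
  · have h2 := hw.map (Z.val.comp C.val)
    rw [map_sum, Fintype.sum_prod_type] at h2
    rw [Finset.sum_mul_sum]
    have h3 : ∀ i j, ((w i : Z) : A.Car) * δ i * ((w j : Z) * δ j) =
        (w i : Z) * (w j : Z) * (δ i * δ j) := fun i j => by
      rw [mul_assoc, mul_assoc, ← mul_assoc _ (δ i) (δ j), hwc j (δ i), mul_assoc]
    simp only [h3]
    exact h2

theorem Form.good [IsLocalRing T] (h : Form d A) : Good d A := by
  refine ⟨h, ?_⟩
  by_cases h2 : IsUnit (2 : T)
  · obtain ⟨δ, hc, hs, hu⟩ := des_skew h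
    obtain ⟨b, hb⟩ := h2.exists_left_inv
    have h3 : ∀ x : A.Car, b • (x + x) = x := fun x => by
      rw [← two_smul T x, smul_smul, hb, one_smul]
    have h4 : star (b • (1 + δ)) = b • (1 - δ) := by
      rw [star_smul', star_add, star_one, hs, sub_eq_add_neg]
    refine ⟨b • (1 + δ), ⟨fun y => ?_, ?_⟩, ?_⟩
    · rw [smul_mul_assoc, mul_smul_comm, cen_one.add hc y]
    · rw [h4, ← smul_add, show 1 + δ + (1 - δ) = 1 + 1 by abel, h3]
    · rw [h4, ← smul_sub, show 1 + δ - (1 - δ) = δ + δ by abel, h3]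
      exact hu
  · obtain ⟨θ, hθ⟩ := des_th h
    refine ⟨θ, hθ, isUnit_of_bc (residue T) ?_⟩
    have h3 : (2 : ResidueField T) = 0 := by
      rw [← map_ofNat (residue T) 2, residue_eq_zero_iff]
      exact h2
    have h4 : ∀ x : (A.map (residue T)).Car, x + x = 0 := fun x => by
      rw [← two_smul (ResidueField T) x, h3, zero_smul]
    rw [map_sub, sub_eq_add_neg, neg_eq_of_add_eq_zero_right (h4 _), ← map_add, hθ.2, map_one]
    exact isUnit_one

theorem Form.exists_adj (h : Form d A) (x : A.Car) : ∃ y, x * y = nrd d x ∧ y * x = nrd d x := by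
  obtain ⟨-, T1, _, _, _, hsp⟩ := id h
  obtain ⟨n, r, hi, hs⟩ := des_split hsp
  obtain ⟨y1, h1⟩ := hs fun j => adjugate ((fam r j).φ (A.bc _ x))
  have h3 := fun j => (h.isNrd x).bc (algebraMap T T1) _ (fam r j)
  obtain ⟨y, hy⟩ := des_solve (T' := T1)
    (fun k : Bool => if k then LinearMap.mulLeft T x else LinearMap.mulRight T x)
    (fun k : Bool => if k then LinearMap.mulLeft T1 (A.bc _ x) else LinearMap.mulRight T1 (A.bc _ x))
    (fun k y => by cases k <;> simp) (fun _ => nrd d x) ⟨y1, fun k => by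
      cases k <;> refine hi _ _ fun j => ?_ <;> simp [h1, h3, mul_adjugate, adjugate_mul]⟩
  exact ⟨y, by simpa using hy true, by simpa using hy false⟩

theorem des_inv_eq (h : Form d A) {c : Inv.{u} d} {b z z' : A.Car} (H : IsInv c b z)
    (H' : IsInv c b z') : z = z' :=
  h.ext fun _ _ r => (H _ r).trans (H' _ r).symm

theorem des_trd (h : Form d A) : ∃ L : A.Car →ₗ[T] A.Car, ∀ x, IsInv (trInv d) x (L x) := by
  choose g hg using h.exists_inv (trInv d)
  refine ⟨⟨⟨g, fun x y => des_inv_eq h (hg _) fun T' _ r => ?_⟩,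
    fun t x => des_inv_eq h (hg _) fun T' _ r => ?_⟩, hg⟩
  · rw [map_add, hg x T' r, hg y T' r, map_add, ← add_smul]
    exact congrArg (· • (1 : Matrix (Fin d) (Fin d) T')) (trace_add (r.φ x) (r.φ y)).symm
  · rw [RingHom.id_apply, r.smul, hg x T' r, r.smul, smul_smul]
    exact congrArg (· • (1 : Matrix (Fin d) (Fin d) T')) (trace_smul (r.f t) (r.φ x)).symm

theorem Form.exists_trace_one (h : Form d A) :
    ∃ c : A.Car, ∀ (T' : Type u) [CommRing T'] (r : Rep d A T'), (r.φ c).trace = 1 := by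
  obtain ⟨hd, T1, _, _, _, hsp⟩ := id h
  obtain ⟨n, r, hi, hs⟩ := des_split hsp
  let o : Fin d := ⟨0, hd⟩
  obtain ⟨y1, h1⟩ := hs fun _ => single o o 1
  obtain ⟨L, hL⟩ := des_trd h
  obtain ⟨L', hL'⟩ := des_trd (h.map (algebraMap T T1))
  obtain ⟨c, hc⟩ := des_solve (fun _ : Unit => L) (fun _ => L')
    (fun _ y => des_inv_eq (h.map _) (hL' _) fun _ _ r => hL y _ (r.comap _)) (fun _ => 1)
    ⟨y1, fun _ => by
      refine hi _ _ fun j => ?_
      rw [hL' y1 _ (fam r j), h1, map_one, map_one]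
      change trace (single o o (1 : T1)) • _ = _
      rw [trace_single_eq_same, one_smul]⟩
  refine ⟨c, fun T' _ r' => ?_⟩
  have h3 := hL c _ r'
  rw [hc (), map_one] at h3
  have h4 := congrFun (congrFun h3 o) o
  simp only [Matrix.smul_apply, one_apply_eq, smul_eq_mul, mul_one] at h4
  exact h4.symm

end Pool.Agent.SU
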