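import Pool.Agent.P.MP_c1f06d_ag.su.EqA1
import Pool.Agent.P.MP_c1f06d_ag.su.SIso
import Pool.Agent.P.MP_c1f06d_ag.su.SM

open Matrix Polynomial IsLocalRing

universe u

namespace Pool.Agent.SU

open SAlg Pool.Agent.P.MP_c1f06d_ag

variable {T R : Type u} [CommRing T] [CommRing R] [IsLocalRing R] {N d : ℕ} {A1 A2 : SAlg T N}

section aux

variable {S S' : Type u} [CommRing S] [CommRing S'] {B1 B2 : SAlg S N}

/-- The matrix part of the unknowns. -/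
def eqa2_mat (x : Option (Fin N × Fin N) → S) : Matrix (Fin N) (Fin N) S :=
  of fun a b => x (some (a, b))

/-- The equations for an isomorphism. -/
def eqa2_F (B1 B2 : SAlg S N) (x : Option (Fin N × Fin N) → S) :
    Option (Fin N) ⊕ Option (Fin N) × Fin N × Fin N → S
  | .inl none => x none * (eqa2_mat x).det - 1
  | .inl (some a) => (eqa2_mat x *ᵥ B1.one) a - B2.one a
  | .inr (none, a, b) => (eqa2_mat x * B1.st) a b - (B2.st * eqa2_mat x) a b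
  | .inr (some i, a, b) =>
      (eqa2_mat x * B1.L i) a b - ((∑ c, eqa2_mat x c i • B2.L c) * eqa2_mat x) a b

theorem eqa2_iff {x : Option (Fin N × Fin N) → S} : eqa2_F B1 B2 x = 0 ↔
    x none * (eqa2_mat x).det = 1 ∧ eqa2_mat x *ᵥ B1.one = B2.one ∧
      (∀ i, eqa2_mat x * B1.L i = (∑ c, eqa2_mat x c i • B2.L c) * eqa2_mat x) ∧
      eqa2_mat x * B1.st = B2.st * eqa2_mat x := by
  refine ⟨fun h => ⟨sub_eq_zero.1 (congrFun h (.inl none)),
    funext fun a => sub_eq_zero.1 (congrFun h (.inl (some a))),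
    fun i => Matrix.ext fun a b => sub_eq_zero.1 (congrFun h (.inr (some i, a, b))),
    Matrix.ext fun a b => sub_eq_zero.1 (congrFun h (.inr (none, a, b)))⟩, fun h => ?_⟩
  obtain ⟨h1, h2, h3, h4⟩ := h
  funext k
  rcases k with (_ | a) | ⟨_ | i, a, b⟩
  · exact sub_eq_zero.2 h1
  · exact sub_eq_zero.2 (congrFun h2 a)
  · exact sub_eq_zero.2 (congrFun (congrFun h4 a) b)
  · exact sub_eq_zero.2 (congrFun (congrFun (h3 i) a) b)

theorem eqa2_nat (g : S →+* S') (x : Option (Fin N × Fin N) → S) :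
    eqa2_F (B1.map g) (B2.map g) (g ∘ x) = g ∘ eqa2_F B1 B2 x := by
  funext k
  rcases k with (_ | a) | ⟨_ | i, a, b⟩
  · change _ = g (_ - _)
    rw [map_sub, map_mul, map_one, RingHom.map_det]
    rfl
  · change _ = g (_ - _)
    rw [map_sub, RingHom.map_mulVec]
    rfl
  · change _ = g (_ - _)
    rw [map_sub, ← Matrix.map_apply (f := g), ← Matrix.map_apply (f := g), Matrix.map_mul,
      Matrix.map_mul]
    rfl
  · change _ = g (_ - _)
    rw [map_sub, ← Matrix.map_apply (f := g), ← Matrix.map_apply (f := g), Matrix.map_mul,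
      Matrix.map_mul, sum_smul_map]
    rfl

theorem eqa2_siso {x : Option (Fin N × Fin N) → S} (h : eqa2_F B1 B2 x = 0) :
    ∃ Φ : SIso B1 B2, ∀ y, (Φ.e y).co = eqa2_mat x *ᵥ y.co :=
  let ⟨h1, h2, h3, h4⟩ := eqa2_iff.1 h
  exists_siso _ (IsUnit.of_mul_eq_one_right _ h1) h2 h3 h4

theorem eqa2_cong (g : S →+* S') {Q : Matrix (Fin N) (Fin N) S} {P : Matrix (Fin N) (Fin N) S'}
    (h : ∀ v : Fin N → S, g ∘ (Q *ᵥ v) = P *ᵥ (g ∘ v)) : Q.map g = P := by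
  ext a j
  have h1 : g ∘ (Pi.single j 1 : Fin N → S) = Pi.single j 1 := by
    funext k
    simp only [Function.comp_apply, Pi.single_apply]
    split_ifs <;> simp
  have := congrFun (h (Pi.single j 1)) a
  rwa [h1, mulVec_single_one, mulVec_single_one] at this

theorem eqa2_bij (g : S →+* S') [IsLocalHom g] {P : Matrix (Fin N) (Fin N) S'} (hP : IsUnit P.det)
    (φ : B1.Car →ₗ[S] B2.Car) (h : ∀ y, g ∘ (φ y).co = P *ᵥ (g ∘ y.co)) : Function.Bijective φ := by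
  obtain ⟨Q, hQ⟩ : ∃ Q : Matrix (Fin N) (Fin N) S, ∀ v, Q *ᵥ v = (φ ⟨v⟩).co :=
    ⟨LinearMap.toMatrix' (B2.coL.toLinearMap ∘ₗ φ ∘ₗ B1.coL.symm.toLinearMap),
      fun v => LinearMap.toMatrix'_mulVec _ v⟩
  have h1 : Q.map g = P := eqa2_cong g fun v => by rw [hQ, h]
  rw [← h1, ← RingHom.mapMatrix_apply, ← RingHom.map_det] at hP
  have h2 := IsUnit.of_map g _ hP
  refine ⟨fun y z hyz => Car.ext ?_, fun z => ⟨⟨Q⁻¹ *ᵥ z.co⟩, Car.ext ?_⟩⟩
  · have h3 : Q *ᵥ y.co = Q *ᵥ z.co := by rw [hQ, hQ]; exact congrArg Car.co hyz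
    have h4 := congrArg (Q⁻¹ *ᵥ ·) h3
    simpa only [mulVec_mulVec, nonsing_inv_mul _ h2, one_mulVec] using h4
  · rw [← hQ, mulVec_mulVec, mul_nonsing_inv _ h2, one_mulVec]

theorem eqa2_lift (hB : Nice B1) (I : Ideal S) (hI : I ^ 2 = ⊥) (x : Option (Fin N × Fin N) → S)
    (h : ∀ a, eqa2_F B1 B2 x a ∈ I) : ∃ y : Option (Fin N × Fin N) → S,
      (∀ i, y i - x i ∈ I) ∧ eqa2_F B1 B2 y = 0 := by
  have sq0 : ∀ n ∈ I, n * n = 0 := fun n hn => by
    have : n * n ∈ I ^ 2 := by rw [sq]; exact Ideal.mul_mem_mul hn hn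
    rwa [hI, Ideal.mem_bot] at this
  have : IsLocalHom (Ideal.Quotient.mk I) :=
    ⟨fun a ha => (IsNilpotent.isUnit_quotient_mk_iff ⟨2, hI⟩).1 ha⟩
  have h0 : eqa2_F (B1.map (Ideal.Quotient.mk I)) (B2.map (Ideal.Quotient.mk I))
      (Ideal.Quotient.mk I ∘ x) = 0 := by
    rw [eqa2_nat]
    exact funext fun a => Ideal.Quotient.eq_zero_iff_mem.2 (h a)
  obtain ⟨Φ, hΦ⟩ := eqa2_siso h0
  have hd := (eqa2_iff.1 h0).1
  have hu := IsUnit.of_mul_eq_one_right _ hd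
  obtain ⟨f0, hf0⟩ : ∃ f0 : B1.Car →ₗ[S] B2.Car,
      ∀ y, B2.bc (Ideal.Quotient.mk I) (f0 y) = Φ.e (B1.bc (Ideal.Quotient.mk I) y) :=
    ⟨B2.coL.symm.toLinearMap ∘ₗ Matrix.toLin' (eqa2_mat x) ∘ₗ B1.coL.toLinearMap, fun y =>
      Car.ext (by rw [hΦ]; exact funext fun k => RingHom.map_mulVec _ (eqa2_mat x) y.co k)⟩
  obtain ⟨φ, hφ⟩ := lift_alg hI hB.sep f0
    (by rw [Sm, map_sub, hf0, map_one, map_one, map_one, sub_self])
    (fun a b => by rw [Sm, map_sub, hf0, map_mul, map_mul, map_mul, hf0, hf0, sub_self])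
  have hφ' : ∀ y, B2.bc (Ideal.Quotient.mk I) (φ y) = Φ.e (B1.bc (Ideal.Quotient.mk I) y) :=
    fun y => by
      have := hφ y
      rwa [Sm, map_sub, sub_eq_zero, hf0] at this
  obtain ⟨θ, hθ⟩ := hB.th
  obtain ⟨ψ, hψ1, hψ⟩ := lift_star hI hB.sep hθ φ
    (eqa2_bij (Ideal.Quotient.mk I) hu φ.toLinearMap fun y =>
      (congrArg Car.co (hφ' y)).trans (hΦ _)).2
    (fun a => by rw [Sm, map_sub, bc_star, hφ', hφ', bc_star, Φ.st, sub_self])
  have hψ' : ∀ y, Ideal.Quotient.mk I ∘ (ψ y).co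
      = eqa2_mat (Ideal.Quotient.mk I ∘ x) *ᵥ (Ideal.Quotient.mk I ∘ y.co) := fun y => by
    have := hψ y
    rw [Sm, map_sub, sub_eq_zero, hφ'] at this
    exact (congrArg Car.co this).trans (hΦ _)
  obtain ⟨P, -, p1, p2, p3, p4⟩ := SIso.exists_matrix
    ⟨AlgEquiv.ofBijective ψ (eqa2_bij (Ideal.Quotient.mk I) hu ψ.toLinearMap hψ'), hψ1⟩
  have hP : P.map (Ideal.Quotient.mk I) = eqa2_mat (Ideal.Quotient.mk I ∘ x) :=
    eqa2_cong _ fun v => by rw [← p4 ⟨v⟩]; exact hψ' ⟨v⟩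
  have hn : x none * P.det - 1 ∈ I := by
    rw [← Ideal.Quotient.eq_zero_iff_mem, map_sub, map_mul, map_one, RingHom.map_det,
      RingHom.mapMatrix_apply, hP]
    exact sub_eq_zero.2 hd
  refine ⟨fun o => o.elim (x none * (1 - (x none * P.det - 1))) fun q => P q.1 q.2, ?_,
    eqa2_iff.2 ⟨?_, p1, p2, p3⟩⟩
  · rintro (_ | ⟨a, b⟩)
    · have := I.mul_mem_left (-x none) hn
      refine (congrArg (· ∈ I) ?_).mp this
      change _ = x none * (1 - (x none * P.det - 1)) - x none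
      ring
    · exact Ideal.Quotient.eq.1 (congrFun (congrFun hP a) b)
  · change x none * (1 - (x none * P.det - 1)) * P.det = 1
    linear_combination -sq0 _ hn

end aux

theorem exists_etale_siso (σ : T →+* R) (hσ : Function.Surjective σ) (h : A1.map σ = A2.map σ)
    (hA : Nice A1) :
    ∃ (T' : Type u) (_ : CommRing T') (f : T →+* T') (σ' : T' →+* R), f.Etale ∧ σ'.comp f = σ ∧
      ∃ Φ : SIso (A1.map f) (A2.map f), ∀ x, σ' ∘ (Φ.e x).co = σ' ∘ x.co := by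
  obtain ⟨T', _, f, σ', x, hf, hc, hx, h0⟩ := exists_etale_sol σ hσ
    (fun S _ f x => eqa2_F (A1.map f) (A2.map f) x)
    (fun S S' _ _ f g x => eqa2_nat (B1 := A1.map f) (B2 := A2.map f) g x)
    (fun S _ f I hI x hx => eqa2_lift (hA.map f) I hI x hx)
    (fun o => o.elim 1 fun q => (1 : Matrix (Fin N) (Fin N) R) q.1 q.2) (by
      rw [h, eqa2_iff]
      change (1 : R) * (1 : Matrix (Fin N) (Fin N) R).det = 1 ∧ (1 : Matrix _ _ R) *ᵥ _ = _ ∧
        (∀ i, (1 : Matrix _ _ R) * _ = (∑ c, (1 : Matrix _ _ R) c i • _) * (1 : Matrix _ _ R)) ∧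
        (1 : Matrix _ _ R) * _ = _ * (1 : Matrix _ _ R)
      simp [Matrix.one_apply])
  obtain ⟨Φ, hΦ⟩ := eqa2_siso h0
  refine ⟨T', inferInstance, f, σ', hf, hc, Φ, fun y => funext fun k => ?_⟩
  have h1 : (eqa2_mat x).map σ' = 1 := Matrix.ext fun a b => congrFun hx (some (a, b))
  rw [hΦ, Function.comp_apply, RingHom.map_mulVec, h1, one_mulVec]

theorem eq_alg (σ : T →+* R) (hσ : Function.Surjective σ) (h : A1.map σ = A2.map σ)
    (hA : Nice A1) {s2 z2 : A2.Car} (h2 : Adm d s2 z2) :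
    ∃ (T' : Type u) (_ : CommRing T') (f : T →+* T') (σ' : T' →+* R), f.Etale ∧ σ'.comp f = σ ∧
      ∃ s z : (A1.map f).Car, Adm d s z ∧ σ' ∘ s.co = σ ∘ s2.co ∧ σ' ∘ z.co = σ ∘ z2.co ∧
        ∀ (S : Type u) [CommRing S] (χ : T' →+* S),
          Triv d (A2.bc (χ.comp f) s2) (A2.bc (χ.comp f) z2) →
            Triv d ((A1.map f).bc χ s) ((A1.map f).bc χ z) := by
  obtain ⟨T', _, f, σ', hf, hc, Φ, hΦ⟩ := exists_etale_siso σ hσ h hA
  have key : ∀ y : A2.Car, σ' ∘ (Φ.symm.e (A2.bc f y)).co = σ ∘ y.co := fun y => by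
    rw [← hΦ, ← hc]
    exact congrArg (fun w : (A2.map f).Car => σ' ∘ w.co) (Φ.e.apply_symm_apply _)
  refine ⟨T', inferInstance, f, σ', hf, hc, Φ.symm.e (A2.bc f s2), Φ.symm.e (A2.bc f z2),
    (h2.bc f).siso _, key _, key _, fun S _ χ ht => ?_⟩
  obtain ⟨Ψ, hΨ⟩ := Φ.symm.exists_map χ
  rw [← hΨ, ← hΨ]
  exact Triv.siso ht Ψ

end Pool.Agent.SU
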