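import Pool.Agent.P.MP_c1f06d_ag.su.EqA1
import Pool.Agent.P.MP_c1f06d_ag.su.Des
import Pool.Agent.P.MP_c1f06d_ag.su.SM

open Matrix Polynomial IsLocalRing

universe u

namespace Pool.Agent.SU

open SAlg Pool.Agent.P.MP_c1f06d_ag

variable {T R : Type u} [CommRing T] [CommRing R] [IsLocalRing R] {N d : ℕ} {A : SAlg T N}

theorem Adm.isUnit (hA : Form d A) {s z : A.Car} (h : Adm d s z) : IsUnit z := by
  have := hA.nrd_isUnit h.2.1
  rw [h.2.2.2.eq hA] at this
  exact isUnit_of_mul_left this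

theorem eqb_mul_l {I : Ideal T} {x : A.Car} (h : Sm I x) (y : A.Car) : Sm I (y * x) := by
  unfold Sm at h ⊢
  rw [map_mul, h, mul_zero]

theorem eqb_mul_r {I : Ideal T} {x : A.Car} (h : Sm I x) (y : A.Car) : Sm I (x * y) := by
  unfold Sm at h ⊢
  rw [map_mul, h, zero_mul]

theorem eqb_star {I : Ideal T} {x : A.Car} (h : Sm I x) : Sm I (star x) := by
  unfold Sm at h ⊢
  rw [bc_star, h, star_zero]

theorem eqb_step {I : Ideal T} (hI : I ^ 2 = ⊥) {p : A.Car} (hp : Sm I p) (b s : A.Car) :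
    (1 - p) * b * s * star ((1 - p) * b) =
      b * s * star b - p * (b * s * star b) - b * s * star b * star p := by
  have h0 : p * (b * s * star b) * star p = 0 :=
    mul_eq_zero_of_sq hI (eqb_mul_r hp _) (eqb_star hp)
  rw [star_mul, star_sub, star_one]
  calc _ = b * s * star b - p * (b * s * star b) - b * s * star b * star p +
        p * (b * s * star b) * star p := by noncomm_ring
    _ = _ := by rw [h0, add_zero]

theorem eqb_nrd (hA : Form d A) {n c : A.Car} (hn : Cen n) (h0 : n * n = 0)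
    (hc : ∀ (T' : Type u) [CommRing T'] (r : Rep d A T'), (r.φ c).trace = 1) :
    nrd d (1 - n * c) = 1 - n := by
  refine IsNrd.eq hA fun T' _ r => ?_
  obtain ⟨ν, hν⟩ := hA.scalar hn r
  have h2 : -ν * -ν = 0 := by
    have := congrFun (congrFun (congrArg r.φ h0) ⟨0, hA.1⟩) ⟨0, hA.1⟩
    rw [map_mul, hν, map_zero] at this
    simpa using this
  rw [map_sub, map_sub, map_mul, map_one, hν, smul_mul_assoc, one_mul, sub_eq_add_neg 1 (ν • r.φ c),
    ← neg_smul, det_one_add_sq_zero h2, hc, mul_one, add_smul, one_smul, neg_smul, sub_eq_add_neg]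

theorem eqb_trace (hA : Form d A) {θ s w : A.Car} (hθ : Th θ) (hs : star s = s) (hw : w * s = 1) :
    ∃ c : A.Car, s * star c = c * s ∧
      ∀ (T' : Type u) [CommRing T'] (r : Rep d A T'), (r.φ c).trace = 1 := by
  obtain ⟨c, hc⟩ := hA.exists_trace_one
  have hw' : s * star w = 1 := by rw [← hs, ← star_mul, hw, star_one]
  refine ⟨θ * c + star θ * (s * star c * w), ?_, fun T' _ r => ?_⟩
  · simp only [star_add, star_mul, star_star, hs, mul_add, add_mul]
    rw [← mul_assoc s (star c), ← hθ.1.star, ← hθ.1, ← mul_assoc s, ← hθ.1, mul_assoc θ,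
      ← mul_assoc s, hw', one_mul, mul_assoc (star θ), mul_assoc _ w, hw, mul_one, mul_assoc θ,
      add_comm]
  · obtain ⟨t, ht⟩ := hA.scalar hθ.1 r
    have h1 : r.φ (star θ) = (1 - t) • 1 := by
      rw [eq_sub_of_add_eq' hθ.2, map_sub, map_one, ht, sub_smul, one_smul]
    have h2 : (r.φ (s * star c * w)).trace = 1 := by
      rw [map_mul, trace_mul_comm, ← map_mul, ← mul_assoc, hw, one_mul, ← trace_transpose]
      exact hc _ r.conj
    rw [map_add, map_mul, map_mul r.φ (star θ), ht, h1, smul_mul_assoc, smul_mul_assoc, one_mul,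
      one_mul, trace_add, trace_smul, trace_smul, hc, h2]
    simp

theorem lift_pair {I : Ideal T} (hI : I ^ 2 = ⊥) (hA : Good d A) {s1 z1 s2 z2 b : A.Car}
    (h1 : Adm d s1 z1) (h2 : Adm d s2 z2) (hs : Sm I (b * s2 * star b - s1))
    (hz : Sm I (nrd d b * z2 - z1)) :
    ∃ b', Sm I (b' - b) ∧ b' * s2 * star b' = s1 ∧ nrd d b' * z2 = z1 := by
  obtain ⟨θ, hθ, -⟩ := hA.th
  obtain ⟨w, hw⟩ := h1.2.1.exists_left_inv
  obtain ⟨v, hv⟩ := (h1.isUnit hA.form).exists_left_inv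
  have hw' : s1 * star w = 1 := by rw [← h1.1, ← star_mul, hw, star_one]
  obtain ⟨n, hn⟩ : ∃ n, n = b * s2 * star b - s1 := ⟨_, rfl⟩
  rw [← hn] at hs
  have hn1 : star n = n := by
    rw [hn, star_sub, star_mul, star_mul, star_star, h1.1, h2.1, mul_assoc]
  have hn2 : b * s2 * star b = s1 + n := by rw [hn, add_sub_cancel]
  have hp : Sm I (θ * n * w) := eqb_mul_r (eqb_mul_l hs θ) w
  obtain ⟨b1, hb1⟩ : ∃ b1, b1 = (1 - θ * n * w) * b := ⟨_, rfl⟩
  have e1 : b1 * s2 * star b1 = s1 := by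
    rw [hb1, eqb_step hI hp, hn2, mul_add, add_mul, mul_eq_zero_of_sq hI hp hs,
      mul_eq_zero_of_sq hI hs (eqb_star hp), mul_assoc _ w, hw, star_mul, ← mul_assoc s1, hw',
      star_mul, hn1, ← hθ.1.star, mul_one, one_mul, add_zero, add_zero, sub_sub, ← add_mul, hθ.2,
      one_mul, add_sub_cancel_right]
  have e2 : A.bc (Ideal.Quotient.mk I) b1 = A.bc (Ideal.Quotient.mk I) b := by
    rw [hb1, map_mul, map_sub, hp, map_one, sub_zero, one_mul]
  have hz1 : Sm I (nrd d b1 * z2 - z1) := by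
    unfold Sm at hz ⊢
    rwa [map_sub, map_mul, ← hA.form.nrd_bc, e2, hA.form.nrd_bc, ← map_mul, ← map_sub]
  obtain ⟨m, hm⟩ : ∃ m, m = (nrd d b1 * z2 - z1) * v := ⟨_, rfl⟩
  have hm0 : Sm I m := hm ▸ eqb_mul_r hz1 v
  have hv' : z1 * v = 1 := mul_eq_one_comm' hv
  have hvc : Cen v := fun y => by
    rw [← mul_one (v * y), ← hv', ← mul_assoc, mul_assoc v, ← h1.2.2.1, ← mul_assoc, hv, one_mul]
  have hm1 : Cen m := hm ▸ (((hA.form.nrd_cen b1).mul h2.2.2.1).sub h1.2.2.1).mul hvc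
  have hm2 : nrd d b1 * z2 = (1 + m) * z1 := by
    rw [hm, add_mul, mul_assoc _ v, hv, one_mul, mul_one, add_sub_cancel]
  have hm3 : m + star m = 0 := by
    have h := congrArg (nrd d) e1
    rw [hA.form.nrd_mul, hA.form.nrd_mul, hA.form.nrd_star, h1.2.2.2.eq hA.form,
      h2.2.2.2.eq hA.form, ← mul_assoc, mul_assoc _ (star z2), ← star_mul, hm2, star_mul,
      mul_assoc, ← mul_assoc z1, ← (cen_one.add hm1).star, ← mul_assoc] at h
    have hu : IsUnit (z1 * star z1) := (h1.isUnit hA.form).mul (h1.isUnit hA.form).star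
    have h' := hu.mul_right_cancel (h.trans (one_mul _).symm)
    rw [star_add, star_one, mul_add, add_mul, add_mul, mul_eq_zero_of_sq hI hm0 (eqb_star hm0),
      mul_one, mul_one, one_mul, add_zero, add_assoc] at h'
    exact add_eq_left.1 h'
  obtain ⟨c, hc1, hc2⟩ := eqb_trace hA.form hθ h1.1 hw
  have hq : Sm I (m * c) := eqb_mul_r hm0 c
  have hmm : m * m = 0 := mul_eq_zero_of_sq hI hm0 hm0
  refine ⟨(1 - m * c) * b1, ?_, ?_, ?_⟩
  · unfold Sm
    rw [map_sub, map_mul, map_sub, hq, map_one, sub_zero, one_mul, e2, sub_self]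
  · rw [eqb_step hI hq, e1, star_mul, ← mul_assoc s1, hc1, ← hm1.star, mul_assoc m, sub_sub,
      ← add_mul, hm3, zero_mul, sub_zero]
  · rw [hA.form.nrd_mul, eqb_nrd hA.form hm1 hmm hc2, mul_assoc, hm2, ← mul_assoc, sub_mul, one_mul,
      mul_add, hmm, mul_one, add_zero, add_sub_cancel_right, one_mul]

theorem exists_etale_pair (σ : T →+* R) (hσ : Function.Surjective σ) (hA : Good d A)
    {s1 z1 s2 z2 : A.Car} (h1 : Adm d s1 z1) (h2 : Adm d s2 z2) (hs : A.bc σ s1 = A.bc σ s2)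
    (hz : A.bc σ z1 = A.bc σ z2) :
    ∃ (T' : Type u) (_ : CommRing T') (f : T →+* T') (σ' : T' →+* R), f.Etale ∧ σ'.comp f = σ ∧
      ∃ b, b * A.bc f s2 * star b = A.bc f s1 ∧ nrd d b * A.bc f z2 = A.bc f z1 := by
  obtain ⟨T', _, f, σ', x, hf, hc, -, hx⟩ := exists_etale_sol σ hσ (ι := Fin N) (κ := Fin N ⊕ Fin N)
    (fun S _ f x => Sum.elim
      ((⟨x⟩ : (A.map f).Car) * A.bc f s2 * star (⟨x⟩ : (A.map f).Car) - A.bc f s1).co
      (nrd d (⟨x⟩ : (A.map f).Car) * A.bc f z2 - A.bc f z1).co)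
    (fun S S' _ _ f g x => by
      rw [Sum.comp_elim, ← co_bc g (_ - _), ← co_bc g (_ - _)]
      simp only [map_sub, map_mul, bc_star, ← (hA.form.map f).nrd_bc]
      rfl)
    (fun S _ f I hI x hx => by
      obtain ⟨b, e0, e1, e2⟩ := lift_pair hI (hA.map f) (b := ⟨x⟩) (h1.bc f) (h2.bc f)
        (sm_iff.2 fun i => hx (Sum.inl i)) (sm_iff.2 fun i => hx (Sum.inr i))
      refine ⟨b.co, sm_iff.1 e0, ?_⟩
      change Sum.elim (b * A.bc f s2 * star b - A.bc f s1).co
        (nrd d b * A.bc f z2 - A.bc f z1).co = 0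
      rw [e1, e2, sub_self, sub_self, co_zero, Sum.elim_zero_zero])
    (1 : (A.map σ).Car).co (by
      change Sum.elim (1 * A.bc σ s2 * star 1 - A.bc σ s1).co
        (nrd d 1 * A.bc σ z2 - A.bc σ z1).co = 0
      rw [(hA.form.map σ).nrd_one, star_one, one_mul, one_mul, mul_one, hs, hz, sub_self, sub_self,
        co_zero, Sum.elim_zero_zero])
  exact ⟨T', inferInstance, f, σ', hf, hc, ⟨x⟩,
    sub_eq_zero.1 (Car.ext (funext fun i => congrFun hx (Sum.inl i))),
    sub_eq_zero.1 (Car.ext (funext fun i => congrFun hx (Sum.inr i)))⟩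

theorem eq_pair (σ : T →+* R) (hσ : Function.Surjective σ) (hA : Good d A)
    {s1 z1 s2 z2 : A.Car} (h1 : Adm d s1 z1) (h2 : Adm d s2 z2) (hs : A.bc σ s1 = A.bc σ s2)
    (hz : A.bc σ z1 = A.bc σ z2) :
    ∃ (T' : Type u) (_ : CommRing T') (f : T →+* T') (σ' : T' →+* R), f.Etale ∧ σ'.comp f = σ ∧
      ∀ (S : Type u) [CommRing S] (χ : T' →+* S),
        Triv d (A.bc (χ.comp f) s2) (A.bc (χ.comp f) z2) →
          Triv d (A.bc (χ.comp f) s1) (A.bc (χ.comp f) z1) := by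
  obtain ⟨T', _, f, σ', hf, hc, b, e1, e2⟩ := exists_etale_pair σ hσ hA h1 h2 hs hz
  refine ⟨T', inferInstance, f, σ', hf, hc, fun S _ χ ht => ?_⟩
  change Triv d ((A.map f).bc χ (A.bc f s2)) ((A.map f).bc χ (A.bc f z2)) at ht
  change Triv d ((A.map f).bc χ (A.bc f s1)) ((A.map f).bc χ (A.bc f z1))
  obtain ⟨c, c1, c2⟩ := ht
  refine ⟨(A.map f).bc χ b * c, ?_, ?_⟩
  · rw [← e1, map_mul, map_mul, bc_star, star_mul, c1]
    simp only [mul_assoc]
  · rw [← e2, map_mul]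
    exact (((hA.form.map f).isNrd b).bc χ).mul c2

end Pool.Agent.SU
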