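import Pool.Agent.P.MP_c1f06d_ag.su.Rp
import Pool.Agent.P.MP_c1f06d_ag.H90

open Matrix Polynomial IsLocalRing

universe u

namespace Pool.Agent.SU

open SAlg Pool.Agent.P.MP_c1f06d_ag

variable {T T' : Type u} [CommRing T] [CommRing T'] {N d : ℕ} {A : SAlg T N}

section
open TensorProduct

theorem ff_tmul [Algebra T T'] {ι : Type} (x : T') (y : ι → T) :
    piScalarRightHom T T' T' ι (x ⊗ₜ y) = x • (algebraMap T T' ∘ y) := by
  funext j
  rw [piScalarRightHom_tmul, Pi.smul_apply, Function.comp_apply, smul_eq_mul, mul_comm]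
  exact Algebra.smul_def _ _

theorem ff_bij [Algebra T T'] (ι : Type) [Finite ι] :
    Function.Bijective (piScalarRightHom T T' T' ι) := by
  classical
  have := Fintype.ofFinite ι
  exact (piScalarRight T T' T' ι).bijective

theorem ff_key [Algebra T T'] {ι κ : Type}
    (L : (ι → T) →ₗ[T] (κ → T)) (L' : (ι → T') →ₗ[T'] (κ → T'))
    (h : ∀ y, L' (algebraMap T T' ∘ y) = algebraMap T T' ∘ L y) (ξ : T' ⊗[T] (ι → T)) :
    L' (piScalarRightHom T T' T' ι ξ) = piScalarRightHom T T' T' κ (L.lTensor T' ξ) := by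
  induction ξ using TensorProduct.induction_on with
  | zero => simp only [map_zero]
  | tmul x y => rw [LinearMap.lTensor_tmul, ff_tmul, ff_tmul, map_smul, h]
  | add a b ha hb => simp only [map_add, ha, hb]

theorem ff_bij_map [Algebra T T'] {ι κ : Type} [Finite ι] [Finite κ]
    (L : (ι → T) →ₗ[T] (κ → T)) (L' : (ι → T') →ₗ[T'] (κ → T'))
    (h : ∀ y, L' (algebraMap T T' ∘ y) = algebraMap T T' ∘ L y) (hL : Function.Bijective L) :
    Function.Bijective L' := by
  rw [← Function.Bijective.of_comp_iff L' (ff_bij (T := T) ι)]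
  have e : L' ∘ piScalarRightHom T T' T' ι = piScalarRightHom T T' T' κ ∘ L.lTensor T' :=
    funext (ff_key L L' h)
  rw [e]
  exact (ff_bij κ).comp ((LinearEquiv.ofBijective L hL).lTensor T').bijective

end

theorem ff_solve [Algebra T T'] [Module.FaithfullyFlat T T'] {ι κ : Type} [Finite ι] [Finite κ]
    (L : (ι → T) →ₗ[T] (κ → T)) (L' : (ι → T') →ₗ[T'] (κ → T'))
    (h : ∀ y, L' (algebraMap T T' ∘ y) = algebraMap T T' ∘ L y) (v : κ → T)
    (hv : ∃ y, L' y = algebraMap T T' ∘ v) : ∃ y, L y = v := by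
  obtain ⟨y, hy⟩ := hv
  obtain ⟨ξ, rfl⟩ := (ff_bij (T := T) (T' := T') ι).2 y
  rw [ff_key L L' h, ← one_smul T' (algebraMap T T' ∘ v), ← ff_tmul] at hy
  have h1 := congrArg ((LinearMap.range L).mkQ.lTensor T') ((ff_bij κ).1 hy)
  rw [← LinearMap.comp_apply, ← LinearMap.lTensor_comp, LinearMap.range_mkQ_comp,
    LinearMap.lTensor_zero, LinearMap.zero_apply, LinearMap.lTensor_tmul] at h1
  have h2 := (Module.FaithfullyFlat.one_tmul_eq_zero_iff T _ _).1 h1.symm
  exact (Submodule.Quotient.mk_eq_zero _).1 h2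

theorem flat_ker [Algebra T T'] [Module.Flat T T'] {ι κ : Type} [Finite ι] [Finite κ]
    (L : (ι → T) →ₗ[T] (κ → T)) (L' : (ι → T') →ₗ[T'] (κ → T'))
    (h : ∀ y, L' (algebraMap T T' ∘ y) = algebraMap T T' ∘ L y) (y' : ι → T') (hy : L' y' = 0) :
    y' ∈ Submodule.span T' {w | ∃ y, L y = 0 ∧ w = algebraMap T T' ∘ y} := by
  obtain ⟨ξ, rfl⟩ := (ff_bij (T := T) (T' := T') ι).2 y'
  rw [ff_key L L' h, ← map_zero (TensorProduct.piScalarRightHom T T' T' κ)] at hy
  obtain ⟨η, rfl⟩ :=
    (Module.Flat.lTensor_exact T' (LinearMap.exact_subtype_ker_map L) ξ).1 ((ff_bij κ).1 hy)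
  clear hy
  induction η using TensorProduct.induction_on with
  | zero => simp only [map_zero, zero_mem]
  | tmul x y =>
    rw [LinearMap.lTensor_tmul, ff_tmul]
    exact Submodule.smul_mem _ _ (Submodule.subset_span ⟨y, y.2, rfl⟩)
  | add a b ha hb => simp only [map_add]; exact add_mem ha hb

/-- The representations of a splitting and their conjugates as one family. -/
def fam {n : ℕ} (r : Fin n → Rep d A T') : Fin n ⊕ Fin n → Rep d A T' :=
  Sum.elim r fun i => (r i).conj

/-- Pairs indexed by `Fin n` as one family. -/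
def ff_pair (n : ℕ) (M : Type u) : (Fin n → M × M) ≃ (Fin n ⊕ Fin n → M) where
  toFun m := Sum.elim (fun i => (m i).1) fun i => (m i).2
  invFun w i := (w (Sum.inl i), w (Sum.inr i))
  left_inv _ := rfl
  right_inv w := funext fun p => by cases p <;> rfl

theorem fam_bij {n : ℕ} (r : Fin n → Rep d A T') :
    (Function.Bijective fun x j => (fam r j).φ x) ↔
      Function.Bijective fun x (i : Fin n) => ((r i).φ x, (r i).conj.φ x) := by
  have e : (fun x j => (fam r j).φ x) =
      ff_pair n _ ∘ fun x (i : Fin n) => ((r i).φ x, (r i).conj.φ x) :=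
    funext fun x => funext fun j => by cases j <;> rfl
  rw [e, Equiv.comp_bijective]

theorem fam_f {n : ℕ} {r : Fin n → Rep d A T} (h : ∀ i, (r i).f = RingHom.id T) (j) :
    (fam r j).f = RingHom.id T := by
  cases j with
  | inl i => exact h i
  | inr i => exact h i

theorem fam_star {n : ℕ} (r : Fin n → Rep d A T') (j) (x : A.Car) :
    (fam r j).φ (star x) = ((fam r j.swap).φ x)ᵀ := by
  cases j with
  | inl i => exact (transpose_transpose _).symm
  | inr i => exact congrArg (fun y => ((r i).φ y)ᵀ) (star_star x)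

/-- Entries of a family of matrices. -/
def ff_ent (J : Type) (d : ℕ) (T : Type u) : (J → Matrix (Fin d) (Fin d) T) ≃
    (J × Fin d × Fin d → T) where
  toFun m p := m p.1 p.2.1 p.2.2
  invFun w j := of fun a b => w (j, a, b)
  left_inv _ := rfl
  right_inv _ := rfl

/-- The splitting map in coordinates. -/
def ff_lin {J : Type} (s : J → Rep d A T) (hr : ∀ j, (s j).f = RingHom.id T) :
    (Fin N → T) →ₗ[T] (J × Fin d × Fin d → T) where
  toFun v := ff_ent J d T fun j => (s j).φ (A.coL.symm v)
  map_add' v w := by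
    simp only [map_add]
    rfl
  map_smul' t v := by
    simp only [map_smul, Rep.smul, hr]
    rfl

theorem ff_lin_bij {J : Type} (s : J → Rep d A T) (hr : ∀ j, (s j).f = RingHom.id T) :
    Function.Bijective (ff_lin s hr) ↔ Function.Bijective fun x j => (s j).φ x := by
  have e : ⇑(ff_lin s hr) = ff_ent J d T ∘ (fun x j => (s j).φ x) ∘ A.coL.symm := rfl
  rw [e, Equiv.comp_bijective, Function.Bijective.of_comp_iff _ A.coL.symm.bijective]

theorem Split.map (h : Split d A) (f : T →+* T') : Split d (A.map f) := by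
  obtain ⟨n, r, hr, hb⟩ := h
  let _ := f.toAlgebra
  have e : ∀ i, (RingHom.id T').comp f = ((r i).post f).f := fun i => by
    change f = f.comp (r i).f
    rw [hr]; rfl
  refine ⟨n, fun i => ((r i).post f).lift f (RingHom.id T') (e i), fun _ => rfl,
    (fam_bij _).1 ((ff_lin_bij _ (fam_f fun _ => rfl)).1
    (ff_bij_map (ff_lin (fam r) (fam_f hr)) _ (fun y => ?_)
      ((ff_lin_bij _ (fam_f hr)).2 ((fam_bij r).2 hb))))⟩
  funext p
  obtain ⟨j, a, b⟩ := p
  cases j with
  | inl i => exact congrFun (congrFun (((r i).post f).lift_bc f (RingHom.id T') (e i) ⟨y⟩) a) b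
  | inr i =>
    have e2 := ((r i).post f).lift_bc f (RingHom.id T') (e i) (star ⟨y⟩)
    rw [bc_star] at e2
    exact congrFun (congrFun e2 b) a

theorem Form.map (h : Form d A) (f : T →+* T') : Form d (A.map f) := by
  obtain ⟨hd, T1, _, _, hf, hs⟩ := h
  let _ := f.toAlgebra
  refine ⟨hd, TensorProduct T T' T1, inferInstance, inferInstance, inferInstance, ?_⟩
  have h1 := hs.map (Algebra.TensorProduct.includeRight (R := T) (A := T') (B := T1)).toRingHom
  have e : (Algebra.TensorProduct.includeRight (R := T) (A := T') (B := T1)).toRingHom.comp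
      (algebraMap T T1) = (algebraMap T' (TensorProduct T T' T1)).comp f :=
    RingHom.ext fun t => ((Algebra.TensorProduct.includeRight (R := T) (A := T')
      (B := T1)).commutes t).trans (IsScalarTower.algebraMap_apply T T' _ t)
  rwa [SAlg.map_map, e] at h1

theorem Form.ext (h : Form d A) {x y : A.Car}
    (H : ∀ (T' : Type u) [CommRing T'] (r : Rep d A T'), r.φ x = r.φ y) : x = y := by
  obtain ⟨-, T1, _, _, hf, n, r, -, hb⟩ := h
  exact bc_injective (FaithfulSMul.algebraMap_injective T T1)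
    (hb.1 (funext fun i => Prod.ext (H _ ((r i).comap _)) (H _ ((r i).conj.comap _))))

end Pool.Agent.SU
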