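import Pool.Agent.P.MP_c1f06d_ag.su.Loc

open Matrix Polynomial IsLocalRing

universe u

namespace Pool.Agent.SU

open SAlg Pool.Agent.P.MP_c1f06d_ag

section
variable {T : Type u} [CommRing T] {N d : ℕ} {A : SAlg T N}

/-- `nrd b / star (nrd b)` is the reduced norm of a unitary element. -/
def Gm (d : ℕ) (b : A.Car) : Prop :=
  IsUnit b ∧ ∃ u, u * star u = 1 ∧ nrd d u * star (nrd d b) = nrd d b

def SG (θ b : A.Car) : Prop :=
  IsUnit b ∧ (Function.Injective fun s => star θ * b * s + θ * s * star b) ∧
    ∃ s, IsUnit s ∧ star θ * b * s + θ * s * star b = 1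

theorem sg_one {θ : A.Car} (hθ : Th θ) : SG θ 1 := by
  have h : ∀ s : A.Car, star θ * 1 * s + θ * s * star 1 = s := fun s => by
    rw [mul_one, star_one, mul_one, ← add_mul, add_comm, hθ.2, one_mul]
  exact ⟨isUnit_one, fun s t hst => by simpa only [h] using hst, 1, isUnit_one, h 1⟩

theorem Gm.mul (h : Form d A) {b c : A.Car} (hb : Gm d b) (hc : Gm d c) : Gm d (b * c) := by
  obtain ⟨hb, u, hu, hu'⟩ := hb
  obtain ⟨hc, v, hv, hv'⟩ := hc
  refine ⟨hb.mul hc, u * v, ?_, ?_⟩
  · rw [star_mul, mul_assoc, ← mul_assoc v, hv, one_mul, hu]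
  · rw [h.nrd_mul, h.nrd_mul, star_mul, mul_assoc, ← mul_assoc (nrd d v), hv', h.nrd_cen c,
      ← mul_assoc, hu']

theorem Gm.cancel (h : Form d A) {b c : A.Car} (hb : Gm d (b * c)) (hc : Gm d c) : Gm d b := by
  obtain ⟨hb, u, hu, hu'⟩ := hb
  obtain ⟨hc, v, hv, hv'⟩ := hc
  refine ⟨isUnit_of_mul_left hb, u * star v, ?_, ?_⟩
  · rw [star_mul, star_star, mul_assoc, ← mul_assoc (star v), mul_eq_one_comm' hv, one_mul, hu]
  · have h1 : nrd d c * star (nrd d v) = star (nrd d c) := by
      have := congrArg star hv'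
      rwa [star_mul, star_star] at this
    rw [h.nrd_mul, star_mul, ← h1, mul_assoc, h.nrd_cen c, ← mul_assoc] at hu'
    rw [h.nrd_mul, h.nrd_star, mul_assoc]
    exact (h.nrd_isUnit hc).mul_right_cancel hu'

theorem gm_sym (h : Form d A) {s : A.Car} (hu : IsUnit s) (hs : star s = s) : Gm d s :=
  ⟨hu, 1, by rw [star_one, one_mul], by rw [h.nrd_one, one_mul, ← h.nrd_star, hs]⟩

theorem gm_normal (h : Form d A) {g : A.Car} (hu : IsUnit g) (hg : g * star g = star g * g) :
    Gm d g := by
  obtain ⟨e, he⟩ := hu.exists_right_inv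
  have he' := mul_eq_one_comm' he
  have h1 : star e * star g = 1 := by rw [← star_mul, he, star_one]
  have h2 : star e * e = e * star e := by
    have a1 : star e * e * (g * star g) = 1 := by
      rw [mul_assoc, ← mul_assoc e, he', one_mul, h1]
    have a2 : star g * g * (e * star e) = 1 := by
      rw [mul_assoc, ← mul_assoc g, he, one_mul, mul_eq_one_comm' h1]
    rw [← mul_one (star e * e), ← a2, ← hg, ← mul_assoc, a1, one_mul]
  refine ⟨hu, g * star e, ?_, ?_⟩
  · rw [star_mul, star_star, mul_assoc, ← mul_assoc (star e), h2, mul_assoc, h1, mul_one, he]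
  · rw [← h.nrd_star, ← h.nrd_mul, mul_assoc, h1, mul_one]

theorem gm_refl (h : Form d A) {c y : A.Car} (hu : IsUnit c) (hc : c + star c = y * star y) :
    Gm d c := by
  obtain ⟨e, he⟩ := hu.exists_right_inv
  have he' := mul_eq_one_comm' he
  have h1 : star e * star c = 1 := by rw [← star_mul, he, star_one]
  have h2 : star c * star e = 1 := by rw [← star_mul, he', star_one]
  have h3 : star e * (y * star y) * e = e + star e := by
    rw [← hc, mul_add, add_mul, h1, one_mul, mul_assoc, he, mul_one, add_comm]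
  refine ⟨hu, -(1 + star y * -(star e * y)), ?_, ?_⟩
  · have : star y * (star e * y) * (star y * (e * y)) = star y * (e * y) + star y * (star e * y) := by
      rw [← mul_add, ← add_mul, ← h3]; simp only [mul_assoc]
    simp only [star_neg, star_add, star_one, star_mul, star_star, mul_neg, neg_mul,
      mul_assoc, add_mul, mul_add, one_mul, mul_one, neg_neg] at this ⊢
    rw [this]; abel
  · have h4 : 1 + -(star e * y) * star y = -(star e * c) := by
      rw [neg_mul, mul_assoc, ← hc, mul_add, h1]; abel
    rw [← neg_one_mul, h.nrd_mul, h.nrd_one_add, h4, ← h.nrd_mul, neg_one_mul, neg_neg, h.nrd_mul,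
      mul_assoc, h.nrd_cen c, ← mul_assoc, ← h.nrd_star, ← h.nrd_mul, h1, h.nrd_one, one_mul]

theorem gam1_co (θ b s : A.Car) : (star θ * b * s + θ * s * star b).co =
    (lm (star θ * b) + lm θ * rm (star b)) *ᵥ s.co := by
  rw [co_add, add_mulVec, ← co_mul, mul_assoc θ, co_mul θ, co_mul' s, mulVec_mulVec]

end

variable {R : Type u} [CommRing R] [IsLocalRing R] {N d : ℕ} {A : SAlg R N}

theorem gm_of_sg (h : Form d A) {θ b : A.Car} (hθ : Th θ)
    (hb : SG (A.bc (residue R) θ) (A.bc (residue R) b)) : Gm d b := by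
  obtain ⟨hbu, hinj, s0, hs0, hs0'⟩ := hb
  replace hbu : IsUnit b := isUnit_of_bc (residue R) hbu
  set M := lm (star θ * b) + lm θ * rm (star b) with hM
  have hdet : IsUnit M.det := by
    refine IsUnit.of_map (residue R) _ ?_
    rw [RingHom.map_det, RingHom.mapMatrix_apply, ← isUnit_iff_isUnit_det,
      ← mulVec_injective_iff_isUnit]
    intro v w hvw
    have hm : M.map (residue R) = lm (star (A.bc (residue R) θ) * A.bc (residue R) b) +
        lm (A.bc (residue R) θ) * rm (star (A.bc (residue R) b)) := by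
      rw [← bc_star, ← bc_star, ← map_mul, lm_bc, lm_bc, rm_bc, hM, Matrix.map_add _ (map_add _),
        Matrix.map_mul]
    have := hinj (a₁ := ⟨v⟩) (a₂ := ⟨w⟩) (Car.ext (by
      rw [gam1_co, gam1_co, ← hm]; exact hvw))
    exact congrArg Car.co this
  have hi : ∀ s t : A.Car, star θ * b * s + θ * s * star b = star θ * b * t + θ * t * star b →
      s = t := fun s t hst => by
    have := congrArg Car.co hst
    rw [gam1_co, gam1_co] at this
    exact Car.ext (mulVec_injective_of_isUnit ((isUnit_iff_isUnit_det _).2 hdet) this)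
  obtain ⟨s, hs⟩ : ∃ s : A.Car, star θ * b * s + θ * s * star b = 1 :=
    ⟨⟨M⁻¹ *ᵥ A.one⟩, Car.ext (by
      rw [gam1_co, ← hM, mulVec_mulVec, mul_nonsing_inv _ hdet, one_mulVec, co_one])⟩
  have hsym : star s = s := hi _ _ (by
    have := congrArg star hs
    rw [star_add, star_mul, star_mul, star_mul, star_mul, star_star, star_star, star_one] at this
    rw [hs, ← this, add_comm, mul_assoc θ, hθ.1, mul_assoc (star θ), hθ.1.star]
    simp only [mul_assoc])
  have hsu : IsUnit s := by
    refine isUnit_of_bc (residue R) ?_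
    have := congrArg (A.bc (residue R)) hs
    rw [map_add, map_mul, map_mul, map_mul, map_mul, bc_star, bc_star, map_one, ← hs0'] at this
    rw [hinj this]; exact hs0
  have hg : star θ * (b * s) + θ * star (b * s) = 1 := by
    rw [star_mul, hsym, ← hs]; simp only [mul_assoc]
  refine Gm.cancel h (gm_normal h (hbu.mul hsu) ?_) (gm_sym h hsu hsym)
  generalize b * s = g at hg
  have e1 : θ * (g * star g) = θ * (star g * g) := by
    have a1 : g * (star θ * g + θ * star g) = (star θ * g + θ * star g) * g := by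
      rw [hg, mul_one, one_mul]
    rw [mul_add, add_mul, ← mul_assoc, ← mul_assoc, ← hθ.1.star g, ← hθ.1 g] at a1
    simpa only [mul_assoc] using add_left_cancel a1
  have e2 : star θ * (g * star g) = star θ * (star g * g) := by
    have := congrArg star e1
    simp only [star_mul, star_star] at this
    rw [hθ.1.star, hθ.1.star, this]
  rw [← one_mul (g * star g), ← one_mul (star g * g), ← hθ.2, add_mul, add_mul, e1, e2]

end Pool.Agent.SU
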