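import Pool.Agent.P.MP_c1f06d_ag.su.Gam1

open Matrix Polynomial IsLocalRing

universe u

namespace Pool.Agent.SU

open SAlg Pool.Agent.P.MP_c1f06d_ag

section
variable {T T' : Type u} [CommRing T] [CommRing T'] {N : ℕ} {A : SAlg T N}

/-- Matrix of `s ↦ θ* b s + θ s b*`. -/
def gam2_psi (θ b : A.Car) : Matrix (Fin N) (Fin N) T := lm (star θ * b) + rm (star b) * lm θ

theorem gam2_psi_co (θ b s : A.Car) :
    (star θ * b * s + θ * s * star b).co = gam2_psi θ b *ᵥ s.co := by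
  rw [co_add, co_mul, co_mul' (θ * s), co_mul, gam2_psi, add_mulVec, mulVec_mulVec]

theorem gam2_psi_bc (f : T →+* T') (θ b : A.Car) :
    gam2_psi (A.bc f θ) (A.bc f b) = (gam2_psi θ b).map f := by
  rw [gam2_psi, gam2_psi, ← bc_star, ← bc_star, ← map_mul, lm_bc, lm_bc, rm_bc,
    Matrix.map_add _ (map_add f), Matrix.map_mul]

/-- The discriminant of the condition `SG`. -/
noncomputable def gam2_dis (θ b : A.Car) : T :=
  (lm b).det * (gam2_psi θ b).det * (lm (⟨(gam2_psi θ b).adjugate *ᵥ A.one⟩ : A.Car)).det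

theorem gam2_dis_bc (f : T →+* T') (θ b : A.Car) :
    gam2_dis (A.bc f θ) (A.bc f b) = f (gam2_dis θ b) := by
  have e : (⟨(gam2_psi (A.bc f θ) (A.bc f b)).adjugate *ᵥ (A.map f).one⟩ : (A.map f).Car) =
      A.bc f ⟨(gam2_psi θ b).adjugate *ᵥ A.one⟩ := by
    ext i
    rw [gam2_psi_bc, co_bc, Function.comp_apply, RingHom.map_mulVec, ← RingHom.mapMatrix_apply,
      ← RingHom.map_adjugate]
    rfl
  rw [gam2_dis, gam2_dis, e, gam2_psi_bc, lm_bc, lm_bc, map_mul, map_mul, RingHom.map_det,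
    RingHom.map_det, RingHom.map_det]
  rfl

theorem gam2_dis_hom {C : Type u} [CommRing C] (A : SAlg C N) {f : C →+* T} {f' : C →+* T'}
    (g : T →+* T') (h : g.comp f = f') (θ b : (A.map f).Car) :
    gam2_dis (A.hom g h θ) (A.hom g h b) = g (gam2_dis θ b) := by
  subst h
  exact gam2_dis_bc g θ b

theorem gam2_dis_one {θ : A.Car} (hθ : Th θ) : gam2_dis θ 1 = 1 := by
  have e : gam2_psi θ 1 = 1 := mat_ext (A := A) fun s => by
    rw [← gam2_psi_co, star_one, mul_one, mul_one, ← add_mul, add_comm, hθ.2, one_mul, one_mulVec]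
  rw [gam2_dis, e, adjugate_one, one_mulVec, lm_one, show (⟨A.one⟩ : A.Car) = 1 from rfl, lm_one]
  simp

theorem gam2_sg {θ b : A.Car} (h : IsUnit (gam2_dis θ b)) : SG θ b := by
  have h1 := isUnit_of_mul_isUnit_left (isUnit_of_mul_isUnit_left h)
  obtain ⟨u, hu⟩ := isUnit_of_mul_isUnit_right (isUnit_of_mul_isUnit_left h)
  have h3 := isUnit_iff_lm.2 (isUnit_of_mul_isUnit_right h)
  refine ⟨isUnit_iff_lm.2 h1, fun s s' e => Car.ext ?_,
    (↑u⁻¹ : T) • (⟨(gam2_psi θ b).adjugate *ᵥ A.one⟩ : A.Car), ?_, Car.ext ?_⟩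
  · have := congrArg Car.co e
    simp only [gam2_psi_co] at this
    exact mulVec_injective_of_isUnit ((isUnit_iff_isUnit_det _).2 ⟨u, hu⟩) this
  · rw [Algebra.smul_def]
    exact ((Units.isUnit _).map _).mul h3
  · rw [gam2_psi_co, co_smul, mulVec_smul, mulVec_mulVec, mul_adjugate, ← hu, smul_mulVec,
      one_mulVec, smul_smul, Units.inv_mul, one_smul, co_one]

end

variable {k : Type u} [Field k] {N : ℕ} {A : SAlg k N}

theorem exists_sg [Infinite k] {θ b : A.Car} (hθ : Th θ) (hb : IsUnit b) :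
    ∃ c, SG θ c ∧ SG θ (b * c) := by
  obtain ⟨b', hb'⟩ := hb.exists_right_inv
  have hev : ∀ x : k, (evalRingHom x).comp C = RingHom.id k := fun x => RingHom.ext fun a => eval_C
  let E : k → (A.map C).Car →+* A.Car := fun x => A.hom (evalRingHom x) (hev x)
  let γ : (A.map C).Car := (1 - X : k[X]) • 1 + (X : k[X]) • A.bc C b'
  have h1 : ∀ x a, E x (A.bc C a) = a := fun x a => Car.ext (funext fun i => eval_C)
  have h2 : ∀ x, E x γ = (1 - x) • 1 + x • b' := fun x => Car.ext (funext fun i => by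
    change eval x ((1 - X) * C (A.one i) + X * C (b'.co i)) = (1 - x) * A.one i + x * b'.co i
    simp [mul_comm x])
  have h3 : ∀ x c, eval x (gam2_dis (A.bc C θ) c) = gam2_dis θ (E x c) := fun x c => by
    conv_rhs => rw [← h1 x θ]
    exact (gam2_dis_hom A (evalRingHom x) (hev x) _ c).symm
  have p1 : gam2_dis (A.bc C θ) γ ≠ 0 := fun e => by
    have := h3 0 γ
    rw [e, h2, sub_zero, one_smul, zero_smul, add_zero, gam2_dis_one hθ, eval_zero] at this
    exact zero_ne_one this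
  have p2 : gam2_dis (A.bc C θ) (A.bc C b * γ) ≠ 0 := fun e => by
    have := h3 1 (A.bc C b * γ)
    rw [e, map_mul, h1, h2, sub_self, one_smul, zero_smul, zero_add, hb', gam2_dis_one hθ,
      eval_zero] at this
    exact zero_ne_one this
  obtain ⟨x, hx⟩ : ∃ x, eval x (gam2_dis (A.bc C θ) γ * gam2_dis (A.bc C θ) (A.bc C b * γ)) ≠ 0 := by
    by_contra h0
    push Not at h0
    exact mul_ne_zero p1 p2 (zero_of_eval_zero _ h0)
  rw [eval_mul, h3, h3, map_mul, h1, mul_ne_zero_iff] at hx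
  exact ⟨E x γ, gam2_sg hx.1.isUnit, gam2_sg hx.2.isUnit⟩

end Pool.Agent.SU
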