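import Pool.Agent.P.MP_c1f06d_ag.su.Loc

open Matrix Polynomial IsLocalRing

universe u

namespace Pool.Agent.SU

open SAlg Pool.Agent.P.MP_c1f06d_ag

/-- A hermitian form on a left module. -/
structure Herm (B M : Type u) [Ring B] [StarRing B] [AddCommGroup M] [Module B M] where
  h : M → M → B
  add_left : ∀ x y z, h (x + y) z = h x z + h y z
  smul_left : ∀ (a : B) x y, h (a • x) y = a * h x y
  symm : ∀ x y, star (h x y) = h y x

namespace Herm

variable {B M : Type u} [Ring B] [StarRing B] [AddCommGroup M] [Module B M] (H : Herm B M)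

theorem add_right (x y z : M) : H.h x (y + z) = H.h x y + H.h x z := by
  rw [← H.symm, H.add_left, star_add, H.symm, H.symm]
theorem smul_right (a : B) (x y : M) : H.h x (a • y) = H.h x y * star a := by
  rw [← H.symm, H.smul_left, star_mul, H.symm]
theorem zero_left (x : M) : H.h 0 x = 0 := by rw [← zero_smul B (0 : M), H.smul_left, zero_mul]
theorem zero_right (x : M) : H.h x 0 = 0 := by rw [← H.symm, H.zero_left, star_zero]
theorem neg_left (x y : M) : H.h (-x) y = -H.h x y := by
  rw [← neg_one_smul B, H.smul_left, neg_one_mul]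
theorem neg_right (x y : M) : H.h x (-y) = -H.h x y := by
  rw [← H.symm, H.neg_left, star_neg, H.symm]
theorem sub_left (x y z : M) : H.h (x - y) z = H.h x z - H.h y z := by
  rw [sub_eq_add_neg, H.add_left, H.neg_left, ← sub_eq_add_neg]
theorem sub_right (x y z : M) : H.h x (y - z) = H.h x y - H.h x z := by
  rw [sub_eq_add_neg, H.add_right, H.neg_right, ← sub_eq_add_neg]
theorem eq_zero_symm {x y : M} (h : H.h x y = 0) : H.h y x = 0 := by rw [← H.symm, h, star_zero]
theorem eq_one_symm {x y : M} (h : H.h x y = 1) : H.h y x = 1 := by rw [← H.symm, h, star_one]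

end Herm

end Pool.Agent.SU
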