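import Pool.Agent.P.MP_c1f06d_ag.su.Herm0

open Matrix Polynomial IsLocalRing

universe u

namespace Pool.Agent.SU

open SAlg Pool.Agent.P.MP_c1f06d_ag

variable {R : Type u} [CommRing R] [IsLocalRing R] {N : ℕ} {A : SAlg R N}
variable {M : Type u} [AddCommGroup M] [Module A.Car M]

theorem herm1_proj (H : Herm A.Car M) {e f : M} (he : H.h e e = 0) (hf : H.h f f = 0)
    (hef : H.h e f = 1) (x y : M) :
    ∃ y0, H.h y0 e = 0 ∧ H.h y0 f = 0 ∧
      H.h x y = H.h x y0 + H.h x f * star (H.h y e) + H.h x e * star (H.h y f) := by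
  have hfe := H.eq_one_symm hef
  refine ⟨y - H.h y e • f - H.h y f • e, ?_, ?_, ?_⟩
  · simp only [H.sub_left, H.smul_left, he, hfe, mul_one, mul_zero, sub_self]
  · simp only [H.sub_left, H.smul_left, hf, hef, mul_one, mul_zero, sub_zero, sub_self]
  · simp only [H.sub_right, H.smul_right]
    abel

theorem herm1_move (H : Herm A.Car M) {θ : A.Car} (hθ : Th θ) {e f u : M} (he : H.h e e = 0)
    (hf : H.h f f = 0) (hef : H.h e f = 1) (hu1 : H.h u e = 0) (hu2 : H.h u f = 0) (x : M)
    (P c : A.Car) (hc : c + star c = 0) :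
    ∃ e', H.h e' e' = 0 ∧ H.h e' f = 1 ∧
      H.h x e' = H.h x e + (H.h x f * (star P * (c - θ * H.h u u)) - H.h x u) * P := by
  have hfe := H.eq_one_symm hef
  have hu1' := H.eq_zero_symm hu1
  have hu2' := H.eq_zero_symm hu2
  have hs : (c - θ * H.h u u) + star (c - θ * H.h u u) + H.h u u = 0 := by
    rw [star_sub, star_mul, H.symm, ← hθ.1.star (H.h u u)]
    have : θ * H.h u u + star θ * H.h u u = H.h u u := by rw [← add_mul, hθ.2, one_mul]
    calc _ = (c + star c) - (θ * H.h u u + star θ * H.h u u) + H.h u u := by abel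
      _ = 0 := by rw [hc, this]; abel
  generalize c - θ * H.h u u = s at hs
  refine ⟨e + star (star P * s * P) • f - star P • u, ?_, ?_, ?_⟩
  · simp only [H.add_left, H.sub_left, H.add_right, H.sub_right, H.smul_left, H.smul_right, he, hf,
      hef, hfe, hu1, hu2, hu1', hu2', star_star, star_mul, mul_zero, zero_mul, mul_one, one_mul,
      zero_add, add_zero, sub_zero, zero_sub, sub_neg_eq_add]
    calc _ = star P * (s + star s + H.h u u) * P := by noncomm_ring
      _ = 0 := by rw [hs, mul_zero, zero_mul]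
  · simp only [H.add_left, H.sub_left, H.smul_left, hf, hef, hu2, mul_zero, add_zero, sub_zero]
  · simp only [H.add_right, H.sub_right, H.smul_right, star_star]
    noncomm_ring

/-- An isotropic partner of `f` whose pairing with `x` is a unit. -/
theorem Herm.exists_unit_move (hA : Nice A) (H : Herm A.Car M) {e f x w : M} (he : H.h e e = 0)
    (hf : H.h f f = 0) (hef : H.h e f = 1) (hx : H.h x x = 0) (hw : H.h x w = 1) :
    ∃ e', H.h e' e' = 0 ∧ H.h e' f = 1 ∧ IsUnit (H.h x e') := by
  obtain ⟨θ, hθ⟩ := hA.th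
  have hsurj : Function.Surjective (A.bc (residue R)) := bc_surjective residue_surjective
  obtain ⟨b, ⟨e1, h1, h2, rfl⟩, hmax⟩ := exists_max_rk (A := A.map (residue R))
    (P := fun b => ∃ e', H.h e' e' = 0 ∧ H.h e' f = 1 ∧ b = A.bc (residue R) (H.h x e'))
    ⟨_, e, he, hef, rfl⟩
  refine ⟨e1, h1, h2, isUnit_of_bc (residue R) ?_⟩
  by_contra hn
  obtain ⟨z, hz⟩ := (hA.sep.map (residue R)).reg (A.bc (residue R) (H.h x e1))
  obtain ⟨a0, ha0⟩ := dim_lemma hz hn
  obtain ⟨P, hP⟩ := hsurj (1 - z * A.bc (residue R) (H.h x e1))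
  have key : ∀ u c, H.h u e1 = 0 → H.h u f = 0 → c + star c = 0 →
      (1 - A.bc (residue R) (H.h x e1) * z) *
        (A.bc (residue R) (H.h x f * (star P * (c - θ * H.h u u)) - H.h x u) *
          (1 - z * A.bc (residue R) (H.h x e1))) = 0 := by
    intro u c hu1 hu2 hc
    obtain ⟨e2, g1, g2, g3⟩ := herm1_move H hθ h1 hf h2 hu1 hu2 x P c hc
    have hle := hmax _ ⟨e2, g1, g2, rfl⟩
    rw [g3, map_add, map_mul, hP] at hle
    generalize A.bc (residue R) (H.h x f * (star P * (c - θ * H.h u u)) - H.h x u) = m at hle ⊢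
    generalize A.bc (residue R) (H.h x e1) = β at hle hz ⊢
    by_contra hne
    have q1 : (1 - z * β) * (z * β) = 0 := by
      calc _ = z * β - z * (β * z * β) := by noncomm_ring
        _ = 0 := by rw [hz, sub_self]
    have q2 : β * (1 - z * β) = 0 := by
      calc _ = β - β * z * β := by noncomm_ring
        _ = 0 := by rw [hz, sub_self]
    have q3 : (1 - β * z) * β = 0 := by
      calc _ = β - β * z * β := by noncomm_ring
        _ = 0 := by rw [hz, sub_self]
    refine absurd (rk_lt (x := β) (x' := β + m * (1 - z * β)) (w := m * (1 - z * β))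
      ⟨z * β, ?_⟩ ?_ ⟨1 - z * β, ?_⟩) (not_lt.2 hle)
    · rw [add_mul, mul_assoc m, q1, mul_zero, add_zero, ← mul_assoc, hz]
    · rintro ⟨a, ha⟩
      exact hne (by rw [ha, ← mul_assoc, q3, zero_mul])
    · calc _ = β * (1 - z * β) + m * (1 - z * β) - m * ((1 - z * β) * (z * β)) := by
            rw [q1, q2, mul_zero, zero_add, sub_zero]
        _ = _ := by noncomm_ring
  obtain ⟨x0, a1, a2, a3⟩ := herm1_proj H h1 hf h2 x x
  obtain ⟨w0, b1, b2, b3⟩ := herm1_proj H h1 hf h2 x w
  rw [hx] at a3
  rw [hw] at b3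
  have k1 : ∀ a, (1 - A.bc (residue R) (H.h x e1) * z) * A.bc (residue R) (H.h x f) *
      (star (1 - z * A.bc (residue R) (H.h x e1)) * a * (1 - z * A.bc (residue R) (H.h x e1))) = 0 := by
    refine hA.sk _ (residue R) _ _ fun c hc => ?_
    obtain ⟨c, rfl⟩ := hsurj c
    have hsk : (θ * c - star θ * star c) + star (θ * c - star θ * star c) = 0 := by
      rw [star_sub, star_mul, star_mul, star_star, star_star, ← hθ.1.star (star c), ← hθ.1 c]
      abel
    have hl : A.bc (residue R) (θ * c - star θ * star c) = A.bc (residue R) c := by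
      rw [map_sub, map_mul, map_mul, bc_star _ c, eq_neg_of_add_eq_zero_right hc, mul_neg,
        sub_neg_eq_add, ← add_mul, ← map_add, hθ.2, map_one, one_mul]
    have := key 0 _ (H.zero_left _) (H.zero_left _) hsk
    rw [H.zero_right, H.zero_right, mul_zero, sub_zero, sub_zero, map_mul, map_mul, hl, bc_star,
      hP] at this
    rw [← this]
    noncomm_ring
  have k2 : ∀ u, H.h u e1 = 0 → H.h u f = 0 → ∀ a,
      (1 - A.bc (residue R) (H.h x e1) * z) * A.bc (residue R) (H.h x u) * a *
        (1 - z * A.bc (residue R) (H.h x e1)) = 0 := by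
    intro u hu1 hu2 a
    obtain ⟨a, rfl⟩ := hsurj a
    have h3 := key (star a • u) 0 (by rw [H.smul_left, hu1, mul_zero])
      (by rw [H.smul_left, hu2, mul_zero]) (by rw [star_zero, add_zero])
    have h4 := k1 (A.bc (residue R) (0 - θ * H.h (star a • u) (star a • u)))
    generalize 0 - θ * H.h (star a • u) (star a • u) = s at h3 h4
    rw [H.smul_right, star_star, map_sub, map_mul, map_mul, map_mul, bc_star, hP] at h3
    rw [← sub_eq_zero.2 (h4.trans h3.symm)]
    noncomm_ring
  have a4 := congrArg (A.bc (residue R)) a3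
  have b4 := congrArg (A.bc (residue R)) b3
  simp only [map_add, map_mul, map_zero, map_one, bc_star] at a4 b4
  have k3 := k2 x0 a1 a2
  have k4 := k2 w0 b1 b2
  generalize A.bc (residue R) (H.h x x0) = s0 at a4 k3
  generalize A.bc (residue R) (H.h x w0) = s1 at b4 k4
  generalize star (A.bc (residue R) (H.h w e1)) = s2 at b4
  generalize star (A.bc (residue R) (H.h w f)) = s3 at b4
  clear key hmax k2 hP hn
  generalize A.bc (residue R) (H.h x f) = α at a4 b4 k1
  generalize A.bc (residue R) (H.h x e1) = β at a4 b4 k1 k3 k4 hz ha0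
  have q3 : (1 - β * z) * β = 0 := by
    calc _ = β - β * z * β := by noncomm_ring
      _ = 0 := by rw [hz, sub_self]
  have k5 : ∀ a, (1 - β * z) * (α * star β) * a * (1 - z * β) = 0 := by
    intro a
    have e1 : α * star β = -s0 - β * star α := by
      rw [← sub_eq_zero, a4]
      abel
    calc _ = -((1 - β * z) * s0 * a * (1 - z * β)) -
          ((1 - β * z) * β) * (star α * a * (1 - z * β)) := by rw [e1]; noncomm_ring
      _ = 0 := by rw [k3, q3, zero_mul, neg_zero, sub_zero]
  have k6 : ∀ a, (1 - β * z) * α * a * (1 - z * β) = 0 := by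
    intro a
    have e1 := k1 a
    rw [star_sub, star_one, star_mul] at e1
    calc _ = (1 - β * z) * α * ((1 - star β * star z) * a * (1 - z * β)) +
          (1 - β * z) * (α * star β) * (star z * a) * (1 - z * β) := by noncomm_ring
      _ = 0 := by rw [e1, k5, add_zero]
  refine ha0 ?_
  calc _ = (1 - β * z) * (s1 + α * s2 + β * s3) * a0 * (1 - z * β) := by rw [← b4, mul_one]
    _ = (1 - β * z) * s1 * a0 * (1 - z * β) + (1 - β * z) * α * (s2 * a0) * (1 - z * β) +
        ((1 - β * z) * β) * (s3 * a0 * (1 - z * β)) := by noncomm_ring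
    _ = 0 := by rw [k4, k6, q3, zero_mul, add_zero, add_zero]

end Pool.Agent.SU
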