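import Pool.Agent.P.MP_c1f06d_ag.su.Herm1

open Matrix Polynomial IsLocalRing

universe u

namespace Pool.Agent.SU

open SAlg Pool.Agent.P.MP_c1f06d_ag

section aux

variable {B M : Type u} [Ring B] [StarRing B] [AddCommGroup M] [Module B M]

/-- The linear map `x ↦ (h x y * c) • e`. -/
def herm2_rk (H : Herm B M) (y : M) (c : B) (e : M) : M →ₗ[B] M where
  toFun x := (H.h x y * c) • e
  map_add' x z := by rw [H.add_left, add_mul, add_smul]
  map_smul' a x := by rw [H.smul_left, mul_assoc, mul_smul, RingHom.id_apply]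

theorem herm2_rk_apply (H : Herm B M) (y : M) (c : B) (e x : M) :
    herm2_rk H y c e x = (H.h x y * c) • e := rfl

/-- One pair of vectors is carried to another by an isometry. -/
def herm2_Mov (H : Herm B M) (e f e' f' : M) : Prop :=
  ∃ σ : M →ₗ[B] M, (∀ x y, H.h (σ x) (σ y) = H.h x y) ∧ σ e = e' ∧ σ f = f'

theorem herm2_trans {H : Herm B M} {e f e' f' e'' f'' : M} (h : herm2_Mov H e f e' f')
    (h' : herm2_Mov H e' f' e'' f'') : herm2_Mov H e f e'' f'' := by
  obtain ⟨s, h1, h2, h3⟩ := h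
  obtain ⟨t, k1, k2, k3⟩ := h'
  exact ⟨t.comp s, fun x y => by rw [LinearMap.comp_apply, LinearMap.comp_apply, k1, h1],
    by rw [LinearMap.comp_apply, h2, k2], by rw [LinearMap.comp_apply, h3, k3]⟩

theorem herm2_flip {H : Herm B M} {e f e' f' : M} (h : herm2_Mov H e f e' f') :
    herm2_Mov H f e f' e' := by
  obtain ⟨s, h1, h2, h3⟩ := h
  exact ⟨s, h1, h3, h2⟩

theorem herm2_expand (H : Herm B M) (x y u v : M) (a b a' b' : B) :
    H.h (x + a • u + b • v) (y + a' • u + b' • v) =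
      H.h x y + H.h x u * star a' + H.h x v * star b'
        + a * (star (H.h y u) + H.h u u * star a' + H.h u v * star b')
        + b * (star (H.h y v) + H.h v u * star a' + H.h v v * star b') := by
  simp only [H.add_left, H.add_right, H.smul_left, H.smul_right, H.symm]
  noncomm_ring

theorem herm2_eichler (H : Herm B M) {a b b' : M} (ha : H.h a a = 0) (hb : H.h b b = 0)
    (hb' : H.h b' b' = 0) (hba : H.h b a = 1) (hba' : H.h b' a = 1) : herm2_Mov H a b a b' := by
  obtain ⟨d, hd⟩ : ∃ d, d = b' - b := ⟨_, rfl⟩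
  obtain ⟨c, hc⟩ : ∃ c, c = H.h b b' := ⟨_, rfl⟩
  have hda : H.h d a = 0 := by rw [hd, H.sub_left, hba, hba', sub_self]
  have had : H.h a d = 0 := H.eq_zero_symm hda
  have hdd : H.h d d = -star c - c := by
    rw [hd, H.sub_left, H.sub_right, H.sub_right, hb, hb', hc, H.symm]; abel
  have h : ∀ x, (LinearMap.id + herm2_rk H a 1 d - herm2_rk H d 1 a + herm2_rk H a c a : M →ₗ[B] M) x
      = x + H.h x a • d + (H.h x a * c - H.h x d) • a := fun x => by
    simp only [LinearMap.sub_apply, LinearMap.add_apply, LinearMap.id_apply, herm2_rk_apply,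
      mul_one, sub_smul]
    abel
  refine ⟨LinearMap.id + herm2_rk H a 1 d - herm2_rk H d 1 a + herm2_rk H a c a,
    fun x y => ?_, ?_, ?_⟩
  · rw [h, h, herm2_expand, ha, hda, had, hdd, star_sub, star_mul]
    noncomm_ring
  · rw [h, ha, had]; simp
  · rw [h, hba, hd, H.sub_right, hb, ← hc]; simp

theorem herm2_scale (H : Herm B M) {e f : M} (he : H.h e e = 0) (hf : H.h f f = 0)
    (hef : H.h e f = 1) {β γ : B} (hb : γ * β = 1) : herm2_Mov H e f (γ • e) (star β • f) := by
  have hfe := H.eq_one_symm hef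
  have hb' : star β * star γ = 1 := by rw [← star_mul, hb, star_one]
  have h : ∀ x, (LinearMap.id + herm2_rk H f (γ - 1) e + herm2_rk H e (star β - 1) f : M →ₗ[B] M) x
      = x + (H.h x f * (γ - 1)) • e + (H.h x e * (star β - 1)) • f := fun x => rfl
  refine ⟨LinearMap.id + herm2_rk H f (γ - 1) e + herm2_rk H e (star β - 1) f,
    fun x y => ?_, ?_, ?_⟩
  · rw [h, h, herm2_expand, he, hf, hef, hfe]
    simp only [star_mul, star_sub, star_one, star_star]
    have e1 : H.h x f * (γ * β) * star (H.h y e) = H.h x f * star (H.h y e) := by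
      rw [hb, mul_one]
    have e2 : H.h x e * (star β * star γ) * star (H.h y f) = H.h x e * star (H.h y f) := by
      rw [hb', mul_one]
    rw [← sub_eq_zero]
    calc _ = (H.h x f * (γ * β) * star (H.h y e) - H.h x f * star (H.h y e))
          + (H.h x e * (star β * star γ) * star (H.h y f) - H.h x e * star (H.h y f)) := by
          noncomm_ring
      _ = 0 := by rw [e1, e2, sub_self, sub_self, add_zero]
  · rw [h, he, hef]; simp [sub_smul]
  · rw [h, hf, hfe]; simp [sub_smul]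

/-- The projection away from a pair. -/
def herm2_pr (H : Herm B M) (e f : M) : M →ₗ[B] M :=
  LinearMap.id - herm2_rk H f 1 e - herm2_rk H e 1 f

theorem herm2_pr_apply (H : Herm B M) (e f x : M) :
    herm2_pr H e f x = x - H.h x f • e - H.h x e • f := by
  simp only [herm2_pr, LinearMap.sub_apply, LinearMap.id_apply, herm2_rk_apply, mul_one]

theorem herm2_pr_h (H : Herm B M) (e f x y : M) :
    H.h y (herm2_pr H e f x) = H.h y x - H.h y e * H.h f x - H.h y f * H.h e x := by
  rw [herm2_pr_apply, H.sub_right, H.sub_right, H.smul_right, H.smul_right, H.symm, H.symm]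

theorem herm2_pr_fix (H : Herm B M) {e f x : M} (h1 : H.h x e = 0) (h2 : H.h x f = 0) :
    herm2_pr H e f x = x := by
  rw [herm2_pr_apply, h1, h2]; simp

theorem herm2_pr_left (H : Herm B M) {e f : M} (he : H.h e e = 0) (hef : H.h e f = 1) (x : M) :
    H.h (herm2_pr H e f x) e = 0 :=
  H.eq_zero_symm (by rw [herm2_pr_h, he, hef]; simp)

theorem herm2_pr_right (H : Herm B M) {e f : M} (hf : H.h f f = 0) (hef : H.h e f = 1) (x : M) :
    H.h (herm2_pr H e f x) f = 0 :=
  H.eq_zero_symm (by rw [herm2_pr_h, hf, H.eq_one_symm hef]; simp)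

/-- Pull back of a form. -/
def herm2_comp (H : Herm B M) (p : M →ₗ[B] M) : Herm B M where
  h x y := H.h (p x) (p y)
  add_left x y z := by rw [map_add, H.add_left]
  smul_left a x y := by rw [map_smul, H.smul_left]
  symm x y := H.symm _ _

theorem herm2_comp_h (H : Herm B M) (p : M →ₗ[B] M) (x y : M) :
    (herm2_comp H p).h x y = H.h (p x) (p y) := rfl

theorem herm2_extend (H : Herm B M) {e f : M} (he : H.h e e = 0) (hf : H.h f f = 0)
    (hef : H.h e f = 1) (s : M →ₗ[B] M)
    (hs : ∀ x y, (herm2_comp H (herm2_pr H e f)).h (s x) (s y)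
      = (herm2_comp H (herm2_pr H e f)).h x y) :
    ∃ t : M →ₗ[B] M, (∀ x y, H.h (t x) (t y) = H.h x y) ∧ t e = e ∧
      ∀ x, H.h x e = 0 → H.h x f = 0 → t x = herm2_pr H e f (s x) := by
  have hfe := H.eq_one_symm hef
  have h : ∀ x, ((herm2_pr H e f).comp (s.comp (herm2_pr H e f)) + herm2_rk H f 1 e
      + herm2_rk H e 1 f) x
      = herm2_pr H e f (s (herm2_pr H e f x)) + H.h x f • e + H.h x e • f := fun x => by
    simp only [LinearMap.add_apply, LinearMap.comp_apply, herm2_rk_apply, mul_one]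
  refine ⟨(herm2_pr H e f).comp (s.comp (herm2_pr H e f)) + herm2_rk H f 1 e + herm2_rk H e 1 f,
    fun x y => ?_, ?_, fun x h1 h2 => ?_⟩
  · have h5 := hs (herm2_pr H e f x) (herm2_pr H e f y)
    rw [herm2_comp_h, herm2_comp_h,
      herm2_pr_fix H (herm2_pr_left H he hef x) (herm2_pr_right H hf hef x),
      herm2_pr_fix H (herm2_pr_left H he hef y) (herm2_pr_right H hf hef y)] at h5
    have h6 : H.h (herm2_pr H e f x) y = H.h x y - H.h x f * H.h e y - H.h x e * H.h f y := by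
      rw [herm2_pr_apply, H.sub_left, H.sub_left, H.smul_left, H.smul_left]
    rw [h, h, herm2_expand, h5, herm2_pr_h, h6]
    simp only [herm2_pr_left H he hef, herm2_pr_right H hf hef, he, hf, hef, hfe, H.symm,
      star_zero]
    noncomm_ring
  · have h0 : herm2_pr H e f e = 0 := by rw [herm2_pr_apply, hef, he]; simp
    rw [h, h0, hef, he]; simp
  · rw [h, herm2_pr_fix H h1 h2, h1, h2]; simp

theorem herm2_frames {θ : B} (hc : ∀ y, θ * y = y * θ) (hθ : θ + star θ = 1)
    (pc : ∀ (H : Herm B M) (e f e' f' : M), H.h e e = 0 → H.h f f = 0 → H.h e f = 1 →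
      H.h e' e' = 0 → H.h f' f' = 0 → H.h e' f' = 1 → herm2_Mov H e f e' f')
    {ι : Type*} [DecidableEq ι] (s : Finset ι) :
    ∀ (H : Herm B M) (e f e' f' : ι → M), (∀ i ∈ s, ∀ j ∈ s, H.h (e i) (e j) = 0) →
      (∀ i ∈ s, ∀ j ∈ s, H.h (e i) (f j) = if i = j then 1 else 0) →
      (∀ i ∈ s, ∀ j ∈ s, H.h (e' i) (e' j) = 0) →
      (∀ i ∈ s, ∀ j ∈ s, H.h (e' i) (f' j) = if i = j then 1 else 0) →
      ∃ σ : M →ₗ[B] M, (∀ x y, H.h (σ x) (σ y) = H.h x y) ∧ ∀ i ∈ s, σ (e i) = e' i := by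
  induction s using Finset.induction_on with
  | empty =>
    intro H e f e' f' _ _ _ _
    exact ⟨LinearMap.id, fun _ _ => rfl, fun i hi => absurd hi (Finset.notMem_empty i)⟩
  | insert a s ha ih =>
    intro H e f e' f' hee hef hee' hef'
    have ma : a ∈ insert a s := Finset.mem_insert_self a s
    have ms : ∀ i ∈ s, i ∈ insert a s := fun i hi => Finset.mem_insert_of_mem hi
    have ne : ∀ i ∈ s, i ≠ a := fun i hi h => ha (h ▸ hi)
    have key : ∀ e f : ι → M, (∀ i ∈ insert a s, ∀ j ∈ insert a s, H.h (e i) (e j) = 0) →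
        (∀ i ∈ insert a s, ∀ j ∈ insert a s, H.h (e i) (f j) = if i = j then 1 else 0) →
        ∃ g, H.h g g = 0 ∧ H.h (e a) g = 1 ∧ ∀ i ∈ s, H.h (e i) g = 0 := by
      intro e f hee hef
      have h1 : H.h (e a) (f a) = 1 := by rw [hef a ma a ma, if_pos rfl]
      refine ⟨f a - (θ * H.h (f a) (f a)) • e a, ?_, ?_, fun i hi => ?_⟩
      · rw [H.sub_left, H.sub_right, H.sub_right, H.smul_left, H.smul_left, H.smul_right,
          H.smul_right, h1, H.eq_one_symm h1, hee a ma a ma, star_mul, H.symm, hc, zero_mul,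
          mul_zero]
        have : H.h (f a) (f a) * (θ + star θ) = H.h (f a) (f a) := by rw [hθ, mul_one]
        refine Eq.trans ?_ (sub_eq_zero.2 this.symm)
        noncomm_ring
      · rw [H.sub_right, H.smul_right, h1, hee a ma a ma]; simp
      · rw [H.sub_right, H.smul_right, hef i (ms i hi) a ma, if_neg (ne i hi),
          hee i (ms i hi) a ma]; simp
    obtain ⟨g, g1, g2, g3⟩ := key e f hee hef
    obtain ⟨g', g1', g2', g3'⟩ := key e' f' hee' hef'
    obtain ⟨s1, k1, k2, k3⟩ := pc H _ _ _ _ (hee a ma a ma) g1 g2 (hee' a ma a ma) g1' g2'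
    have u1 : ∀ i ∈ s, H.h (s1 (e i)) (e' a) = 0 := fun i hi => by
      rw [← k2, k1, hee i (ms i hi) a ma]
    have u2 : ∀ i ∈ s, H.h (s1 (e i)) g' = 0 := fun i hi => by rw [← k3, k1, g3 i hi]
    have v1 : ∀ i ∈ s, H.h (e' i) (e' a) = 0 := fun i hi => hee' i (ms i hi) a ma
    have p1 : ∀ i ∈ s, herm2_pr H (e' a) g' (s1 (e i)) = s1 (e i) := fun i hi =>
      herm2_pr_fix H (u1 i hi) (u2 i hi)
    have p2 : ∀ i ∈ s, herm2_pr H (e' a) g' (e' i) = e' i := fun i hi =>
      herm2_pr_fix H (v1 i hi) (g3' i hi)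
    obtain ⟨s2, l1, l2⟩ := ih (herm2_comp H (herm2_pr H (e' a) g')) (fun i => s1 (e i))
      (fun i => s1 (f i)) e' f'
      (fun i hi j hj => by
        rw [herm2_comp_h, p1 i hi, p1 j hj, k1, hee i (ms i hi) j (ms j hj)])
      (fun i hi j hj => by
        rw [herm2_comp_h, p1 i hi, herm2_pr_h, u1 i hi, u2 i hi, k1, hef i (ms i hi) j (ms j hj)]
        simp)
      (fun i hi j hj => by rw [herm2_comp_h, p2 i hi, p2 j hj, hee' i (ms i hi) j (ms j hj)])
      (fun i hi j hj => by
        rw [herm2_comp_h, p2 i hi, herm2_pr_h, v1 i hi, g3' i hi, hef' i (ms i hi) j (ms j hj)]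
        simp)
    obtain ⟨t, t1, t2, t3⟩ := herm2_extend H (hee' a ma a ma) g1' g2' s2 l1
    refine ⟨t.comp s1, fun x y => by rw [LinearMap.comp_apply, LinearMap.comp_apply, t1, k1],
      fun i hi => ?_⟩
    rcases Finset.mem_insert.1 hi with h | h
    · rw [h, LinearMap.comp_apply, k2, t2]
    · rw [LinearMap.comp_apply, t3 _ (u1 i h) (u2 i h), l2 i h, p2 i h]

end aux

variable {R : Type u} [CommRing R] [IsLocalRing R] {N : ℕ} {A : SAlg R N}
variable {M : Type u} [AddCommGroup M] [Module A.Car M]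

theorem Herm.pair_conj (hA : Nice A) (H : Herm A.Car M) {e f e' f' : M} (he : H.h e e = 0)
    (hf : H.h f f = 0) (hef : H.h e f = 1) (he' : H.h e' e' = 0) (hf' : H.h f' f' = 0)
    (hef' : H.h e' f' = 1) :
    ∃ σ : M →ₗ[A.Car] M, (∀ x y, H.h (σ x) (σ y) = H.h x y) ∧ σ e = e' ∧ σ f = f' := by
  have hfe' := H.eq_one_symm hef'
  obtain ⟨g, g1, g2, g3⟩ := H.exists_unit_move hA hf' he' hfe' he hef
  obtain ⟨γ, hγ⟩ := g3.exists_left_inv
  have a1 : H.h (γ • e) (γ • e) = 0 := by rw [H.smul_left, H.smul_right, he]; simp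
  have a2 : H.h (star (H.h e g) • f) (star (H.h e g) • f) = 0 := by
    rw [H.smul_left, H.smul_right, hf]; simp
  have a3 : H.h (γ • e) g = 1 := by rw [H.smul_left, hγ]
  have a4 : H.h (star (H.h e g) • f) (γ • e) = 1 := H.eq_one_symm (by
    rw [H.smul_left, H.smul_right, hef, star_star, one_mul, hγ])
  exact herm2_trans (herm2_trans (herm2_trans (herm2_scale H he hf hef hγ)
    (herm2_eichler H a1 a2 g1 a4 (H.eq_one_symm a3)))
    (herm2_flip (herm2_eichler H g1 a1 he' a3 (H.eq_one_symm g2))))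
    (herm2_eichler H he' g1 hf' g2 hfe')

theorem Herm.frames_conj (hA : Nice A) (k : ℕ) (H : Herm A.Car M) (e f e' f' : Fin k → M)
    (he : ∀ i j, H.h (e i) (e j) = 0) (hef : ∀ i j, H.h (e i) (f j) = if i = j then 1 else 0)
    (he' : ∀ i j, H.h (e' i) (e' j) = 0)
    (hef' : ∀ i j, H.h (e' i) (f' j) = if i = j then 1 else 0) :
    ∃ σ : M →ₗ[A.Car] M, (∀ x y, H.h (σ x) (σ y) = H.h x y) ∧ ∀ i, σ (e i) = e' i := by
  obtain ⟨θ, h1, h2⟩ := hA.th
  obtain ⟨σ, k1, k2⟩ := herm2_frames (M := M) h1 h2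
    (fun H _ _ _ _ a b c a' b' c' => H.pair_conj hA a b c a' b' c') Finset.univ H e f e' f'
    (fun i _ j _ => he i j) (fun i _ j _ => hef i j) (fun i _ j _ => he' i j)
    (fun i _ j _ => hef' i j)
  exact ⟨σ, k1, fun i => k2 i (Finset.mem_univ i)⟩

end Pool.Agent.SU
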