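import Pool.Agent.P.MP_c1f06d_ag.su.Reg

open Matrix Polynomial IsLocalRing

universe u

namespace Pool.Agent.SU

open SAlg Pool.Agent.P.MP_c1f06d_ag

variable {R : Type u} [CommRing R] [IsLocalRing R] {N d : ℕ} {A : SAlg R N}

theorem sr_local (h : Sep A) (J : AddSubgroup A.Car) (hJ : ∀ j ∈ J, ∀ c, j * c ∈ J) (a : A.Car)
    (H : ∃ b, ∃ j ∈ J, a * b + j = 1) : ∃ j ∈ J, IsUnit (a + j) := by
  obtain ⟨b, j, hj, hb⟩ := H
  have hs := bc_surjective (A := A) (residue_surjective (R := R))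
  obtain ⟨j', hj', hu⟩ := sr_field (h.map (residue R)) (J.map (A.bc (residue R)).toAddMonoidHom)
    (by
      rintro _ ⟨j, hj, rfl⟩ c
      obtain ⟨c, rfl⟩ := hs c
      exact ⟨j * c, hJ j hj c, map_mul (A.bc (residue R)) j c⟩) (A.bc (residue R) a)
    ⟨A.bc _ b, A.bc _ j, ⟨j, hj, rfl⟩, by rw [← map_mul, ← map_add, hb, map_one]⟩
  obtain ⟨j0, hj0, rfl⟩ := hj'
  exact ⟨j0, hj0, isUnit_of_bc (residue R) (by rwa [map_add])⟩

theorem loc_gen (h : Sep A) (r : Rep N A R) (hr : r.f = RingHom.id R)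
    (hc : ∀ x, (r.φ x).charpoly = (lm x).charpoly) :
    ∃ (m : Fin N → R) (P : Matrix (Fin N) (Fin N) R), IsUnit P.det ∧
      ∀ x : A.Car, P *ᵥ x.co = r.φ x *ᵥ m := by
  have hs := bc_surjective (A := A) (residue_surjective (R := R))
  have hcomp : (RingHom.id _).comp (residue R) = (r.post (residue R)).f := by
    change _ = (residue R).comp r.f
    rw [hr]; rfl
  set rb := (r.post (residue R)).lift (residue R) (RingHom.id _) hcomp with hrb
  have hbc : ∀ x, rb.φ (A.bc (residue R) x) = (r.φ x).map (residue R) := fun x =>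
    Rep.lift_bc _ _ _ _ x
  obtain ⟨mb, hmb⟩ := free_field (h.map (residue R)) (AlgHom.mk' rb.φ rb.smul) (fun a => by
    obtain ⟨a, rfl⟩ := hs a
    change (rb.φ _).charpoly = _
    rw [hbc, lm_bc, charpoly_map, charpoly_map, hc])
  obtain ⟨m, rfl⟩ := (residue_surjective (R := R)).comp_left mb
  have key : ∀ x : A.Car, (of fun k i => (r.φ (A.e i) *ᵥ m) k) *ᵥ x.co = r.φ x *ᵥ m := fun x => by
    rw [r.eq_sum x, hr, sum_mulVec]
    ext k
    simp [smul_mulVec, mulVec, dotProduct, mul_comm]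
  refine ⟨m, _, ?_, key⟩
  rw [← residue_ne_zero_iff_isUnit, RingHom.map_det, Ne, ← exists_mulVec_eq_zero_iff]
  rintro ⟨v, hv, hv0⟩
  obtain ⟨x, hx⟩ := hs ⟨v⟩
  have hv' : v = residue R ∘ x.co := (congrArg Car.co hx).symm
  refine hv ?_
  have : A.bc (residue R) x = 0 := hmb _ (by
    change rb.φ _ *ᵥ (residue R ∘ m) = 0
    rw [hbc]
    ext k
    rw [← RingHom.map_mulVec, ← key, RingHom.map_mulVec, ← hv']
    exact congrFun hv0 k)
  rw [hv']
  exact congrArg Car.co this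

theorem free_local (h : Sep A) {S : Type u} [CommRing S] (f : R →+* S) (hf : Function.Injective f)
    (H : Matrix (Fin N) (Fin N) S) (hH : IsUnit H.det)
    (hρ : ∀ x : A.Car, ∃ ρ : Matrix (Fin N) (Fin N) R, (lm x).map f * H = H * ρ.map f) :
    ∃ m : Fin N → R, IsUnit (⟨H *ᵥ (f ∘ m)⟩ : (A.map f).Car) ∧ ∀ m' : Fin N → R, ∃ x : A.Car,
      (⟨H *ᵥ (f ∘ m')⟩ : (A.map f).Car) = A.bc f x * ⟨H *ᵥ (f ∘ m)⟩ := by
  choose ρ hρ using hρ
  have hH' : IsUnit H := (isUnit_iff_isUnit_det H).2 hH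
  have uniq : ∀ x M, (lm x).map f * H = H * M.map f → ρ x = M := fun x M hM =>
    Matrix.map_injective hf (hH'.mul_left_cancel ((hρ x).symm.trans hM))
  let r : Rep N A R :=
    { f := RingHom.id R
      φ := { toFun := ρ
             map_one' := uniq _ _ (by simp [lm_one])
             map_zero' := uniq _ _ (by simp [lm_zero])
             map_mul' := fun x y => uniq _ _ (by
               rw [lm_mul, Matrix.map_mul, Matrix.map_mul, mul_assoc, hρ y, ← mul_assoc, hρ x,
                 mul_assoc])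
             map_add' := fun x y => uniq _ _ (by
               rw [lm_add, Matrix.map_add _ (map_add f), Matrix.map_add _ (map_add f), add_mul,
                 mul_add, hρ, hρ]) }
      smul := fun t x => uniq _ _ (by
        have e : ∀ M : Matrix (Fin N) (Fin N) R, (t • M).map f = f t • M.map f := fun M => by
          ext; simp
        change _ = H * (t • ρ x).map f
        rw [lm_smul, e, e, smul_mul_assoc, mul_smul_comm, hρ]) }
  obtain ⟨m, P, hP, key⟩ := loc_gen h r rfl (fun x => Polynomial.map_injective f hf (by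
    change (ρ x).charpoly.map f = _
    rw [← charpoly_map, ← charpoly_map]
    calc ((ρ x).map f).charpoly = (H⁻¹ * ((lm x).map f * H)).charpoly := by
          rw [hρ, nonsing_inv_mul_cancel_left _ _ hH]
      _ = _ := by rw [charpoly_mul_comm, mul_nonsing_inv_cancel_right _ _ hH]))
  have e : ∀ (M : Matrix (Fin N) (Fin N) R) (v : Fin N → R), f ∘ (M *ᵥ v) = M.map f *ᵥ (f ∘ v) :=
    fun M v => funext fun k => RingHom.map_mulVec f M v k
  have key2 : ∀ x : A.Car, (A.bc f x * ⟨H *ᵥ (f ∘ m)⟩).co = H *ᵥ (f ∘ (P *ᵥ x.co)) := fun x => by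
    rw [co_mul, lm_bc, key, mulVec_mulVec, hρ, e, mulVec_mulVec]; rfl
  refine ⟨m, ?_, fun m' => ⟨⟨P⁻¹ *ᵥ m'⟩, Car.ext ?_⟩⟩
  · have : rm (⟨H *ᵥ (f ∘ m)⟩ : (A.map f).Car) = H * P.map f := by
      ext k i
      have := congrFun (key2 (A.e i)) k
      rw [co_mul', e, mulVec_mulVec, ← co_bc f (A.e i), bc_e] at this
      simpa [SAlg.e] using this
    rw [isUnit_iff_rm, this, det_mul]
    exact hH.mul (by rw [← RingHom.mapMatrix_apply, ← RingHom.map_det]; exact hP.map f)
  · rw [key2, mulVec_mulVec, mul_nonsing_inv _ hP, one_mulVec]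

section

variable {B T : Type u} [Ring B] [CommRing T] (φ : B →+* Matrix (Fin d) (Fin d) T)
  {ι κ : Type} [Fintype ι] [DecidableEq ι] [Fintype κ] [DecidableEq κ]

/-- Determinant of the block matrix. -/
def loc_D (X : Matrix ι ι B) : T := (Matrix.comp _ _ _ _ _ (X.map φ)).det

theorem loc_D_mul (X Y : Matrix ι ι B) : loc_D φ (X * Y) = loc_D φ X * loc_D φ Y := by
  rw [loc_D, loc_D, loc_D, ← det_mul, Matrix.map_mul]
  exact congrArg det (map_mul (compRingEquiv ι (Fin d) T) _ _)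

theorem loc_D_one : loc_D φ (1 : Matrix ι ι B) = 1 := by
  rw [loc_D, Matrix.map_one _ (map_zero φ) (map_one φ), Matrix.comp_one, det_one]

theorem loc_D_sub (e : κ ≃ ι) (X : Matrix ι ι B) : loc_D φ (X.submatrix e e) = loc_D φ X :=
  det_submatrix_equiv_self (e.prodCongr (Equiv.refl (Fin d))) (Matrix.comp _ _ _ _ _ (X.map φ))

theorem loc_D_up (a : Matrix ι ι B) (b : Matrix ι κ B) (D : Matrix κ κ B) :
    loc_D φ (fromBlocks a b 0 D) = loc_D φ a * loc_D φ D := by
  rw [loc_D, loc_D, loc_D, ← det_fromBlocks_zero₂₁ _ (Matrix.comp _ _ _ _ _ (b.map φ)),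
    ← det_submatrix_equiv_self (Equiv.sumProdDistrib ι κ (Fin d)).symm]
  congr 1
  ext (⟨i, p⟩ | ⟨i, p⟩) (⟨j, q⟩ | ⟨j, q⟩) <;> simp

theorem loc_D_low (c : Matrix κ ι B) :
    loc_D φ (fromBlocks (1 : Matrix ι ι B) 0 c (1 : Matrix κ κ B)) = 1 := by
  rw [← loc_D_sub φ (Equiv.sumComm κ ι), Equiv.sumComm_apply, fromBlocks_submatrix_sum_swap_sum_swap,
    loc_D_up, loc_D_one, loc_D_one, one_mul]

theorem loc_D_unit (a : Matrix Unit Unit B) : loc_D φ a = (φ (a () ())).det :=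
  (det_submatrix_equiv_self (Equiv.uniqueProd (Fin d) Unit).symm _).symm

theorem loc_low_unit (c : Matrix κ ι B) :
    IsUnit (fromBlocks (1 : Matrix ι ι B) 0 c (1 : Matrix κ κ B)) :=
  isUnit_iff_exists.2 ⟨fromBlocks 1 0 (-c) 1, by simp [fromBlocks_multiply],
    by simp [fromBlocks_multiply]⟩

theorem loc_block_unit {U V : Matrix ι ι B} (hU : U * V = 1) {b : Matrix ι κ B} {D : Matrix κ κ B}
    (h : IsUnit (fromBlocks U b 0 D)) : IsUnit D := by
  obtain ⟨Z, h1, h2⟩ := isUnit_iff_exists.1 h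
  rw [← fromBlocks_toBlocks Z, fromBlocks_multiply, ← fromBlocks_one, fromBlocks_inj] at h1 h2
  have h3 : Z.toBlocks₂₁ = 0 := by
    rw [← Matrix.mul_one Z.toBlocks₂₁, ← hU, ← Matrix.mul_assoc]
    have := h2.2.2.1
    rw [Matrix.mul_zero, add_zero] at this
    rw [this, Matrix.zero_mul]
  exact isUnit_iff_exists.2 ⟨Z.toBlocks₂₂, by simpa using h1.2.2.2, by simpa [h3] using h2.2.2.2⟩

end

theorem loc_gln (h : Sep A) (n : ℕ) (X : Matrix (Fin n) (Fin n) A.Car) (hX : IsUnit X) :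
    ∃ y : A.Car, IsUnit y ∧ ∀ (T : Type u) [CommRing T] (φ : A.Car →+* Matrix (Fin d) (Fin d) T),
      loc_D φ X = (φ y).det := by
  induction n with
  | zero => exact ⟨1, isUnit_one, fun T _ φ => by rw [loc_D, det_isEmpty, map_one, det_one]⟩
  | succ n ih =>
    let e : Unit ⊕ Fin n ≃ Fin (n + 1) :=
      ((Equiv.sumComm _ _).trans (Equiv.optionEquivSumPUnit _).symm).trans (finSuccEquiv n).symm
    have hY : IsUnit (X.submatrix e e) := hX.map (reindexRingEquiv A.Car e.symm)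
    obtain ⟨a, b, c, D, hb⟩ : ∃ a b c D, X.submatrix e e = fromBlocks a b c D :=
      ⟨_, _, _, _, (fromBlocks_toBlocks _).symm⟩
    rw [hb] at hY
    let g : Matrix (Fin n) Unit A.Car →+ A.Car :=
      { toFun := fun t => (b * t) () ()
        map_zero' := by simp
        map_add' := fun s t => by simp [Matrix.mul_add] }
    obtain ⟨W, hW⟩ := hY.exists_right_inv
    rw [← fromBlocks_toBlocks W, fromBlocks_multiply, ← fromBlocks_one, fromBlocks_inj] at hW
    obtain ⟨_, ⟨t, rfl⟩, hu⟩ := sr_local h g.range (by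
      rintro _ ⟨t, rfl⟩ x
      exact ⟨t * (of fun _ _ => x : Matrix Unit Unit A.Car), by
        change (b * (t * (of fun _ _ => x : Matrix Unit Unit A.Car))) () () = (b * t) () () * x
        rw [← Matrix.mul_assoc, mul_apply]; simp⟩) (a () ())
      ⟨W.toBlocks₁₁ () (), _, ⟨W.toBlocks₂₁, rfl⟩, by
        have := congrFun (congrFun hW.1 ()) ()
        rwa [Matrix.add_apply, mul_apply, Fintype.sum_unique, one_apply_eq] at this⟩
    obtain ⟨v, hv1, hv2⟩ := isUnit_iff_exists.1 hu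
    let V : Matrix Unit Unit A.Car := of fun _ _ => v
    have h1 : (a + b * t) * V = 1 := by
      ext ⟨⟩ ⟨⟩; rw [mul_apply, Fintype.sum_unique, one_apply_eq, ← hv1]; rfl
    have h2 : V * (a + b * t) = 1 := by
      ext ⟨⟩ ⟨⟩; rw [mul_apply, Fintype.sum_unique, one_apply_eq, ← hv2]; rfl
    have hZ : fromBlocks 1 0 (-((c + D * t) * V)) 1 * (fromBlocks a b c D * fromBlocks 1 0 t 1) =
        fromBlocks (a + b * t) b 0 (-((c + D * t) * V) * b + D) := by
      simp [fromBlocks_multiply, Matrix.mul_assoc, h2]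
    obtain ⟨y, hy, hD⟩ := ih _ (loc_block_unit h1
      (hZ ▸ (loc_low_unit _).mul (hY.mul (loc_low_unit _))))
    refine ⟨(a () () + g t) * y, hu.mul hy, fun T _ φ => ?_⟩
    have := congrArg (loc_D φ) hZ
    rw [loc_D_mul, loc_D_mul, loc_D_low, loc_D_low, one_mul, mul_one, loc_D_up, hD, loc_D_unit,
      ← hb, loc_D_sub] at this
    rw [this, map_mul, det_mul]; rfl

theorem gln (h : Sep A) (n : ℕ) (X : Matrix (Fin n) (Fin n) A.Car) (hX : IsUnit X) :
    ∃ y : A.Car, IsUnit y ∧ ∀ (T : Type u) [CommRing T] (r : Rep d A T),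
      (Matrix.comp _ _ _ _ _ (X.map r.φ)).det = (r.φ y).det := by
  obtain ⟨y, hy, H⟩ := loc_gln (d := d) h n X hX
  exact ⟨y, hy, fun T _ r => H T r.φ⟩

end Pool.Agent.SU
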