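import Pool.Agent.P.MP_c1f06d_ag.su.Brid
import Pool.Agent.P.MP_c1f06d_ag.su.Core

open Matrix Polynomial IsLocalRing

universe u

namespace Pool.Agent.SU

open SAlg Pool.Agent.P.MP_c1f06d_ag

theorem su_main (V C : Type u) [CommRing V] [IsDomain V] [ValuationRing V] [CommRing C]
    [Algebra V C] [Algebra.Smooth V C] (p : Ideal C) [p.IsPrime] (R : Type u) [CommRing R]
    [Algebra C R] [IsLocalization.AtPrime R p] {B : Type u} [Ring B] [Algebra R B]
    {τ : B →ₗ[R] B} {d : ℕ} (hd : 0 < d) (hB : IsUnitaryAlgebra τ d) {E : Type u} [CommRing E]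
    [Algebra R E] (hE : IsSUTorsor τ d E) (eK : E →ₐ[R] FractionRing R) :
    Nonempty (E →ₐ[R] R) := by
  have : IsLocalRing R := IsLocalization.AtPrime.isLocalRing R p
  have : IsDomain R := isDomain_of_smooth V C p R
  have := hE.1
  obtain ⟨N, ⟨b⟩⟩ := hB.exists_basis
  obtain ⟨A, ⟨β⟩⟩ := exists_brid hB.1 b
  have hA := β.form hd hB
  obtain ⟨a⟩ := β.act hA hE
  exact a.nonempty_of_generic hA (FractionRing R) (IsFractionRing.injective R _)
    (fun _ _ h ht => triv_main V C p R (FractionRing R) hA.good h ht) eK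

end Pool.Agent.SU
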