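import Pool.Agent.P.MP_c1f06d_ag.su.EqA2
import Pool.Agent.P.MP_c1f06d_ag.su.EqB
import Pool.Agent.P.MP_c1f06d_ag.su.GeoD

open Matrix Polynomial IsLocalRing

universe u

namespace Pool.Agent.SU

open SAlg Pool.Agent.P.MP_c1f06d_ag

variable {B R : Type u} [CommRing B] [CommRing R] {N d : ℕ}

/-- Triviality passes from the pair pulled back along `ψ` to the constant pair. -/
def WT (d : ℕ) (A : SAlg B N) (s z : A.Car) (ρ : B →+* R) : Pr R B := fun T _ i ψ =>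
  ∀ (S : Type u) [CommRing S] (χ : T →+* S),
    Triv d (A.bc (χ.comp ψ) s) (A.bc (χ.comp ψ) z) →
      Triv d (A.bc (χ.comp (i.comp ρ)) s) (A.bc (χ.comp (i.comp ρ)) z)

variable {A : SAlg B N} {s z : A.Car} {ρ : B →+* R}

theorem wt_stable : (WT d A s z ρ).Stable := fun _ _ _ _ χ _ _ h S _ χ' => h S (χ'.comp χ)

theorem wt_near [IsLocalRing R] (hA : Good d (A.map ρ)) (h : Adm d s z) : (WT d A s z ρ).Near ρ := by
  intro T _ i ψ σ hi hψ
  have hσ : Function.Surjective σ := fun r => ⟨i r, RingHom.congr_fun hi r⟩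
  have hc : σ.comp (i.comp ρ) = σ.comp ψ := by rw [← RingHom.comp_assoc, hi, hψ]; rfl
  have hG : Good d (A.map (i.comp ρ)) := hA.map i
  obtain ⟨T1, _, f1, σ1, e1, c1, s1, z1, a1, p1, q1, t1⟩ :=
    eq_alg (A1 := A.map (i.comp ρ)) (A2 := A.map ψ) σ hσ (congrArg A.map hc) hG.nice (h.bc ψ)
  have hσ1 : Function.Surjective σ1 := fun r =>
    let ⟨t, ht⟩ := hσ r; ⟨f1 t, (RingHom.congr_fun c1 t).trans ht⟩
  have key : ∀ (x : A.Car) (y : ((A.map (i.comp ρ)).map f1).Car),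
      σ1 ∘ y.co = σ ∘ (A.bc ψ x).co → SAlg.bc _ σ1 ((A.map (i.comp ρ)).bc f1 (A.bc (i.comp ρ) x)) =
        SAlg.bc _ σ1 y := fun x y hy => Car.ext (funext fun a =>
    ((RingHom.congr_fun c1 _).trans (RingHom.congr_fun hc (x.co a))).trans (congrFun hy a).symm)
  obtain ⟨T2, _, f2, σ2, e2, c2, t2⟩ := eq_pair σ1 hσ1 (hG.map f1) ((h.bc (i.comp ρ)).bc f1) a1
    (key s s1 p1) (key z z1 q1)
  exact ⟨T2, inferInstance, f2.comp f1, σ2, RingHom.Etale.stableUnderComposition _ _ e1 e2,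
    by rw [← RingHom.comp_assoc, c2, c1], fun S _ χ ht => t2 S χ (t1 S (χ.comp f2) ht)⟩

end Pool.Agent.SU
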