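import Pool.Agent.P.MP_c1f06d_ag.su.SepX

open Matrix Polynomial IsLocalRing

universe u

namespace Pool.Agent.SU

open SAlg Pool.Agent.P.MP_c1f06d_ag

variable {k : Type u} [Field k] {N : ℕ} {A : SAlg k N}

/-- Dimension of the right ideal generated by `x`. -/
noncomputable def rk (x : A.Car) : ℕ := Module.finrank k (LinearMap.range (LinearMap.mulLeft k x))

theorem rk_le (x : A.Car) : rk x ≤ N := by
  exact (Submodule.finrank_le _).trans (A.coL.finrank_eq.trans (Module.finrank_fin_fun k)).le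

theorem rk_lt {x x' w : A.Car} (h : ∃ a, x = x' * a) (hw : ¬∃ a, w = x * a) (hw' : ∃ a, w = x' * a) :
    rk x < rk x' := by
  obtain ⟨a, rfl⟩ := h
  obtain ⟨b, rfl⟩ := hw'
  refine Submodule.finrank_lt_finrank_of_lt (lt_of_le_of_ne ?_ fun e => hw ?_)
  · rintro _ ⟨y, rfl⟩
    exact ⟨a * y, (mul_assoc _ _ _).symm⟩
  · obtain ⟨c, hc⟩ := e.ge ⟨b, rfl⟩
    exact ⟨c, hc.symm⟩

theorem reg_max {α : Type*} (f : α → ℕ) (hf : ∀ x, f x ≤ N) {P : α → Prop} (h : ∃ x, P x) :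
    ∃ x, P x ∧ ∀ y, P y → f y ≤ f x := by
  have hb : BddAbove (f '' {x | P x}) := ⟨N, by rintro _ ⟨x, -, rfl⟩; exact hf x⟩
  obtain ⟨x, hx, e⟩ := Nat.sSup_mem (Set.Nonempty.image f h) hb
  exact ⟨x, hx, fun y hy => e ▸ le_csSup hb ⟨y, hy, rfl⟩⟩

theorem exists_max_rk {P : A.Car → Prop} (h : ∃ x, P x) : ∃ x, P x ∧ ∀ y, P y → rk y ≤ rk x := by
  exact reg_max rk rk_le h

theorem Sep.reg (h : Sep A) (x : A.Car) : ∃ z, x * z * x = x := by
  obtain ⟨g, hg⟩ := (LinearMap.mulLeft k x).rangeRestrict.exists_rightInverse_of_surjective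
    (LinearMap.range_rangeRestrict _)
  obtain ⟨g', hg'⟩ := g.exists_extend
  refine h.avg g' x fun w => ?_
  have h1 := congrArg Subtype.val (LinearMap.congr_fun hg ⟨x * w, w, rfl⟩)
  rw [← hg'] at h1
  exact h1

theorem isUnit_of_cancel {x : A.Car} (h : ∀ a, x * a = 0 → a = 0) : IsUnit x := by
  obtain ⟨y, hy⟩ := LinearMap.injective_iff_surjective.1
    ((injective_iff_map_eq_zero (LinearMap.mulLeft k x)).2 h) 1
  exact isUnit_of_mul_eq_one hy

theorem isUnit_of_cancel' {x : A.Car} (h : ∀ a, a * x = 0 → a = 0) : IsUnit x := by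
  obtain ⟨y, hy⟩ := LinearMap.injective_iff_surjective.1
    ((injective_iff_map_eq_zero (LinearMap.mulRight k x)).2 h) 1
  exact isUnit_of_mul_eq_one' hy

theorem dim_lemma {x z : A.Car} (h : x * z * x = x) (hx : ¬IsUnit x) :
    ∃ a, (1 - x * z) * a * (1 - z * x) ≠ 0 := by
  by_contra! H
  set q := 1 - z * x with hq
  let f := (LinearMap.mulLeft k x).restrict (p := LinearMap.range (LinearMap.mulRight k q))
    (q := LinearMap.range (LinearMap.mulRight k q)) (by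
      rintro _ ⟨a, rfl⟩
      exact ⟨x * a, mul_assoc _ _ _⟩)
  have hs : Function.Surjective f := by
    rintro ⟨_, a, rfl⟩
    refine ⟨⟨_, z * a, rfl⟩, Subtype.ext ?_⟩
    have h1 := H a
    rw [sub_mul, sub_mul, one_mul, sub_eq_zero] at h1
    change x * (z * a * q) = a * q
    rw [h1]
    simp only [mul_assoc]
  have h2 := (injective_iff_map_eq_zero f).1 (LinearMap.injective_iff_surjective.2 hs)
    ⟨q, 1, one_mul q⟩ (Subtype.ext (by
      change x * (1 - z * x) = 0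
      rw [mul_sub, mul_one, ← mul_assoc, h, sub_self]))
  exact hx (isUnit_of_mul_eq_one' (sub_eq_zero.1 (congrArg Subtype.val h2)).symm)

theorem sr_field (h : Sep A) (J : AddSubgroup A.Car) (hJ : ∀ j ∈ J, ∀ c, j * c ∈ J) (a : A.Car)
    (H : ∃ b, ∃ j ∈ J, a * b + j = 1) : ∃ j ∈ J, IsUnit (a + j) := by
  obtain ⟨b, j, hj, e⟩ := H
  obtain ⟨_, ⟨j0, h0, rfl⟩, hm⟩ :=
    exists_max_rk (P := fun x => ∃ j ∈ J, x = a + j) ⟨_, 0, J.zero_mem, rfl⟩
  refine ⟨j0, h0, by_contra fun hu => ?_⟩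
  obtain ⟨z, hz⟩ := h.reg (a + j0)
  obtain ⟨c, hc⟩ := dim_lemma hz hu
  have h1 := hm (a + j0 + (j - j0 * b) * c * (1 - z * (a + j0))) ⟨_,
    J.add_mem h0 (hJ _ (hJ _ (J.sub_mem hj (hJ _ h0 b)) c) _), add_assoc _ _ _⟩
  have e1 : j - j0 * b = 1 - (a + j0) * b := by rw [← e, add_mul]; abel
  rw [e1] at h1
  generalize a + j0 = x at *
  have h2 : (1 - x * z) * x = 0 := by rw [sub_mul, one_mul, hz, sub_self]
  have h3 : x * (1 - z * x) = 0 := by rw [mul_sub, mul_one, ← mul_assoc, hz, sub_self]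
  have h4 : (1 - z * x) * (z * x) = 0 := by
    rw [sub_mul, one_mul, mul_assoc, ← mul_assoc x, hz, sub_self]
  refine h1.not_gt (rk_lt (w := (1 - x * b) * c * (1 - z * x)) ⟨z * x, ?_⟩ ?_ ⟨1 - z * x, ?_⟩)
  · rw [add_mul, mul_assoc _ (1 - z * x), h4, mul_zero, add_zero, ← mul_assoc, hz]
  · rintro ⟨y, hy⟩
    refine hc ?_
    have h5 : c * (1 - z * x) = x * (y + b * c * (1 - z * x)) := by
      rw [mul_add, ← hy]; noncomm_ring
    rw [mul_assoc, h5, ← mul_assoc, h2, zero_mul]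
  · rw [add_mul, h3, zero_add, mul_assoc _ (1 - z * x), mul_sub (1 - z * x), h4, mul_one, sub_zero]

theorem reg_idem {M : Matrix (Fin N) (Fin N) k} (h : M * M = M) :
    Module.finrank k (LinearMap.range (toLin' M)) + M.charpoly.natTrailingDegree = N := by
  have hi : IsIdempotentElem (toLin' M) := by
    change toLin' M ∘ₗ toLin' M = _
    rw [← toLin'_mul, h]
  have e : Module.End.maxGenEigenspace (toLin' M) 0 = LinearMap.ker (toLin' M) := by
    ext v
    simp only [Module.End.mem_maxGenEigenspace, zero_smul, sub_zero, LinearMap.mem_ker]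
    refine ⟨fun ⟨n, hn⟩ => ?_, fun hv => ⟨1, by rwa [pow_one]⟩⟩
    rw [← hi.pow_succ_eq n, pow_succ', Module.End.mul_apply, hn, map_zero]
  rw [← charpoly_toLin', ← LinearMap.finrank_maxGenEigenspace_zero_eq, e,
    LinearMap.finrank_range_add_finrank_ker, Module.finrank_fin_fun]

theorem free_field (h : Sep A) (ρ : A.Car →ₐ[k] Matrix (Fin N) (Fin N) k)
    (hρ : ∀ a, (ρ a).charpoly = (lm a).charpoly) :
    ∃ m : Fin N → k, ∀ a, ρ a *ᵥ m = 0 → a = 0 := by
  let φ : (Fin N → k) → (Fin N → k) →ₗ[k] Fin N → k := fun m =>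
    (mulVecBilin k k).flip m ∘ₗ ρ.toLinearMap ∘ₗ A.coL.symm.toLinearMap
  have hφ : ∀ m (y : A.Car), φ m y.co = ρ y *ᵥ m := fun _ _ => rfl
  obtain ⟨m, -, hm⟩ := reg_max (N := N) (fun m => Module.finrank k (LinearMap.range (φ m)))
    (fun _ => (Submodule.finrank_le _).trans (Module.finrank_fin_fun k).le)
    (P := fun _ => True) ⟨0, trivial⟩
  refine ⟨m, fun a ha => by_contra fun h0 => ?_⟩
  obtain ⟨z, hz⟩ := h.reg a
  have hp : z * a * (z * a) = z * a := by rw [mul_assoc, ← mul_assoc a, hz]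
  have hp0 : z * a ≠ 0 := fun e => h0 (by rw [← hz, mul_assoc, e, mul_zero])
  have hpm : ρ (z * a) *ᵥ m = 0 := by rw [map_mul, ← mulVec_mulVec, ha, mulVec_zero]
  generalize z * a = p at hp hp0 hpm
  have hr : ρ p * ρ p = ρ p := by rw [← map_mul, hp]
  have h1 : LinearMap.range (toLin' (ρ p)) ≤
      LinearMap.range ((φ m).domRestrict (LinearMap.range (toLin' (lm p)))) := by
    rintro _ ⟨w, rfl⟩
    have e : LinearMap.range (φ m) = LinearMap.range (φ (m + ρ p *ᵥ w)) := by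
      refine Submodule.eq_of_le_of_finrank_le ?_ (hm _ trivial)
      rintro _ ⟨y, rfl⟩
      refine ⟨((⟨y⟩ : A.Car) * (1 - p)).co, (hφ _ _).trans ?_⟩
      rw [map_mul, ← mulVec_mulVec, map_sub, map_one, sub_mulVec, one_mulVec, mulVec_add (ρ p), hpm,
        mulVec_mulVec, hr, zero_add, add_sub_cancel_right]
      rfl
    obtain ⟨y, hy⟩ := e.ge ⟨p.co, rfl⟩
    refine ⟨⟨(p * (⟨y⟩ : A.Car)).co, y, rfl⟩, ?_⟩
    change ρ (p * ⟨y⟩) *ᵥ m = _
    replace hy : ρ ⟨y⟩ *ᵥ m = ρ p *ᵥ (m + ρ p *ᵥ w) := hy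
    rw [mulVec_add, hpm, zero_add, mulVec_mulVec, hr] at hy
    rw [map_mul, ← mulVec_mulVec, hy, mulVec_mulVec, hr]
    rfl
  have h2 := Submodule.finrank_mono h1
  have h3 := ((φ m).domRestrict (LinearMap.range (toLin' (lm p)))).finrank_range_add_finrank_ker
  have h4 := reg_idem hr
  have h5 := reg_idem (M := lm p) (by rw [← lm_mul, hp])
  rw [hρ] at h4
  have h6 : LinearMap.ker ((φ m).domRestrict (LinearMap.range (toLin' (lm p)))) = ⊥ :=
    Submodule.finrank_eq_zero.1 (by omega)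
  have h7 := (Submodule.eq_bot_iff _).1 h6 ⟨p.co, p.co, congrArg Car.co hp⟩ hpm
  exact hp0 (Car.ext (congrArg Subtype.val h7))

theorem span_pair_top (h : Sep A) {x y : A.Car} (H : ∀ a, a * x = 0 → a * y = 0 → a = 0) :
    ∃ a b, x * a + y * b = 1 := by
  obtain ⟨z, hz⟩ := h.reg x
  obtain ⟨w, hw⟩ := h.reg ((1 - x * z) * y)
  have h1 := H ((1 - (1 - x * z) * y * w) * (1 - x * z))
    (by rw [mul_assoc, sub_mul 1 (x * z) x, one_mul, hz, sub_self, mul_zero])
    (by rw [mul_assoc, sub_mul 1, one_mul, hw, sub_self])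
  refine ⟨z - z * y * w * (1 - x * z), w * (1 - x * z), ?_⟩
  refine Eq.trans ?_ (h1 ▸ sub_zero (1 : A.Car))
  noncomm_ring

end Pool.Agent.SU
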