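import Pool.Agent.P.MP_c1f06d_ag.su.SA

open Matrix Polynomial

universe u

namespace Pool.Agent.SU

open SAlg

variable {T T' T'' : Type u} [CommRing T] [CommRing T'] [CommRing T''] {N d : ℕ}

/-- A matrix representation of degree `d`, semilinear over `f`. -/
structure Rep (d : ℕ) (A : SAlg T N) (T' : Type u) [CommRing T'] where
  f : T →+* T'
  φ : A.Car →+* Matrix (Fin d) (Fin d) T'
  smul : ∀ t x, φ (t • x) = f t • φ x

namespace Rep

variable {A : SAlg T N}

theorem eq_sum (r : Rep d A T') (x : A.Car) : r.φ x = ∑ i, r.f (x.co i) • r.φ (A.e i) := by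
  conv_lhs => rw [SAlg.eq_sum x]
  simp only [map_sum, r.smul]

theorem map_algebraMap (r : Rep d A T') (t : T) : r.φ (algebraMap T _ t) = r.f t • 1 := by
  rw [Algebra.algebraMap_eq_smul_one, r.smul, map_one]

/-- Restriction along base change. -/
def comap (g : T →+* T') (r : Rep d (A.map g) T'') : Rep d A T'' :=
  ⟨r.f.comp g, r.φ.comp (A.bc g), fun t x => by
    rw [RingHom.comp_apply, bc_smul, r.smul]; rfl⟩

/-- Change of the coefficient ring. -/
def post (r : Rep d A T') (g : T' →+* T'') : Rep d A T'' :=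
  ⟨g.comp r.f, g.mapMatrix.comp r.φ, fun t x => by
    rw [RingHom.comp_apply, r.smul]; ext; simp⟩

/-- The conjugate representation. -/
def conj (r : Rep d A T') : Rep d A T' where
  f := r.f
  φ := { toFun := fun x => (r.φ (star x))ᵀ
         map_one' := by rw [star_one, map_one, transpose_one]
         map_zero' := by rw [star_zero, map_zero, transpose_zero]
         map_add' := fun x y => by rw [star_add, map_add, transpose_add]
         map_mul' := fun x y => by rw [star_mul, map_mul, transpose_mul] }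
  smul t x := by
    change (r.φ (star (t • x)))ᵀ = r.f t • (r.φ (star x))ᵀ
    rw [star_smul', r.smul, transpose_smul]

theorem comap_φ (g : T →+* T') (r : Rep d (A.map g) T'') (x : A.Car) :
    (r.comap g).φ x = r.φ (A.bc g x) := rfl
theorem post_φ (r : Rep d A T') (g : T' →+* T'') (x : A.Car) : (r.post g).φ x = (r.φ x).map g := rfl
theorem conj_φ (r : Rep d A T') (x : A.Car) : r.conj.φ x = (r.φ (star x))ᵀ := rfl

/-- A representation from the images of the basis. -/
def ofBasis (A : SAlg T N) (f : T →+* T') (E : Fin N → Matrix (Fin d) (Fin d) T')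
    (h1 : ∑ i, f (A.one i) • E i = 1) (hm : ∀ i j, E i * E j = ∑ a, f (A.L i a j) • E a) :
    Rep d A T' where
  f := f
  φ := { toFun := fun x => ∑ i, f (x.co i) • E i
         map_one' := h1
         map_zero' := by simp
         map_add' := fun x y => by simp [add_smul, Finset.sum_add_distrib]
         map_mul' := fun x y => by
           simp only [lm, co_mul, Finset.sum_mul, Finset.mul_sum, smul_mul_assoc, mul_smul_comm, hm,
             Finset.smul_sum, smul_smul, mulVec, dotProduct, Matrix.sum_apply, Matrix.smul_apply,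
             smul_eq_mul, Finset.sum_smul, map_sum, map_mul]
           rw [Finset.sum_comm]
           refine Finset.sum_congr rfl fun j _ => ?_
           rw [Finset.sum_comm]
           exact Finset.sum_congr rfl fun i _ => Finset.sum_congr rfl fun a _ => by congr 1; ring }
  smul t x := by
    change ∑ i, f ((t • x).co i) • E i = f t • ∑ i, f (x.co i) • E i
    simp [Finset.smul_sum, smul_smul]

theorem ofBasis_φ (f : T →+* T') (E : Fin N → Matrix (Fin d) (Fin d) T') (h1 hm) (x : A.Car) :
    (ofBasis A f E h1 hm).φ x = ∑ i, f (x.co i) • E i := rfl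

theorem basis_one (r : Rep d A T') : ∑ i, r.f (A.one i) • r.φ (A.e i) = 1 :=
  (r.eq_sum 1).symm.trans (map_one _)

theorem basis_mul (r : Rep d A T') (i j : Fin N) :
    r.φ (A.e i) * r.φ (A.e j) = ∑ a, r.f (A.L i a j) • r.φ (A.e a) := by
  rw [← map_mul, r.eq_sum]
  simp only [co_mul, lm_e]
  simp [e]

/-- Extension along a base change through which the coefficient map factors. -/
def lift (r : Rep d A T'') (g : T →+* T') (f' : T' →+* T'') (h : f'.comp g = r.f) :
    Rep d (A.map g) T'' :=
  ofBasis (A.map g) f' (fun i => r.φ (A.e i)) (by rw [← r.basis_one, ← h]; rfl)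
    fun i j => by rw [r.basis_mul, ← h]; rfl

theorem lift_f (r : Rep d A T'') (g : T →+* T') (f' : T' →+* T'') (h) : (r.lift g f' h).f = f' := rfl

theorem lift_φ (r : Rep d A T'') (g : T →+* T') (f' : T' →+* T'') (h) (x : (A.map g).Car) :
    (r.lift g f' h).φ x = ∑ i, f' (x.co i) • r.φ (A.e i) := rfl

theorem lift_bc (r : Rep d A T'') (g : T →+* T') (f' : T' →+* T'') (h) (x : A.Car) :
    (r.lift g f' h).φ (A.bc g x) = r.φ x := by
  rw [lift_φ, r.eq_sum x, ← h]; rfl

theorem lift_conj (r : Rep d A T'') (g : T →+* T') (f' : T' →+* T'') (h) (x : (A.map g).Car) :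
    (r.lift g f' h).conj.φ x = ∑ i, f' (x.co i) • r.conj.φ (A.e i) := by
  rw [Rep.eq_sum]
  refine Finset.sum_congr rfl fun i _ => ?_
  rw [conj_φ, ← bc_e, ← bc_star, lift_bc]; rfl

end Rep

/-- Invariant functions of matrices. -/
structure Inv (d : ℕ) where
  χ : ∀ (T : Type u) [CommRing T], Matrix (Fin d) (Fin d) T → T
  nat : ∀ (T T' : Type u) [CommRing T] [CommRing T'] (f : T →+* T') (M : Matrix (Fin d) (Fin d) T),
    χ T' (M.map f) = f (χ T M)
  conj : ∀ (T : Type u) [CommRing T] (M M' P : Matrix (Fin d) (Fin d) T), M * P = P * M' →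
    P.det * χ T M = P.det * χ T M'
  tr : ∀ (T : Type u) [CommRing T] (M : Matrix (Fin d) (Fin d) T), χ T Mᵀ = χ T M

variable {A : SAlg T N}

def IsInv (c : Inv.{u} d) (b z : A.Car) : Prop :=
  ∀ (T' : Type u) [CommRing T'] (r : Rep d A T'), r.φ z = c.χ T' (r.φ b) • 1

/-- `z` is the reduced norm of `b`. -/
def IsNrd (d : ℕ) (b z : A.Car) : Prop :=
  ∀ (T' : Type u) [CommRing T'] (r : Rep d A T'), r.φ z = (r.φ b).det • 1

theorem IsNrd.bc {b z : A.Car} (h : IsNrd d b z) (g : T →+* T') :
    IsNrd d (A.bc g b) (A.bc g z) := fun _ _ r => h _ (r.comap g)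

theorem IsNrd.mul {b z b' z' : A.Car} (h : IsNrd d b z) (h' : IsNrd d b' z') :
    IsNrd d (b * b') (z * z') := fun _ _ r => by
  rw [map_mul, map_mul, h, h', det_mul, smul_mul_smul_comm, one_mul]

theorem isNrd_one : IsNrd d (1 : A.Car) 1 := fun _ _ r => by rw [map_one, det_one, one_smul]

theorem IsNrd.star {b z : A.Car} (h : IsNrd d b z) : IsNrd d (star b) (star z) := fun _ _ r => by
  have := congrArg transpose (h _ r.conj)
  rwa [Rep.conj_φ, Rep.conj_φ, transpose_transpose, det_transpose, transpose_smul,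
    transpose_one] at this

open Classical in
/-- The reduced norm, when it exists. -/
noncomputable def nrd (d : ℕ) (b : A.Car) : A.Car := if h : ∃ z, IsNrd d b z then h.choose else 0

def Split (d : ℕ) (A : SAlg T N) : Prop :=
  ∃ (n : ℕ) (r : Fin n → Rep d A T), (∀ i, (r i).f = RingHom.id T) ∧
    Function.Bijective fun x (i : Fin n) => ((r i).φ x, (r i).conj.φ x)

/-- A form of a product of pairs of matrix algebras with the exchange involution. -/
def Form (d : ℕ) (A : SAlg T N) : Prop :=
  0 < d ∧ ∃ (T' : Type u) (_ : CommRing T') (_ : Algebra T T'),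
    Module.FaithfullyFlat T T' ∧ Split d (A.map (algebraMap T T'))

/-- Separability element. -/
def Sep (A : SAlg T N) : Prop :=
  ∃ v : Fin N → A.Car, ∑ i, A.e i * v i = 1 ∧ ∀ x a, v a * x = ∑ i, (x * A.e i).co a • v i

def Th (θ : A.Car) : Prop := Cen θ ∧ θ + star θ = 1

def SK (A : SAlg T N) : Prop :=
  ∀ x p : A.Car, (∀ c, c + star c = 0 → x * (star p * c * p) = 0) → ∀ a, x * (star p * a * p) = 0

/-- What the hermitian block uses. -/
structure Nice (A : SAlg T N) : Prop where
  sep : Sep A
  th : ∃ θ : A.Car, Th θ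
  sk : ∀ (k : Type u) [Field k] (f : T →+* k), SK (A.map f)

structure Good (d : ℕ) (A : SAlg T N) : Prop where
  form : Form d A
  th : ∃ θ : A.Car, Th θ ∧ IsUnit (θ - star θ)

theorem Th.bc {θ : A.Car} (h : Th θ) (f : T →+* T') : Th (A.bc f θ) :=
  ⟨h.1.bc f, by rw [← bc_star, ← map_add, h.2, map_one]⟩

/-- `z` is a quotient `nrd y / star (nrd y)`. -/
def Wd (d : ℕ) (z : A.Car) : Prop := ∃ y, IsUnit y ∧ z * star (nrd d y) = nrd d y

/-- Admissible pairs. -/
def Adm (d : ℕ) (s z : A.Car) : Prop := star s = s ∧ IsUnit s ∧ Cen z ∧ IsNrd d s (z * star z)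

/-- Trivial pairs. -/
def Triv (d : ℕ) (s z : A.Car) : Prop := ∃ b, s = b * star b ∧ IsNrd d b z

theorem Adm.bc {s z : A.Car} (h : Adm d s z) (f : T →+* T') : Adm d (A.bc f s) (A.bc f z) :=
  ⟨(bc_star f _).symm.trans (congrArg _ h.1), h.2.1.map _, h.2.2.1.bc f, by
    have := h.2.2.2.bc f
    rwa [map_mul, bc_star] at this⟩

theorem Triv.bc {s z : A.Car} (h : Triv d s z) (f : T →+* T') : Triv d (A.bc f s) (A.bc f z) :=
  let ⟨b, h1, h2⟩ := h
  ⟨A.bc f b, by rw [← bc_star, ← map_mul, ← h1], h2.bc f⟩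

/-- Base change along a commuting triangle. -/
def SAlg.hom {C : Type u} [CommRing C] (A : SAlg C N) {f : C →+* T} {f' : C →+* T'} (g : T →+* T')
    (h : g.comp f = f') : (A.map f).Car →+* (A.map f').Car where
  toFun x := ⟨g ∘ x.co⟩
  map_one' := by subst h; rfl
  map_zero' := by subst h; exact map_zero ((A.map f).bc g)
  map_add' := by subst h; exact map_add ((A.map f).bc g)
  map_mul' := by subst h; exact map_mul ((A.map f).bc g)

theorem SAlg.co_hom {C : Type u} [CommRing C] (A : SAlg C N) {f : C →+* T} {f' : C →+* T'}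
    (g : T →+* T') (h : g.comp f = f') (x : (A.map f).Car) : (A.hom g h x).co = g ∘ x.co := rfl

theorem SAlg.hom_rfl {C : Type u} [CommRing C] (A : SAlg C N) (f : C →+* T) (g : T →+* T') :
    A.hom g (rfl : g.comp f = g.comp f) = (A.map f).bc g := rfl

end Pool.Agent.SU
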