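import Mathlib

open Matrix TensorProduct

universe u

namespace Pool.Agent.SU

variable {R B : Type u} [CommRing R] [Ring B] [Algebra R B]

/-- `τ` is an `R`-linear involution of the algebra `B`. -/
def IsInvol (τ : B →ₗ[R] B) : Prop :=
  (∀ x, τ (τ x) = x) ∧ ∀ x y, τ (x * y) = τ y * τ x

section
variable {T T' : Type u} [CommRing T] [Algebra R T] [CommRing T'] [Algebra R T']

/-- The involution of `T ⊗ B`. -/
noncomputable def bar (τ : B →ₗ[R] B) (x : T ⊗[R] B) : T ⊗[R] B := τ.baseChange T x

/-- The map `T ⊗ B → T' ⊗ B` induced by `f`. -/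
noncomputable def extend (f : T →ₐ[R] T') (x : T ⊗[R] B) : T' ⊗[R] B :=
  Algebra.TensorProduct.map f (AlgHom.id R B) x

/-- `τ x * x = 1 = x * τ x`. -/
def IsUnitary (τ : B →ₗ[R] B) (x : T ⊗[R] B) : Prop := bar τ x * x = 1 ∧ x * bar τ x = 1

variable (R B T) in
/-- `T`-algebra maps from `T ⊗ B` to `d × d` matrices. -/
def MatRep (d : ℕ) : Type u := T ⊗[R] B →ₐ[T] Matrix (Fin d) (Fin d) T

/-- The value of such a map. -/
noncomputable def MatRep.app {d : ℕ} (φ : MatRep R B T d) (x : T ⊗[R] B) :
    Matrix (Fin d) (Fin d) T :=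
  AlgHom.toRingHom φ x

/-- The maps `φ i` identify `T ⊗ B` with a product of `n` copies of `M_d(T) × M_d(T)`, and the
involution with `(a, b) ↦ (bᵀ, aᵀ)` on each copy. -/
def IsSplitting (τ : B →ₗ[R] B) {d n : ℕ} (φ : Fin n → MatRep R B T d) : Prop :=
  Function.Bijective fun (x : T ⊗[R] B) (i : Fin n) => ((φ i).app x, ((φ i).app (bar τ x))ᵀ)

end

/-- `(B, τ)` becomes a product of copies of `M_d × M_d` with the exchange involution after a
faithfully flat base change: an Azumaya algebra of degree `d` with unitary involution over a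
quadratic etale extension of a finite etale `R`-algebra. -/
def IsUnitaryAlgebra (τ : B →ₗ[R] B) (d : ℕ) : Prop :=
  IsInvol τ ∧ ∃ (T : Type u) (_ : CommRing T) (_ : Algebra R T), Module.FaithfullyFlat R T ∧
    ∃ (n : ℕ) (φ : Fin n → MatRep R B T d), IsSplitting τ φ

/-- The reduced norm of `x` is one: its determinant is one in every splitting. -/
def NrdOne (τ : B →ₗ[R] B) (d : ℕ) {T : Type u} [CommRing T] [Algebra R T] (x : T ⊗[R] B) : Prop :=
  ∀ (T' : Type u) [CommRing T'] [Algebra R T'] (f : T →ₐ[R] T') (n : ℕ)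
    (φ : Fin n → MatRep R B T' d), IsSplitting τ φ → ∀ i, ((φ i).app (extend f x)).det = 1

/-- The points of `SU(B, τ)` with values in `T`. -/
structure SUPt (τ : B →ₗ[R] B) (d : ℕ) (T : Type u) [CommRing T] [Algebra R T] where
  val : T ⊗[R] B
  unitary : IsUnitary τ val
  nrdOne : NrdOne τ d val

/-- A family of maps `SU(T) × E(T) → E(T)`, one for every `R`-algebra `T`. -/
def SUAction (τ : B →ₗ[R] B) (d : ℕ) (E : Type u) [CommRing E] [Algebra R E] : Type (u + 1) :=
  ∀ (T : Type u) [CommRing T] [Algebra R T], SUPt τ d T → (E →ₐ[R] T) → (E →ₐ[R] T)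

variable {τ : B →ₗ[R] B} {d : ℕ} {E : Type u} [CommRing E] [Algebra R E]

/-- The unit acts trivially and products act by composition. -/
def SUAction.IsAction (act : SUAction τ d E) : Prop :=
  ∀ (T : Type u) [CommRing T] [Algebra R T] (e : E →ₐ[R] T),
    (∀ x : SUPt τ d T, x.val = 1 → act T x e = e) ∧
    ∀ x y z : SUPt τ d T, z.val = x.val * y.val → act T z e = act T x (act T y e)

/-- The action commutes with maps of `R`-algebras. -/
def SUAction.IsNatural (act : SUAction τ d E) : Prop :=
  ∀ (T T' : Type u) [CommRing T] [Algebra R T] [CommRing T'] [Algebra R T'] (f : T →ₐ[R] T')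
    (x : SUPt τ d T) (x' : SUPt τ d T') (e : E →ₐ[R] T),
      x'.val = extend f x.val → f.comp (act T x e) = act T' x' (f.comp e)

/-- Exactly one group element moves a given point to a given point. -/
def SUAction.IsSimplyTransitive (act : SUAction τ d E) : Prop :=
  ∀ (T : Type u) [CommRing T] [Algebra R T] (e e' : E →ₐ[R] T), ∃! x : SUPt τ d T, act T x e = e'

/-- `Spec E` is a torsor under `SU(B, τ)`: it is faithfully flat over `R`, and `SU(T)` acts simply
transitively on `E(T)`, naturally in the `R`-algebra `T`. -/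
def IsSUTorsor (τ : B →ₗ[R] B) (d : ℕ) (E : Type u) [CommRing E] [Algebra R E] : Prop :=
  Module.FaithfullyFlat R E ∧
    ∃ act : SUAction τ d E, act.IsAction ∧ act.IsNatural ∧ act.IsSimplyTransitive

end Pool.Agent.SU
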