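import Mathlib

namespace Pool.Agent.SU

open IsLocalRing

/-- The involution fixes the base ring. -/
class StarFix (T A : Type*) [CommRing T] [Ring A] [Algebra T A] [StarRing A] : Prop where
  fix : ∀ t : T, star (algebraMap T A t) = algebraMap T A t

section
variable {T : Type*} (A : Type*) [CommRing T] [Ring A] [Algebra T A]

/-- The ideal `I A`. -/
def extI (I : Ideal T) : Ideal A := I.map (algebraMap T A)

variable {A}

theorem extI_induction {I : Ideal T} {p : A → Prop} (h0 : p 0)
    (h1 : ∀ t ∈ I, ∀ a, p (t • a)) (h2 : ∀ a b, p a → p b → p (a + b)) {a : A}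
    (ha : a ∈ extI A I) : p a := by
  have key : ∀ b, p (b * a) := by
    induction ha using Submodule.span_induction with
    | mem x hx =>
      obtain ⟨t, ht, rfl⟩ := hx
      intro b
      rw [← Algebra.commutes, ← Algebra.smul_def]
      exact h1 t ht b
    | zero => intro b; rwa [mul_zero]
    | add x y _ _ hx hy => intro b; rw [mul_add]; exact h2 _ _ (hx b) (hy b)
    | smul r x _ hx => intro b; rw [smul_eq_mul, ← mul_assoc]; exact hx _
  simpa using key 1

theorem smul_mem_extI {I : Ideal T} {t : T} (ht : t ∈ I) (a : A) : t • a ∈ extI A I := by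
  rw [Algebra.smul_def, Algebra.commutes]
  exact Ideal.mul_mem_left _ _ (Ideal.mem_map_of_mem _ ht)

instance extI_isTwoSided (I : Ideal T) : (extI A I).IsTwoSided where
  mul_mem_of_left b ha := extI_induction (p := fun a => a * b ∈ extI A I) (by simp)
    (fun t ht a => by rw [smul_mul_assoc]; exact smul_mem_extI ht _)
    (fun a a' h h' => by rw [add_mul]; exact add_mem h h') ha

theorem mem_extI_iff {I : Ideal T} {a : A} : a ∈ extI A I ↔ a ∈ I • (⊤ : Submodule T A) :=
  ⟨fun h => extI_induction (p := fun a => a ∈ I • (⊤ : Submodule T A)) (zero_mem _)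
    (fun _ ht _ => Submodule.smul_mem_smul ht trivial) (fun _ _ => add_mem) h,
    fun h => Submodule.smul_induction_on h (fun _ ht _ _ => smul_mem_extI ht _) fun _ _ => add_mem⟩

variable (A) in
/-- The ring `A / I A`. -/
abbrev QA (I : Ideal T) : Type _ := A ⧸ extI A I

/-- The map `A → A / I A`. -/
abbrev qm (I : Ideal T) : A →+* QA A I := Ideal.Quotient.mk (extI A I)

theorem qm_surjective (I : Ideal T) : Function.Surjective (qm (A := A) I) :=
  Ideal.Quotient.mk_surjective

theorem qm_smul {I : Ideal T} {t : T} (ht : t ∈ I) (a : A) : qm I (t • a) = 0 :=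
  Ideal.Quotient.eq_zero_iff_mem.2 (smul_mem_extI ht a)

theorem qm_mono {I J : Ideal T} (h : I ≤ J) {a b : A} (e : qm I a = qm I b) : qm J a = qm J b :=
  Ideal.Quotient.eq.2 ((Ideal.map_mono h : extI A I ≤ extI A J)
    ((Ideal.Quotient.eq (I := extI A I)).1 e))

theorem qm_span_eq_iff {c : T} {a b : A} :
    qm (Ideal.span {c}) a = qm (Ideal.span {c}) b ↔ ∃ n, a - b = c • n := by
  rw [Ideal.Quotient.eq]
  refine ⟨fun h => extI_induction (p := fun a => ∃ n, a = c • n) ⟨0, (smul_zero c).symm⟩
    (fun t ht a => ?_) (fun _ _ ⟨n, hn⟩ ⟨n', hn'⟩ => ⟨n + n', by rw [hn, hn', smul_add]⟩) h,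
    fun ⟨n, hn⟩ => hn ▸ smul_mem_extI (Ideal.mem_span_singleton_self c) n⟩
  obtain ⟨s, rfl⟩ := Ideal.mem_span_singleton.1 ht
  exact ⟨s • a, mul_smul c s a⟩

variable [StarRing A] [StarFix T A]

theorem star_smul_fix (t : T) (a : A) : star (t • a) = t • star a := by
  rw [Algebra.smul_def, star_mul, StarFix.fix, ← Algebra.commutes, Algebra.smul_def]

theorem star_mem_extI {I : Ideal T} {a : A} (ha : a ∈ extI A I) : star a ∈ extI A I :=
  extI_induction (p := fun a => star a ∈ extI A I) (by simp)
    (fun t ht a => by rw [star_smul_fix]; exact smul_mem_extI ht _)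
    (fun a a' h h' => by rw [star_add]; exact add_mem h h') ha

noncomputable instance qaStar (I : Ideal T) : Star (QA A I) where
  star := Quotient.lift (fun a => qm I (star a)) fun a b h => by
    rw [Ideal.Quotient.eq, ← star_sub]
    exact star_mem_extI ((Submodule.quotientRel_def _).1 h)

theorem qm_star (I : Ideal T) (a : A) : qm I (star a) = star (qm I a) := rfl

noncomputable instance qaStarRing (I : Ideal T) : StarRing (QA A I) where
  star_involutive a := by
    obtain ⟨a, rfl⟩ := qm_surjective I a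
    rw [← qm_star, ← qm_star, star_star]
  star_mul a b := by
    obtain ⟨a, rfl⟩ := qm_surjective I a
    obtain ⟨b, rfl⟩ := qm_surjective I b
    rw [← map_mul, ← qm_star, star_mul, map_mul, qm_star, qm_star]
  star_add a b := by
    obtain ⟨a, rfl⟩ := qm_surjective I a
    obtain ⟨b, rfl⟩ := qm_surjective I b
    rw [← map_add, ← qm_star, star_add, map_add, qm_star, qm_star]

end

/-- Central elements. -/
def Cen {A : Type*} [Ring A] (z : A) : Prop := ∀ b, z * b = b * z

/-- Averaging of linear maps: the form in which separability is used. -/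
def Avg (T A : Type*) [CommRing T] [Ring A] [Algebra T A] : Prop :=
  ∃ (n : ℕ) (x y : Fin n → A), ∑ i, x i * y i = 1 ∧
    ∀ (p : A →ₗ[T] A) (a : A), a * ∑ i, x i * p (y i) = ∑ i, x i * p (y i * a)

/-- The properties of the reduced norm that are used. -/
structure Nu (T : Type*) {A : Type*} [CommRing T] [IsLocalRing T] [Ring A] [Algebra T A]
    [StarRing A] (ν : A →* A) : Prop where
  cen : ∀ a, Cen (ν a)
  symm : ∀ a, star a = a → ∃ g : T, ν a = algebraMap T A g
  adj : ∀ a, ∃ a', a * a' = ν a ∧ a' * a = ν a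
  cong : ∀ a b, qm (maximalIdeal T) a = qm (maximalIdeal T) b →
    qm (maximalIdeal T) (ν a) = qm (maximalIdeal T) (ν b)
  pow : ∃ d, ∀ z, Cen z → ν z = z ^ (d + 1)

end Pool.Agent.SU
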