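import Pool.Agent.P.MP_c1f06d_ag.su.VLay

namespace Pool.Agent.SU

open IsLocalRing

section
variable {T A : Type*} [CommRing T] [IsLocalRing T] [Ring A] [Algebra T A] [Module.Finite T A]

theorem sep_surj (g : A →ₗ[T] A) (hg : ∀ y, y - g y ∈ extI A (maximalIdeal T)) :
    Function.Surjective g := by
  rw [← LinearMap.range_eq_top, eq_top_iff]
  refine Submodule.le_of_le_smul_of_le_jacobson_bot (I := maximalIdeal T) Module.Finite.fg_top
    (IsLocalRing.maximalIdeal_le_jacobson ⊥) fun y _ => ?_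
  rw [show y = g y + (y - g y) by abel]
  exact Submodule.add_mem_sup ⟨y, rfl⟩ (mem_extI_iff.1 (hg y))

theorem isUnit_of_qm {a : A} (h : IsUnit (qm (maximalIdeal T) a)) : IsUnit a := by
  obtain ⟨u, hu⟩ := h
  obtain ⟨b, hb⟩ := qm_surjective (A := A) (maximalIdeal T) ↑u⁻¹
  obtain ⟨y, hy⟩ := sep_surj (LinearMap.mulLeft T (a * b)) (fun y => by
    rw [← Ideal.Quotient.eq, LinearMap.mulLeft_apply, map_mul, map_mul, ← hu, hb]; simp) 1
  obtain ⟨z, hz⟩ := sep_surj (LinearMap.mulRight T (b * a)) (fun y => by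
    rw [← Ideal.Quotient.eq, LinearMap.mulRight_apply, map_mul, map_mul, ← hu, hb]; simp) 1
  rw [LinearMap.mulLeft_apply, mul_assoc] at hy
  rw [LinearMap.mulRight_apply, ← mul_assoc] at hz
  exact ⟨⟨a, b * y, hy, by rw [← left_inv_eq_right_inv hz hy, hz]⟩, rfl⟩

theorem Avg.isSemisimpleRing [Module.Free T A] (h : Avg T A) :
    IsSemisimpleRing (QA A (maximalIdeal T)) := by
  obtain ⟨n, x, y, h1, h2⟩ := h
  refine (isSemisimpleModule_iff _ _).2 ⟨fun I => ?_⟩
  obtain ⟨p, hp, -, hm⟩ := lay_idem ((Ideal.comap (qm (maximalIdeal T)) I).restrictScalars T)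
  have hp' : ∀ a, qm (maximalIdeal T) (p a) ∈ I := hp
  set e := qm (maximalIdeal T) (∑ i, x i * p (y i)) with he
  have heI : e ∈ I := by
    rw [he, map_sum]
    exact I.sum_mem fun i _ => by rw [map_mul]; exact I.smul_mem _ (hp' _)
  have hI : ∀ z ∈ I, z * e = z := by
    intro z hz
    obtain ⟨a, rfl⟩ := qm_surjective (maximalIdeal T) z
    rw [he, ← map_mul, h2]
    conv_rhs => rw [← one_mul a, ← h1, Finset.sum_mul]
    rw [map_sum, map_sum]
    refine Finset.sum_congr rfl fun i _ => ?_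
    rw [mul_assoc, map_mul _ (x i), map_mul _ (x i)]
    congr 1
    refine (Ideal.Quotient.eq.2 (mem_extI_iff.2 (hm _ ?_))).symm
    change qm (maximalIdeal T) (y i * a) ∈ I
    rw [map_mul]
    exact I.smul_mem _ hz
  refine ⟨LinearMap.ker (LinearMap.toSpanSingleton _ _ e), ?_, ?_⟩
  · rw [Submodule.disjoint_def]
    intro z hz hz'
    rw [← hI z hz]
    exact hz'
  · rw [codisjoint_iff, eq_top_iff]
    intro z _
    rw [show z = z * e + (z - z * e) by abel]
    refine Submodule.add_mem_sup (I.smul_mem z heI) ?_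
    change (z - z * e) * e = 0
    rw [sub_mul, hI (z * e) (I.smul_mem z heI), sub_self]

omit [IsLocalRing T] [Module.Finite T A] in
theorem Avg.exists_cen (h : Avg T A) (I : Ideal T) {z : QA A I} (hz : Cen z) :
    ∃ z0 : A, Cen z0 ∧ qm I z0 = z := by
  obtain ⟨n, x, y, h1, h2⟩ := h
  obtain ⟨z1, rfl⟩ := qm_surjective I z
  refine ⟨∑ i, x i * LinearMap.mulLeft T z1 (y i), fun b => ?_, ?_⟩
  · rw [h2, Finset.sum_mul]
    exact Finset.sum_congr rfl fun i _ => by simp [mul_assoc]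
  · conv_rhs => rw [← mul_one z1, ← h1, Finset.mul_sum]
    rw [map_sum, map_sum]
    refine Finset.sum_congr rfl fun i _ => ?_
    rw [LinearMap.mulLeft_apply, map_mul, map_mul, map_mul, map_mul, ← mul_assoc, ← mul_assoc, hz]

end

/-- The idempotent of the first layer of `A / A x`. -/
theorem Avg.exists_eps {O A : Type*} [CommRing O] [IsDomain O] [ValuationRing O] [Ring A]
    [Algebra O A] [Module.Finite O A] [Module.Free O A] (h : Avg O A) {x : A} {f : O} (hf : f ≠ 0)
    (hfx : ∃ x', x' * x = algebraMap O A f) (hx : ¬ IsUnit x) :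
    ∃ (c : O) (b w a : A), c ∈ maximalIdeal O ∧ c ≠ 0 ∧
      qm (Ideal.span {c}) (x * (b * x)) = qm (Ideal.span {c}) x ∧ a * x = c • w ∧
      qm (maximalIdeal O) (w * (1 - b * x)) ≠ 0 := by
  obtain ⟨n, u, v, h1, h2⟩ := h
  obtain ⟨x', hx'⟩ := hfx
  obtain ⟨c, p, w, c1, c2, hp, hc, ⟨a, ha⟩, hw⟩ := vlay (LinearMap.range (LinearMap.mulRight O x))
    (by rw [LinearMap.range_eq_map]; exact Module.Finite.fg_top.map _) hf
    (fun y => ⟨y * x', by
      rw [LinearMap.mulRight_apply, mul_assoc, hx', ← Algebra.commutes, Algebra.smul_def]⟩)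
    (fun ht => hx (by
      have hs := LinearMap.range_eq_top.1 ht
      obtain ⟨y, hy⟩ := hs 1
      rw [LinearMap.mulRight_apply] at hy
      refine ⟨⟨x, y, OrzechProperty.injective_of_surjective_endomorphism _ hs ?_, hy⟩, rfl⟩
      rw [LinearMap.mulRight_apply, LinearMap.mulRight_apply, mul_assoc, hy, mul_one, one_mul]))
  choose b hb using fun i => hp (v i)
  choose m hm using fun i => hc (v i * x) ⟨v i, rfl⟩
  have he : (∑ i, u i * b i) * x = ∑ i, u i * p (v i) := by
    rw [Finset.sum_mul]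
    exact Finset.sum_congr rfl fun i _ => by rw [← hb i, LinearMap.mulRight_apply, mul_assoc]
  refine ⟨c, ∑ i, u i * b i, w, a, c1, c2, qm_span_eq_iff.2 ⟨∑ i, u i * m i, ?_⟩, ha, fun h0 => hw ?_⟩
  · rw [he, h2]
    conv_lhs => arg 2; rw [← one_mul x, ← h1, Finset.sum_mul]
    rw [← Finset.sum_sub_distrib, Finset.smul_sum]
    exact Finset.sum_congr rfl fun i _ => by rw [mul_assoc, ← mul_sub, hm, mul_smul_comm]
  · rw [show w = w * (∑ i, u i * b i) * x + w * (1 - (∑ i, u i * b i) * x) by noncomm_ring]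
    exact Submodule.add_mem_sup ⟨_, rfl⟩ (mem_extI_iff.1 (Ideal.Quotient.eq_zero_iff_mem.1 h0))

end Pool.Agent.SU
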