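import Pool.Agent.P.MP_c1f06d_ag.su.VGen
import Pool.Agent.P.MP_c1f06d_ag.su.VSep

namespace Pool.Agent.SU

open IsLocalRing

variable {O A : Type*} [CommRing O] [IsDomain O] [IsLocalRing O] [Infinite (ResidueField O)]
  [Ring A] [Algebra O A] [Module.Finite O A] [Module.Free O A] [StarRing A] [StarFix O A]

theorem vgam_cen_star {A : Type*} [Ring A] [StarRing A] {z : A} (hz : Cen z) : Cen (star z) :=
  fun b => by rw [← star_star b, ← star_mul, ← star_mul, hz]

theorem vgam_half {A : Type*} [Ring A] [StarRing A] {θ : A} (hθ : Cen θ)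
    (hd : IsUnit (θ - star θ)) : ∃ l : A, Cen l ∧ l + star l = 1 := by
  obtain ⟨u, hu⟩ := hd
  have hθ' := vgam_cen_star hθ
  have huc : Cen (u : A) := fun b => by rw [hu, sub_mul, mul_sub, hθ, hθ']
  have hui : Cen ((u⁻¹ : Aˣ) : A) := fun b => by
    rw [Units.inv_mul_eq_iff_eq_mul, ← mul_assoc, huc, Units.mul_inv_cancel_right]
  refine ⟨(u⁻¹ : Aˣ) * θ, fun b => ?_, ?_⟩
  · rw [mul_assoc, hθ, ← mul_assoc, hui, mul_assoc]
  · have h1 : (u : A) * ((u⁻¹ : Aˣ) * θ) = θ := Units.mul_inv_cancel_left u θ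
    have h2 : star (u : A) = -(u : A) := by rw [hu, star_sub, star_star, neg_sub]
    have h3 : star (((u⁻¹ : Aˣ) : A) * θ) * (u : A) = -star θ := by
      have := congrArg star h1
      rw [star_mul, h2, mul_neg] at this
      rw [← this, neg_neg]
    apply (Units.mul_right_inj u).1
    rw [mul_add, h1, huc, h3, mul_one, hu, sub_eq_add_neg]

omit [IsDomain O] [Infinite (ResidueField O)] [Module.Free O A] [StarRing A] [StarFix O A] in
theorem vgam_inv {c : O} (hc : c ∈ maximalIdeal O) {s n : A} (hn : s * s - s = (c * c) • n)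
    (hsn : s * n = n * s) :
    ∃ γ' : A, γ' * (1 - s + c • s) = algebraMap O A c ∧ (1 - s + c • s) * γ' = algebraMap O A c ∧
      qm (maximalIdeal O) γ' = qm (maximalIdeal O) s := by
  have hss : s * s = s + (c * c) • n := by rw [← hn]; abel
  have hv1 : qm (maximalIdeal O) (1 - (c * (1 - c) ^ 2) • n) = 1 := by
    rw [map_sub, map_one, qm_smul (Ideal.mul_mem_right _ _ hc), sub_zero]
  obtain ⟨v, hv⟩ : IsUnit (1 - (c * (1 - c) ^ 2) • n) :=
    isUnit_of_qm (T := O) (by rw [hv1]; exact isUnit_one)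
  have e1 : (s + c • (1 - s)) * (1 - s + c • s) = c • (v : A) := by
    rw [hv]
    simp only [mul_add, add_mul, mul_sub, sub_mul, smul_mul_assoc, mul_smul_comm, one_mul,
      mul_one, hss]
    module
  have e2 : (1 - s + c • s) * (s + c • (1 - s)) = c • (v : A) := by
    rw [hv]
    simp only [mul_add, add_mul, mul_sub, sub_mul, smul_mul_assoc, mul_smul_comm, one_mul,
      mul_one, hss]
    module
  have e3 : (v : A) * (1 - s + c • s) = (1 - s + c • s) * v := by
    rw [hv]
    simp only [mul_add, add_mul, mul_sub, sub_mul, smul_mul_assoc, mul_smul_comm, one_mul,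
      mul_one, hsn]
    module
  have e4 : (1 - s + c • s) * ((v⁻¹ : Aˣ) : A) = (v⁻¹ : Aˣ) * (1 - s + c • s) := by
    rw [Units.eq_inv_mul_iff_mul_eq, ← mul_assoc, e3, Units.mul_inv_cancel_right]
  have e5 : ((v⁻¹ : Aˣ) : A) * (c • (v : A)) = algebraMap O A c := by
    rw [mul_smul_comm, Units.inv_mul, Algebra.algebraMap_eq_smul_one]
  refine ⟨(v⁻¹ : Aˣ) * (s + c • (1 - s)), ?_, ?_, ?_⟩
  · rw [mul_assoc, e1, e5]
  · rw [← mul_assoc, e4, mul_assoc, e2, e5]
  · have e6 : qm (maximalIdeal O) ((v⁻¹ : Aˣ) : A) = 1 := by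
      have : qm (maximalIdeal O) (((v⁻¹ : Aˣ) : A) * v) = 1 := by rw [Units.inv_mul, map_one]
      rwa [map_mul, hv, hv1, mul_one] at this
    rw [map_mul, e6, one_mul, map_add, qm_smul hc, add_zero]

/-- Step (H): the element `1 - s + c s`. -/
theorem vgam {θ : A} (hθ : Cen θ) (hd : IsUnit (θ - star θ)) {c : O} (hc : c ∈ maximalIdeal O)
    (hc0 : c ≠ 0) {π1 t : A}
    (hπ : qm (Ideal.span {c}) π1 * qm (Ideal.span {c}) π1 = qm (Ideal.span {c}) π1)
    (ht : IsUnit t) (htπ : qm (Ideal.span {c}) (t * π1) = qm (Ideal.span {c}) (star π1 * t)) :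
    ∃ h s γ' : A, IsUnit h ∧ star (h * (1 - s + c • s)) = h * (1 - s + c • s) ∧
      qm (Ideal.span {c}) s = qm (Ideal.span {c}) π1 ∧
      γ' * (1 - s + c • s) = algebraMap O A c ∧ (1 - s + c • s) * γ' = algebraMap O A c ∧
      qm (maximalIdeal O) γ' = qm (maximalIdeal O) π1 := by
  have hθ' := vgam_cen_star hθ
  obtain ⟨r, hh⟩ := vgen (T := O) (t' := star t) hθ hθ' hd ht
  obtain ⟨l, hl, hl1⟩ := vgam_half hθ hd
  have hl' := vgam_cen_star hl
  have hlam : Cen (algebraMap O A r + θ) := fun b => by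
    rw [add_mul, mul_add, hθ, Algebra.commutes]
  have hlams : algebraMap O A r + star θ = star (algebraMap O A r + θ) := by
    rw [star_add, StarFix.fix]
  rw [hlams] at hh
  generalize algebraMap O A r + θ = lam at hh hlam
  have hlam' := vgam_cen_star hlam
  obtain ⟨h, hh⟩ := hh
  have hsym : star (h : A) = h := by
    rw [hh, star_add, star_mul, star_mul, star_star, star_star, ← hlam, ← hlam', add_comm]
  have htπ' : qm (Ideal.span {c}) (star t * π1) = qm (Ideal.span {c}) (star π1 * star t) := by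
    have := congrArg star htπ
    rw [← qm_star, ← qm_star, star_mul, star_mul, star_star] at this
    exact this.symm
  have hhπ : qm (Ideal.span {c}) (star π1 * h) = qm (Ideal.span {c}) (h * π1) := by
    rw [hh, mul_add, add_mul, ← mul_assoc, ← mul_assoc, ← hlam, ← hlam', mul_assoc, mul_assoc,
      mul_assoc, mul_assoc, map_add, map_add, map_mul _ lam, map_mul _ lam, map_mul _ (star lam),
      map_mul _ (star lam), htπ, htπ']
  obtain ⟨s1, hs1⟩ : ∃ s1 : A, (h : A) * s1 = l * (h * π1) + star l * star (h * π1) :=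
    ⟨(h⁻¹ : Aˣ) * _, Units.mul_inv_cancel_left h _⟩
  have hs1s : star s1 * h = h * s1 := by
    have : star ((h : A) * s1) = h * s1 := by
      rw [hs1, star_add, star_mul l, star_mul (star l), star_star, star_star, ← hl, ← hl',
        add_comm]
    rwa [star_mul, hsym] at this
  have hs1π : qm (Ideal.span {c}) s1 = qm (Ideal.span {c}) π1 := by
    have e : qm (Ideal.span {c}) ((h : A) * s1) = qm (Ideal.span {c}) (h * π1) := by
      rw [hs1, map_add, map_mul _ l, map_mul _ (star l), star_mul, hsym, hhπ, ← add_mul, ← map_add,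
        hl1, map_one, one_mul]
    rw [map_mul, map_mul] at e
    exact (h.isUnit.map (qm (Ideal.span {c}))).mul_left_cancel e
  obtain ⟨n1, hn1⟩ : ∃ n1, s1 * s1 - s1 = c • n1 :=
    qm_span_eq_iff.1 (by rw [map_mul, hs1π, hπ])
  obtain ⟨s, hs⟩ : ∃ s : A, s = 3 * (s1 * s1) - 2 * (s1 * s1 * s1) := ⟨_, rfl⟩
  have hn : s * s - s = (c * c) • (n1 * n1 * (4 * (s1 * s1) - 4 * s1 - 3)) := by
    rw [← smul_mul_assoc, ← smul_mul_smul_comm, ← hn1, hs]
    noncomm_ring
  generalize n1 * n1 * (4 * (s1 * s1) - 4 * s1 - 3) = n at hn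
  have hsn : s * n = n * s := by
    apply smul_right_injective A (mul_ne_zero hc0 hc0)
    simp only
    rw [← mul_smul_comm, ← smul_mul_assoc, ← hn]
    noncomm_ring
  have hsπ : qm (Ideal.span {c}) s = qm (Ideal.span {c}) π1 := by
    rw [hs]
    simp only [map_sub, map_mul, map_ofNat, hs1π, hπ]
    noncomm_ring
  have hss : star s * h = h * s := by
    have e2 : star (s1 * s1) * h = h * (s1 * s1) := by
      rw [star_mul, mul_assoc, hs1s, ← mul_assoc, hs1s, mul_assoc]
    have e3 : star (s1 * s1 * s1) * h = h * (s1 * s1 * s1) := by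
      rw [star_mul, mul_assoc, e2, ← mul_assoc, hs1s]
      simp only [mul_assoc]
    have e4 : s = s1 * s1 + s1 * s1 + s1 * s1 - (s1 * s1 * s1 + s1 * s1 * s1) := by
      rw [hs]; noncomm_ring
    rw [e4]
    simp only [star_sub, star_add, sub_mul, add_mul, mul_sub, mul_add, e2, e3]
  obtain ⟨γ', g1, g2, g3⟩ := vgam_inv hc hn hsn
  refine ⟨h, s, γ', h.isUnit, ?_, hsπ, g1, g2, g3.trans (qm_mono ?_ hsπ)⟩
  · rw [star_mul, hsym, star_add, star_sub, star_one, star_smul_fix, add_mul, sub_mul,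
      smul_mul_assoc, hss, mul_add, mul_sub, mul_smul_comm, one_mul, mul_one]
  · exact (Ideal.span_singleton_le_iff_mem _).2 hc

end Pool.Agent.SU
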