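import Pool.Agent.P.MP_c1f06d_ag.su.VDefs
import Pool.Agent.P.MP_c1f06d_ag.Avoid

namespace Pool.Agent.SU

open IsLocalRing Polynomial Pool.Agent.P.MP_c1f06d_ag

variable {T A : Type*} [CommRing T] [IsLocalRing T] [Ring A] [Algebra T A] [Module.Finite T A]

omit [IsLocalRing T] in
/-- A unit of a finite algebra lying in a subalgebra is a unit of the subalgebra. -/
theorem vgen_isUnit_sub (C : Subalgebra T A) {x : C} (hx : IsUnit (x : A)) : IsUnit x := by
  obtain ⟨u, hu⟩ := hx
  have hint : IsIntegral T (↑u⁻¹ : A) := Algebra.IsIntegral.isIntegral _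
  have hmem : (↑u⁻¹ : A) ∈ Algebra.adjoin T {(u : A)} := by
    obtain ⟨p, hp, hp0⟩ := hint
    -- `v ^ n + lower terms = 0`; multiply by `u ^ (n - 1)`.
    have key : ∀ (n : ℕ) (q : T[X]), q.natDegree ≤ n →
        (u : A) ^ n * aeval (↑u⁻¹ : A) q ∈ Algebra.adjoin T {(u : A)} := by
      intro n q hq
      rw [aeval_eq_sum_range' (Nat.lt_succ_of_le hq), Finset.mul_sum]
      refine Subalgebra.sum_mem _ fun i hi => ?_
      have hi' : i ≤ n := Nat.lt_succ_iff.1 (Finset.mem_range.1 hi)
      rw [mul_smul_comm]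
      refine Subalgebra.smul_mem _ ?_ _
      obtain ⟨k, rfl⟩ := Nat.exists_eq_add_of_le' hi'
      rw [pow_add, mul_assoc, ← Units.val_pow_eq_pow_val u i, ← Units.val_pow_eq_pow_val u⁻¹ i,
        ← Units.val_mul, inv_pow, mul_inv_cancel, Units.val_one, mul_one]
      exact Subalgebra.pow_mem _ (Algebra.self_mem_adjoin_singleton T _) _
    rcases subsingleton_or_nontrivial T with hT | hT
    · have : Subsingleton A := Module.subsingleton T A
      rw [Subsingleton.elim (↑u⁻¹ : A) 0]
      exact zero_mem _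
    rcases Nat.eq_zero_or_pos p.natDegree with h0 | h0
    · have h1 : p = 1 := hp.natDegree_eq_zero.1 h0
      rw [h1, eval₂_one] at hp0
      have : Subsingleton A := subsingleton_of_zero_eq_one hp0.symm
      rw [Subsingleton.elim (↑u⁻¹ : A) 0]
      exact zero_mem _
    obtain ⟨m, hm⟩ : ∃ m, p.natDegree = m + 1 := ⟨p.natDegree - 1, by omega⟩
    have h2 : p = X ^ (m + 1) + p.eraseLead := by
      conv_lhs => rw [← p.eraseLead_add_C_mul_X_pow, hp.leadingCoeff, C_1, one_mul, hm, add_comm]
    have h3 : p.eraseLead.natDegree ≤ m := by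
      have := p.eraseLead_natDegree_le
      omega
    have h4 : (↑u⁻¹ : A) ^ (m + 1) = -aeval (↑u⁻¹ : A) p.eraseLead := by
      rw [← aeval_def, h2, map_add, aeval_X_pow] at hp0
      exact eq_neg_of_add_eq_zero_left hp0
    have h5 : (↑u⁻¹ : A) = (u : A) ^ m * (↑u⁻¹ : A) ^ (m + 1) := by
      rw [pow_succ, ← mul_assoc, ← Units.val_pow_eq_pow_val u m, ← Units.val_pow_eq_pow_val,
        ← Units.val_mul, inv_pow, mul_inv_cancel, Units.val_one, one_mul]
    rw [h5, h4, mul_neg]
    exact neg_mem (key m _ h3)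
  have hC : (↑u⁻¹ : A) ∈ C :=
    (Algebra.adjoin_le (by rw [Set.singleton_subset_iff, hu]; exact x.2) :
      Algebra.adjoin T {(u : A)} ≤ C) hmem
  exact ⟨⟨x, ⟨_, hC⟩, Subtype.ext (by simp [← hu]), Subtype.ext (by simp [← hu])⟩, rfl⟩

theorem vgen [Infinite (ResidueField T)] {θ θ' t t' : A} (hθ : Cen θ) (hθ' : Cen θ')
    (hd : IsUnit (θ - θ')) (ht : IsUnit t) :
    ∃ r : T, IsUnit ((algebraMap T A r + θ) * t + (algebraMap T A r + θ') * t') := by
  obtain ⟨u, rfl⟩ := ht
  set c : A := ↑u⁻¹ * t' with hc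
  have ht' : t' = u * c := by rw [hc, ← mul_assoc, Units.mul_inv, one_mul]
  have hcomm : ∀ a ∈ ({θ, θ', c} : Set A), ∀ b ∈ ({θ, θ', c} : Set A), a * b = b * a := by
    intro a ha b hb
    rcases ha with rfl | rfl | ha
    · exact hθ b
    · exact hθ' b
    rcases hb with rfl | rfl | hb
    · exact (hθ a).symm
    · exact (hθ' a).symm
    rw [Set.mem_singleton_iff.1 ha, Set.mem_singleton_iff.1 hb]
  let C : Subalgebra T A := Algebra.adjoin T ({θ, θ', c} : Set A)
  have hmc : IsMulCommutative C := Algebra.isMulCommutative_adjoin T hcomm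
  let _ : CommRing C := { (inferInstance : Ring C) with mul_comm := hmc.is_comm.comm }
  have hft : Algebra.FiniteType T C :=
    (Subalgebra.fg_iff_finiteType C).1 ⟨(Set.toFinite ({θ, θ', c} : Set A)).toFinset, by simp [C]⟩
  have hin : Algebra.IsIntegral T C := ⟨fun x =>
    (isIntegral_algHom_iff C.val Subtype.val_injective).1 (Algebra.IsIntegral.isIntegral _)⟩
  have hfin : Module.Finite T C := Algebra.IsIntegral.finite
  let a : C := ⟨θ, Algebra.subset_adjoin (by simp)⟩
  let a' : C := ⟨θ', Algebra.subset_adjoin (by simp)⟩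
  let g : C := ⟨c, Algebra.subset_adjoin (by simp)⟩
  have hd' : IsUnit (a - a') := vgen_isUnit_sub C hd
  have hev := eventually_notMem (R := T) (T := C)
    (fun _ => Polynomial.C (1 + g) * X + Polynomial.C (a + a' * g)) (fun n => by
      by_contra hcon
      have h0 : a + a' * g ∈ n.asIdeal := by
        by_contra h
        exact hcon ⟨0, by simpa using h⟩
      have h1 : 1 + g ∈ n.asIdeal := by
        by_contra h
        exact hcon ⟨1, by simpa [coeff_C] using h⟩
      have h2 : a - a' ∈ n.asIdeal := by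
        have : a - a' = (a + a' * g) - a' * (1 + g) := by ring
        rw [this]
        exact sub_mem h0 (Ideal.mul_mem_left _ _ h1)
      exact n.isMaximal.ne_top (Ideal.eq_top_of_isUnit_mem _ h2 hd'))
  have := gen_neBot (R := T)
  obtain ⟨r, hr⟩ := hev.exists
  have hu : IsUnit ((1 + g) * algebraMap T C r + (a + a' * g)) := by
    by_contra hu
    obtain ⟨m, hm, hmem⟩ := exists_max_ideal_of_mem_nonunits (mem_nonunits_iff.2 hu)
    exact hr ⟨m, hm⟩ (by simpa using hmem)
  have hu' : IsUnit ((1 + c) * algebraMap T A r + (θ + θ' * c)) := hu.map C.val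
  refine ⟨r, ?_⟩
  have e : (algebraMap T A r + θ) * u + (algebraMap T A r + θ') * t' =
      u * ((1 + c) * algebraMap T A r + (θ + θ' * c)) := by
    have k : ∀ x y z w : A, x * u = u * x → y * u = u * y → z * u = u * z →
        (x + y) * u + (x + z) * (u * w) = u * (x * (1 + w) + (y + z * w)) := by
      intro x y z w h1 h2 h3
      rw [add_mul, add_mul, ← mul_assoc, ← mul_assoc, h1, h2, h3]
      noncomm_ring
    rw [← Algebra.commutes r (1 + c), ← k _ _ _ c (Algebra.commutes r _) (hθ u) (hθ' u), ← ht']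
  rw [e]
  exact u.isUnit.mul hu'

end Pool.Agent.SU
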