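import Pool.Agent.P.MP_c1f06d_ag.su.VDefs

namespace Pool.Agent.SU

open IsLocalRing

section
variable {O : Type*} [CommRing O] {M : Type*} [AddCommGroup M] [Module O M]

theorem lay_mem_smul_top {ι : Type*} [Fintype ι] (b : Module.Basis ι O M) (I : Ideal O) (x : M) :
    x ∈ I • (⊤ : Submodule O M) ↔ ∀ i, b.repr x i ∈ I := by
  constructor
  · intro hx i
    refine Submodule.smul_induction_on (p := fun x => b.repr x i ∈ I) hx ?_ ?_
    · intro r hr y _
      simpa using I.mul_mem_right _ hr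
    · intro y z hy hz
      simpa using I.add_mem hy hz
  · intro h
    rw [← b.sum_repr x]
    exact Submodule.sum_mem _ fun i _ => Submodule.smul_mem_smul (h i) trivial

theorem lay_map_mem {M' : Type*} [AddCommGroup M'] [Module O M'] (g : M →ₗ[O] M')
    (I : Ideal O) {x : M} (hx : x ∈ I • (⊤ : Submodule O M)) :
    g x ∈ I • (⊤ : Submodule O M') := by
  refine Submodule.smul_induction_on (p := fun x => g x ∈ I • (⊤ : Submodule O M')) hx ?_ ?_
  · intro r hr y _
    rw [map_smul]; exact Submodule.smul_mem_smul hr trivial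
  · intro y z hy hz
    rw [map_add]; exact add_mem hy hz

/-- an idempotent with range in `N` whose complement sends `N` into `m M`. -/
theorem lay_idem [IsLocalRing O] [Module.Finite O M] [Module.Free O M] (N : Submodule O M) :
    ∃ p : M →ₗ[O] M, (∀ y, p y ∈ N) ∧ (∀ y, p (p y) = p y) ∧
      ∀ y ∈ N, y - p y ∈ maximalIdeal O • (⊤ : Submodule O M) := by
  classical
  let P : ℕ → Prop := fun s => ∃ (v : Fin s → M) (φ : Fin s → M →ₗ[O] O),
    (∀ i, v i ∈ N) ∧ ∀ i j, φ i (v j) = if i = j then 1 else 0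
  have hb : ∀ s, P s → s ≤ Module.finrank O M := by
    rintro s ⟨v, φ, -, h⟩
    have : LinearIndependent O v := by
      rw [Fintype.linearIndependent_iff]
      intro g hg i
      have := congrArg (φ i) hg
      simpa [map_sum, h] using this
    simpa using this.fintype_card_le_finrank
  have h0 : P 0 := ⟨Fin.elim0, Fin.elim0, fun i => i.elim0, fun i => i.elim0⟩
  obtain ⟨s, ⟨v, φ, hv, h⟩, hs⟩ : ∃ s, P s ∧ ¬ P (s + 1) :=
    ⟨_, Nat.findGreatest_spec (Nat.zero_le (Module.finrank O M)) h0, fun h =>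
      Nat.findGreatest_is_greatest (Nat.lt_succ_self _) (hb _ h) h⟩
  let p : M →ₗ[O] M := ∑ i, (φ i).smulRight (v i)
  have hp : ∀ y, p y = ∑ i, φ i y • v i := fun y => by simp [p]
  have hpv : ∀ j, p (v j) = v j := fun j => by simp [hp, h]
  have hφ : ∀ i y, φ i (p y) = φ i y := fun i y => by simp [hp, map_sum, h]
  have hN : ∀ y, p y ∈ N := fun y => by
    rw [hp]; exact N.sum_mem fun i _ => N.smul_mem _ (hv i)
  have hpp : ∀ y, p (p y) = p y := fun y => by rw [hp (p y), hp y]; simp only [← hp, hφ]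
  refine ⟨p, hN, hpp, fun y hy => ?_⟩
  by_contra hne
  let b := Module.Free.chooseBasis O M
  rw [lay_mem_smul_top b] at hne
  push Not at hne
  obtain ⟨i, hi⟩ := hne
  obtain ⟨u, hu⟩ : IsUnit (b.repr (y - p y) i) := by
    simpa using hi
  let ψ : M →ₗ[O] O := (↑u⁻¹ : O) • ((b.coord i).comp (LinearMap.id - p))
  have hψ : ∀ z, ψ z = (↑u⁻¹ : O) * b.repr (z - p z) i := fun z => by simp [ψ]
  have : P (s + 1) := by
    refine ⟨Fin.cons (y - p y) v, Fin.cons ψ φ, ?_, ?_⟩
    · intro j
      refine Fin.cases ?_ (fun j => ?_) j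
      · exact N.sub_mem hy (hN y)
      · exact hv j
    · intro j k
      refine Fin.cases ?_ (fun j => ?_) j <;> refine Fin.cases ?_ (fun k => ?_) k
      · simp only [Fin.cons_zero, hψ, map_sub p, hpp, sub_self, sub_zero, ← hu]
        simp
      · simp only [Fin.cons_zero, Fin.cons_succ, hψ, hpv, sub_self]
        simp [(Fin.succ_ne_zero k).symm]
      · simp [hφ]
      · simp [h]
  exact hs this

theorem lay_core [IsDomain O] [ValuationRing O] [Module.Finite O M] [Module.Free O M]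
    (N : Submodule O M) (hN : N.FG) {f : O} (hf : f ≠ 0) (hfN : ∀ y, f • y ∈ N) (hne : N ≠ ⊤) :
    ∃ c ∈ maximalIdeal O, c ≠ 0 ∧ ∃ p : M →ₗ[O] M, (∀ y, p y ∈ N) ∧
      (∀ y ∈ N, ∃ z, y - p y = c • z) ∧
      ∃ w, c • w ∈ N ∧ w ∉ N ⊔ maximalIdeal O • (⊤ : Submodule O M) := by
  classical
  obtain ⟨p, hp, hpp, hm⟩ := lay_idem N
  obtain ⟨n, g, hg⟩ := Submodule.fg_iff_exists_fin_generating_family.1 hN
  let b := Module.Free.chooseBasis O M
  have hgN : ∀ j, g j ∈ N := fun j => hg ▸ Submodule.subset_span ⟨j, rfl⟩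
  let co : Fin n × Module.Free.ChooseBasisIndex O M → O := fun t => b.repr (g t.1 - p (g t.1)) t.2
  have hspan : ∀ c : O, (∀ t, c ∣ co t) → ∀ y ∈ N, ∃ z, y - p y = c • z := by
    intro c hc y hy
    rw [← hg] at hy
    induction hy using Submodule.span_induction with
    | mem x hx =>
      obtain ⟨j, rfl⟩ := hx
      choose d hd using fun i => hc (j, i)
      refine ⟨∑ i, d i • b i, ?_⟩
      rw [← b.sum_repr (g j - p (g j)), Finset.smul_sum]
      exact Finset.sum_congr rfl fun i _ => by rw [smul_smul, ← hd i]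
    | zero => exact ⟨0, by simp⟩
    | add x y _ _ hx hy =>
      obtain ⟨z1, h1⟩ := hx
      obtain ⟨z2, h2⟩ := hy
      exact ⟨z1 + z2, by rw [smul_add, ← h1, ← h2, map_add]; abel⟩
    | smul r x _ hx =>
      obtain ⟨z, h⟩ := hx
      exact ⟨r • z, by rw [smul_comm, ← h, map_smul, smul_sub]⟩
  have hex : ∃ t, co t ≠ 0 := by
    by_contra h0
    push Not at h0
    apply hne
    rw [eq_top_iff]
    intro y _
    obtain ⟨z, hz⟩ := hspan 0 (fun t => by rw [h0 t]) _ (hfN y)
    rw [zero_smul, map_smul, ← smul_sub] at hz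
    have := (smul_eq_zero.1 hz).resolve_left hf
    rw [sub_eq_zero.1 this]; exact hp y
  obtain ⟨t0, ht0⟩ := hex
  obtain ⟨t, ht⟩ : ∃ t, ∀ t', co t ∣ co t' := by
    have : ∀ F : Finset (Fin n × Module.Free.ChooseBasisIndex O M),
        ∃ t, ∀ t' ∈ F, co t ∣ co t' := by
      intro F
      induction F using Finset.induction_on with
      | empty => exact ⟨t0, by simp⟩
      | insert a F _ ih =>
        obtain ⟨t, ht⟩ := ih
        rcases ValuationRing.dvd_total (co t) (co a) with h | h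
        · exact ⟨t, by simpa using ⟨h, by simpa using ht⟩⟩
        · refine ⟨a, fun t' ht' => ?_⟩
          rcases Finset.mem_insert.1 ht' with rfl | ht'
          · exact dvd_rfl
          · exact h.trans (ht t' ht')
    obtain ⟨t, ht⟩ := this Finset.univ
    exact ⟨t, fun t' => ht t' (Finset.mem_univ _)⟩
  have hc0 : co t ≠ 0 := fun h => ht0 (zero_dvd_iff.1 (h ▸ ht t0))
  obtain ⟨w, hw⟩ := hspan _ ht _ (hgN t.1)
  refine ⟨co t, (lay_mem_smul_top b _ _).1 (hm _ (hgN t.1)) t.2, hc0, p, hp, hspan _ ht, w,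
    hw ▸ N.sub_mem (hgN _) (hp _), fun hmem => ?_⟩
  have hpw : p w = 0 := by
    have : co t • p w = 0 := by rw [← map_smul, ← hw, map_sub, hpp, sub_self]
    exact (smul_eq_zero.1 this).resolve_left hc0
  have hw1 : b.repr w t.2 = 1 := by
    have : co t = co t * b.repr w t.2 := by
      have := congrArg (fun x => b.repr x t.2) hw
      simpa [co] using this
    exact (mul_left_cancel₀ hc0 (this.symm.trans (mul_one _).symm))
  obtain ⟨y, hy, z, hz, hyz⟩ := Submodule.mem_sup.1 hmem
  have : w ∈ maximalIdeal O • (⊤ : Submodule O M) := by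
    have e : w = (y - p y) + (z - p z) := by
      have : p y + p z = 0 := by rw [← map_add, hyz, hpw]
      rw [← hyz, ← sub_zero (y + z), ← this]; abel
    rw [e]
    exact add_mem (hm y hy) (sub_mem hz (lay_map_mem p _ hz))
  have := (lay_mem_smul_top b _ _).1 this t.2
  rw [hw1] at this
  exact (maximalIdeal.isMaximal O).ne_top ((Ideal.eq_top_iff_one _).2 this)

end

/-- The first layer of a torsion quotient of a free module over a valuation ring. -/
theorem vlay {O M : Type*} [CommRing O] [IsDomain O] [ValuationRing O] [AddCommGroup M]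
    [Module O M] [Module.Finite O M] [Module.Free O M] (N : Submodule O M) (hN : N.FG)
    {f : O} (hf : f ≠ 0) (hfN : ∀ y, f • y ∈ N) (hne : N ≠ ⊤) :
    ∃ (c : O) (p : M →ₗ[O] M) (w : M), c ∈ maximalIdeal O ∧ c ≠ 0 ∧ (∀ y, p y ∈ N) ∧
      (∀ y ∈ N, ∃ n, p y - y = c • n) ∧ c • w ∈ N ∧
      w ∉ N ⊔ maximalIdeal O • (⊤ : Submodule O M) := by
  obtain ⟨c, h1, h2, p, h3, h4, w, h5, h6⟩ := lay_core N hN hf hfN hne
  refine ⟨c, p, w, h1, h2, h3, fun y hy => ?_, h5, h6⟩
  obtain ⟨z, hz⟩ := h4 y hy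
  exact ⟨-z, by rw [smul_neg, ← hz, neg_sub]⟩

end Pool.Agent.SU
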