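import Pool.Agent.P.MP_c1f06d_ag.su.VPi
import Pool.Agent.P.MP_c1f06d_ag.su.VGam

namespace Pool.Agent.SU

open IsLocalRing

/-- The left annihilator. -/
def lann {S : Type*} [Ring S] (y : S) : Ideal S := LinearMap.ker (LinearMap.toSpanSingleton S S y)

theorem mem_lann {S : Type*} [Ring S] {y a : S} : a ∈ lann y ↔ a * y = 0 := Iff.rfl

section
variable {T A : Type*} [CommRing T] [IsLocalRing T] [Ring A] [Algebra T A] [Module.Finite T A]

/-- Step (U). -/
theorem vunit {I : Ideal T} (hI : I ≤ maximalIdeal T) {ε π π1 w : A} (h0 : qm I ε * qm I π = 0)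
    (h1 : qm I π1 * qm I π1 = qm I π1) (h2 : qm I π * qm I π1 = qm I π1)
    (h3 : qm I π1 * qm I π = qm I π1) (hf : Full (qm (maximalIdeal T) π1))
    (hw : qm (maximalIdeal T) (w * π) ≠ 0) :
    ∃ u, IsUnit u ∧ qm I ε * qm I u * qm I π1 = 0 ∧ qm (maximalIdeal T) (w * u * π1) ≠ 0 := by
  have h4 : qm I ε * qm I π1 = 0 := by rw [← h2, ← mul_assoc, h0, zero_mul]
  by_cases hc : qm (maximalIdeal T) (w * π1) = 0
  · obtain ⟨s, hs⟩ : ∃ s, qm (maximalIdeal T) (w * π) * s * qm (maximalIdeal T) π1 ≠ 0 := by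
      by_contra hn
      push Not at hn
      exact hw (hf _ hn)
    obtain ⟨s, rfl⟩ := qm_surjective _ s
    have h5 : qm I π1 * (qm I π - qm I π1) = 0 := by rw [mul_sub, h3, h1, sub_self]
    have hn : qm I ((π - π1) * s * π1 * ((π - π1) * s * π1)) = qm I 0 := by
      simp only [map_mul, map_sub, map_zero]
      rw [mul_assoc, mul_assoc (qm I π - qm I π1) _ (qm I π1) , ← mul_assoc (qm I π1), h5, zero_mul,
        mul_zero]
    have hn' := qm_mono hI hn
    rw [map_mul, map_zero] at hn'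
    refine ⟨1 + (π - π1) * s * π1, isUnit_of_qm (T := T) ?_, ?_, ?_⟩
    · rw [map_add, map_one]
      exact IsNilpotent.isUnit_one_add ⟨2, by rw [pow_two, hn']⟩
    · simp only [map_add, map_mul, map_sub, map_one]
      rw [mul_add, mul_one, add_mul, h4, zero_add, ← mul_assoc, ← mul_assoc, mul_sub, h0, h4,
        sub_self, zero_mul, zero_mul, zero_mul]
    · have h1' : qm (maximalIdeal T) (π1 * π1) = qm (maximalIdeal T) π1 :=
        qm_mono hI (by rw [map_mul, h1])
      have e : w * (1 + (π - π1) * s * π1) * π1 =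
          w * π1 + w * π * s * (π1 * π1) - w * π1 * (s * π1 * π1) := by noncomm_ring
      rw [e, map_sub, map_add, map_mul _ (w * π1), hc, zero_add, zero_mul, sub_zero,
        map_mul _ _ (π1 * π1), h1', map_mul]
      exact hs
  · exact ⟨1, isUnit_one, by rw [map_one, mul_one, h4], by rwa [mul_one]⟩

variable [StarRing A] {ν : A →* A}

omit [Module.Finite T A] in
/-- Step (F). -/
theorem vfull (h : Avg T A) (hν : Nu T ν) {y : A} (hy : qm (maximalIdeal T) (ν y) = 0)
    (z : QA A (maximalIdeal T)) (hz : Cen z) (hz2 : z * z = z) (h0 : z * qm _ (1 - y) = 0) :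
    z = 0 := by
  obtain ⟨z0, hc, rfl⟩ := h.exists_cen _ hz
  obtain ⟨d, hd⟩ := hν.pow
  rw [map_sub, map_one, mul_sub, mul_one, sub_eq_zero, ← map_mul] at h0
  have h1 := hν.cong _ _ h0
  rw [map_mul ν, map_mul, hy, mul_zero, hd z0 hc, map_pow,
    IsIdempotentElem.pow_succ_eq d hz2] at h1
  exact h1

end

variable {O A : Type*} [CommRing O] [IsDomain O] [ValuationRing O] [Infinite (ResidueField O)]
  [Ring A] [Algebra O A] [Module.Finite O A] [Module.Free O A] [StarRing A] [StarFix O A]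
  {ν : A →* A}

omit [ValuationRing O] [Infinite (ResidueField O)] [Module.Finite O A] [StarRing A]
  [StarFix O A] in
theorem vcancel {c : O} (hc : c ≠ 0) {a b : A} (e : a * algebraMap O A c = b * algebraMap O A c) :
    a = b := by
  rw [← Algebra.commutes, ← Algebra.commutes, ← Algebra.smul_def, ← Algebra.smul_def] at e
  exact smul_right_injective A hc e

/-- The induction step. -/
theorem vstep (h : Avg O A) (hν : Nu O ν) {θ : A} (hθ : Cen θ) (hd : IsUnit (θ - star θ))
    {x z : A} {f : O} (hf : f ≠ 0) (hz : IsUnit z) (e : ν x = algebraMap O A f * z)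
    (hx : ¬ IsUnit x) :
    ∃ (x1 u : A) (g : O), IsUnit u ∧ ν x * ν u = ν x1 * algebraMap O A g ∧
      lann (qm (maximalIdeal O) x1) < lann (qm (maximalIdeal O) x) := by
  obtain ⟨x', hx1, hx2⟩ := hν.adj x
  have hfm : f ∈ maximalIdeal O := by
    by_contra hn
    have hu : IsUnit (ν x) := e ▸ ((notMem_maximalIdeal.1 hn).map _).mul hz
    obtain ⟨v, hv1, hv2⟩ := isUnit_iff_exists.1 hu
    refine hx ⟨⟨x, x' * v, by rw [← mul_assoc, hx1, hv1], ?_⟩, rfl⟩
    rw [left_inv_eq_right_inv (a := x) (b := v * x') (c := x' * v)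
      (by rw [mul_assoc, hx2, hv2]) (by rw [← mul_assoc, hx1, hv1]) |>.symm, mul_assoc, hx2, hv2]
  obtain ⟨z', -, hz'⟩ := isUnit_iff_exists.1 hz
  obtain ⟨c, b, w, a, hc, hc0, hε, ha, hw⟩ := h.exists_eps (x := x) hf
    ⟨z' * x', by rw [mul_assoc, hx2, e, Algebra.commutes, ← mul_assoc, hz', one_mul]⟩ hx
  have hI : Ideal.span {c} ≤ maximalIdeal O := (Ideal.span_singleton_le_iff_mem _).2 hc
  have hεε : qm (Ideal.span {c}) (b * x) * qm (Ideal.span {c}) (b * x) =
      qm (Ideal.span {c}) (b * x) := by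
    rw [map_mul _ b x, mul_assoc, ← map_mul _ b x, ← map_mul, hε, map_mul]
  have h0 : qm (Ideal.span {c}) (b * x) * qm (Ideal.span {c}) (1 - b * x) = 0 := by
    rw [map_sub, map_one, mul_sub, mul_one, hεε, sub_self]
  obtain ⟨π1, t, p1, p2, p3, ht, htπ, hfull⟩ := vpi h hν hI (π := 1 - b * x)
    (by rw [map_sub, map_one]; exact (IsIdempotentElem.one_sub hεε).eq)
    (vfull h hν (by
      rw [map_mul ν, map_mul, e, ← Algebra.smul_def, qm_smul hfm, mul_zero]))
  obtain ⟨k, s, γ', hk, hsym, hs, g1, g2, g3⟩ := vgam hθ hd hc hc0 p1 ht htπ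
  obtain ⟨u, hu, u1, u2⟩ := vunit hI h0 p1 p2 p3 hfull hw
  obtain ⟨n, hn⟩ : ∃ n, x * u * s - 0 = c • n := by
    refine qm_span_eq_iff.1 ?_
    rw [map_mul, map_mul, hs, ← hε, map_mul, mul_assoc, mul_assoc, ← mul_assoc (qm _ (b * x)), u1,
      mul_zero, map_zero]
  obtain ⟨g, hg⟩ := hν.symm _ hsym
  generalize hγ : 1 - s + c • s = γ at *
  have hx1 : (x * u + (n - x * u * s) * γ') * γ = x * u := by
    rw [add_mul, mul_assoc _ γ', g1, ← Algebra.commutes, ← Algebra.smul_def, smul_sub, ← hn, ← hγ,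
      mul_add, mul_smul_comm]
    noncomm_ring
  generalize x * u + (n - x * u * s) * γ' = x1 at hx1
  have ha1 : a * x1 = w * u * γ' := by
    refine vcancel hc0 ?_
    rw [← g2, ← mul_assoc, ← mul_assoc, mul_assoc a, hx1, mul_assoc _ γ', g1, ← mul_assoc, ha,
      ← Algebra.commutes, ← Algebra.smul_def, smul_mul_assoc, smul_mul_assoc]
  refine ⟨x1, u * k, g, hu.mul hk, ?_, lt_of_le_of_ne (fun y hy => ?_) fun hn => u2 ?_⟩
  · rw [map_mul, ← mul_assoc, ← map_mul, ← hx1, ← hg, map_mul, map_mul, mul_assoc, hν.cen γ]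
  · obtain ⟨u', hu', -⟩ := isUnit_iff_exists.1 hu
    rw [mem_lann] at hy ⊢
    rw [← mul_one x, ← hu', ← mul_assoc, ← hx1, map_mul, map_mul, ← mul_assoc, ← mul_assoc, hy,
      zero_mul, zero_mul]
  · have h1 : qm (maximalIdeal O) a ∈ lann (qm (maximalIdeal O) x) := by
      rw [mem_lann, ← map_mul, ha, qm_smul hc]
    rw [← hn, mem_lann, ← map_mul, ha1, map_mul, g3, ← map_mul] at h1
    exact h1

/-- The valuation lemma. -/
theorem valY (h : Avg O A) (hν : Nu O ν) {θ : A} (hθ : Cen θ) (hd : IsUnit (θ - star θ))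
    {x z : A} {f : O} (hf : f ≠ 0) (hz : IsUnit z) (e : ν x = algebraMap O A f * z) :
    ∃ (f1 : O) (u : A), IsUnit u ∧ ν x = algebraMap O A f1 * ν u := by
  have := h.isSemisimpleRing
  have key : ∀ (J : Ideal (QA A (maximalIdeal O))) (x z : A) (f : O),
      lann (qm (maximalIdeal O) x) = J → f ≠ 0 → IsUnit z → ν x = algebraMap O A f * z →
      ∃ (f1 : O) (u : A), IsUnit u ∧ ν x = algebraMap O A f1 * ν u := by
    intro J
    induction J using WellFoundedLT.induction with
    | ind J ih =>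
      rintro x z f rfl hf hz e
      by_cases hx : IsUnit x
      · exact ⟨1, x, hx, by rw [map_one, one_mul]⟩
      obtain ⟨x1, u, g, hu, e1, hlt⟩ := vstep h hν hθ hd hf hz e hx
      have hz1 : IsUnit (z * ν u) := hz.mul (hu.map ν)
      have e2 : z * ν u * algebraMap O A f = ν x1 * algebraMap O A g := by
        rw [← e1, e, ← Algebra.commutes, mul_assoc]
      obtain ⟨f1, u1, hu1, e3⟩ : ∃ (f1 : O) (u : A), IsUnit u ∧ ν x1 = algebraMap O A f1 * ν u := by
        rcases ValuationRing.dvd_total g f with ⟨f', rfl⟩ | ⟨g', rfl⟩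
        · refine ih _ hlt x1 _ f' rfl (right_ne_zero_of_mul hf) hz1
            (vcancel (left_ne_zero_of_mul hf) ?_)
          rw [← e2, Algebra.commutes f', mul_assoc _ _ (algebraMap O A g), ← map_mul, mul_comm f']
        · have e4 : z * ν u = ν x1 * algebraMap O A g' := by
            refine vcancel hf ?_
            rw [e2, mul_assoc, ← map_mul, mul_comm g']
          rw [e4] at hz1
          exact ih _ hlt x1 (ν x1) 1 rfl one_ne_zero
            ((Commute.isUnit_mul_iff (hν.cen x1 _)).1 hz1).1 (by rw [map_one, one_mul])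
      obtain ⟨u', hu', hu''⟩ := isUnit_iff_exists.1 hu
      refine ⟨f1 * g, u1 * u', hu1.mul ⟨⟨u', u, hu'', hu'⟩, rfl⟩, ?_⟩
      rw [← mul_one (ν x), ← map_one ν, ← hu', map_mul, ← mul_assoc, e1, e3, map_mul, map_mul,
        mul_assoc _ (ν u1), ← Algebra.commutes g]
      simp only [mul_assoc]
  exact key _ x z f rfl hf hz e

end Pool.Agent.SU
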