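import Pool.Agent.P.MP_c1f06d_ag.su.VReg
import Pool.Agent.P.MP_c1f06d_ag.su.VSep

namespace Pool.Agent.SU

open IsLocalRing

/-- No nonzero element is killed by the two-sided ideal of `e`. -/
def Full {S : Type*} [Ring S] (e : S) : Prop := ∀ a, (∀ s, a * s * e = 0) → a = 0

section
variable {S : Type*} [Ring S]

theorem vpi_left {z : S} (hz : Cen z) (a b : S) : a * (z * b) = z * (a * b) := by
  rw [← mul_assoc, ← hz a, mul_assoc]

theorem vpi_one_sub {z : S} (hz : Cen z) : Cen (1 - z) := fun b => by
  rw [sub_mul, mul_sub, one_mul, mul_one, hz b]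

theorem vpi_cen_mul {z y : S} (hz : Cen z) (hy : Cen y) : Cen (z * y) := fun b => by
  rw [mul_assoc, hy b, vpi_left hz]

theorem vpi_cen_add {z y : S} (hz : Cen z) (hy : Cen y) : Cen (z + y) := fun b => by
  rw [add_mul, mul_add, hz b, hy b]

theorem vpi_idem_mul {z y : S} (hz : Cen z) (h1 : z * z = z) (h2 : y * y = y) :
    z * y * (z * y) = z * y := by
  rw [mul_assoc, vpi_left hz y y, h2, ← mul_assoc, h1]

theorem vpi_idem_sub {z : S} (h1 : z * z = z) : (1 - z) * (1 - z) = 1 - z := by
  rw [sub_mul, one_mul, mul_sub, mul_one, h1, sub_self, sub_zero]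

theorem vpi_cen_map {S' : Type*} [Ring S'] (φ : S →+* S') (hφ : Function.Surjective φ) {z : S}
    (hz : Cen z) : Cen (φ z) := fun b => by
  obtain ⟨b, rfl⟩ := hφ b
  rw [← map_mul, ← map_mul, hz b]

theorem vpi_cen_star [StarRing S] {z : S} (hz : Cen z) : Cen (star z) := fun b => by
  rw [← star_star b, ← star_mul, ← star_mul, hz]

theorem vpi_pow {z : S} (h : z * z = z) (d : ℕ) : z ^ (d + 1) = z := by
  induction d with
  | zero => rw [zero_add, pow_one]
  | succ d ih => rw [pow_succ, ih, h]

/-- The pseudo-inverse of `p`. -/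
theorem vpi_reg {P P' p q η n0 n1 e0' e1' Di : S} (hP : P * P = P) (hP' : P' * P' = P')
    (h1 : P * p = p) (h2 : p * P' = p) (hη : Cen η) (hn0 : Cen n0) (hn1 : Cen n1) (hD : Cen Di)
    (h0' : e0' * (q * p + 1 - P') = n0) (h1' : (p * q + 1 - P) * e1' = n1)
    (hDi : Di * (η * n0 + (1 - η) * n1) = 1) :
    p * (Di * (η * (e0' * q) + (1 - η) * (q * e1'))) * p = p := by
  have a1 : (q * p + 1 - P') * P' = q * p := by
    rw [sub_mul, add_mul, one_mul, hP', mul_assoc, h2, add_sub_cancel_right]
  have a2 : P * (p * q + 1 - P) = p * q := by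
    rw [mul_sub, mul_add, mul_one, hP, ← mul_assoc, h1, add_sub_cancel_right]
  have b1 : p * (e0' * q) * p = n0 * p := by
    rw [mul_assoc, mul_assoc, ← a1, ← mul_assoc e0', h0', vpi_left hn0, h2]
  have b2 : p * (q * e1') * p = n1 * p := by
    rw [← mul_assoc, ← a2, mul_assoc P, h1', ← hn1 P, mul_assoc, h1]
  rw [vpi_left hD, mul_add, vpi_left hη, vpi_left (vpi_one_sub hη), mul_assoc, add_mul,
    mul_assoc η, mul_assoc (1 - η), b1, b2, ← mul_assoc η, ← mul_assoc (1 - η), ← add_mul,
    ← mul_assoc, hDi, one_mul]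

variable [StarRing S] [IsSemisimpleRing S]

theorem vpi_res {e p q v z : S} (h2 : p * star e = p) (h3 : e * p = p)
    (h4 : star e * v = v) (h5 : v * e = v) (hp : p * v * p = p) (hz : Cen z) (hzz : z * z = z)
    (g1 : z * (q * p) = z * star e) (g2 : (1 - z) * (p * q) = (1 - z) * e)
    (hf : ∀ y : S, Cen y → y * y = y → y * e = 0 → y = 0) :
    Full (p * v) ∧ ∃ t, IsUnit t ∧ t * (p * v) = star (p * v) * t := by
  have hz' := vpi_one_sub hz
  have i1 : z * (v * p) = z * star e := by
    calc z * (v * p) = z * star e * (v * p) := by rw [mul_assoc, ← mul_assoc (star e), h4]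
      _ = z * (q * (p * v * p)) := by rw [← g1]; simp only [mul_assoc]
      _ = z * star e := by rw [hp, g1]
  have i2 : (1 - z) * (p * v) = (1 - z) * e := by
    calc (1 - z) * (p * v) = p * v * ((1 - z) * e) := by
          rw [vpi_left hz', mul_assoc p, h5]
      _ = (1 - z) * (p * v * p * q) := by rw [← g2, vpi_left hz', mul_assoc (p * v)]
      _ = (1 - z) * e := by rw [hp, g2]
  have hidem : p * v * (p * v) = p * v := by rw [← mul_assoc, hp]
  refine ⟨fun a ha => ?_, ?_⟩
  · obtain ⟨y, hy, hyy, hya, hy0⟩ := vci ha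
    have j1 : y * (1 - z) = 0 := hf _ (vpi_cen_mul hy hz') (vpi_idem_mul hy hyy (vpi_idem_sub hzz))
      (by rw [mul_assoc, ← i2, ← vpi_left hy, hy0, mul_zero])
    have j2 : y * p = 0 := by rw [← hp, ← mul_assoc, hy0, zero_mul]
    have j3 : y * z * star e = 0 := by
      rw [mul_assoc, ← g1, ← vpi_left hy, ← vpi_left hy, j2, mul_zero, mul_zero]
    have hc := vpi_cen_star (vpi_cen_mul hy hz)
    have j4 : star (y * z) = 0 := hf _ hc
      (by rw [← star_mul, vpi_idem_mul hy hyy hzz])
      (by rw [hc e, ← star_star e, ← star_mul, j3, star_zero])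
    have j5 : y * z = 0 := star_eq_zero.1 j4
    rw [mul_sub, mul_one, j5, sub_zero] at j1
    rw [← hya, j1, zero_mul]
  · have hy := vpi_cen_star hz
    have hy' := vpi_one_sub hy
    have hyy : star z * star z = star z := by rw [← star_mul, hzz]
    have k1 : star z * star (v * p) = star z * e := by
      have := congrArg star i1
      rw [star_mul, star_mul z, star_star] at this
      rw [hy, hy, this]
    have k2 : (1 - star z) * star (p * v) = (1 - star z) * star e := by
      have := congrArg star i2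
      rw [star_mul, star_mul (1 - z), star_sub, star_one] at this
      rw [hy', hy', this]
    have z1 : star z * (1 - star z) = 0 := by rw [mul_sub, mul_one, hyy, sub_self]
    have z2 : (1 - star z) * star z = 0 := by rw [sub_mul, one_mul, hyy, sub_self]
    have e1 : e * (p * v) = p * v := by rw [← mul_assoc, h3]
    have l1 : (star z * (p * v * star p) + (1 - star z) * p) * star (p * v) =
        star z * (p * v * star p) + (1 - star z) * p := by
      rw [add_mul, mul_assoc, mul_assoc (p * v), ← star_mul, hp, mul_assoc (1 - star z),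
        ← vpi_left hy', k2, vpi_left hy', h2]
    have l2 : (star z * (p * v * star p) + (1 - star z) * p) *
        (star z * (star v * (p * v)) + (1 - star z) * v) = p * v := by
      have m1 : star z * (p * v * star p) * (star z * (star v * (p * v))) = star z * (p * v) := by
        calc _ = p * v * (star z * star (v * p) * (p * v)) := by
              rw [mul_assoc (star z), vpi_left hy, ← mul_assoc (star z), hyy, star_mul v p,
                mul_assoc (star z), vpi_left hy]
              simp only [mul_assoc]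
          _ = star z * (p * v) := by rw [k1, mul_assoc (star z), e1, vpi_left hy, hidem]
      have m2 : star z * (p * v * star p) * ((1 - star z) * v) = 0 := by
        rw [mul_assoc, vpi_left hy', ← mul_assoc, z1, zero_mul]
      have m3 : (1 - star z) * p * (star z * (star v * (p * v))) = 0 := by
        rw [mul_assoc, vpi_left hy, ← mul_assoc, z2, zero_mul]
      have m4 : (1 - star z) * p * ((1 - star z) * v) = (1 - star z) * (p * v) := by
        rw [mul_assoc, vpi_left hy', ← mul_assoc, vpi_idem_sub hyy]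
      rw [add_mul, mul_add, mul_add, m1, m2, m3, m4, add_zero, zero_add, ← add_mul,
        add_sub_cancel, one_mul]
    have hidem' : star (p * v) * star (p * v) = star (p * v) := by rw [← star_mul, hidem]
    have l3 : (star z * (p * v * star p) + (1 - star z) * p) *
        (star (p * v) * (star z * (star v * (p * v)) + (1 - star z) * v)) = p * v := by
      rw [← mul_assoc, l1, l2]
    refine vsb hidem hidem' l3 l1 (a' := star (star (p * v) *
      (star z * (star v * (p * v)) + (1 - star z) * v)))
      (b' := star (star z * (p * v * star p) + (1 - star z) * p)) ?_ ?_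
    · rw [← star_mul, l3]
    · rw [star_mul (star (p * v)), star_star, mul_assoc, hidem]

end

variable {T A : Type*} [CommRing T] [IsLocalRing T] [Ring A] [Algebra T A] [Module.Finite T A]
  [Module.Free T A] [StarRing A] [StarFix T A] {ν : A →* A}

omit [Module.Finite T A] [Module.Free T A] [StarFix T A] in
theorem vpi_nu (hν : Nu T ν) {η a : A} (hη : Cen η)
    (hi : qm (maximalIdeal T) η * qm (maximalIdeal T) η = qm (maximalIdeal T) η)
    (ha : qm (maximalIdeal T) η * qm (maximalIdeal T) a = qm (maximalIdeal T) η) :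
    qm (maximalIdeal T) η * qm (maximalIdeal T) (ν a) = qm (maximalIdeal T) η := by
  obtain ⟨d, hd⟩ := hν.pow
  have h1 := hν.cong (η * a) η (by rw [map_mul, ha])
  rwa [map_mul, hd η hη, map_mul, map_pow, vpi_pow hi] at h1

/-- Steps (R) and (T): a full idempotent modulo `I` contains a full idempotent that is conjugate
to its adjoint. -/
theorem vpi (h : Avg T A) (hν : Nu T ν) {I : Ideal T} (hI : I ≤ maximalIdeal T) {π : A}
    (hπ : qm I π * qm I π = qm I π)
    (hf : ∀ z : QA A (maximalIdeal T), Cen z → z * z = z → z * qm _ π = 0 → z = 0) :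
    ∃ π1 t : A, qm I π1 * qm I π1 = qm I π1 ∧ qm I π * qm I π1 = qm I π1 ∧
      qm I π1 * qm I π = qm I π1 ∧ IsUnit t ∧ qm I (t * π1) = qm I (star π1 * t) ∧
      Full (qm (maximalIdeal T) π1) := by
  have := h.isSemisimpleRing
  have hπs : qm I (star π) * qm I (star π) = qm I (star π) := by
    rw [qm_star, ← star_mul, hπ]
  have he : qm (maximalIdeal T) π * qm (maximalIdeal T) π = qm (maximalIdeal T) π := by
    rw [← map_mul] at hπ ⊢
    exact qm_mono hI hπ
  have he' : star (qm (maximalIdeal T) π) * star (qm (maximalIdeal T) π) =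
      star (qm (maximalIdeal T) π) := by rw [← star_mul, he]
  obtain ⟨p0, q0, z, hz, hzz, g1, g2⟩ := vgc he he'
  obtain ⟨p0, rfl⟩ := qm_surjective _ p0
  obtain ⟨q0, rfl⟩ := qm_surjective _ q0
  obtain ⟨η, hη, rfl⟩ := h.exists_cen _ hz
  obtain ⟨p, hp⟩ : ∃ p, p = π * p0 * star π := ⟨_, rfl⟩
  obtain ⟨q, hq⟩ : ∃ q, q = star π * q0 * π := ⟨_, rfl⟩
  have hpm : qm (maximalIdeal T) π * qm (maximalIdeal T) p0 * star (qm (maximalIdeal T) π) =
      qm (maximalIdeal T) p := by rw [hp, map_mul, map_mul, qm_star]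
  have hqm : star (qm (maximalIdeal T) π) * qm (maximalIdeal T) q0 * qm (maximalIdeal T) π =
      qm (maximalIdeal T) q := by rw [hq, map_mul, map_mul, qm_star]
  rw [hpm, hqm] at g1 g2
  have n0 := vpi_nu hν (a := q * p + 1 - star π) hη hzz
    (by rw [map_sub, map_add, map_mul, map_one, qm_star, mul_sub, mul_add, g1, mul_one,
      add_sub_cancel_left])
  have n1 := vpi_nu hν (η := 1 - η) (a := p * q + 1 - π) (vpi_one_sub hη)
    (by rw [map_sub, map_one]; exact vpi_idem_sub hzz)
    (by rw [map_sub _ 1, map_one, map_sub, map_add, map_mul, map_one, mul_sub, mul_add, g2,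
      mul_one, add_sub_cancel_left])
  have hDu : IsUnit (η * ν (q * p + 1 - star π) + (1 - η) * ν (p * q + 1 - π)) := by
    apply isUnit_of_qm (T := T)
    rw [map_add, map_mul, map_mul, n0, n1, ← map_add, add_sub_cancel, map_one]
    exact isUnit_one
  have hDc : Cen (η * ν (q * p + 1 - star π) + (1 - η) * ν (p * q + 1 - π)) :=
    vpi_cen_add (vpi_cen_mul hη (hν.cen _)) (vpi_cen_mul (vpi_one_sub hη) (hν.cen _))
  obtain ⟨u, hu⟩ := hDu
  have hDi : Cen (↑u⁻¹ : A) := fun b => by
    rw [Units.inv_mul_eq_iff_eq_mul, ← mul_assoc, hu, hDc b, ← hu, Units.mul_inv_cancel_right]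
  obtain ⟨e0', -, h0'⟩ := hν.adj (q * p + 1 - star π)
  obtain ⟨e1', h1', -⟩ := hν.adj (p * q + 1 - π)
  obtain ⟨v0, hv0⟩ : ∃ v0, v0 = (↑u⁻¹ : A) * (η * (e0' * q) + (1 - η) * (q * e1')) := ⟨_, rfl⟩
  have sI := qm_surjective (A := A) I
  have a1 : qm I π * qm I p = qm I p := by
    rw [hp, map_mul, map_mul, ← mul_assoc, ← mul_assoc, hπ]
  have a2 : qm I p * qm I (star π) = qm I p := by
    rw [hp, map_mul, mul_assoc, hπs]
  have a3 : qm I p * qm I v0 * qm I p = qm I p := by
    have := vpi_reg (q := qm I q) (e0' := qm I e0') (e1' := qm I e1') hπ hπs a1 a2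
      (vpi_cen_map _ sI hη) (vpi_cen_map _ sI (hν.cen (q * p + 1 - star π)))
      (vpi_cen_map _ sI (hν.cen (p * q + 1 - π))) (vpi_cen_map _ sI hDi)
      (by rw [← h0', map_mul, map_sub, map_add, map_mul, map_one])
      (by rw [← h1', map_mul, map_sub, map_add, map_mul, map_one])
      (by
        have := congrArg (qm I) u.inv_mul
        rw [hu, map_mul, map_add, map_mul, map_mul, map_sub (qm I), map_one] at this
        exact this)
    rw [hv0, map_mul, map_add, map_mul, map_mul, map_mul, map_mul, map_sub, map_one]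
    exact this
  obtain ⟨v, hv⟩ : ∃ v, v = star π * v0 * π := ⟨_, rfl⟩
  have a4 : qm I (star π) * qm I v = qm I v := by
    rw [hv, map_mul, map_mul, ← mul_assoc, ← mul_assoc, hπs]
  have a5 : qm I v * qm I π = qm I v := by
    rw [hv, map_mul, mul_assoc, hπ]
  have a6 : qm I p * qm I v * qm I p = qm I p := by
    rw [hv, map_mul, map_mul, ← mul_assoc, ← mul_assoc, a2, mul_assoc, a1, a3]
  have tr : ∀ {a b c : A}, qm I a * qm I b = qm I c →
      qm (maximalIdeal T) a * qm (maximalIdeal T) b = qm (maximalIdeal T) c := by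
    intro a b c hh
    rw [← map_mul] at hh ⊢
    exact qm_mono hI hh
  have b6 : qm (maximalIdeal T) p * qm (maximalIdeal T) v * qm (maximalIdeal T) p =
      qm (maximalIdeal T) p := by
    rw [← map_mul] at a6 ⊢
    exact tr a6
  obtain ⟨hfull, t0, ht0, ht⟩ := vpi_res (e := qm (maximalIdeal T) π) (tr a2) (tr a1) (tr a4)
    (tr a5) b6 hz hzz g1 g2 hf
  obtain ⟨t0, rfl⟩ := qm_surjective _ t0
  have c1 : qm I (p * v) * qm I (p * v) = qm I (p * v) := by
    rw [map_mul, ← mul_assoc, a6]
  have c2 : qm I (star (p * v)) * qm I (star (p * v)) = qm I (star (p * v)) := by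
    rw [qm_star, ← star_mul, c1]
  rw [← map_mul _ p v] at hfull ht
  refine ⟨p * v, star (p * v) * t0 * (p * v) + (1 - star (p * v)) * t0 * (1 - p * v), c1, ?_, ?_,
    ?_, ?_, hfull⟩
  · rw [map_mul, ← mul_assoc, a1]
  · rw [map_mul, mul_assoc, a5]
  · apply isUnit_of_qm (T := T)
    have d1 := tr c1
    rw [map_add, map_mul _ (_ * _), map_mul _ _ t0, map_mul _ (_ * _), map_mul _ _ t0, map_sub,
      map_sub, map_one, qm_star, sub_mul, one_mul, ← ht, mul_assoc, d1, ← mul_one_sub, mul_assoc,
      vpi_idem_sub d1, ← mul_add, add_sub_cancel, mul_one]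
    exact ht0
  · rw [map_mul _ _ (p * v), map_mul _ (star (p * v)), map_add, map_mul _ (_ * _), map_mul _ _ t0,
      map_mul _ (_ * _), map_mul _ _ t0, map_sub, map_sub, map_one, add_mul, mul_add]
    generalize qm I (p * v) = x at c1
    generalize qm I (star (p * v)) = y at c2
    have f1 : (1 - x) * x = 0 := by rw [sub_mul, one_mul, c1, sub_self]
    have f2 : y * (1 - y) = 0 := by rw [mul_sub, mul_one, c2, sub_self]
    rw [mul_assoc _ x x, c1, mul_assoc _ (1 - x), f1, mul_zero, ← mul_assoc y, ← mul_assoc y, c2,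
      ← mul_assoc y, ← mul_assoc y, f2, zero_mul, zero_mul]

end Pool.Agent.SU
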